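import Pool.Agent.P.MP_81d17b_pr.St.Stm

/-! Total mass one for the directed cluster recursion. -/

namespace Pool.Agent.P.MP_81d17b_pr.St

open Finset

variable {V E : Type} [Fintype V] [DecidableEq V] [Fintype E] [DecidableEq E]

namespace A1Aux

/-- The outflow of a block splits along the other blocks and the free vertices. -/
theorem q_split (G : Gr V E) (r θ : E → ℝ) {π : Finset (Finset V)} (h : Valid π) {B : Finset V}
    (hB : B ∈ π) : G.q r θ B =
      ∑ x ∈ (supp π)ᶜ, G.rho r θ B {x} + ∑ D ∈ π.erase B, G.rho r θ B D := by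
  have h1 : Disjoint B (supp (π.erase B)) := by
    simpa [sdiff_singleton_eq_erase] using h.disjoint_sdiff (singleton_subset_iff.2 hB)
  have h2 : supp π = B ∪ supp (π.erase B) := by rw [← supp_insert, insert_erase hB]
  have h3 : Bᶜ = (supp π)ᶜ ∪ supp (π.erase B) := by
    ext x
    have : x ∈ B → x ∉ supp (π.erase B) := fun a => disjoint_left.1 h1 a
    rw [h2]
    simp only [mem_compl, mem_union]
    tauto
  rw [Gr.q, h3, Gr.rho, G.blk_union_right _ _ _
      (disjoint_compl_left.mono_right (supp_mono (erase_subset _ _))),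
    G.blk_supp_right _ _ _ (h.subset (erase_subset _ _)), G.blk_singletons _ _ B (supp π)ᶜ]

theorem phi_supp (o : V) {S : Finset (Finset V)} (h : Valid S) :
    (if o ∈ supp S then (1 : ℝ) else 0) = ∑ X ∈ S, if o ∈ X then 1 else 0 := by
  simpa using h.sum_supp fun x => if o = x then (1 : ℝ) else 0

end A1Aux

open A1Aux in
theorem pf_A1 (G : Gr V E) (hAdjM : S_AdjM V) (hA1a : S_A1a V) (hP1 : S_Pth1 V) (hP2 : S_Pth2 V) :
    S_A1 G := by
  rintro r θ β ⟨o⟩ hβ
  obtain ⟨φ, hφ⟩ : ∃ φ : Finset V → ℝ, φ = fun D => if o ∈ D then 1 else 0 := ⟨_, rfl⟩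
  have key := hAdjM (G.rho r θ) β fun π B => Pth (G.rho r θ) φ π B
  rw [sum_congr rfl (g := fun π => (∏ A ∈ π, β A) *
        (∑ B ∈ π, Pth (G.rho r θ) φ (π.erase B) B * G.q r θ B) +
        if π = {univ} then InA (G.rho r θ) β univ else 0) fun π h => ?_,
    sum_congr rfl (g := fun π => (∏ A ∈ π, β A) *
        (∑ B ∈ π, Pth (G.rho r θ) φ (π.erase B) B * G.q r θ B) +
        if π = ∅ then 1 else 0) (f := fun π => _ * (_ + _)) fun π h => ?_,
    sum_add_distrib, sum_add_distrib, sum_ite_eq', sum_ite_eq',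
    if_pos (mem_states.2 (valid_singleton ⟨o, mem_univ o⟩)), if_pos (mem_states.2 valid_empty)] at key
  · exact add_left_cancel key
  · have hv := mem_states.1 h
    split_ifs with e
    · simp [e, hφ, filter_singleton]
    rw [add_zero]
    congr 1
    rw [sum_congr rfl fun x _ => (hP1 _).1 φ π {x} (nonempty_iff_ne_empty.2 e), sum_comm,
      sum_congr rfl (f := fun S => Cyc _ S * _)
        (g := fun S => ∑ D ∈ S, Cyc (G.rho r θ) S * Pth (G.rho r θ) φ (π \ S) D) fun S hS => ?_,
      hA1a, ← sum_add_distrib]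
    · exact sum_congr rfl fun B hB => by rw [q_split G r θ hv hB, mul_add, mul_sum, mul_sum]
    · have hS' := hv.subset (mem_powerset.1 (mem_filter.1 hS).1)
      rw [hP2.2.2.1 (G.rho r θ) φ (π \ S) S (supp S) (by simpa [hφ] using phi_supp o hS')
        fun D _ => G.blk_supp_right _ _ D hS', mul_sum]
  · have hv := mem_states.1 h
    split_ifs with e
    · simp [e, hφ, G.q_univ]
    rw [add_zero, mul_sum]
    refine sum_congr rfl fun B hB => ?_
    rw [← hβ B (hv.1 B hB) fun a => e ?_, ← mul_prod_erase π β hB]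
    · ring
    · subst a
      refine eq_singleton_iff_unique_mem.2 ⟨hB, fun A hA => ?_⟩
      obtain ⟨x, hx⟩ := hv.1 A hA
      exact hv.unique hA hB hx (mem_univ x)

end Pool.Agent.P.MP_81d17b_pr.St
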