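import Pool.Agent.P.MP_81d17b_pr.St.Stm

/-! A path that ends in a cycle, counted in two ways. -/

namespace Pool.Agent.P.MP_81d17b_pr.St

open Finset

variable {V : Type} [DecidableEq V]

theorem pf_A1a (h : S_Pth1 V) : S_A1a V := by
  intro u φ π
  obtain ⟨h1, h2, h3⟩ := h u
  have hL : ∑ S ∈ π.powerset.filter (fun S => 2 ≤ S.card), ∑ D ∈ S, Cyc u S * Pth u φ (π \ S) D =
      ∑ S ∈ π.powerset, ∑ D ∈ S, ∑ B ∈ S.erase D,
        Pth u φ (π \ S) D * Pth u (u D) ((S.erase D).erase B) B * u B D := by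
    rw [sum_filter]
    refine sum_congr rfl fun S _ => ?_
    split_ifs with hS
    · refine sum_congr rfl fun D hD => ?_
      have hne : (S.erase D).Nonempty := by
        rw [← card_pos, card_erase_of_mem hD]
        omega
      rw [h3 S D hD, h1 _ _ _ hne, sum_mul]
      exact sum_congr rfl fun B _ => by ring
    · refine (sum_eq_zero fun D hD => ?_).symm
      have he : S.erase D = ∅ := by
        rw [← card_eq_zero, card_erase_of_mem hD]
        omega
      rw [he, sum_empty]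
  have hR : ∑ B ∈ π, ∑ D ∈ π.erase B, Pth u φ (π.erase B) B * u B D =
      ∑ B ∈ π, ∑ D ∈ π.erase B, ∑ S1 ∈ ((π.erase B).erase D).powerset,
        Pth u φ S1 D * Pth u (u D) (((π.erase B).erase D) \ S1) B * u B D :=
    sum_congr rfl fun B _ => sum_congr rfl fun D hD => by rw [h2 φ _ B D hD, sum_mul]
  rw [hL, hR]
  simp only [sum_sigma']
  refine sum_nbij' (fun p => ⟨p.2.2, p.2.1, π \ p.1⟩) (fun p => ⟨π \ p.2.2, p.2.1, p.1⟩)
    ?_ ?_ ?_ ?_ ?_
  · rintro ⟨S, D, B⟩ hp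
    simp only [mem_sigma, mem_powerset, mem_erase] at hp ⊢
    obtain ⟨hS, hD, hBD, hB⟩ := hp
    refine ⟨hS hB, ⟨hBD.symm, hS hD⟩, fun X hX => ?_⟩
    obtain ⟨hX1, hX2⟩ := mem_sdiff.1 hX
    exact mem_erase.2 ⟨fun e => hX2 (e ▸ hD), mem_erase.2 ⟨fun e => hX2 (e ▸ hB), hX1⟩⟩
  · rintro ⟨B, D, S1⟩ hp
    simp only [mem_sigma, mem_powerset, mem_erase, mem_sdiff] at hp ⊢
    obtain ⟨hB, ⟨hDB, hD⟩, hS⟩ := hp
    exact ⟨sdiff_subset, ⟨hD, fun e => (mem_erase.1 (hS e)).1 rfl⟩, hDB.symm, hB,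
      fun e => (mem_erase.1 (mem_erase.1 (hS e)).2).1 rfl⟩
  · rintro ⟨S, D, B⟩ hp
    simp only [mem_sigma, mem_powerset] at hp
    simp only [Finset.sdiff_sdiff_eq_self hp.1]
  · rintro ⟨B, D, S1⟩ hp
    simp only [mem_sigma, mem_powerset] at hp
    simp only [Finset.sdiff_sdiff_eq_self
      (hp.2.2.trans ((erase_subset _ _).trans (erase_subset _ _)))]
  · rintro ⟨S, D, B⟩ hp
    simp only [mem_sigma, mem_powerset] at hp
    have e : ((π.erase B).erase D) \ (π \ S) = (S.erase D).erase B := by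
      ext X
      have := @hp.1 X
      simp only [mem_sdiff, mem_erase]
      tauto
    simp only [e]

end Pool.Agent.P.MP_81d17b_pr.St
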