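import Pool.Agent.P.MP_81d17b_pr.St.Stm

/-! Comparison of the symmetric and the tilted cycle sums. -/

namespace Pool.Agent.P.MP_81d17b_pr.St

open Finset

variable {V E : Type} [Fintype V] [DecidableEq V] [Fintype E] [DecidableEq E]

set_option linter.unusedSectionVars false

namespace A2aAux

/-- the geometric mean of the two tilted rates over the rate -/
noncomputable def lam (r θ : E → ℝ) (e : E) : ℝ := √(1 - (θ e / r e) ^ 2)

theorem lam_sq {r θ : E → ℝ} (h : Adm r θ) (e : E) : lam r θ e * lam r θ e = 1 - (θ e / r e) ^ 2 :=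
  Real.mul_self_sqrt (by
    rw [sub_nonneg, sq_le_one_iff_abs_le_one, abs_div, abs_of_pos (h.pos e), div_le_one (h.pos e)]
    exact (h e).le)

theorem lam_nonneg (r θ : E → ℝ) (e : E) : 0 ≤ lam r θ e := Real.sqrt_nonneg _

theorem lam_le (r θ : E → ℝ) (e : E) : lam r θ e ≤ 1 :=
  Real.sqrt_le_one.2 (sub_le_self _ (sq_nonneg _))

theorem sq_le (G : Gr V E) {r θ : E → ℝ} (h : Adm r θ) (X Y : Finset V) :
    G.U (fun e => lam r θ e * r e) X Y ^ 2 ≤ G.rho r θ X Y * G.rho r θ Y X := by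
  have a := h.add_pos
  have b := h.sub_pos
  refine sum_sq_le_sum_mul_sum_of_sq_le_mul _ (fun e _ => ?_) (fun e _ => ?_) fun e _ => ?_
  · have := a e
    have := b e
    positivity
  · have := a e
    have := b e
    positivity
  have c : (lam r θ e * r e) ^ 2 = (r e + θ e) * (r e - θ e) := by
    rw [mul_pow, sq, lam_sq h]
    have := (h.pos e).ne'
    field_simp
    ring
  simp only [and_comm (a := G.s e ∈ Y), and_comm (a := G.t e ∈ Y)]
  split_ifs <;> nlinarith [sq_nonneg (θ e)]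

/-- the product over the edges that leave `A` inside `D` -/
noncomputable def mu (G : Gr V E) (r θ : E → ℝ) (D A : Finset V) : ℝ :=
  ∏ e, if G.Cr A e ∧ G.In D e then lam r θ e else 1

theorem mu_nonneg (G : Gr V E) (r θ : E → ℝ) (D A : Finset V) : 0 ≤ mu G r θ D A :=
  prod_nonneg fun e _ => by
    split_ifs
    exacts [lam_nonneg r θ e, zero_le_one]

theorem mu_le (G : Gr V E) (r θ : E → ℝ) {D A : Finset V} {e : E} (h : G.Cr A e ∧ G.In D e) :
    mu G r θ D A ≤ lam r θ e := by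
  rw [mu, ← mul_prod_erase _ _ (mem_univ e), if_pos h]
  refine mul_le_of_le_one_right (lam_nonneg r θ e) (prod_le_one (fun f _ => ?_) fun f _ => ?_)
  · split_ifs
    exacts [lam_nonneg r θ f, zero_le_one]
  · split_ifs
    exacts [lam_le r θ f, le_rfl]

theorem mu_mul (G : Gr V E) {r θ : E → ℝ} (h : Adm r θ) {D X Y : Finset V} (hX : X ⊆ D)
    (hY : Y ⊆ D) (hd : Disjoint X Y) :
    mu G r θ D X * G.U r X Y ≤ G.U (fun e => lam r θ e * r e) X Y := by
  rw [Gr.U, Gr.blk, mul_sum]
  refine sum_le_sum fun e _ => ?_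
  rw [mul_add]
  refine add_le_add ?_ ?_
  · split_ifs with c
    · exact mul_le_mul_of_nonneg_right (mu_le G r θ
        ⟨.inl ⟨c.1, disjoint_right.1 hd c.2⟩, hX c.1, hY c.2⟩) (h.pos e).le
    · exact (mul_zero _).le
  · split_ifs with c
    · exact mul_le_mul_of_nonneg_right (mu_le G r θ
        ⟨.inr ⟨c.1, disjoint_right.1 hd c.2⟩, hY c.2, hX c.1⟩) (h.pos e).le
    · exact (mul_zero _).le

theorem prod_one {S : Finset (Finset V)} (hS : Valid S) {x : V} (hx : x ∈ supp S) (a : ℝ) :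
    ∏ A ∈ S, (if x ∈ A then a else 1) = a := by
  obtain ⟨A, hA, hx⟩ := mem_supp.1 hx
  rw [prod_eq_single_of_mem A hA fun B hB e => if_neg fun c => e (hS.unique hB hA c hx), if_pos hx]

theorem lam_supp (G : Gr V E) {r θ : E → ℝ} (h : Adm r θ) {S : Finset (Finset V)} (hS : Valid S) :
    G.Lam r θ (supp S) = (∏ A ∈ S, mu G r θ (supp S) A) * ∏ A ∈ S, G.Lam r θ A := by
  simp only [Gr.Lam, mu, prod_filter, ← prod_mul_distrib, ← lam_sq h]
  rw [prod_comm]
  refine prod_congr rfl fun e _ => ?_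
  split_ifs with c
  · symm
    calc _ = ∏ A ∈ S, (if G.s e ∈ A then lam r θ e else 1) * if G.t e ∈ A then lam r θ e else 1 :=
          prod_congr rfl fun A _ => by
            by_cases a : G.s e ∈ A <;> by_cases b : G.t e ∈ A <;>
              simp [Gr.Cr, Gr.In, a, b, c.1, c.2]
      _ = _ := by rw [prod_mul_distrib, prod_one hS c.1, prod_one hS c.2]
  · refine (prod_eq_one fun A hA => ?_).symm
    rw [if_neg fun a => c a.2, if_neg fun a : G.In A e =>
      c ⟨subset_supp hA a.1, subset_supp hA a.2⟩, mul_one]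

end A2aAux

open A2aAux in
theorem pf_A2a (G : Gr V E) (h3 : S_Pth3 V) : S_A2a G := by
  intro r θ h S hS h2
  have g0 : ∀ X Y, 0 ≤ G.U (fun e => lam r θ e * r e) X Y :=
    have := fun e => mul_nonneg (lam_nonneg r θ e) (h.pos e).le
    G.blk_nonneg this this
  have a := h3.2.2.1 (G.U r) (G.U fun e => lam r θ e * r e) (mu G r θ (supp S)) S (G.U_nonneg h)
    (mu_nonneg G r θ _) (fun X hX Y hY e =>
      mu_mul G h (subset_supp hX) (subset_supp hY) (hS.2 X hX Y hY e)) h2
  have b := h3.2.2.2 (G.rho r θ) _ (G.rho_nonneg h) g0 (sq_le G h) S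
  rw [lam_supp G h hS, ← mul_assoc, mul_comm (Cyc _ _)]
  exact mul_le_mul_of_nonneg_right (a.trans b) (prod_nonneg fun A _ => prod_nonneg fun e _ =>
    lam_sq h e ▸ mul_self_nonneg _)

end Pool.Agent.P.MP_81d17b_pr.St
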