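import Pool.Agent.P.MP_81d17b_pr.St.Stm

/-! The two adjoint identities: merging a subfamily of blocks versus splitting one block. -/

namespace Pool.Agent.P.MP_81d17b_pr.St

open Finset

variable {V : Type} [Fintype V] [DecidableEq V]

namespace AdjAux

set_option linter.unusedSectionVars false

theorem disj_supp {π ρ : Finset (Finset V)} (h : Valid π) {B : Finset V} (hB : B ∈ π)
    (hs : supp ρ ⊆ B) : Disjoint (supp ρ) (supp (π.erase B)) := by
  have h1 := h.disjoint_sdiff (S := {B}) (Finset.singleton_subset_iff.2 hB)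
  rw [supp_singleton, Finset.sdiff_singleton_eq_erase] at h1
  exact h1.mono_left hs

theorem disj_fam {π ρ : Finset (Finset V)} (h : Valid π) (hρ : Valid ρ) {B : Finset V}
    (hB : B ∈ π) (hs : supp ρ ⊆ B) : Disjoint (π.erase B) ρ := by
  rw [Finset.disjoint_left]
  intro A hA hA'
  obtain ⟨x, hx⟩ := hρ.1 A hA'
  exact Finset.disjoint_left.1 (disj_supp h hB hs) (subset_supp hA' hx) (subset_supp hA hx)

theorem valid_union {π ρ : Finset (Finset V)} (h : Valid π) (hρ : Valid ρ) {B : Finset V}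
    (hB : B ∈ π) (hs : supp ρ ⊆ B) : Valid (π.erase B ∪ ρ) := by
  have hd := disj_supp h hB hs
  have he : Valid (π.erase B) := h.subset (Finset.erase_subset _ _)
  refine ⟨fun A hA => ?_, fun A hA C hC hne => ?_⟩
  · rcases Finset.mem_union.1 hA with hA | hA
    · exact he.1 A hA
    · exact hρ.1 A hA
  · rcases Finset.mem_union.1 hA with hA | hA <;> rcases Finset.mem_union.1 hC with hC | hC
    · exact he.2 A hA C hC hne
    · exact (hd.mono (subset_supp hC) (subset_supp hA)).symm
    · exact hd.mono (subset_supp hA) (subset_supp hC)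
    · exact hρ.2 A hA C hC hne

theorem union_sdiff {π ρ : Finset (Finset V)} (h : Valid π) (hρ : Valid ρ) {B : Finset V}
    (hB : B ∈ π) (hs : supp ρ ⊆ B) : (π.erase B ∪ ρ) \ ρ = π.erase B := by
  rw [Finset.union_sdiff_right, Finset.sdiff_eq_self_of_disjoint (disj_fam h hρ hB hs)]

theorem mrg_erase {π S : Finset (Finset V)} (h : Valid π) (hS : S ⊆ π) (hne : S.Nonempty) :
    (mrg π S).erase (supp S) = π \ S := by
  rw [mrg, Finset.erase_insert
    (not_mem_of_disjoint_supp ((h.subset hS).supp_nonempty hne) (h.disjoint_sdiff hS))]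

theorem str_erase {π S : Finset (Finset V)} (h : Valid π) (hS : S ⊆ π) {x : V}
    (hx : x ∉ supp π) : (str π x S).erase (insert x (supp S)) = π \ S := by
  rw [str, Finset.erase_insert
    (not_mem_of_disjoint_supp (Finset.insert_nonempty _ _) (h.disjoint_str hS hx))]

end AdjAux

open AdjAux

theorem pf_Adj1 : S_Adj1 V := by
  intro Φ
  rw [Finset.sum_sigma']
  simp_rw [Finset.sum_sigma' (σ := fun _ : Finset V => Finset (Finset V))]
  rw [Finset.sum_sigma']
  refine Finset.sum_nbij'
    (fun p => (⟨mrg p.1 p.2, ⟨supp p.2, p.2⟩⟩ :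
      Σ _ : Finset (Finset V), Σ _ : Finset V, Finset (Finset V)))
    (fun q => (⟨q.1.erase q.2.1 ∪ q.2.2, q.2.2⟩ : Σ _ : Finset (Finset V), Finset (Finset V)))
    ?_ ?_ ?_ ?_ ?_
  · rintro ⟨π, S⟩ hp
    simp only [Finset.mem_sigma, mem_states, Finset.mem_filter, Finset.mem_powerset,
      mem_parts] at hp ⊢
    obtain ⟨h, hS, hne⟩ := hp
    exact ⟨h.mrg hS hne, Finset.mem_insert_self _ _, h.subset hS, trivial⟩
  · rintro ⟨π, B, ρ⟩ hq
    simp only [Finset.mem_sigma, mem_states, Finset.mem_filter, Finset.mem_powerset,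
      mem_parts] at hq ⊢
    obtain ⟨h, hB, hρ, hs⟩ := hq
    refine ⟨valid_union h hρ hB hs.subset, Finset.subset_union_right, ?_⟩
    rw [Finset.nonempty_iff_ne_empty]
    rintro rfl
    rw [supp_empty] at hs
    exact (h.1 B hB).ne_empty hs.symm
  · rintro ⟨π, S⟩ hp
    simp only [Finset.mem_sigma, mem_states, Finset.mem_filter, Finset.mem_powerset] at hp
    obtain ⟨h, hS, hne⟩ := hp
    simp only [mrg_erase h hS hne, Finset.sdiff_union_of_subset hS]
  · rintro ⟨π, B, ρ⟩ hq
    simp only [Finset.mem_sigma, mem_states, mem_parts] at hq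
    obtain ⟨h, hB, hρ, hs⟩ := hq
    simp only [mrg, union_sdiff h hρ hB hs.subset, hs, Finset.insert_erase hB]
  · rintro ⟨π, S⟩ hp
    simp only [Finset.mem_sigma, mem_states, Finset.mem_filter, Finset.mem_powerset] at hp
    obtain ⟨h, hS, hne⟩ := hp
    simp only [mrg_erase h hS hne]

theorem pf_Adj2 : S_Adj2 V := by
  intro Φ
  simp_rw [Finset.sum_sigma' (σ := fun _ : V => Finset (Finset V))]
  simp_rw [Finset.sum_sigma' (σ := fun _ : Finset V => Σ _ : V, Finset (Finset V))]
  rw [Finset.sum_sigma', Finset.sum_sigma']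
  refine Finset.sum_nbij'
    (fun p => (⟨str p.1 p.2.1 p.2.2, ⟨insert p.2.1 (supp p.2.2), ⟨p.2.1, p.2.2⟩⟩⟩ :
      Σ _ : Finset (Finset V), Σ _ : Finset V, Σ _ : V, Finset (Finset V)))
    (fun q => (⟨q.1.erase q.2.1 ∪ q.2.2.2, ⟨q.2.2.1, q.2.2.2⟩⟩ :
      Σ _ : Finset (Finset V), Σ _ : V, Finset (Finset V)))
    ?_ ?_ ?_ ?_ ?_
  · rintro ⟨π, x, S⟩ hp
    simp only [Finset.mem_sigma, mem_states, Finset.mem_compl, Finset.mem_powerset,
      mem_parts] at hp ⊢
    obtain ⟨h, hx, hS⟩ := hp
    refine ⟨h.str hS hx, Finset.mem_insert_self _ _, Finset.mem_insert_self _ _, h.subset hS, ?_⟩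
    rw [Finset.erase_insert fun hm => hx (supp_mono hS hm)]
  · rintro ⟨π, B, x, ρ⟩ hq
    simp only [Finset.mem_sigma, mem_states, Finset.mem_compl, Finset.mem_powerset,
      mem_parts] at hq ⊢
    obtain ⟨h, hB, hx, hρ, hs⟩ := hq
    have hsB : supp ρ ⊆ B := hs.subset.trans (Finset.erase_subset _ _)
    refine ⟨valid_union h hρ hB hsB, ?_, Finset.subset_union_right⟩
    rw [supp_union, Finset.mem_union, hs]
    rintro (hm | hm)
    · have h1 := disj_supp (ρ := {B}) h hB (by rw [supp_singleton])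
      rw [supp_singleton] at h1
      exact Finset.disjoint_left.1 h1 hx hm
    · exact Finset.notMem_erase x B hm
  · rintro ⟨π, x, S⟩ hp
    simp only [Finset.mem_sigma, mem_states, Finset.mem_compl, Finset.mem_powerset] at hp
    obtain ⟨h, hx, hS⟩ := hp
    simp only [str_erase h hS hx, Finset.sdiff_union_of_subset hS]
  · rintro ⟨π, B, x, ρ⟩ hq
    simp only [Finset.mem_sigma, mem_states, mem_parts] at hq
    obtain ⟨h, hB, hx, hρ, hs⟩ := hq
    have hsB : supp ρ ⊆ B := hs.subset.trans (Finset.erase_subset _ _)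
    simp only [str, union_sdiff h hρ hB hsB, hs, Finset.insert_erase hB, Finset.insert_erase hx]
  · rintro ⟨π, x, S⟩ hp
    simp only [Finset.mem_sigma, mem_states, Finset.mem_compl, Finset.mem_powerset] at hp
    obtain ⟨h, hx, hS⟩ := hp
    simp only [str_erase h hS hx]

end Pool.Agent.P.MP_81d17b_pr.St
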