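import Pool.Agent.P.MP_81d17b_pr.St.Stm

/-! Marked-block forms of the two adjoint identities. -/

namespace Pool.Agent.P.MP_81d17b_pr.St

open Finset

set_option linter.unusedSectionVars false

variable {V E : Type} [Fintype V] [DecidableEq V] [Fintype E] [DecidableEq E]

namespace AdjMAux

set_option linter.unusedSectionVars false

/-- Merge form with a condition on the merged family. -/
theorem merge (h1 : S_Adj1 V) (p : Finset (Finset V) → Prop) [DecidablePred p]
    (hp : ∀ S, p S → S.Nonempty) (β : Finset V → ℝ) (c : Finset (Finset V) → ℝ)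
    (g : Finset (Finset V) → Finset V → ℝ) :
    ∑ π ∈ states V, (∏ A ∈ π, β A) * ∑ S ∈ π.powerset.filter p, c S * g (π \ S) (supp S) =
      ∑ π ∈ states V, ∑ B ∈ π, g (π.erase B) B *
        (∑ ρ ∈ (parts B).filter p, c ρ * ∏ A ∈ ρ, β A) * ∏ A ∈ π.erase B, β A := by
  have h := h1 fun π0 S =>
    if p S then c S * g π0 (supp S) * ((∏ A ∈ π0, β A) * ∏ A ∈ S, β A) else 0
  calc _ = ∑ π ∈ states V, ∑ S ∈ π.powerset.filter (fun S => S.Nonempty),
        if p S then c S * g (π \ S) (supp S) * ((∏ A ∈ π \ S, β A) * ∏ A ∈ S, β A) else 0 := by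
        refine Finset.sum_congr rfl fun π _ => ?_
        rw [← Finset.sum_filter, Finset.filter_filter, Finset.mul_sum]
        refine Finset.sum_congr ?_ fun S hS => ?_
        · exact Finset.filter_congr fun S _ => ⟨fun hh => ⟨hp S hh, hh⟩, fun hh => hh.2⟩
        · rw [Finset.prod_sdiff (Finset.mem_powerset.1 (Finset.mem_filter.1 hS).1)]
          ring
    _ = _ := by
        rw [h]
        refine Finset.sum_congr rfl fun π _ => Finset.sum_congr rfl fun B _ => ?_
        rw [← Finset.sum_filter, Finset.mul_sum, Finset.sum_mul]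
        refine Finset.sum_congr rfl fun ρ hρ => ?_
        rw [(mem_parts.1 (Finset.mem_filter.1 hρ).1).2]
        ring

/-- Star form. -/
theorem star (h2 : S_Adj2 V) (β : Finset V → ℝ) (c : V → Finset (Finset V) → ℝ)
    (g : Finset (Finset V) → Finset V → ℝ) :
    ∑ π ∈ states V, (∏ A ∈ π, β A) *
        ∑ x ∈ (supp π)ᶜ, ∑ S ∈ π.powerset, c x S * g (π \ S) (insert x (supp S)) =
      ∑ π ∈ states V, ∑ B ∈ π, g (π.erase B) B *
        (∑ x ∈ B, ∑ ρ ∈ parts (B.erase x), c x ρ * ∏ A ∈ ρ, β A) * ∏ A ∈ π.erase B, β A := by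
  have h := h2 fun π0 x S =>
    c x S * g π0 (insert x (supp S)) * ((∏ A ∈ π0, β A) * ∏ A ∈ S, β A)
  calc _ = ∑ π ∈ states V, ∑ x ∈ (supp π)ᶜ, ∑ S ∈ π.powerset,
        c x S * g (π \ S) (insert x (supp S)) * ((∏ A ∈ π \ S, β A) * ∏ A ∈ S, β A) := by
        refine Finset.sum_congr rfl fun π _ => ?_
        rw [Finset.mul_sum]
        refine Finset.sum_congr rfl fun x _ => ?_
        rw [Finset.mul_sum]
        refine Finset.sum_congr rfl fun S hS => ?_
        rw [Finset.prod_sdiff (Finset.mem_powerset.1 hS)]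
        ring
    _ = _ := by
        rw [h]
        refine Finset.sum_congr rfl fun π _ => Finset.sum_congr rfl fun B _ => ?_
        rw [Finset.mul_sum, Finset.sum_mul]
        refine Finset.sum_congr rfl fun x hx => ?_
        rw [Finset.mul_sum, Finset.sum_mul]
        refine Finset.sum_congr rfl fun ρ hρ => ?_
        rw [(mem_parts.1 hρ).2, Finset.insert_erase hx]
        ring

theorem single (β : Finset V → ℝ) (B : Finset V) :
    (∑ x ∈ B, ∑ ρ ∈ parts (B.erase x), (if ρ = ∅ then (1 : ℝ) else 0) * ∏ A ∈ ρ, β A) =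
      if B.card = 1 then 1 else 0 := by
  have e1 : ∀ x ∈ B, (∑ ρ ∈ parts (B.erase x), (if ρ = ∅ then (1 : ℝ) else 0) * ∏ A ∈ ρ, β A) =
      if B.card = 1 then 1 else 0 := by
    intro x hx
    simp only [ite_mul, one_mul, zero_mul, Finset.sum_ite_eq', Finset.prod_empty, mem_parts,
      supp_empty, valid_empty, true_and]
    have : (∅ = B.erase x) ↔ B.card = 1 := by
      rw [eq_comm, ← Finset.card_eq_zero, Finset.card_erase_of_mem hx]
      have := Finset.card_pos.2 ⟨x, hx⟩
      omega
    simp only [this]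
  rw [Finset.sum_congr rfl e1, Finset.sum_const, nsmul_eq_mul]
  split_ifs with h
  · rw [h]; simp
  · simp

end AdjMAux

open AdjMAux

theorem pf_AdjM (h1 : S_Adj1 V) (h2 : S_Adj2 V) : S_AdjM V := by
  intro u β g
  have ha := star h2 β (fun _ S => if S = ∅ then 1 else 0) g
  have hb := merge h1 (fun S => 2 ≤ S.card) (fun S hS => Finset.card_pos.1 (by omega)) β (Cyc u) g
  simp only [single] at ha
  simp only [mul_add, Finset.sum_add_distrib]
  rw [hb]
  have hc : ∑ π ∈ states V, (∏ A ∈ π, β A) * ∑ x ∈ (supp π)ᶜ, g π {x} =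
      ∑ π ∈ states V, ∑ B ∈ π, g (π.erase B) B * (if B.card = 1 then 1 else 0) *
        ∏ A ∈ π.erase B, β A := by
    rw [← ha]
    refine Finset.sum_congr rfl fun π _ => ?_
    congr 1
    refine Finset.sum_congr rfl fun x _ => ?_
    simp only [ite_mul, one_mul, zero_mul, Finset.sum_ite_eq', Finset.mem_powerset,
      Finset.empty_subset, if_true, Finset.sdiff_empty, supp_empty, insert_empty_eq]
  rw [hc, ← Finset.sum_add_distrib]
  refine Finset.sum_congr rfl fun π _ => ?_
  rw [← Finset.sum_add_distrib]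
  refine Finset.sum_congr rfl fun B _ => ?_
  rw [InA]
  ring

theorem pf_AdjT (G : Gr V E) (h1 : S_Adj1 V) (h2 : S_Adj2 V) : S_AdjT G := by
  intro r β f
  have ha := star h2 β (fun x S => ∏ D ∈ S, G.U r {x} D) (fun π0 B => f (insert B π0))
  have hb := merge h1 (fun S => Odd S.card ∧ 3 ≤ S.card)
    (fun S hS => Finset.card_pos.1 (by omega)) β (Cyc (G.U r)) (fun π0 B => f (insert B π0))
  simp only [mul_add, Finset.sum_add_distrib]
  have ea : ∑ π ∈ states V, (∏ A ∈ π, β A) * G.Sop r f π = _ := ha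
  have eb : ∑ π ∈ states V, (∏ A ∈ π, β A) * Odd3 (G.U r) f π = _ := hb
  rw [ea, eb, ← Finset.sum_add_distrib]
  refine Finset.sum_congr rfl fun π _ => ?_
  rw [← Finset.sum_add_distrib, Finset.mul_sum]
  refine Finset.sum_congr rfl fun B hB => ?_
  simp only [Finset.insert_erase hB, Gr.InT, Finset.prod_mul_distrib]
  ring

end Pool.Agent.P.MP_81d17b_pr.St
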