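import Pool.Agent.P.MP_81d17b_pr.St.Stm

/-! The total weight of the cluster structures is bounded by the tilt factor. -/

namespace Pool.Agent.P.MP_81d17b_pr.St

open Finset

variable {V E : Type} [Fintype V] [DecidableEq V] [Fintype E] [DecidableEq E]

namespace AlgAux

omit [Fintype V] in
theorem Lam_pos (G : Gr V E) {r θ : E → ℝ} (h : Adm r θ) (D : Finset V) : 0 < G.Lam r θ D :=
  prod_pos fun e _ => sub_pos.2 (by
    rw [sq_lt_one_iff_abs_lt_one, abs_div, abs_of_pos (h.pos e), div_lt_one (h.pos e)]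
    exact h e)

omit [Fintype V] [DecidableEq E] in
theorem Lam_one (G : Gr V E) (r θ : E → ℝ) {D : Finset V} (h : D.card = 1) : G.Lam r θ D = 1 := by
  obtain ⟨x, rfl⟩ := card_eq_one.1 h
  exact prod_eq_one fun e he => by
    obtain ⟨h1, h2⟩ := (mem_filter.1 he).2
    exact absurd ((mem_singleton.1 h1).trans (mem_singleton.1 h2).symm) (G.ne e)

omit [DecidableEq E] in
theorem Lam_univ (G : Gr V E) (r θ : E → ℝ) : G.Lam r θ univ = ∏ e, (1 - (θ e / r e) ^ 2) := by
  rw [Gr.Lam, filter_true_of_mem fun e _ => ⟨mem_univ _, mem_univ _⟩]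

theorem InA_le (G : Gr V E) (h5 : S_A2a G) {r θ : E → ℝ} (h : Adm r θ) {β : Finset V → ℝ}
    (hβ : ∀ D, 0 ≤ β D) (D : Finset V) :
    InA (G.U r) (fun A => β A / G.Lam r θ A) D ≤ InA (G.rho r θ) β D / G.Lam r θ D := by
  rw [InA, InA, add_div, sum_div]
  refine add_le_add ?_ (sum_le_sum fun ρ hρ => ?_)
  · split_ifs with h1
    · rw [Lam_one G r θ h1, div_one]
    · rw [zero_div]
  · obtain ⟨h1, h2⟩ := mem_filter.1 hρ
    obtain ⟨h3, rfl⟩ := mem_parts.1 h1
    have h4 := mul_le_mul_of_nonneg_right (h5 r θ h ρ h3 h2) (prod_nonneg fun A (_ : A ∈ ρ) => hβ A)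
    rw [prod_div_distrib, ← mul_div_assoc,
      div_le_div_iff₀ (prod_pos fun A _ => Lam_pos G h A) (Lam_pos G h _)]
    linarith

end AlgAux

open AlgAux in
theorem pf_Alg (G : Gr V E) (h1 : S_R4 G) (h2 : S_Cmp G) (h3 : S_Bd V) (h4 : S_A1 G)
    (h5 : S_A2a G) : S_Alg G := by
  intro r θ h hc hV
  obtain ⟨β, b0, b1⟩ := h3 (G.rho r θ) (G.q r θ) (G.rho_nonneg h) fun D hD hne => G.q_pos h hc hD hne
  refine (h1 r θ h univ).2.trans ((h2 r θ h hc hV _ (fun A => β A / G.Lam r θ A)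
    (fun D => div_nonneg (h1 r θ h D).1 (G.q_nonneg h D))
    (fun D => div_nonneg (b0 D) (Lam_pos G h D).le) (fun D hD hne => ?_) fun D hD hne => ?_).trans
    (mul_le_mul_of_nonneg_left ((InA_le G h5 h b0 univ).trans_eq ?_) (by positivity)))
  · rw [mul_div_cancel₀ _ (G.q_pos h hc hD hne).ne']
    exact (h1 r θ h D).2
  · rw [← mul_div_assoc, b1 D hD hne]
    exact InA_le G h5 h b0 D
  · rw [h4 r θ β hV b1, Lam_univ, one_div, prod_inv_distrib]

end Pool.Agent.P.MP_81d17b_pr.St
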