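import Pool.Agent.P.MP_81d17b_pr.St.Defs

/-! Elementary facts used by all parts. -/

namespace Pool.Agent.P.MP_81d17b_pr.St

open Finset
open scoped symmDiff

set_option linter.unusedSectionVars false

variable {V E : Type} [Fintype V] [DecidableEq V] [Fintype E] [DecidableEq E]

theorem fn_add_self (f : V → ZMod 2) : f + f = 0 := by
  funext z
  simp only [Pi.add_apply, Pi.zero_apply]
  exact CharTwo.add_self_eq_zero _

theorem pt_inj {x y : V} (h : (pt x : V → ZMod 2) = pt y) : x = y := by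
  by_contra hne
  have := congrFun h x
  simp [pt, hne] at this

theorem sum_pt (D : Finset V) (x : V) : ∑ z ∈ D, pt x z = if x ∈ D then 1 else 0 := by
  simp [pt]

theorem sum_ind (D T : Finset V) : ∑ z ∈ D, ind T z = ((T ∩ D).card : ZMod 2) := by
  simp only [ind]
  rw [Finset.sum_boole, Finset.filter_mem_eq_inter, Finset.inter_comm]

namespace Gr
variable (G : Gr V E)

@[simp] theorem bd_empty : G.bd ∅ = 0 := by simp [bd]

theorem bd_singleton (e : E) : G.bd {e} = pt (G.s e) + pt (G.t e) := by simp [bd]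

theorem bd_insert {e : E} {S : Finset E} (h : e ∉ S) :
    G.bd (insert e S) = pt (G.s e) + pt (G.t e) + G.bd S := by
  simp [bd, Finset.sum_insert h]

theorem bd_union {S P : Finset E} (h : Disjoint S P) : G.bd (S ∪ P) = G.bd S + G.bd P := by
  simp [bd, Finset.sum_union h]

theorem bd_sdiff_add_inter (S P : Finset E) : G.bd S = G.bd (S \ P) + G.bd (S ∩ P) := by
  rw [← G.bd_union (Finset.disjoint_sdiff_inter S P), Finset.sdiff_union_inter]

theorem bd_symmDiff (S P : Finset E) : G.bd (S ∆ P) = G.bd S + G.bd P := by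
  have h1 : S ∆ P = (S \ P) ∪ (P \ S) := rfl
  have hd : Disjoint (S \ P) (P \ S) := disjoint_sdiff_sdiff
  rw [h1, G.bd_union hd, G.bd_sdiff_add_inter S P, G.bd_sdiff_add_inter P S, Finset.inter_comm P S]
  have := fn_add_self (G.bd (S ∩ P))
  calc G.bd (S \ P) + G.bd (P \ S) = G.bd (S \ P) + G.bd (P \ S) + (G.bd (S ∩ P) + G.bd (S ∩ P)) := by
        rw [this, add_zero]
    _ = _ := by abel

theorem sum_bd (D : Finset V) (S : Finset E) :
    ∑ z ∈ D, G.bd S z = ((S.filter (G.Cr D)).card : ZMod 2) := by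
  simp only [bd, Finset.sum_apply, Pi.add_apply]
  rw [Finset.sum_comm, ← Finset.sum_boole]
  refine Finset.sum_congr rfl fun e _ => ?_
  rw [Finset.sum_add_distrib, sum_pt, sum_pt]
  by_cases h1 : G.s e ∈ D <;> by_cases h2 : G.t e ∈ D <;> simp [Cr, h1, h2]
  exact CharTwo.add_self_eq_zero _

theorem conn_refl (K : Finset E) (u : V) : G.Conn K u u :=
  ⟨∅, Finset.empty_subset _, by rw [bd_empty, fn_add_self]⟩

variable {G}

theorem Conn.symm {K : Finset E} {u v : V} (h : G.Conn K u v) : G.Conn K v u := by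
  obtain ⟨P, hP, hb⟩ := h
  exact ⟨P, hP, by rw [hb, add_comm]⟩

theorem Conn.trans {K : Finset E} {u v x : V} (h : G.Conn K u v) (h' : G.Conn K v x) :
    G.Conn K u x := by
  obtain ⟨P, hP, hb⟩ := h
  obtain ⟨Q, hQ, hc⟩ := h'
  refine ⟨P ∆ Q, ?_, ?_⟩
  · intro e he
    rcases Finset.mem_symmDiff.1 he with h | h
    · exact hP h.1
    · exact hQ h.1
  · rw [bd_symmDiff, hb, hc]
    calc pt u + pt v + (pt v + pt x) = pt u + pt x + (pt v + pt v) := by abel
      _ = _ := by rw [fn_add_self, add_zero]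

theorem Conn.mono {K K' : Finset E} {u v : V} (h : G.Conn K u v) (hK : K ⊆ K') : G.Conn K' u v := by
  obtain ⟨P, hP, hb⟩ := h
  exact ⟨P, hP.trans hK, hb⟩

theorem conn_edge {K : Finset E} {e : E} (he : e ∈ K) : G.Conn K (G.s e) (G.t e) :=
  ⟨{e}, by simpa using he, G.bd_singleton e⟩

theorem Conn.exists_cr {K : Finset E} {u v : V} {A : Finset V} (h : G.Conn K u v) (hu : u ∈ A)
    (hv : v ∉ A) : ∃ e ∈ K, G.Cr A e := by
  obtain ⟨P, hP, hb⟩ := h
  by_contra hno
  push Not at hno
  have h1 := G.sum_bd A P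
  rw [hb, Finset.filter_false_of_mem (fun e he => hno e (hP he))] at h1
  simp only [Pi.add_apply, Finset.sum_add_distrib, sum_pt, hu, hv] at h1
  simp at h1

end Gr

theorem wt_symmDiff (w : E → ℝ) (S P : Finset E) : wt w (S ∆ P) = wt w S + wt (sgn S w) P := by
  have h1 : S ∆ P = (S \ P) ∪ (P \ S) := rfl
  have hd : Disjoint (S \ P) (P \ S) := disjoint_sdiff_sdiff
  have h2 : wt w S = wt w (S \ P) + wt w (S ∩ P) := by
    unfold wt
    rw [← Finset.sum_union (Finset.disjoint_sdiff_inter S P), Finset.sdiff_union_inter]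
  have h3 : wt (sgn S w) P = wt w (P \ S) - wt w (S ∩ P) := by
    unfold wt
    conv_lhs => rw [← Finset.sdiff_union_inter P S]
    rw [Finset.sum_union (Finset.disjoint_sdiff_inter P S), Finset.inter_comm S P, sub_eq_add_neg,
      ← Finset.sum_neg_distrib]
    congr 1
    · exact Finset.sum_congr rfl fun e he => by simp [sgn, (Finset.mem_sdiff.1 he).2]
    · exact Finset.sum_congr rfl fun e he => by simp [sgn, (Finset.mem_inter.1 he).2]
  rw [h1, h2, h3]
  unfold wt
  rw [Finset.sum_union hd]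
  ring

/-! ### Families of blocks -/

theorem mem_supp {ρ : Finset (Finset V)} {x : V} : x ∈ supp ρ ↔ ∃ A ∈ ρ, x ∈ A := by
  simp [supp]

theorem subset_supp {ρ : Finset (Finset V)} {A : Finset V} (h : A ∈ ρ) : A ⊆ supp ρ :=
  fun _ hx => mem_supp.2 ⟨A, h, hx⟩

theorem supp_mono {ρ ρ' : Finset (Finset V)} (h : ρ ⊆ ρ') : supp ρ ⊆ supp ρ' := fun _ hx => by
  obtain ⟨A, hA, hx⟩ := mem_supp.1 hx
  exact mem_supp.2 ⟨A, h hA, hx⟩

@[simp] theorem supp_empty : supp (∅ : Finset (Finset V)) = ∅ := by simp [supp]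

@[simp] theorem supp_singleton (A : Finset V) : supp {A} = A := by simp [supp]

theorem supp_insert (A : Finset V) (ρ : Finset (Finset V)) : supp (insert A ρ) = A ∪ supp ρ := by
  simp [supp]

theorem supp_union (ρ ρ' : Finset (Finset V)) : supp (ρ ∪ ρ') = supp ρ ∪ supp ρ' := by
  ext x
  simp only [mem_supp, Finset.mem_union]
  constructor
  · rintro ⟨A, hA | hA, hx⟩
    · exact Or.inl ⟨A, hA, hx⟩
    · exact Or.inr ⟨A, hA, hx⟩
  · rintro (⟨A, hA, hx⟩ | ⟨A, hA, hx⟩)
    · exact ⟨A, Or.inl hA, hx⟩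
    · exact ⟨A, Or.inr hA, hx⟩

theorem mem_states {π : Finset (Finset V)} : π ∈ states V ↔ Valid π := by simp [states]

theorem mem_parts {D : Finset V} {ρ : Finset (Finset V)} : ρ ∈ parts D ↔ Valid ρ ∧ supp ρ = D := by
  simp [parts]

theorem valid_empty : Valid (∅ : Finset (Finset V)) := ⟨by simp, by simp⟩

theorem valid_singleton {A : Finset V} (h : A.Nonempty) : Valid {A} := ⟨by simpa using h, by simp⟩

theorem Valid.subset {ρ ρ' : Finset (Finset V)} (h : Valid ρ) (hs : ρ' ⊆ ρ) : Valid ρ' :=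
  ⟨fun A hA => h.1 A (hs hA), fun A hA B hB => h.2 A (hs hA) B (hs hB)⟩

theorem Valid.unique {ρ : Finset (Finset V)} (h : Valid ρ) {A B : Finset V} (hA : A ∈ ρ)
    (hB : B ∈ ρ) {x : V} (hxA : x ∈ A) (hxB : x ∈ B) : A = B := by
  by_contra hne
  exact Finset.disjoint_left.1 (h.2 A hA B hB hne) hxA hxB

theorem Valid.sum_supp {ρ : Finset (Finset V)} (h : Valid ρ) {β : Type*} [AddCommMonoid β]
    (f : V → β) : ∑ x ∈ supp ρ, f x = ∑ A ∈ ρ, ∑ x ∈ A, f x := by
  unfold supp
  rw [Finset.sum_biUnion]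
  · rfl
  · intro A hA B hB hne
    exact h.2 A hA B hB hne

theorem Valid.insert {ρ : Finset (Finset V)} (h : Valid ρ) {A : Finset V} (hA : A.Nonempty)
    (hd : Disjoint A (supp ρ)) : Valid (insert A ρ) := by
  refine ⟨fun B hB => ?_, fun B hB C hC hne => ?_⟩
  · rcases Finset.mem_insert.1 hB with rfl | hB
    · exact hA
    · exact h.1 B hB
  · rcases Finset.mem_insert.1 hB with rfl | hB' <;> rcases Finset.mem_insert.1 hC with rfl | hC'
    · exact absurd rfl hne
    · exact hd.mono_right (subset_supp hC')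
    · exact (hd.mono_right (subset_supp hB')).symm
    · exact h.2 B hB' C hC' hne

theorem not_mem_of_disjoint_supp {ρ : Finset (Finset V)} {A : Finset V} (hA : A.Nonempty)
    (hd : Disjoint A (supp ρ)) : A ∉ ρ := fun hm => by
  obtain ⟨x, hx⟩ := hA
  exact Finset.disjoint_left.1 hd hx (subset_supp hm hx)

theorem Valid.disjoint_sdiff {π S : Finset (Finset V)} (h : Valid π) (hS : S ⊆ π) :
    Disjoint (supp S) (supp (π \ S)) := by
  rw [Finset.disjoint_left]
  intro x hx hx'
  obtain ⟨A, hA, hxA⟩ := mem_supp.1 hx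
  obtain ⟨B, hB, hxB⟩ := mem_supp.1 hx'
  have := h.unique (hS hA) (Finset.mem_sdiff.1 hB).1 hxA hxB
  exact (Finset.mem_sdiff.1 hB).2 (this ▸ hA)

theorem Valid.supp_nonempty {S : Finset (Finset V)} (h : Valid S) (hne : S.Nonempty) :
    (supp S).Nonempty := by
  obtain ⟨A, hA⟩ := hne
  exact (h.1 A hA).mono (subset_supp hA)

theorem supp_union_sdiff {π S : Finset (Finset V)} (hS : S ⊆ π) :
    supp S ∪ supp (π \ S) = supp π := by
  rw [← supp_union, Finset.union_sdiff_of_subset hS]

theorem Valid.mrg {π S : Finset (Finset V)} (h : Valid π) (hS : S ⊆ π) (hne : S.Nonempty) :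
    Valid (mrg π S) :=
  (h.subset Finset.sdiff_subset).insert ((h.subset hS).supp_nonempty hne) (h.disjoint_sdiff hS)

theorem supp_mrg {π S : Finset (Finset V)} (hS : S ⊆ π) : supp (mrg π S) = supp π := by
  rw [mrg, supp_insert, supp_union_sdiff hS]

theorem Valid.card_mrg {π S : Finset (Finset V)} (h : Valid π) (hS : S ⊆ π) (hne : S.Nonempty) :
    (St.mrg π S).card + S.card = π.card + 1 := by
  rw [St.mrg, Finset.card_insert_of_notMem
    (not_mem_of_disjoint_supp ((h.subset hS).supp_nonempty hne) (h.disjoint_sdiff hS)),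
    Finset.card_sdiff_of_subset hS]
  have := Finset.card_le_card hS
  omega

theorem mrg_singleton {π : Finset (Finset V)} {A : Finset V} (hA : A ∈ π) : mrg π {A} = π := by
  rw [mrg, supp_singleton, Finset.sdiff_singleton_eq_erase, Finset.insert_erase hA]

theorem Valid.disjoint_str {π S : Finset (Finset V)} (h : Valid π) (hS : S ⊆ π) {x : V}
    (hx : x ∉ supp π) : Disjoint (Insert.insert x (supp S)) (supp (π \ S)) := by
  rw [Finset.disjoint_insert_left]
  exact ⟨fun hm => hx (supp_mono Finset.sdiff_subset hm), h.disjoint_sdiff hS⟩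

theorem Valid.str {π S : Finset (Finset V)} (h : Valid π) (hS : S ⊆ π) {x : V} (hx : x ∉ supp π) :
    Valid (str π x S) :=
  (h.subset Finset.sdiff_subset).insert (Finset.insert_nonempty _ _) (h.disjoint_str hS hx)

theorem supp_str {π S : Finset (Finset V)} (hS : S ⊆ π) (x : V) :
    supp (str π x S) = insert x (supp π) := by
  rw [str, supp_insert, Finset.insert_union, supp_union_sdiff hS]

theorem Valid.card_str {π S : Finset (Finset V)} (h : Valid π) (hS : S ⊆ π) {x : V}
    (hx : x ∉ supp π) : (St.str π x S).card + S.card = π.card + 1 := by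
  rw [St.str, Finset.card_insert_of_notMem
    (not_mem_of_disjoint_supp (Finset.insert_nonempty _ _) (h.disjoint_str hS hx)),
    Finset.card_sdiff_of_subset hS]
  have := Finset.card_le_card hS
  omega

theorem str_empty (π : Finset (Finset V)) (x : V) : str π x ∅ = insert {x} π := by
  simp [str]

theorem root_mem {ρ : Finset (Finset V)} (h : ρ.Nonempty) : root ρ ∈ ρ := by
  simp only [root, h, dif_pos]
  exact h.choose_spec

/-! ### Path sums and block forms -/

@[simp] theorem Pth_empty (u : Finset V → Finset V → ℝ) (φ : Finset V → ℝ) (B : Finset V) :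
    Pth u φ ∅ B = φ B := rfl

theorem Pth_step (u : Finset V → Finset V → ℝ) (φ : Finset V → ℝ) {S : Finset (Finset V)}
    (hS : S.Nonempty) (B : Finset V) :
    Pth u φ S B = ∑ D ∈ S, φ D * Pth u (u D) (S.erase D) B := by
  obtain ⟨k, hk⟩ : ∃ k, S.card = k + 1 := ⟨S.card - 1, by have := hS.card_pos; omega⟩
  unfold Pth
  rw [hk, pth]
  refine Finset.sum_congr rfl fun D hD => ?_
  rw [Finset.card_erase_of_mem hD, hk]
  rfl

theorem Cyc_singleton (u : Finset V → Finset V → ℝ) (A : Finset V) : Cyc u {A} = u A A := by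
  have : root {A} = A := Finset.mem_singleton.1 (root_mem (Finset.singleton_nonempty A))
  simp [Cyc, this]

namespace Gr
variable (G : Gr V E)

theorem blk_union_left (α β : E → ℝ) {A A' : Finset V} (h : Disjoint A A') (B : Finset V) :
    G.blk α β (A ∪ A') B = G.blk α β A B + G.blk α β A' B := by
  unfold blk
  rw [← Finset.sum_add_distrib]
  refine Finset.sum_congr rfl fun e _ => ?_
  have h1 : G.s e ∈ A → G.s e ∉ A' := fun hh => Finset.disjoint_left.1 h hh
  have h2 : G.t e ∈ A → G.t e ∉ A' := fun hh => Finset.disjoint_left.1 h hh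
  by_cases a1 : G.s e ∈ A <;> by_cases a2 : G.s e ∈ A' <;> by_cases a3 : G.t e ∈ A <;>
    by_cases a4 : G.t e ∈ A' <;> by_cases a5 : G.s e ∈ B <;> by_cases a6 : G.t e ∈ B <;>
    simp_all <;> ring

theorem blk_swap (α β : E → ℝ) (A B : Finset V) : G.blk α β A B = G.blk β α B A := by
  unfold blk
  refine Finset.sum_congr rfl fun e _ => ?_
  rw [add_comm]
  simp only [and_comm]

theorem blk_union_right (α β : E → ℝ) (A : Finset V) {B B' : Finset V} (h : Disjoint B B') :
    G.blk α β A (B ∪ B') = G.blk α β A B + G.blk α β A B' := by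
  rw [G.blk_swap, G.blk_union_left β α h, G.blk_swap β α B, G.blk_swap β α B']

@[simp] theorem blk_empty_left (α β : E → ℝ) (B : Finset V) : G.blk α β ∅ B = 0 := by simp [blk]

@[simp] theorem blk_empty_right (α β : E → ℝ) (A : Finset V) : G.blk α β A ∅ = 0 := by simp [blk]

theorem blk_supp_right (α β : E → ℝ) (A : Finset V) {S : Finset (Finset V)} (h : Valid S) :
    G.blk α β A (supp S) = ∑ D ∈ S, G.blk α β A D := by
  induction S using Finset.induction_on with
  | empty => simp
  | insert D S hD ih =>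
    have hd : Disjoint D (supp S) := by
      rw [Finset.disjoint_left]
      intro x hx hx'
      obtain ⟨B, hB, hxB⟩ := mem_supp.1 hx'
      have := h.unique (Finset.mem_insert_self D S) (Finset.mem_insert_of_mem hB) hx hxB
      exact hD (this ▸ hB)
    rw [supp_insert, G.blk_union_right α β A hd, Finset.sum_insert hD,
      ih (h.subset (Finset.subset_insert D S))]

theorem blk_singletons (α β : E → ℝ) (A B : Finset V) :
    G.blk α β A B = ∑ x ∈ B, G.blk α β A {x} := by
  induction B using Finset.induction_on with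
  | empty => simp
  | insert x B hx ih =>
    rw [Finset.insert_eq, G.blk_union_right α β A (Finset.disjoint_singleton_left.2 hx),
      ← Finset.insert_eq, Finset.sum_insert hx, ih]

theorem blk_nonneg {α β : E → ℝ} (hα : ∀ e, 0 ≤ α e) (hβ : ∀ e, 0 ≤ β e) (A B : Finset V) :
    0 ≤ G.blk α β A B :=
  Finset.sum_nonneg fun e _ => add_nonneg (by split_ifs; exacts [hα e, le_rfl])
    (by split_ifs; exacts [hβ e, le_rfl])

theorem U_symm (W : E → ℝ) (A B : Finset V) : G.U W A B = G.U W B A := G.blk_swap W W A B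

theorem U_add (W W' : E → ℝ) (A B : Finset V) : G.U (W + W') A B = G.U W A B + G.U W' A B := by
  unfold U blk
  rw [← Finset.sum_add_distrib]
  refine Finset.sum_congr rfl fun e _ => ?_
  simp only [Pi.add_apply]
  split_ifs <;> ring

theorem U_smul (a : ℝ) (W : E → ℝ) (A B : Finset V) : G.U (a • W) A B = a * G.U W A B := by
  unfold U blk
  rw [Finset.mul_sum]
  refine Finset.sum_congr rfl fun e _ => ?_
  simp only [Pi.smul_apply, smul_eq_mul]
  split_ifs <;> ring

theorem U_single (e : E) (a : ℝ) (A B : Finset V) :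
    G.U (Pi.single e a) A B =
      (if G.s e ∈ A ∧ G.t e ∈ B then a else 0) + (if G.t e ∈ A ∧ G.s e ∈ B then a else 0) := by
  unfold U blk
  rw [Finset.sum_eq_single e]
  · simp
  · intro f _ hf
    simp [Pi.single_eq_of_ne hf]
  · simp

@[simp] theorem U_zero (A B : Finset V) : G.U 0 A B = 0 := by simp [U, blk]

end Gr

theorem Adm.pos {r θ : E → ℝ} (h : Adm r θ) (e : E) : 0 < r e := (abs_nonneg _).trans_lt (h e)

theorem Adm.add_pos {r θ : E → ℝ} (h : Adm r θ) (e : E) : 0 < r e + θ e := by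
  have := (abs_lt.1 (h e)).1
  linarith

theorem Adm.sub_pos {r θ : E → ℝ} (h : Adm r θ) (e : E) : 0 < r e - θ e := by
  have := (abs_lt.1 (h e)).2
  linarith

namespace Gr
variable (G : Gr V E)

theorem U_nonneg {r θ : E → ℝ} (h : Adm r θ) (A B : Finset V) : 0 ≤ G.U r A B :=
  G.blk_nonneg (fun e => (h.pos e).le) (fun e => (h.pos e).le) A B

theorem rho_nonneg {r θ : E → ℝ} (h : Adm r θ) (A B : Finset V) : 0 ≤ G.rho r θ A B :=
  G.blk_nonneg (fun e => (h.add_pos e).le) (fun e => (h.sub_pos e).le) A B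

theorem q_nonneg {r θ : E → ℝ} (h : Adm r θ) (D : Finset V) : 0 ≤ G.q r θ D := G.rho_nonneg h _ _

theorem q_univ (r θ : E → ℝ) : G.q r θ univ = 0 := by simp [q, rho]

theorem rho_self (r θ : E → ℝ) (D : Finset V) : G.rho r θ D D = G.U r D D := by
  unfold rho U blk
  refine Finset.sum_congr rfl fun e _ => ?_
  by_cases a1 : G.s e ∈ D <;> by_cases a2 : G.t e ∈ D <;> simp [a1, a2]

theorem q_eq_sub (r θ : E → ℝ) (D : Finset V) :
    G.q r θ D = G.rho r θ D univ - G.U r D D := by
  have := G.blk_union_right (fun e => r e + θ e) (fun e => r e - θ e) D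
    (disjoint_compl_right (a := D))
  rw [Finset.union_compl] at this
  rw [← G.rho_self r θ D]
  unfold q rho
  rw [this]
  ring

theorem q_pos_of_cr {r θ : E → ℝ} (h : Adm r θ) {D : Finset V} {e : E} (he : G.Cr D e) :
    0 < G.q r θ D := by
  unfold q rho blk
  refine Finset.sum_pos' (fun f _ => add_nonneg ?_ ?_) ⟨e, Finset.mem_univ _, ?_⟩
  · split_ifs
    exacts [(h.add_pos f).le, le_rfl]
  · split_ifs
    exacts [(h.sub_pos f).le, le_rfl]
  · have h1 := h.add_pos e
    have h2 := h.sub_pos e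
    rcases he with ⟨a, b⟩ | ⟨a, b⟩
    · simp [a, b, h1]
    · simp only [Finset.mem_compl, a, b, not_false_eq_true, and_self, if_true, false_and, if_false]
      linarith

theorem q_pos {r θ : E → ℝ} (h : Adm r θ) (hc : G.Cnd) {D : Finset V} (hD : D.Nonempty)
    (hne : D ≠ univ) : 0 < G.q r θ D := by
  obtain ⟨u, hu⟩ := hD
  obtain ⟨v, hv⟩ : ∃ v, v ∉ D := by
    by_contra hno
    push Not at hno
    exact hne (Finset.eq_univ_of_forall hno)
  obtain ⟨e, _, he⟩ := (hc u v).exists_cr hu hv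
  exact G.q_pos_of_cr h he

theorem q_eq_cut (r θ : E → ℝ) (D : Finset V) :
    G.q r θ D = (∑ e, if G.Cr D e then r e else 0) + ∑ x ∈ D, G.dv θ x := by
  unfold q rho blk dv
  rw [Finset.sum_comm, ← Finset.sum_add_distrib]
  refine Finset.sum_congr rfl fun e _ => ?_
  rw [← Finset.mul_sum, Finset.sum_sub_distrib]
  simp only [Finset.sum_ite_eq]
  by_cases a1 : G.s e ∈ D <;> by_cases a2 : G.t e ∈ D <;> simp [Cr, a1, a2]
  ring

theorem Kop_eq {π : Finset (Finset V)} (h : Valid π) {e : E} {X Y : Finset V} (hX : X ∈ π)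
    (hY : Y ∈ π) (hne : X ≠ Y) (hs : G.s e ∈ X) (ht : G.t e ∈ Y) (f : Finset (Finset V) → ℝ) :
    G.Kop e f π = f (mrg π {X, Y}) := by
  unfold Kop
  rw [Finset.sum_eq_single X, Finset.sum_eq_single Y]
  · simp [hne, hs, ht]
  · intro B hB hB'
    exact if_neg fun hh => hB' (h.unique hB hY hh.2.2 ht)
  · exact fun hh => absurd hY hh
  · intro A hA hA'
    exact Finset.sum_eq_zero fun B _ => if_neg fun hh => hA' (h.unique hA hX hh.2.1 hs)
  · exact fun hh => absurd hX hh

theorem Kop_eq_zero {π : Finset (Finset V)} {e : E}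
    (h : ¬ ∃ X ∈ π, ∃ Y ∈ π, X ≠ Y ∧ G.s e ∈ X ∧ G.t e ∈ Y) (f : Finset (Finset V) → ℝ) :
    G.Kop e f π = 0 :=
  Finset.sum_eq_zero fun X hX => Finset.sum_eq_zero fun Y hY => if_neg fun hh =>
    h ⟨X, hX, Y, hY, hh⟩

theorem sum_dv (θ : E → ℝ) : ∑ x, G.dv θ x = 0 := by
  unfold dv
  rw [Finset.sum_comm]
  refine Finset.sum_eq_zero fun e _ => ?_
  rw [← Finset.mul_sum, Finset.sum_sub_distrib]
  simp

end Gr

end Pool.Agent.P.MP_81d17b_pr.St
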