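import Pool.Agent.P.MP_81d17b_pr.St.Stm

/-! Existence of the solution of the cluster recursion. -/

namespace Pool.Agent.P.MP_81d17b_pr.St

open Finset

variable {V : Type} [Fintype V] [DecidableEq V]

namespace BdAux

theorem card_lt {D A : Finset V} {ρ : Finset (Finset V)} (h : ρ ∈ parts D) (h2 : 2 ≤ ρ.card)
    (hA : A ∈ ρ) : A.Nonempty ∧ A.card < D.card := by
  obtain ⟨h1, rfl⟩ := mem_parts.1 h
  obtain ⟨B, hB, hne⟩ := exists_mem_ne h2 A
  obtain ⟨x, hx⟩ := h1.1 B hB
  exact ⟨h1.1 A hA, card_lt_card ⟨subset_supp hA, fun e =>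
    hne (h1.unique hB hA hx (e (subset_supp hB hx)))⟩⟩

theorem InA_congr (u : Finset V → Finset V → ℝ) {β β' : Finset V → ℝ} {D : Finset V}
    (h : ∀ A : Finset V, A.Nonempty → A.card < D.card → β A = β' A) : InA u β D = InA u β' D := by
  unfold InA
  congr 1
  refine sum_congr rfl fun ρ hρ => congrArg _ (prod_congr rfl fun A hA => ?_)
  obtain ⟨h1, h2⟩ := card_lt (mem_filter.1 hρ).1 (mem_filter.1 hρ).2 hA
  exact h A h1 h2

end BdAux

open BdAux in
theorem pf_Bd (h3 : S_Pth3 V) : S_Bd V := by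
  intro u qq hu hq
  have key : ∀ k : ℕ, ∃ β : Finset V → ℝ, (∀ D, 0 ≤ β D) ∧
      ∀ D : Finset V, D.Nonempty → D ≠ univ → D.card ≤ k → qq D * β D = InA u β D := by
    intro k
    induction k with
    | zero => exact ⟨0, fun _ => le_rfl, fun D h _ e => absurd h.card_pos (by omega)⟩
    | succ k ih =>
      obtain ⟨β, h0, h1⟩ := ih
      refine ⟨fun D => InA u β D / |qq D|, fun D => div_nonneg (add_nonneg (by positivity)
        (sum_nonneg fun ρ _ => mul_nonneg (h3.2.1 u hu ρ) (prod_nonneg fun A _ => h0 A)))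
        (abs_nonneg _), fun D a b c => ?_⟩
      beta_reduce
      rw [abs_of_pos (hq D a b), mul_div_cancel₀ _ (hq D a b).ne']
      refine InA_congr u fun A a' c' => ?_
      have b' : A ≠ univ := fun e => (card_le_univ D).not_gt (by rwa [e] at c')
      rw [← h1 A a' b' (by omega), abs_of_pos (hq A a' b'), mul_div_cancel_left₀ _ (hq A a' b').ne']
  obtain ⟨β, h0, h1⟩ := key (Fintype.card V)
  exact ⟨β, h0, fun D a b => h1 D a b (card_le_univ D)⟩

end Pool.Agent.P.MP_81d17b_pr.St
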