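import Pool.Agent.P.MP_81d17b_pr.St.Stm

/-! Birth levels of components and the invariant along the levels. -/

namespace Pool.Agent.P.MP_81d17b_pr.St

open Finset

variable {V E : Type} [Fintype V] [DecidableEq V] [Fintype E] [DecidableEq E]

namespace BornAux

variable (G : Gr V E) (w : E → ℝ) (J : V → Finset E)

/-- The critical levels. -/
noncomputable def crit : Finset ℝ := univ.image (hh w J) ∪ univ.image (G.yy w J)

omit [DecidableEq V] [DecidableEq E] in
theorem hh_mem (x : V) : hh w J x ∈ crit G w J :=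
  mem_union_left _ (mem_image_of_mem _ (mem_univ x))

omit [DecidableEq V] [DecidableEq E] in
theorem yy_mem (e : E) : G.yy w J e ∈ crit G w J :=
  mem_union_right _ (mem_image_of_mem _ (mem_univ e))

omit [DecidableEq V] [DecidableEq E] in
theorem gap {t t' : ℝ} (h : t < t') (hc : ∀ c ∈ crit G w J, c ≤ t ∨ t' ≤ c) : G.Gap w J t t' :=
  ⟨h, fun x => hc _ (hh_mem G w J x), fun e => hc _ (yy_mem G w J e)⟩

theorem below (C : Finset ℝ) (b : ℝ) (h : (C.filter (· < b)).Nonempty) :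
    ∃ t ∈ C, t < b ∧ ∀ c ∈ C, c ≤ t ∨ b ≤ c := by
  obtain ⟨t, ht, hm⟩ := exists_max_image _ id h
  exact ⟨t, (mem_filter.1 ht).1, (mem_filter.1 ht).2, fun c hc =>
    (lt_or_ge c b).imp_left fun e => hm c (mem_filter.2 ⟨hc, e⟩)⟩

omit [DecidableEq E] in
theorem down {t : ℝ} {D : Finset V} (h : G.Comp w J t D) :
    ∃ c ∈ crit G w J, c ≤ t ∧ G.Comp w J c D := by
  obtain ⟨u, hu, hD⟩ := h
  obtain ⟨c, hc, hm⟩ := exists_max_image ((crit G w J).filter (· ≤ t)) id
    ⟨_, mem_filter.2 ⟨hh_mem G w J u, hu⟩⟩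
  have e : G.Kt w J c = G.Kt w J t := filter_congr fun e _ =>
    ⟨fun a => a.trans (mem_filter.1 hc).2, fun a => hm _ (mem_filter.2 ⟨yy_mem G w J e, a⟩)⟩
  exact ⟨c, (mem_filter.1 hc).1, (mem_filter.1 hc).2, u,
    hm _ (mem_filter.2 ⟨hh_mem G w J u, hu⟩), by rw [e]; exact hD⟩

omit [DecidableEq E] in
theorem born {t : ℝ} {D : Finset V} (h : G.Comp w J t D) : ∃ b, b ≤ t ∧ G.Born w J b D := by
  classical
  obtain ⟨c, hc, h1, h2⟩ := down G w J h
  obtain ⟨b, hb, hm⟩ := exists_min_image ((crit G w J).filter fun c => G.Comp w J c D) id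
    ⟨c, mem_filter.2 ⟨hc, h2⟩⟩
  refine ⟨b, (hm c (mem_filter.2 ⟨hc, h2⟩)).trans h1, (mem_filter.1 hb).2, fun t' ht h' => ?_⟩
  obtain ⟨c', a1, a2, a3⟩ := down G w J h'
  exact absurd ((hm c' (mem_filter.2 ⟨a1, a3⟩)).trans a2) (not_le.2 ht)

omit [Fintype V] [DecidableEq E] in
theorem birth_eq {b : ℝ} {D : Finset V} (h : G.Born w J b D) : G.birth w J D = b := by
  have e : ∃ b, G.Born w J b D := ⟨b, h⟩
  rw [Gr.birth, dif_pos e]
  exact le_antisymm (not_lt.1 fun a => e.choose_spec.2 b a h.1)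
    (not_lt.1 fun a => h.2 _ a e.choose_spec.1)

end BornAux

open BornAux

theorem pf_Born (G : Gr V E) : S_Born G := by
  intro J w
  refine ⟨fun t D h => ?_, fun b D => birth_eq G w J, fun b => ?_, fun t => ?_, fun hc ⟨u⟩ => ?_⟩
  · obtain ⟨b, h1, h2⟩ := born G w J h
    rw [birth_eq G w J h2]
    exact ⟨h2, h1⟩
  · rcases ((crit G w J).filter (· < b)).eq_empty_or_nonempty with h | h
    · exact ⟨b - 1, gap G w J (by linarith) fun c hc =>
        Or.inr (not_lt.1 (filter_eq_empty_iff.1 h hc))⟩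
    · obtain ⟨t, -, h1, h2⟩ := below _ b h
      exact ⟨t, gap G w J h1 h2⟩
  · rcases ((crit G w J).filter (t < ·)).eq_empty_or_nonempty with h | h
    · exact ⟨t + 1, gap G w J (by linarith) fun c hc =>
        Or.inl (not_lt.1 (filter_eq_empty_iff.1 h hc))⟩
    · obtain ⟨t', ht, hm⟩ := exists_min_image _ id h
      exact ⟨t', gap G w J (mem_filter.1 ht).2 fun c hc =>
        (le_or_gt c t).imp_right fun e => hm c (mem_filter.2 ⟨hc, e⟩)⟩
  · obtain ⟨t, -, hm⟩ := exists_max_image (crit G w J) id ⟨_, hh_mem G w J u⟩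
    exact ⟨t, u, hm _ (hh_mem G w J u), fun v => iff_of_true (mem_univ v) ((hc u v).mono fun e _ =>
      mem_filter.2 ⟨mem_univ e, hm _ (yy_mem G w J e)⟩)⟩

theorem pf_Inv (G : Gr V E) (h1 : S_Step G) : S_Inv G := by
  intro T J w hM hw t
  induction hn : ((crit G w J).filter (· < t)).card using Nat.strong_induction_on generalizing t with
  | _ n ih =>
    rcases ((crit G w J).filter (· < t)).eq_empty_or_nonempty with h | h
    · have a1 : ∀ x, max (hh w J x) t = hh w J x := fun x =>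
        max_eq_left (not_lt.1 (filter_eq_empty_iff.1 h (hh_mem G w J x)))
      have a2 : G.res w J t = w := funext fun e => by
        rw [Gr.res, a1, a1, max_eq_left (not_lt.1 (filter_eq_empty_iff.1 h (yy_mem G w J e))),
          Gr.yy]
        ring
      rw [a2, funext a1]
      exact hM
    · obtain ⟨t0, a0, a1, a2⟩ := below _ t h
      refine h1 T J w hM hw t0 t (gap G w J a1 a2) (ih _ ?_ t0 rfl)
      rw [← hn]
      refine card_lt_card ⟨fun c hc => mem_filter.2 ⟨(mem_filter.1 hc).1,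
        (mem_filter.1 hc).2.trans a1⟩, fun hs => ?_⟩
      exact lt_irrefl t0 (mem_filter.1 (hs (mem_filter.2 ⟨a0, a1⟩))).2

end Pool.Agent.P.MP_81d17b_pr.St
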