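import Pool.Agent.P.MP_81d17b_pr.St.Stm

/-! Linear change of variables and genericity of almost every weight vector. -/

namespace Pool.Agent.P.MP_81d17b_pr.St

open Finset MeasureTheory
open scoped ENNReal

variable {E : Type} [Fintype E]

namespace CVAux

theorem ae_notMem (s : Submodule ℝ (E → ℝ)) (hs : s ≠ ⊤) : ∀ᵐ v : E → ℝ, v ∉ s := by
  have h := Measure.addHaar_submodule (volume : Measure (E → ℝ)) s hs
  exact measure_eq_zero_iff_ae_notMem.1 h

/-- The linear form `v ↦ ∑ k e * (v e / r e)`. -/
noncomputable def form (k : E → ℤ) (r : E → ℝ) : (E → ℝ) →ₗ[ℝ] ℝ where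
  toFun v := ∑ e, (k e : ℝ) * (v e / r e)
  map_add' u v := by
    rw [← Finset.sum_add_distrib]
    refine Finset.sum_congr rfl fun e _ => ?_
    simp only [Pi.add_apply]
    ring
  map_smul' c v := by
    simp only [Pi.smul_apply, smul_eq_mul, RingHom.id_apply, Finset.mul_sum]
    refine Finset.sum_congr rfl fun e _ => ?_
    ring

end CVAux

theorem pf_GenAE : S_GenAE E := by
  classical
  intro r hr
  unfold Gen
  rw [ae_all_iff]
  intro k
  by_cases hk : ∀ e, k e = 0
  · exact Filter.Eventually.of_forall fun _ _ => hk
  · have hne : LinearMap.ker (CVAux.form k r) ≠ ⊤ := by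
      intro htop
      apply hk
      intro e
      have hm : (Pi.single e (r e) : E → ℝ) ∈ LinearMap.ker (CVAux.form k r) := by
        rw [htop]; exact Submodule.mem_top
      rw [LinearMap.mem_ker] at hm
      change ∑ f, (k f : ℝ) * ((Pi.single e (r e) : E → ℝ) f / r f) = 0 at hm
      rw [Finset.sum_eq_single e] at hm
      · rw [Pi.single_eq_same, div_self (hr e).ne', mul_one] at hm
        exact_mod_cast hm
      · intro f _ hf
        rw [Pi.single_eq_of_ne hf, zero_div, mul_zero]
      · intro h
        exact absurd (Finset.mem_univ e) h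
    filter_upwards [CVAux.ae_notMem _ hne] with v hv h0
    exact absurd (LinearMap.mem_ker.2 h0) hv

theorem pf_CV [DecidableEq E] : S_CV E := by
  intro A H hH
  by_cases hd : A.det = 0
  · refine ⟨fun _ => 0, measurable_const, by simp, ?_⟩
    have hne : LinearMap.range (Matrix.toLin' A) ≠ ⊤ := by
      intro htop
      have hs : Function.Surjective A.mulVec := by
        intro v
        have hv : v ∈ LinearMap.range (Matrix.toLin' A) := by
          rw [htop]; exact Submodule.mem_top
        obtain ⟨z, hz⟩ := hv
        exact ⟨z, by simpa using hz⟩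
      have hu : IsUnit A := Matrix.mulVec_surjective_iff_isUnit.1 hs
      exact ((Matrix.isUnit_iff_isUnit_det A).1 hu).ne_zero hd
    filter_upwards [CVAux.ae_notMem _ hne] with v hv z hz
    exact absurd ⟨z, by simpa using hz⟩ hv
  · have hu : IsUnit A.det := isUnit_iff_ne_zero.2 hd
    have hdi : (A⁻¹).det ≠ 0 := by
      rw [Matrix.det_nonsing_inv, Ring.inverse_eq_inv']
      exact inv_ne_zero hd
    have hm : Measurable (Matrix.toLin' A⁻¹) :=
      (LinearMap.continuous_of_finiteDimensional _).measurable
    refine ⟨fun v => H (Matrix.toLin' A⁻¹ v), hH.comp hm, ?_, ?_⟩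
    · rw [← lintegral_map hH hm, Real.map_matrix_volume_pi_eq_smul_volume_pi hdi,
        lintegral_smul_measure, Matrix.det_nonsing_inv, Ring.inverse_eq_inv', inv_inv]
      exact le_of_eq rfl
    · refine Filter.Eventually.of_forall fun v z hz => ?_
      have : Matrix.toLin' A⁻¹ v = z := by
        rw [← hz, Matrix.toLin'_apply, Matrix.mulVec_mulVec, Matrix.nonsing_inv_mul A hu,
          Matrix.one_mulVec]
      simp only [this, le_refl]

end Pool.Agent.P.MP_81d17b_pr.St
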