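import Pool.Agent.P.MP_81d17b_pr.St.Stm

/-! The chosen edges of a path, a star and an odd cycle of blocks. -/

namespace Pool.Agent.P.MP_81d17b_pr.St

open Finset

variable {V E : Type} [Fintype V] [DecidableEq V] [Fintype E] [DecidableEq E]

namespace ChanAux

omit [Fintype E] [DecidableEq E]

variable {G : Gr V E} {π : Finset (Finset V)} {X Y X' Y' : Finset V} {e : E}

omit [Fintype V] [DecidableEq V] in
theorem jn_symm (h : G.Jn X Y e) : G.Jn Y X e :=
  h.elim (fun a => Or.inr ⟨a.2, a.1⟩) fun a => Or.inl ⟨a.2, a.1⟩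

theorem jn_two (h : Valid π) (hX : X ∈ π) (hY : Y ∈ π) (hX' : X' ∈ π) (hY' : Y' ∈ π)
    (a : G.Jn X Y e) (b : G.Jn X' Y' e) : (X = X' ∧ Y = Y') ∨ (X = Y' ∧ Y = X') := by
  rcases a with a | a <;> rcases b with b | b
  · exact Or.inl ⟨h.unique hX hX' a.1 b.1, h.unique hY hY' a.2 b.2⟩
  · exact Or.inr ⟨h.unique hX hY' a.1 b.2, h.unique hY hX' a.2 b.1⟩
  · exact Or.inr ⟨h.unique hX hY' a.1 b.2, h.unique hY hX' a.2 b.1⟩
  · exact Or.inl ⟨h.unique hX hX' a.1 b.1, h.unique hY hY' a.2 b.2⟩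

theorem good (h : Valid π) (hX : X ∈ π) (hY : Y ∈ π) (hne : Y ≠ X) (a : G.Jn X Y e) :
    G.Cr X e ∧ G.In (supp π) e ∧ ∀ A ∈ π, ¬ G.In A e := by
  rcases a with a | a
  · exact ⟨Or.inl ⟨a.1, fun b => hne (h.unique hY hX a.2 b)⟩,
      ⟨subset_supp hX a.1, subset_supp hY a.2⟩,
      fun A hA b => hne ((h.unique hY hA a.2 b.2).trans (h.unique hA hX b.1 a.1))⟩
  · exact ⟨Or.inr ⟨a.1, fun b => hne (h.unique hY hX a.2 b)⟩,
      ⟨subset_supp hY a.2, subset_supp hX a.1⟩,
      fun A hA b => hne ((h.unique hY hA a.2 b.1).trans (h.unique hA hX b.2 a.1))⟩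

/-- Injectivity of a map on a set with one more element. -/
theorem inj_insert {α β : Type} [DecidableEq α] {f : α → β} {s : Finset α} {a : α}
    (h : ∀ p ∈ s, ∀ p' ∈ s, f p = f p' → p = p') (ha : ∀ p ∈ s, f p ≠ f a) :
    ∀ p ∈ insert a s, ∀ p' ∈ insert a s, f p = f p' → p = p' := by
  intro p hp p' hp' e
  rcases mem_insert.1 hp with b | b <;> rcases mem_insert.1 hp' with c | c
  · rw [b, c]
  · exact absurd (b ▸ e).symm (ha p' c)
  · exact absurd (c ▸ e) (ha p b)
  · exact h p b p' c e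

end ChanAux

open ChanAux

omit [Fintype E] in
theorem pf_PathCh (G : Gr V E) : S_PathCh G := by
  intro A S B Ch h
  induction h with
  | @nil A B e hj =>
    intro _ hne _ _
    refine ⟨by simp, by simp, by simp, fun p hp => ?_⟩
    rw [mem_singleton.1 hp]
    exact ⟨B, mem_insert_self _ _, hne.symm, hj⟩
  | @cons A D B S e Ch hD hj _ ih =>
    intro hv hne hA hB
    have hsub : insert B (S.erase D) ⊆ insert B S := insert_subset_insert _ (erase_subset _ _)
    have hD' : D ∈ insert A (insert B S) := mem_insert_of_mem (mem_insert_of_mem hD)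
    obtain ⟨h1, h2, h3, h4⟩ := ih
      (hv.subset (insert_subset hD' (hsub.trans (subset_insert _ _))))
      (fun a => hB (a ▸ hD)) (notMem_erase _ _) (fun a => hB (mem_of_mem_erase a))
    rw [insert_erase hD] at h1
    have h5 : ∀ p ∈ Ch, p.1 ∈ S := fun p hp => h1 ▸ mem_image_of_mem _ hp
    refine ⟨by rw [image_insert, h1], inj_insert h2 fun p hp a => hA ?_,
      inj_insert h3 fun p hp a => ?_, fun p hp => ?_⟩
    · exact (show p.1 = A from a) ▸ h5 p hp
    · obtain ⟨Y, hY, -, hY2⟩ := h4 p hp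
      rw [show p.2 = e from a] at hY2
      rcases jn_two hv (mem_insert_self _ _) hD' (mem_insert_of_mem (mem_insert_of_mem (h5 p hp)))
        (mem_insert_of_mem (hsub hY)) hj hY2 with b | b
      · exact hA (b.1 ▸ h5 p hp)
      · rcases mem_insert.1 (hsub hY) with c | c
        exacts [hne (b.1.trans c), hA (b.1 ▸ c)]
    · rcases mem_insert.1 hp with rfl | hp
      · exact ⟨D, mem_insert_of_mem hD, fun a => hA ((show D = A from a) ▸ hD), hj⟩
      · obtain ⟨Y, hY, a⟩ := h4 p hp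
        exact ⟨Y, hsub hY, a⟩

theorem pf_Chan (G : Gr V E) (h : S_PathCh G) : S_Chan G := by
  intro ρ Ch hv
  constructor
  · rintro x hx ⟨h1, h2, h3⟩
    have hd : Disjoint {x} (supp ρ) := disjoint_singleton_left.2 hx
    have hv' := hv.insert (singleton_nonempty x) hd
    have hn := not_mem_of_disjoint_supp (singleton_nonempty x) hd
    have h5 : ∀ p ∈ Ch, p.1 ∈ ρ := fun p hp => h1 ▸ mem_image_of_mem _ hp
    refine ⟨h1, h2, fun p hp p' hp' a => h2 p hp p' hp' ?_, fun p hp => ?_⟩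
    · rcases jn_two hv' (mem_insert_self _ _) (mem_insert_of_mem (h5 p hp)) (mem_insert_self _ _)
        (mem_insert_of_mem (h5 p' hp')) (h3 p hp) (a ▸ h3 p' hp') with b | b
      · exact b.2
      · exact absurd (b.1 ▸ h5 p' hp') hn
    · obtain ⟨a, b, c⟩ := good hv' (mem_insert_of_mem (h5 p hp)) (mem_insert_self _ _)
        (fun a => hn (a ▸ h5 p hp)) (jn_symm (h3 p hp))
      rw [supp_insert, singleton_union] at b
      exact ⟨a, b, fun A hA => c A (mem_insert_of_mem hA)⟩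
  · rintro ⟨D, D', e, e', Ch0, hR, hD, hD', ho, hj, hj', hp, rfl⟩
    generalize root ρ = R at *
    have e1 : insert D' (insert D (((ρ.erase R).erase D).erase D')) = ρ.erase R := by
      rw [insert_comm, insert_erase hD', insert_erase hD]
    have hD2 : D' ∈ ρ.erase R := mem_of_mem_erase hD'
    obtain ⟨h1, h2, h3, h4⟩ := h D _ D' Ch0 hp
      (hv.subset (by rw [insert_comm, e1]; exact erase_subset _ _)) (ne_of_mem_erase hD').symm
      (fun a => notMem_erase _ _ (mem_of_mem_erase a)) (notMem_erase _ _)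
    have h5 : ∀ p ∈ Ch0, p.1 ∈ ρ.erase R ∧ p.1 ≠ D' := fun p hp => by
      have a : p.1 ∈ insert D (((ρ.erase R).erase D).erase D') := h1 ▸ mem_image_of_mem _ hp
      refine ⟨e1 ▸ mem_insert_of_mem a, ?_⟩
      rcases mem_insert.1 a with b | b
      exacts [b ▸ (ne_of_mem_erase hD').symm, ne_of_mem_erase b]
    have h6 : ∀ p ∈ Ch0, ∃ Y ∈ ρ.erase R, Y ≠ p.1 ∧ G.Jn p.1 Y p.2 := fun p hp => by
      obtain ⟨Y, hY, a⟩ := h4 p hp
      exact ⟨Y, e1 ▸ insert_subset_insert _ (subset_insert _ _) hY, a⟩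
    have h7 : ∀ p ∈ Ch0, ∀ Z ∈ ρ, ¬ G.Jn R Z p.2 := fun p hp Z hZ a => by
      obtain ⟨Y, hY, -, b⟩ := h6 p hp
      rcases jn_two hv hR hZ (mem_of_mem_erase (h5 p hp).1) (mem_of_mem_erase hY) a b with c | c
      · exact ne_of_mem_erase (h5 p hp).1 c.1.symm
      · exact ne_of_mem_erase hY c.1.symm
    refine ⟨⟨?_, inj_insert (inj_insert h2 fun p hp => (h5 p hp).2) fun p hp => ?_,
      inj_insert (inj_insert h3 fun p hp a => ?_) fun p hp a => ?_, fun p hp => ?_⟩,
      two_lt_card_iff.2 ⟨R, D, D', hR, mem_of_mem_erase hD, mem_of_mem_erase hD2,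
        (ne_of_mem_erase hD).symm, (ne_of_mem_erase hD2).symm, (ne_of_mem_erase hD').symm⟩⟩
    · rw [image_insert, image_insert, h1, e1, insert_erase hR]
    · rcases mem_insert.1 hp with rfl | hp
      exacts [ne_of_mem_erase hD2, ne_of_mem_erase (h5 p hp).1]
    · exact h7 p hp D' (mem_of_mem_erase hD2) ((show p.2 = e' from a) ▸ jn_symm hj')
    · rcases mem_insert.1 hp with rfl | hp
      · rw [show e' = e from a] at ho
        exact lt_irrefl _ ho
      · exact h7 p hp D (mem_of_mem_erase hD) ((show p.2 = e from a) ▸ hj)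
    · rcases mem_insert.1 hp with rfl | hp
      · exact good hv hR (mem_of_mem_erase hD) (ne_of_mem_erase hD) hj
      rcases mem_insert.1 hp with rfl | hp
      · exact good hv (mem_of_mem_erase hD2) hR (ne_of_mem_erase hD2).symm hj'
      · obtain ⟨Y, hY, a, b⟩ := h6 p hp
        exact good hv (mem_of_mem_erase (h5 p hp).1) (mem_of_mem_erase hY) a b

end Pool.Agent.P.MP_81d17b_pr.St
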