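import Pool.Agent.P.MP_81d17b_pr.St.Stm

/-! Comparison of the two cluster recursions. -/

namespace Pool.Agent.P.MP_81d17b_pr.St

open Finset

variable {V E : Type} [Fintype V] [DecidableEq V] [Fintype E] [DecidableEq E]

namespace CmpAux

theorem mem_st {π : Finset (Finset V)} : π ∈ states V ↔ Valid π := by simp [states]

theorem valid_univ [Nonempty V] : Valid ({univ} : Finset (Finset V)) :=
  ⟨by simp, by simp⟩

theorem bound [Nonempty V] (f : Finset (Finset V) → ℝ) (δ β : Finset V → ℝ)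
    (hf : ∀ π, Valid π → 0 ≤ f π) (hβ : ∀ D, 0 ≤ β D)
    (hδ : ∀ D : Finset V, D.Nonempty → D ≠ univ → 0 ≤ δ D) :
    f {univ} * δ univ ≤ ∑ π ∈ states V, f π * ∑ B ∈ π, δ B * ∏ A ∈ π.erase B, β A := by
  rw [← add_sum_erase _ _ (mem_st.2 valid_univ)]
  simp only [sum_singleton, erase_singleton, prod_empty, mul_one]
  refine le_add_of_nonneg_right (sum_nonneg fun π hπ => ?_)
  have hv := mem_st.1 (mem_of_mem_erase hπ)
  refine mul_nonneg (hf π hv) (sum_nonneg fun B hB => mul_nonneg (hδ B (hv.1 B hB) ?_)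
    (prod_nonneg fun A _ => hβ A))
  rintro rfl
  refine ne_of_mem_erase hπ (eq_singleton_iff_unique_mem.2 ⟨hB, fun A hA => ?_⟩)
  obtain ⟨x, hx⟩ := hv.1 A hA
  exact hv.unique hA hB hx (mem_univ x)

theorem split (G : Gr V E) (r θ : E → ℝ) (f : Finset (Finset V) → ℝ) (I β : Finset V → ℝ) :
    ∑ π ∈ states V, f π * ∑ B ∈ π, (I B - G.q r θ B * β B) * ∏ A ∈ π.erase B, β A =
      (∑ π ∈ states V, f π * ∑ B ∈ π, I B * ∏ A ∈ π.erase B, β A) -
        ∑ π ∈ states V, (∏ A ∈ π, β A) * (G.Qs r θ π * f π) := by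
  rw [← sum_sub_distrib]
  refine sum_congr rfl fun π _ => ?_
  have : ∑ B ∈ π, (I B - G.q r θ B * β B) * ∏ A ∈ π.erase B, β A =
      (∑ B ∈ π, I B * ∏ A ∈ π.erase B, β A) - (∏ A ∈ π, β A) * G.Qs r θ π := by
    rw [Gr.Qs, mul_sum, ← sum_sub_distrib]
    refine sum_congr rfl fun B hB => ?_
    rw [← mul_prod_erase π β hB]; ring
  rw [this]; ring

theorem only_empty (F : Finset (Finset V) → ℝ) (β : Finset V → ℝ)
    (h : ∀ π, Valid π → π ≠ ∅ → F π = 0) :
    ∑ π ∈ states V, (∏ A ∈ π, β A) * F π = F ∅ := by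
  rw [sum_eq_single_of_mem ∅ (mem_st.2 valid_empty) fun π hπ hne => by
    rw [h π (mem_st.1 hπ) hne, mul_zero]]
  simp

end CmpAux

open CmpAux in
theorem pf_Cmp (G : Gr V E) (h1 : S_Inter G) (h2 : S_OmB G) (h3 : S_AdjM V) (h4 : S_AdjT G)
    (h5 : S_Uex G) : S_Cmp G := by
  intro r θ ha hc hne βT βA hT hA bT bA
  obtain ⟨f, f0, f1, f2⟩ := h5 r θ ha hc hne
  obtain ⟨o1, -, o3, o4, o5⟩ := h2 r univ.toList
  have e1 : G.InT r βT univ ≤ G.LT r θ f ∅ := by
    have := bound f (fun B => G.InT r βT B - G.q r θ B * βT B) βT f0 hT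
      fun D h h' => sub_nonneg.2 (bT D h h')
    rw [split, ← h4 r βT f, ← sum_sub_distrib, f1, G.q_univ, zero_mul, sub_zero, one_mul] at this
    rw [← only_empty (G.LT r θ f) βT f2]
    refine this.trans_eq (sum_congr rfl fun π _ => ?_)
    rw [Gr.LT]; ring
  set g : Finset (Finset V) → ℝ := fun π => w2 π * G.Om r univ.toList f π with hg
  have g0 : ∀ π, Valid π → 0 ≤ g π := fun π hπ =>
    mul_nonneg (by unfold w2; positivity) (o4 f (fun e => (ha.pos e).le) f0 π hπ)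
  have g1 : g {univ} = 2 ^ (Fintype.card V - 1) := by
    obtain ⟨n, hn⟩ := Nat.exists_eq_succ_of_ne_zero (Fintype.card_ne_zero (α := V))
    simp only [hg, w2]
    rw [o5 f _ (by simp), f1, supp_singleton, card_univ, card_singleton, hn]
    simp [pow_succ]
  have e2 : ∑ π ∈ states V, (∏ A ∈ π, βA A) * G.LA r θ g π = G.LT r θ f ∅ := by
    rw [only_empty (G.LA r θ g) βA, ← h1 r θ f ∅ valid_empty, o5 _ _ (by simp)]
    · simp [w2]
    · intro π hπ hn
      rw [← h1 r θ f π hπ, o3 _ (fun π' => 0 * f π' + 0 * f π') π hπ, o1]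
      · simp
      · intro π' hπ' e
        rw [f2 π' hπ', zero_mul, add_zero]
        rintro rfl
        exact (hπ.supp_nonempty (nonempty_iff_ne_empty.2 hn)).ne_empty (by rw [← e, supp_empty])
  have e3 := bound g (fun B => G.q r θ B * βA B - InA (G.U r) βA B) βA g0 hA
    fun D h h' => sub_nonneg.2 (bA D h h')
  have e4 : ∑ π ∈ states V, g π * ∑ B ∈ π, InA (G.U r) βA B * ∏ A ∈ π.erase B, βA A =
      ∑ π ∈ states V, (∏ A ∈ π, βA A) * (Bop g π + All2 (G.U r) g π) := by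
    refine Eq.trans (sum_congr rfl fun π _ => ?_) (h3 (G.U r) βA fun π B => g (insert B π))
    rw [mul_sum]
    exact sum_congr rfl fun B hB => by rw [insert_erase hB, mul_assoc (g π)]
  have e5 := split G r θ g (InA (G.U r) βA) βA
  rw [e4, ← sum_sub_distrib] at e5
  have e6 : ∑ π ∈ states V, g π * ∑ B ∈ π, (G.q r θ B * βA B - InA (G.U r) βA B) *
      ∏ A ∈ π.erase B, βA A = -G.LT r θ f ∅ := by
    rw [← e2, show ∑ π ∈ states V, (∏ A ∈ π, βA A) * G.LA r θ g π = _ from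
      (sum_congr rfl fun π _ => by rw [Gr.LA]; ring).trans e5.symm, ← sum_neg_distrib]
    refine sum_congr rfl fun π _ => ?_
    rw [← mul_neg, ← sum_neg_distrib]
    exact congrArg _ (sum_congr rfl fun B _ => by ring)
  rw [e6, g1, G.q_univ, zero_mul] at e3
  linarith

end Pool.Agent.P.MP_81d17b_pr.St
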