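import Pool.Agent.P.MP_81d17b_pr.St.Stm

/-! The components of a level. -/

namespace Pool.Agent.P.MP_81d17b_pr.St

open Finset

variable {V E : Type} [Fintype V] [DecidableEq V] [Fintype E] [DecidableEq E]

theorem pf_Comp (G : Gr V E) (h0 : S_Lev0 G) : S_Comp G := by
  intro T J w hM hw
  have mem : ∀ t e, e ∈ G.Kt w J t ↔ G.yy w J e ≤ t := fun t e => by simp [Gr.Kt]
  have one : ∀ t u v, G.Conn (G.Kt w J t) u v → u ≠ v → hh w J u ≤ t := fun t u v h hne => by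
    obtain ⟨e, he, hc⟩ := h.exists_cr (mem_singleton_self u) fun h' => hne (mem_singleton.1 h').symm
    obtain ⟨h1, h2, -⟩ := h0 T J w hM hw e
    rcases hc with ⟨h3, -⟩ | ⟨h3, -⟩
    · exact mem_singleton.1 h3 ▸ h1.trans ((mem t e).1 he)
    · exact mem_singleton.1 h3 ▸ h2.trans ((mem t e).1 he)
  have two : ∀ t D, G.Comp w J t D → D.Nonempty ∧ (∀ v ∈ D, hh w J v ≤ t) ∧
      (∀ e ∈ G.Kt w J t, ¬ G.Cr D e) ∧ ∀ z ∈ D, ∀ z' ∈ D, G.Conn (G.Kt w J t) z z' := by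
    rintro t D ⟨u, hu, hD⟩
    refine ⟨⟨u, (hD u).2 (G.conn_refl _ u)⟩, fun v hv => ?_, fun e he hc => ?_,
      fun z hz z' hz' => ((hD z).1 hz).symm.trans ((hD z').1 hz')⟩
    · by_cases e : v = u
      · exact e ▸ hu
      · exact one t v u ((hD v).1 hv).symm e
    · rcases hc with ⟨h1, h2⟩ | ⟨h1, h2⟩
      · exact h2 ((hD _).2 (((hD _).1 h1).trans (Gr.conn_edge he)))
      · exact h2 ((hD _).2 (((hD _).1 h1).trans (Gr.conn_edge he).symm))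
  refine ⟨two, fun t v hv => ?_, fun t t' A D v ht hA hD h1 h2 z hz => ?_,
    fun t D A hD hA hne hAD => ?_, fun t u v h hne => ⟨one t u v h hne, one t v u h.symm hne.symm⟩⟩
  · classical
    exact ⟨univ.filter (G.Conn (G.Kt w J t) v), ⟨v, hv, fun z => by simp⟩,
      mem_filter.2 ⟨mem_univ _, G.conn_refl _ v⟩⟩
  · have h3 := ((two t' A hA).2.2.2 v h1 z hz).mono (K' := G.Kt w J t)
      fun e he => (mem t e).2 (((mem t' e).1 he).trans ht)
    obtain ⟨u, -, hu⟩ := hD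
    exact (hu z).2 (((hu v).1 h2).trans h3)
  · obtain ⟨a, ha⟩ := hne
    obtain ⟨z, hz, hz'⟩ := exists_of_ssubset (hA.ssubset_of_ne hAD)
    obtain ⟨-, -, h1, h2⟩ := two t D hD
    obtain ⟨e, he, hc⟩ := (h2 a (hA ha) z hz).exists_cr ha hz'
    refine ⟨e, he, hc, ?_⟩
    rcases hc with ⟨h3, -⟩ | ⟨h3, -⟩
    · exact ⟨hA h3, not_not.1 fun h => h1 e he (Or.inl ⟨hA h3, h⟩)⟩
    · exact ⟨not_not.1 fun h => h1 e he (Or.inr ⟨hA h3, h⟩), hA h3⟩

end Pool.Agent.P.MP_81d17b_pr.St
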