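import Pool.Agent.P.MP_81d17b_pr.St.Stm

/-! The cycle operator for the rates `r`, `-r`, `2 r` and `0`. -/

namespace Pool.Agent.P.MP_81d17b_pr.St

open Finset

variable {V E : Type} [Fintype V] [DecidableEq V] [Fintype E] [DecidableEq E]

namespace CopSplitAux

theorem split {α : Type} [DecidableEq α] (π : Finset α) (F : Finset α → ℝ)
    (p q : Finset α → Prop) [DecidablePred p] [DecidablePred q]
    (h : ∀ S, p S ↔ q S ∨ S.card = 1) (h' : ∀ S, q S → S.card ≠ 1) :
    ∑ S ∈ π.powerset.filter p, F S = ∑ S ∈ π.powerset.filter q, F S + ∑ D ∈ π, F {D} := by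
  have e1 : ∑ D ∈ π, F {D} = ∑ S ∈ π.powerset.filter (fun S => S.card = 1), F S := by
    rw [← powersetCard_eq_filter, powersetCard_one, sum_map]
    rfl
  rw [e1, ← sum_union (disjoint_filter.2 fun S _ hq => h' S hq), ← filter_or]
  exact sum_congr (filter_congr fun S _ => h S) fun _ _ => rfl

theorem cyc_smul (G : Gr V E) (h : S_Pth2 V) (a : ℝ) (r : E → ℝ) {S : Finset (Finset V)}
    (hS : S.Nonempty) : Cyc (G.U (a • r)) S = a ^ S.card * Cyc (G.U r) S := by
  rw [← h.2.2.2.2.1 (G.U r) a S hS]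
  congr 1
  funext X Y
  exact G.U_smul a r X Y

theorem single (u : Finset V → Finset V → ℝ) (f : Finset (Finset V) → ℝ)
    (π : Finset (Finset V)) :
    ∑ D ∈ π, Cyc u {D} * f (mrg π {D}) = (∑ D ∈ π, u D D) * f π := by
  rw [sum_mul]
  exact sum_congr rfl fun D hD => by rw [Cyc_singleton, mrg_singleton hD]

theorem w2_mrg {π S : Finset (Finset V)} (h : Valid π) (hS : S ⊆ π) (hne : S.Nonempty) :
    w2 π * 2 ^ S.card = 2 * w2 (mrg π S) := by
  have e : (2 : ℝ) ^ (mrg π S).card * 2 ^ S.card = 2 ^ π.card * 2 := by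
    rw [← pow_add, h.card_mrg hS hne, pow_succ]
  unfold w2
  rw [supp_mrg hS]
  field_simp
  linear_combination e

end CopSplitAux

open CopSplitAux in
theorem pf_CopSplit (G : Gr V E) (h : S_Pth2 V) : S_CopSplit G := by
  intro r θ f π hπ
  refine ⟨?_, ?_, ?_, ?_⟩
  · have e1 := split π (fun S => Cyc (G.U r) S * f (mrg π S)) (fun S => Odd S.card)
      (fun S => Odd S.card ∧ 3 ≤ S.card)
      (fun S => ⟨fun ⟨m, hm⟩ => by
          by_cases e : m = 0
          · exact Or.inr (by omega)
          · exact Or.inl ⟨⟨m, hm⟩, by omega⟩,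
        fun hh => hh.elim (fun a => a.1) fun a => a ▸ odd_one⟩) fun S hh => by omega
    rw [single] at e1
    unfold Cop Odd3
    rw [← e1, ← sum_sub_distrib, mul_sum, sum_filter, sum_filter]
    refine sum_congr rfl fun S _ => ?_
    by_cases hS : S.Nonempty
    · rw [if_pos hS, ← neg_one_smul ℝ r, cyc_smul G h _ r hS]
      rcases Nat.even_or_odd S.card with e | e
      · rw [if_neg (Nat.not_odd_iff_even.2 e), e.neg_one_pow]
        ring
      · rw [if_pos e, e.neg_one_pow]
        ring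
    · rw [if_neg hS, not_nonempty_iff_eq_empty.1 hS, if_neg (by simp)]
  · have e1 := split π (fun S => Cyc (G.U r) S * (w2 (mrg π S) * f (mrg π S)))
      (fun S => S.Nonempty) (fun S => 2 ≤ S.card)
      (fun S => by rw [← card_pos]; omega) fun S hh => by omega
    rw [single (G.U r) fun π' => w2 π' * f π'] at e1
    unfold Cop All2
    rw [← e1, mul_sum, mul_sum]
    refine sum_congr rfl fun S hS => ?_
    obtain ⟨h1, h2⟩ := mem_filter.1 hS
    rw [← two_smul ℝ r, cyc_smul G h _ r h2]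
    linear_combination Cyc (G.U r) S * f (mrg π S) * w2_mrg hπ (mem_powerset.1 h1) h2
  · unfold Gr.Qs
    rw [sum_congr rfl fun D _ => G.q_eq_sub r θ D, sum_sub_distrib]
    congr 1
    unfold Gr.rho
    rw [G.blk_swap, G.blk_supp_right _ _ _ hπ]
    exact sum_congr rfl fun D _ => G.blk_swap _ _ _ _
  · refine sum_eq_zero fun S hS => ?_
    have h2 := (mem_filter.1 hS).2
    rw [← zero_smul ℝ (0 : E → ℝ), cyc_smul G h _ _ h2, zero_pow h2.card_pos.ne', zero_mul,
      zero_mul]

end Pool.Agent.P.MP_81d17b_pr.St
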