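import Pool.Agent.P.MP_81d17b_pr.St.Stm

/-! The exponential moment bound for positive rates. -/

namespace Pool.Agent.P.MP_81d17b_pr.St

open Finset MeasureTheory
open scoped ENNReal

set_option linter.unusedSectionVars false

variable {V E : Type} [Fintype V] [DecidableEq V] [Fintype E] [DecidableEq E]

namespace CoreAux

/-- The integrand. -/
noncomputable def Fn (G : Gr V E) (r θ : E → ℝ) (T1 : Finset V) (ξ : E → ℝ) : ℝ≥0∞ :=
  ENNReal.ofReal (Real.exp (∑ x, G.dv θ x * G.nu (fun e => ξ e / r e) (ind T1 + pt x)))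

theorem Fn_meas (G : Gr V E) (hN : S_Nu G) (r θ : E → ℝ) (T1 : Finset V) :
    Measurable (Fn G r θ T1) := by
  have h1 : Continuous fun ξ : E → ℝ => fun e => ξ e / r e :=
    continuous_pi fun e => (continuous_apply e).div_const _
  have h2 : Continuous fun ξ : E → ℝ =>
      ∑ x, G.dv θ x * G.nu (fun e => ξ e / r e) (ind T1 + pt x) :=
    continuous_finsetSum _ fun x _ => continuous_const.mul ((hN.2.1 _).comp h1)
  exact ENNReal.measurable_ofReal.comp (Real.continuous_exp.comp h2).measurable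

theorem sum_zero {T1 : Finset V} (hT : Odd T1.card) (x : V) :
    ∑ z, (ind T1 + pt x : V → ZMod 2) z = 0 := by
  simp only [Pi.add_apply, Finset.sum_add_distrib, sum_pt, sum_ind, Finset.inter_univ,
    Finset.mem_univ, if_true]
  obtain ⟨k, hk⟩ := hT
  rw [hk]
  push_cast
  have h2 : (2 : ZMod 2) = 0 := rfl
  rw [h2, zero_mul, zero_add]
  rfl

theorem posPart_eq (G : Gr V E) (hN : S_Nu G) (r θ : E → ℝ) (hc : G.Cnd) {T1 : Finset V}
    (hT : Odd T1.card) (N : Finset E) (v : E → ℝ) :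
    posPart (Fn G r θ T1) N v = G.FT r θ (ind T1 + G.bd N) v * (2 ^ Fintype.card E)⁻¹ := by
  unfold posPart Gr.FT
  split_ifs with hv
  · have h1 : (fun e => sgn N v e / r e) = sgn N fun e => v e / r e := by
      funext e
      unfold sgn
      split_ifs
      · rw [neg_div]
      · rfl
    have h2 : ∑ x, G.dv θ x * G.nu (fun e => sgn N v e / r e) (ind T1 + pt x) =
        ∑ x, G.dv θ x * G.nu (fun e => v e / r e) (ind T1 + G.bd N + pt x) := by
      have h3 : ∀ x, G.dv θ x * G.nu (fun e => sgn N v e / r e) (ind T1 + pt x) =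
          G.dv θ x * G.nu (fun e => v e / r e) (ind T1 + G.bd N + pt x) -
            G.dv θ x * wt (fun e => v e / r e) N := by
        intro x
        rw [h1, hN.2.2.1 _ N _ (hN.2.2.2 _ hc (sum_zero hT x)), add_right_comm, mul_sub]
      rw [Finset.sum_congr rfl fun x _ => h3 x, Finset.sum_sub_distrib, ← Finset.sum_mul,
        G.sum_dv, zero_mul, sub_zero]
    unfold Fn
    rw [h2, ENNReal.ofReal_div_of_pos (by positivity), ENNReal.ofReal_pow (by norm_num),
      ENNReal.ofReal_ofNat, Real.exp_add, ENNReal.ofReal_mul (Real.exp_pos _).le, div_eq_mul_inv]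
    ring
  · rw [zero_mul]

theorem wtc_nonneg (G : Gr V E) {r θ : E → ℝ} (h : Adm r θ) (c : Finset (Finset V × E)) :
    0 ≤ G.wtc r θ c := by
  unfold Gr.wtc
  refine mul_nonneg (abs_nonneg _) (Finset.prod_nonneg fun p _ => ?_)
  exact div_nonneg (h.pos _).le (G.q_nonneg h _)

theorem sum_odd_le (G : Gr V E) {r θ : E → ℝ} (h : Adm r θ) :
    ∑ T ∈ univ.filter (fun T : Finset V => Odd T.card),
        ENNReal.ofReal (∑ ct ∈ (G.strs univ).filter (fun ct => ct.2 = T), G.wtc r θ ct.1) ≤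
      ENNReal.ofReal (G.BT r θ univ) := by
  have h0 : ∀ T : Finset V,
      0 ≤ ∑ ct ∈ (G.strs univ).filter (fun ct => ct.2 = T), G.wtc r θ ct.1 :=
    fun T => Finset.sum_nonneg fun ct _ => wtc_nonneg G h _
  rw [← ENNReal.ofReal_sum_of_nonneg fun T _ => h0 T]
  refine ENNReal.ofReal_le_ofReal ?_
  refine (Finset.sum_le_sum_of_subset_of_nonneg (Finset.filter_subset _ _)
    fun T _ _ => h0 T).trans (le_of_eq ?_)
  unfold Gr.BT
  exact Finset.sum_fiberwise (G.strs univ) (fun ct => ct.2) fun ct => G.wtc r θ ct.1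

end CoreAux

open CoreAux

theorem pf_Core (G : Gr V E) (h4 : S_M4 G) (h5 : S_M5 E) (h6 : S_M6 G) (hN : S_Nu G)
    (hA : S_Alg G) : S_Core G := by
  intro r θ h hc T1 hT
  have hV : Nonempty V := by
    obtain ⟨x, _⟩ := Finset.card_pos.1 hT.pos
    exact ⟨x⟩
  have hE0 : (2 : ℝ≥0∞) ^ Fintype.card E ≠ 0 := pow_ne_zero _ two_ne_zero
  have hEt : (2 : ℝ≥0∞) ^ Fintype.card E ≠ ∞ := ENNReal.pow_ne_top ENNReal.ofNat_ne_top
  have hV0 : (2 : ℝ≥0∞) ^ (Fintype.card V - 1) ≠ 0 := pow_ne_zero _ two_ne_zero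
  have hVt : (2 : ℝ≥0∞) ^ (Fintype.card V - 1) ≠ ∞ := ENNReal.pow_ne_top ENNReal.ofNat_ne_top
  set Φ : (V → ZMod 2) → ℝ≥0∞ := fun B => ∫⁻ v, G.FT r θ B v with hΦ
  set P : ℝ := ∏ e, (1 - (θ e / r e) ^ 2)⁻¹ with hP
  have a1 := h5 _ (Fn_meas G hN r θ T1)
  have a2 : ∑ N : Finset E, ∫⁻ v, posPart (Fn G r θ T1) N v =
      (∑ N : Finset E, Φ (ind T1 + G.bd N)) * (2 ^ Fintype.card E)⁻¹ := by
    rw [Finset.sum_mul]
    refine Finset.sum_congr rfl fun N _ => ?_
    simp only [posPart_eq G hN r θ hc hT N]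
    exact lintegral_mul_const' _ _ (ENNReal.inv_ne_top.2 hE0)
  have a3 : ∑ T ∈ univ.filter (fun T : Finset V => Odd T.card), Φ (ind T) ≤
      2 ^ (Fintype.card V - 1) * ENNReal.ofReal P := by
    refine (Finset.sum_le_sum fun T hT' => h4 r θ h hc T (Finset.mem_filter.1 hT').2).trans ?_
    refine (sum_odd_le G h).trans ((ENNReal.ofReal_le_ofReal (hA r θ h hc hV)).trans (le_of_eq ?_))
    rw [ENNReal.ofReal_mul (by positivity), ENNReal.ofReal_pow (by norm_num), ENNReal.ofReal_ofNat]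
  have a4 : ∑ N : Finset E, Φ (ind T1 + G.bd N) ≤ 2 ^ Fintype.card E * ENNReal.ofReal P := by
    have a5 := (h6 hc T1 hT Φ).trans (mul_le_mul_right a3 _)
    rw [mul_left_comm] at a5
    exact (ENNReal.mul_le_mul_iff_right hV0 hVt).1 a5
  refine a1.trans ?_
  rw [a2]
  refine (mul_le_mul_left a4 _).trans (le_of_eq ?_)
  rw [mul_right_comm, ENNReal.mul_inv_cancel hE0 hEt, one_mul]

end Pool.Agent.P.MP_81d17b_pr.St
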