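import Pool.Agent.P.MP_81d17b_pr.St.Stm

/-! Passing to the limit of vanishing weights. -/

namespace Pool.Agent.P.MP_81d17b_pr.St

open Finset MeasureTheory Filter
open scoped ENNReal Topology

variable {V E : Type} [Fintype V] [DecidableEq V] [Fintype E] [DecidableEq E]

theorem pf_Core0 (G : Gr V E) (h1 : S_Core G) (h2 : S_Nu G) : S_Core0 G := by
  intro c θ hc hθ hG T hT
  have hF : Continuous fun w : E → ℝ =>
      ENNReal.ofReal (Real.exp (∑ x, G.dv θ x * G.nu w (ind T + pt x))) :=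
    ENNReal.continuous_ofReal.comp (Real.continuous_exp.comp
      (continuous_finsetSum _ fun x _ => continuous_const.mul (h2.2.1 _)))
  have ht : ∀ e, Tendsto (fun k : ℕ => c e + 1 / ((k : ℝ) + 1)) atTop (𝓝 (c e)) := fun e => by
    simpa using tendsto_one_div_add_atTop_nhds_zero_nat.const_add (c e)
  have hp : ∀ e (k : ℕ), 0 < c e + 1 / ((k : ℝ) + 1) := fun e k =>
    add_pos_of_nonneg_of_pos (hc e) (by positivity)
  have hP : Tendsto
      (fun k : ℕ => ENNReal.ofReal (∏ e, (1 - ((c e + 1 / ((k : ℝ) + 1)) * θ e) ^ 2)⁻¹)) atTop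
      (𝓝 (ENNReal.ofReal (∏ e, (1 - (c e * θ e) ^ 2)⁻¹))) := by
    refine ENNReal.tendsto_ofReal (tendsto_finsetProd _ fun e _ =>
      ((((ht e).mul_const _).pow 2).const_sub 1).inv₀ (sub_pos.2 ?_).ne')
    rw [sq_lt_one_iff_abs_lt_one, abs_mul, abs_of_nonneg (hc e)]
    exact hθ e
  have hL := lintegral_liminf_le (μ := Measure.pi fun _ : E => laplace) (u := atTop)
    (f := fun (k : ℕ) (ξ : E → ℝ) => ENNReal.ofReal (Real.exp (∑ x, G.dv θ x *
      G.nu (fun e => (c e + 1 / ((k : ℝ) + 1)) * ξ e) (ind T + pt x)))) fun k =>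
    (hF.comp (continuous_pi fun e => continuous_const.mul (continuous_apply e))).measurable
  rw [← hP.liminf_eq]
  refine (lintegral_congr fun ξ => ?_).trans_le (hL.trans (liminf_le_liminf ?_))
  · exact ((hF.tendsto _).comp (tendsto_pi_nhds.2 fun e => (ht e).mul_const (ξ e))).liminf_eq.symm
  · filter_upwards [eventually_all.2 fun e => ((ht e).mul_const |θ e|).eventually_lt_const (hθ e)]
      with k hk
    have := h1 (fun e => (c e + 1 / ((k : ℝ) + 1))⁻¹) θ (fun e =>
      ((lt_div_iff₀' (hp e k)).2 (hk e)).trans_eq (one_div _)) hG T hT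
    simpa only [div_inv_eq_mul, mul_comm] using this

end Pool.Agent.P.MP_81d17b_pr.St
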