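import Pool.Agent.P.MP_81d17b_pr.St.Stm

/-! Cycle sums when two blocks are merged or one weight is changed. -/

namespace Pool.Agent.P.MP_81d17b_pr.St

open Finset

set_option linter.unusedSectionVars false

variable {V E : Type} [Fintype V] [DecidableEq V] [Fintype E] [DecidableEq E]

namespace CycWAux

theorem cyc_insert (h1 : S_Pth1 V) (u : Finset V → Finset V → ℝ) {S : Finset (Finset V)}
    {X : Finset V} (hX : X ∉ S) : Cyc u (insert X S) = Pth u (u X) S X := by
  rw [(h1 u).2.2 _ X (mem_insert_self X S), erase_insert hX]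

theorem pth_end (h1 : S_Pth1 V) (G : Gr V E) (W : E → ℝ) (A : Finset V) (S : Finset (Finset V))
    {X Y : Finset V} (h : Disjoint X Y) : Pth (G.U W) (G.U W A) S (X ∪ Y) =
      Pth (G.U W) (G.U W A) S X + Pth (G.U W) (G.U W A) S Y := by
  rcases S.eq_empty_or_nonempty with rfl | hS
  · exact G.blk_union_right W W A h
  · rw [(h1 _).1 _ _ _ hS, (h1 _).1 _ _ X hS, (h1 _).1 _ _ Y hS, ← sum_add_distrib]
    refine sum_congr rfl fun D _ => ?_
    rw [← mul_add, Gr.U, G.blk_union_right W W D h]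

theorem pth_zero {u : Finset V → Finset V → ℝ} {φ : Finset V → ℝ} {S : Finset (Finset V)}
    (hS : S.Nonempty) (h : ∀ D ∈ S, φ D = 0) (B : Finset V) : Pth u φ S B = 0 := by
  rw [Pth_step u φ hS]
  exact sum_eq_zero fun D hD => by rw [h D hD, zero_mul]

theorem shift (h2 : S_Pth2 V) (G : Gr V E) (W : E → ℝ) (e : E) (a : ℝ) {S : Finset (Finset V)}
    (hS : ∀ D ∈ S, G.s e ∉ D ∧ G.t e ∉ D) (A B : Finset V) :
    Pth (G.U (W + Pi.single e a)) (G.U (W + Pi.single e a) A) S B =
      Pth (G.U W) (G.U W A) S B + if S = ∅ then G.U (Pi.single e a) A B else 0 := by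
  split_ifs with h
  · subst h
    exact G.U_add _ _ A B
  · rw [add_zero]
    have k1 : ∀ D ∈ S, ∀ C, G.U (W + Pi.single e a) D C = G.U W D C := fun D hD C => by
      rw [G.U_add, G.U_single]
      simp [hS D hD]
    exact h2.1 _ _ _ _ S B B (fun D hD => by rw [G.U_symm, k1 D hD, G.U_symm])
      (fun h' => (h h').elim) (fun D hD D' _ _ => k1 D hD D') fun D hD => k1 D hD B

theorem two (h1 : S_Pth1 V) (u : Finset V → Finset V → ℝ) {S : Finset (Finset V)}
    {X Y : Finset V} (hXY : X ≠ Y) (hX : X ∉ S) (hY : Y ∉ S) :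
    Cyc u (insert X (insert Y S)) =
      ∑ S1 ∈ S.powerset, Pth u (u X) S1 Y * Pth u (u Y) (S \ S1) X := by
  rw [cyc_insert h1 u (by simp [hXY, hX]), (h1 u).2.1 _ _ _ Y (mem_insert_self Y S),
    erase_insert hY]

end CycWAux

open CycWAux in
theorem pf_CycW (G : Gr V E) (h1 : S_Pth1 V) (h2 : S_Pth2 V) : S_CycW G := by
  refine ⟨fun W S X Y hd hX hY hZ => ?_, fun W e a S X Y hv hXY hX hY hs ht => ?_,
    fun W e a S hv hS hn => ?_⟩
  · have e : G.U W (X ∪ Y) = fun D => G.U W X D + G.U W Y D :=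
      funext fun D => G.blk_union_left W W hd D
    rw [cyc_insert h1 _ hZ, cyc_insert h1 _ hX, cyc_insert h1 _ hY, e, h2.2.1, pth_end h1 G W X S hd,
      pth_end h1 G W Y S hd]
    ring
  · have mX : X ∈ insert X (insert Y S) := mem_insert_self _ _
    have mY : Y ∈ insert X (insert Y S) := mem_insert_of_mem (mem_insert_self _ _)
    have hS : ∀ D ∈ S, G.s e ∉ D ∧ G.t e ∉ D := fun D hD =>
      have mD : D ∈ insert X (insert Y S) := mem_insert_of_mem (mem_insert_of_mem hD)
      ⟨fun h => hX (hv.unique mD mX h hs ▸ hD), fun h => hY (hv.unique mD mY h ht ▸ hD)⟩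
    have n1 : G.t e ∉ X := fun h => hXY (hv.unique mX mY h ht)
    have a1 : G.U (Pi.single e a) X Y = a := by rw [G.U_single]; simp [hs, ht, n1]
    have a2 : G.U (Pi.single e a) Y X = a := by rw [G.U_symm, a1]
    have z : ∀ S' A B, Pth (G.U (0 : E → ℝ)) (G.U 0 A) S' B = 0 := fun S' A B => by
      rcases S'.eq_empty_or_nonempty with rfl | h
      · simp
      · exact pth_zero h (fun _ _ => G.U_zero _ _) B
    have key : ∀ W' : E → ℝ, Cyc (G.U (W' + Pi.single e a)) (insert X (insert Y S)) =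
        ∑ S1 ∈ S.powerset, (Pth (G.U W') (G.U W' X) S1 Y + if S1 = ∅ then a else 0) *
          (Pth (G.U W') (G.U W' Y) (S \ S1) X + if S1 = S then a else 0) := fun W' => by
      rw [two h1 _ hXY hX hY]
      refine sum_congr rfl fun S1 hS1 => ?_
      have hs1 := mem_powerset.1 hS1
      rw [shift h2 G W' e a fun D hD => hS D (hs1 hD),
        shift h2 G W' e a fun D hD => hS D (sdiff_subset hD), a1, a2]
      congr 2
      exact if_congr (sdiff_eq_empty_iff_subset.trans
        ⟨fun h => Subset.antisymm hs1 h, fun h => h.ge⟩) rfl rfl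
    have k0 := key 0
    rw [zero_add] at k0
    rw [key W, k0, two h1 _ hXY hX hY, ← sum_sub_distrib]
    simp only [z, zero_add]
    have e1 : ∑ S1 ∈ S.powerset, (if S1 = ∅ then a else 0) * Pth (G.U W) (G.U W Y) (S \ S1) X =
        a * Pth (G.U W) (G.U W Y) S X := by simp [ite_mul]
    have e2 : ∑ S1 ∈ S.powerset, (if S1 = S then a else 0) * Pth (G.U W) (G.U W X) S1 Y =
        a * Pth (G.U W) (G.U W X) S Y := by simp [ite_mul]
    rw [mul_add a, ← e1, ← e2, ← sum_add_distrib, ← sum_add_distrib]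
    exact sum_congr rfl fun _ _ => by ring
  · obtain ⟨R, hR⟩ := hS
    have k0 : ∀ A ∈ S, ∀ B ∈ S, A ≠ B → G.U (Pi.single e a) A B = 0 := fun A hA B hB hAB => by
      rw [G.U_single, if_neg fun h => hn ⟨A, hA, B, hB, hAB, h⟩,
        if_neg fun h => hn ⟨B, hB, A, hA, hAB.symm, h.2, h.1⟩, add_zero]
    have k1 : ∀ A ∈ S, ∀ B ∈ S, A ≠ B → G.U (W + Pi.single e a) A B = G.U W A B :=
      fun A hA B hB hAB => by rw [G.U_add, k0 A hA B hB hAB, add_zero]
    rw [(h1 _).2.2 S R hR, (h1 _).2.2 S R hR, (h1 _).2.2 S R hR]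
    rcases (S.erase R).eq_empty_or_nonempty with h | h
    · rw [h, Pth_empty, Pth_empty, Pth_empty, G.U_add, add_sub_cancel_right]
    · rw [pth_zero (u := G.U (Pi.single e a)) h fun D hD =>
        k0 R hR D (mem_of_mem_erase hD) (ne_of_mem_erase hD).symm, sub_zero]
      exact h2.1 _ _ _ _ _ R R
        (fun D hD => k1 R hR D (mem_of_mem_erase hD) (ne_of_mem_erase hD).symm)
        (fun h' => (h.ne_empty h').elim)
        (fun D hD D' hD' => k1 D (mem_of_mem_erase hD) D' (mem_of_mem_erase hD'))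
        fun D hD => k1 D (mem_of_mem_erase hD) R hR (ne_of_mem_erase hD)

end Pool.Agent.P.MP_81d17b_pr.St
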