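import Pool.Agent.P.MP_81d17b_pr.St.Model

/-! Internal definitions for the stiffness bound (T-joins, cluster structures, operators). -/

namespace Pool.Agent.P.MP_81d17b_pr.St

open Finset MeasureTheory

/-- A loopless multigraph with oriented edges. -/
structure Gr (V E : Type) where
  s : E → V
  t : E → V
  ne : ∀ e, s e ≠ t e

section
variable {V E : Type} [Fintype V] [DecidableEq V] [Fintype E] [DecidableEq E]

/-! ### Joins -/

def pt (x : V) : V → ZMod 2 := fun z => if z = x then 1 else 0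

def ind (T : Finset V) : V → ZMod 2 := fun z => if z ∈ T then 1 else 0

def wt (w : E → ℝ) (S : Finset E) : ℝ := ∑ e ∈ S, w e

def Gr.bd (G : Gr V E) (S : Finset E) : V → ZMod 2 := ∑ e ∈ S, (pt (G.s e) + pt (G.t e))

def Gr.Cr (G : Gr V E) (D : Finset V) (e : E) : Prop :=
  (G.s e ∈ D ∧ G.t e ∉ D) ∨ (G.t e ∈ D ∧ G.s e ∉ D)

def Gr.In (G : Gr V E) (D : Finset V) (e : E) : Prop := G.s e ∈ D ∧ G.t e ∈ D

def Gr.Jn (G : Gr V E) (A B : Finset V) (e : E) : Prop :=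
  (G.s e ∈ A ∧ G.t e ∈ B) ∨ (G.t e ∈ A ∧ G.s e ∈ B)

instance Gr.decCr (G : Gr V E) (D : Finset V) : DecidablePred (G.Cr D) := fun e =>
  inferInstanceAs (Decidable ((G.s e ∈ D ∧ G.t e ∉ D) ∨ (G.t e ∈ D ∧ G.s e ∉ D)))

instance Gr.decIn (G : Gr V E) (D : Finset V) : DecidablePred (G.In D) := fun e =>
  inferInstanceAs (Decidable (G.s e ∈ D ∧ G.t e ∈ D))

instance Gr.decJn (G : Gr V E) (A B : Finset V) : DecidablePred (G.Jn A B) := fun e =>
  inferInstanceAs (Decidable ((G.s e ∈ A ∧ G.t e ∈ B) ∨ (G.t e ∈ A ∧ G.s e ∈ B)))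

def Gr.Conn (G : Gr V E) (K : Finset E) (u v : V) : Prop := ∃ P, P ⊆ K ∧ G.bd P = pt u + pt v

def Gr.Cnd (G : Gr V E) : Prop := ∀ u v, G.Conn univ u v

/-- All pairs `(x', J x')` minimise `wt w S - η x` among `(T + x)`-joins `S`. -/
def Gr.Opt (G : Gr V E) (T : Finset V) (J : V → Finset E) (w : E → ℝ) (η : V → ℝ) : Prop :=
  (∀ x, G.bd (J x) = ind T + pt x) ∧
    ∀ x x' S, G.bd S = ind T + pt x → wt w (J x') - η x' ≤ wt w S - η x

def hh (w : E → ℝ) (J : V → Finset E) (x : V) : ℝ := wt w (J x)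

def Gr.MinFam (G : Gr V E) (T : Finset V) (J : V → Finset E) (w : E → ℝ) : Prop :=
  G.Opt T J w (hh w J)

noncomputable def Gr.yy (G : Gr V E) (w : E → ℝ) (J : V → Finset E) (e : E) : ℝ :=
  (hh w J (G.s e) + hh w J (G.t e) + w e) / 2

noncomputable def Gr.Kt (G : Gr V E) (w : E → ℝ) (J : V → Finset E) (t : ℝ) : Finset E :=
  univ.filter fun e => G.yy w J e ≤ t

noncomputable def Gr.res (G : Gr V E) (w : E → ℝ) (J : V → Finset E) (t : ℝ) (e : E) : ℝ :=
  2 * max (G.yy w J e) t - max (hh w J (G.s e)) t - max (hh w J (G.t e)) t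

def Gr.Comp (G : Gr V E) (w : E → ℝ) (J : V → Finset E) (t : ℝ) (D : Finset V) : Prop :=
  ∃ u, hh w J u ≤ t ∧ ∀ v, v ∈ D ↔ G.Conn (G.Kt w J t) u v

def Gr.Gap (G : Gr V E) (w : E → ℝ) (J : V → Finset E) (t t' : ℝ) : Prop :=
  t < t' ∧ (∀ x, hh w J x ≤ t ∨ t' ≤ hh w J x) ∧ ∀ e, G.yy w J e ≤ t ∨ t' ≤ G.yy w J e

def Gr.Born (G : Gr V E) (w : E → ℝ) (J : V → Finset E) (b : ℝ) (D : Finset V) : Prop :=
  G.Comp w J b D ∧ ∀ t, t < b → ¬ G.Comp w J t D

open Classical in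
noncomputable def Gr.birth (G : Gr V E) (w : E → ℝ) (J : V → Finset E) (D : Finset V) : ℝ :=
  if h : ∃ b, G.Born w J b D then h.choose else 0

open Classical in
noncomputable def Gr.kids (G : Gr V E) (w : E → ℝ) (J : V → Finset E) (t : ℝ) (D : Finset V) :
    Finset (Finset V) :=
  univ.filter fun A => G.Comp w J t A ∧ A ⊆ D

omit [DecidableEq E] in
theorem Gr.mem_kids (G : Gr V E) (w : E → ℝ) (J : V → Finset E) (t : ℝ) (D A : Finset V) :
    A ∈ G.kids w J t D ↔ G.Comp w J t A ∧ A ⊆ D := by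
  simp [Gr.kids]

/-- No integer relation among the weights. -/
def Gen (w : E → ℝ) : Prop := ∀ k : E → ℤ, ∑ e, (k e : ℝ) * w e = 0 → ∀ e, k e = 0

def Gr.vec (G : Gr V E) (J : V → Finset E) (e f : E) : ℕ :=
  (if f ∈ J (G.s e) then 1 else 0) + (if f ∈ J (G.t e) then 1 else 0) + if f = e then 1 else 0

noncomputable def Gr.nu (G : Gr V E) (w : E → ℝ) (B : V → ZMod 2) : ℝ :=
  ⨅ S : {S : Finset E // G.bd S = B}, wt w S.1

def sgn (N : Finset E) (w : E → ℝ) : E → ℝ := fun e => if e ∈ N then -w e else w e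

/-! ### Families of blocks -/

def Valid (ρ : Finset (Finset V)) : Prop :=
  (∀ A ∈ ρ, A.Nonempty) ∧ ∀ A ∈ ρ, ∀ B ∈ ρ, A ≠ B → Disjoint A B

instance decValid : DecidablePred (Valid (V := V)) := fun ρ =>
  inferInstanceAs (Decidable ((∀ A ∈ ρ, A.Nonempty) ∧ ∀ A ∈ ρ, ∀ B ∈ ρ, A ≠ B → Disjoint A B))

def supp (ρ : Finset (Finset V)) : Finset V := ρ.biUnion id

def states (V : Type) [Fintype V] [DecidableEq V] : Finset (Finset (Finset V)) := univ.filter Valid

def parts (D : Finset V) : Finset (Finset (Finset V)) :=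
  univ.filter fun ρ => Valid ρ ∧ supp ρ = D

noncomputable def root (ρ : Finset (Finset V)) : Finset V := if h : ρ.Nonempty then h.choose else ∅

def mrg (π S : Finset (Finset V)) : Finset (Finset V) := insert (supp S) (π \ S)

def str (π : Finset (Finset V)) (x : V) (S : Finset (Finset V)) : Finset (Finset V) :=
  insert (insert x (supp S)) (π \ S)

/-! ### Path and cycle sums -/

def pth (u : Finset V → Finset V → ℝ) : ℕ → (Finset V → ℝ) → Finset (Finset V) → Finset V → ℝ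
  | 0, φ, _, B => φ B
  | n + 1, φ, S, B => ∑ D ∈ S, φ D * pth u n (u D) (S.erase D) B

/-- Sum over the orderings `D1, ..., Dk` of `S` of `φ D1 * u D1 D2 * ... * u Dk B`. -/
def Pth (u : Finset V → Finset V → ℝ) (φ : Finset V → ℝ) (S : Finset (Finset V)) (B : Finset V) :
    ℝ := pth u S.card φ S B

/-- Sum over the directed cyclic orderings of `S`. -/
noncomputable def Cyc (u : Finset V → Finset V → ℝ) (S : Finset (Finset V)) : ℝ :=
  Pth u (u (root S)) (S.erase (root S)) (root S)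

def Gr.blk (G : Gr V E) (α β : E → ℝ) (A B : Finset V) : ℝ :=
  ∑ e, ((if G.s e ∈ A ∧ G.t e ∈ B then α e else 0) + (if G.t e ∈ A ∧ G.s e ∈ B then β e else 0))

def Gr.U (G : Gr V E) (W : E → ℝ) : Finset V → Finset V → ℝ := G.blk W W

def Gr.rho (G : Gr V E) (r θ : E → ℝ) : Finset V → Finset V → ℝ :=
  G.blk (fun e => r e + θ e) (fun e => r e - θ e)

def Gr.q (G : Gr V E) (r θ : E → ℝ) (D : Finset V) : ℝ := G.rho r θ D Dᶜ

def Gr.dv (G : Gr V E) (θ : E → ℝ) (x : V) : ℝ :=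
  ∑ e, θ e * ((if G.s e = x then 1 else 0) - (if G.t e = x then 1 else 0))

noncomputable def Gr.Lam (G : Gr V E) (r θ : E → ℝ) (D : Finset V) : ℝ :=
  ∏ e ∈ univ.filter (G.In D), (1 - (θ e / r e) ^ 2)

/-- Admissible rates and tilt. -/
def Adm (r θ : E → ℝ) : Prop := ∀ e, |θ e| < r e

/-! ### Operators on functions of states -/

noncomputable def Cop (u : Finset V → Finset V → ℝ) (f : Finset (Finset V) → ℝ)
    (π : Finset (Finset V)) : ℝ :=
  ∑ S ∈ π.powerset.filter (fun S => S.Nonempty), Cyc u S * f (mrg π S)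

noncomputable def Odd3 (u : Finset V → Finset V → ℝ) (f : Finset (Finset V) → ℝ)
    (π : Finset (Finset V)) : ℝ :=
  ∑ S ∈ π.powerset.filter (fun S => Odd S.card ∧ 3 ≤ S.card), Cyc u S * f (mrg π S)

noncomputable def All2 (u : Finset V → Finset V → ℝ) (f : Finset (Finset V) → ℝ)
    (π : Finset (Finset V)) : ℝ :=
  ∑ S ∈ π.powerset.filter (fun S => 2 ≤ S.card), Cyc u S * f (mrg π S)

def Gr.Kop (G : Gr V E) (e : E) (f : Finset (Finset V) → ℝ) (π : Finset (Finset V)) : ℝ :=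
  ∑ X ∈ π, ∑ Y ∈ π, if X ≠ Y ∧ G.s e ∈ X ∧ G.t e ∈ Y then f (mrg π {X, Y}) else 0

def Gr.Om (G : Gr V E) (r : E → ℝ) :
    List E → (Finset (Finset V) → ℝ) → Finset (Finset V) → ℝ
  | [], f => f
  | e :: l, f => fun π => G.Om r l f π + r e * G.Kop e (G.Om r l f) π

def Gr.Sx (G : Gr V E) (W : E → ℝ) (x : V) (f : Finset (Finset V) → ℝ) (π : Finset (Finset V)) :
    ℝ := ∑ S ∈ π.powerset, (∏ D ∈ S, G.U W {x} D) * f (str π x S)

def Gr.Sop (G : Gr V E) (W : E → ℝ) (f : Finset (Finset V) → ℝ) (π : Finset (Finset V)) : ℝ :=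
  ∑ x ∈ (supp π)ᶜ, G.Sx W x f π

def Bop (f : Finset (Finset V) → ℝ) (π : Finset (Finset V)) : ℝ :=
  ∑ x ∈ (supp π)ᶜ, f (insert {x} π)

def Gr.Qs (G : Gr V E) (r θ : E → ℝ) (π : Finset (Finset V)) : ℝ := ∑ D ∈ π, G.q r θ D

noncomputable def w2 (π : Finset (Finset V)) : ℝ := 2 ^ (supp π).card / 2 ^ π.card

noncomputable def Gr.LT (G : Gr V E) (r θ : E → ℝ) (f : Finset (Finset V) → ℝ)
    (π : Finset (Finset V)) : ℝ :=
  G.Sop r f π + Odd3 (G.U r) f π - G.Qs r θ π * f π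

noncomputable def Gr.LA (G : Gr V E) (r θ : E → ℝ) (f : Finset (Finset V) → ℝ)
    (π : Finset (Finset V)) : ℝ :=
  Bop f π + All2 (G.U r) f π - G.Qs r θ π * f π

noncomputable def Gr.InT (G : Gr V E) (r : E → ℝ) (β : Finset V → ℝ) (D : Finset V) : ℝ :=
  (∑ x ∈ D, ∑ ρ ∈ parts (D.erase x), ∏ A ∈ ρ, (G.U r {x} A * β A)) +
    ∑ ρ ∈ (parts D).filter (fun ρ => Odd ρ.card ∧ 3 ≤ ρ.card), Cyc (G.U r) ρ * ∏ A ∈ ρ, β A

noncomputable def InA (u : Finset V → Finset V → ℝ) (β : Finset V → ℝ) (D : Finset V) : ℝ :=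
  (if D.card = 1 then 1 else 0) +
    ∑ ρ ∈ (parts D).filter (fun ρ => 2 ≤ ρ.card), Cyc u ρ * ∏ A ∈ ρ, β A

/-! ### Cluster structures -/

def Gr.IsStarCh (G : Gr V E) (x : V) (ρ : Finset (Finset V)) (Ch : Finset (Finset V × E)) : Prop :=
  Ch.image Prod.fst = ρ ∧ (∀ p ∈ Ch, ∀ p' ∈ Ch, p.1 = p'.1 → p = p') ∧
    ∀ p ∈ Ch, G.Jn {x} p.1 p.2

/-- `IsPath A S B Ch`: each block of `insert A S` points along an edge to the next block of a path
from `A` through all of `S` to `B`. -/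
inductive Gr.IsPath (G : Gr V E) :
    Finset V → Finset (Finset V) → Finset V → Finset (Finset V × E) → Prop
  | nil {A B : Finset V} {e : E} : G.Jn A B e → Gr.IsPath G A ∅ B {(A, e)}
  | cons {A D B : Finset V} {S : Finset (Finset V)} {e : E} {Ch : Finset (Finset V × E)} :
      D ∈ S → G.Jn A D e → Gr.IsPath G D (S.erase D) B Ch → Gr.IsPath G A S B (insert (A, e) Ch)

noncomputable def ord (e : E) : ℕ := (Fintype.equivFin E e : ℕ)

def Gr.IsBloCh (G : Gr V E) (ρ : Finset (Finset V)) (Ch : Finset (Finset V × E)) : Prop :=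
  ∃ (D D' : Finset V) (e e' : E) (Ch0 : Finset (Finset V × E)),
    root ρ ∈ ρ ∧ D ∈ ρ.erase (root ρ) ∧ D' ∈ (ρ.erase (root ρ)).erase D ∧ ord e < ord e' ∧
    G.Jn (root ρ) D e ∧ G.Jn D' (root ρ) e' ∧
    G.IsPath D (((ρ.erase (root ρ)).erase D).erase D') D' Ch0 ∧
    Ch = insert (root ρ, e) (insert (D', e') Ch0)

def Gr.GoodCh (G : Gr V E) (ρ : Finset (Finset V)) (D : Finset V) (Ch : Finset (Finset V × E)) :
    Prop :=
  Ch.image Prod.fst = ρ ∧ (∀ p ∈ Ch, ∀ p' ∈ Ch, p.1 = p'.1 → p = p') ∧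
    (∀ p ∈ Ch, ∀ p' ∈ Ch, p.2 = p'.2 → p = p') ∧
    ∀ p ∈ Ch, G.Cr p.1 p.2 ∧ G.In D p.2 ∧ ∀ A ∈ ρ, ¬ G.In A p.2

/-- `IsStr D c T`: `c` lists the proper clusters inside `D`, each with its chosen edge, and `T` is
the odd set inside `D`. -/
inductive Gr.IsStr (G : Gr V E) : Finset V → Finset (Finset V × E) → Finset V → Prop
  | star {D : Finset V} {c : Finset (Finset V × E)} {T : Finset V} (x : V)
      (ρ : Finset (Finset V)) (Ch : Finset (Finset V × E))
      (sub : Finset V → Finset (Finset V × E)) (tt : Finset V → Finset V) :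
      Valid ρ → x ∉ supp ρ → G.IsStarCh x ρ Ch → (∀ A, A ∈ ρ → Gr.IsStr G A (sub A) (tt A)) →
      D = insert x (supp ρ) → c = Ch ∪ ρ.biUnion sub →
      T = (if Even ρ.card then {x} else ∅) ∪ ρ.biUnion tt → Gr.IsStr G D c T
  | blo {D : Finset V} {c : Finset (Finset V × E)} {T : Finset V}
      (ρ : Finset (Finset V)) (Ch : Finset (Finset V × E))
      (sub : Finset V → Finset (Finset V × E)) (tt : Finset V → Finset V) :
      Valid ρ → Odd ρ.card → G.IsBloCh ρ Ch → (∀ A, A ∈ ρ → Gr.IsStr G A (sub A) (tt A)) →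
      D = supp ρ → c = Ch ∪ ρ.biUnion sub → T = ρ.biUnion tt → Gr.IsStr G D c T

def Gr.Mx (G : Gr V E) (c : Finset (Finset V × E)) : Matrix E E ℝ := fun e f =>
  if f ∈ c.image Prod.snd then ∑ p ∈ c.filter (fun p => p.2 = f), (if G.Cr p.1 e then 1 else 0)
  else if e = f then 1 else 0

noncomputable def Gr.wtc (G : Gr V E) (r θ : E → ℝ) (c : Finset (Finset V × E)) : ℝ :=
  |(G.Mx c).det| * ∏ p ∈ c, r p.2 / G.q r θ p.1

open Classical in
noncomputable def Gr.strs (G : Gr V E) (D : Finset V) :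
    Finset (Finset (Finset V × E) × Finset V) :=
  univ.filter fun ct => G.IsStr D ct.1 ct.2

theorem Gr.mem_strs (G : Gr V E) (D : Finset V) (ct : Finset (Finset V × E) × Finset V) :
    ct ∈ G.strs D ↔ G.IsStr D ct.1 ct.2 := by
  simp [Gr.strs]

open Classical in
noncomputable def Gr.starChs (G : Gr V E) (x : V) (ρ : Finset (Finset V)) :
    Finset (Finset (Finset V × E)) := univ.filter (G.IsStarCh x ρ)

theorem Gr.mem_starChs (G : Gr V E) (x : V) (ρ : Finset (Finset V)) (Ch : Finset (Finset V × E)) :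
    Ch ∈ G.starChs x ρ ↔ G.IsStarCh x ρ Ch := by
  simp [Gr.starChs]

open Classical in
noncomputable def Gr.pathChs (G : Gr V E) (A : Finset V) (S : Finset (Finset V)) (B : Finset V) :
    Finset (Finset (Finset V × E)) := univ.filter (G.IsPath A S B)

theorem Gr.mem_pathChs (G : Gr V E) (A : Finset V) (S : Finset (Finset V)) (B : Finset V)
    (Ch : Finset (Finset V × E)) : Ch ∈ G.pathChs A S B ↔ G.IsPath A S B Ch := by
  simp [Gr.pathChs]

open Classical in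
noncomputable def Gr.bloChs (G : Gr V E) (ρ : Finset (Finset V)) :
    Finset (Finset (Finset V × E)) := univ.filter (G.IsBloCh ρ)

theorem Gr.mem_bloChs (G : Gr V E) (ρ : Finset (Finset V)) (Ch : Finset (Finset V × E)) :
    Ch ∈ G.bloChs ρ ↔ G.IsBloCh ρ Ch := by
  simp [Gr.bloChs]

noncomputable def Gr.BT (G : Gr V E) (r θ : E → ℝ) (D : Finset V) : ℝ :=
  ∑ ct ∈ G.strs D, G.wtc r θ ct.1

noncomputable def Gr.len (G : Gr V E) (w : E → ℝ) (J : V → Finset E) (p : Finset V × E) : ℝ :=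
  G.yy w J p.2 - G.birth w J p.1

def Gr.rate (G : Gr V E) (r θ : E → ℝ) (c : Finset (Finset V × E)) (f : E) : ℝ :=
  if f ∈ c.image Prod.snd then ∑ p ∈ c.filter (fun p => p.2 = f), G.q r θ p.1 else r f

end

/-! ### The plaquette graph of the box -/

def dual (M n : ℕ) : Gr (Plaq M n) (Edge M n) where
  s := side0
  t := side1
  ne := by
    rintro (⟨i, j⟩ | ⟨i, j⟩) h
    · exact (Fin.castSucc_lt_succ (i := j)).ne (congrArg Prod.snd h)
    · exact (Fin.castSucc_lt_succ (i := i)).ne (congrArg Prod.fst h)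

def dis {M n : ℕ} (σ : ℤ × ℤ → Bool) : Finset (Edge M n) :=
  univ.filter fun e => σ (tail e) ≠ σ (tip e)

end Pool.Agent.P.MP_81d17b_pr.St
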