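import Pool.Agent.P.MP_81d17b_pr.St.Stm

/-! A component born without a new vertex: every child meets exactly two tight edges. -/

namespace Pool.Agent.P.MP_81d17b_pr.St

open Finset

variable {V E : Type} [Fintype V] [DecidableEq V] [Fintype E] [DecidableEq E]

namespace Deg2Aux

omit [Fintype V] in
theorem sum_vec (G : Gr V E) (J : V → Finset E) (A : Finset V) {e : E} (he : G.Cr A e) :
    ∑ f ∈ univ.filter (G.Cr A), G.vec J e f =
      ((J (G.s e)).filter (G.Cr A)).card + ((J (G.t e)).filter (G.Cr A)).card + 1 := by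
  have h : ∀ S : Finset E, ∑ f ∈ univ.filter (G.Cr A), (if f ∈ S then 1 else 0) =
      (S.filter (G.Cr A)).card := fun S => by
    rw [Finset.sum_boole, Nat.cast_id]
    congr 1
    ext f
    simp [and_comm]
  unfold Gr.vec
  rw [sum_add_distrib, sum_add_distrib, h, h, Finset.sum_ite_eq', if_pos (by simpa using he)]

omit [Fintype E] [DecidableEq E] in
theorem odd_card {ρ : Finset (Finset V)} (hρ : Valid ρ) (T : Finset V)
    (h : ∀ A ∈ ρ, Odd (T ∩ A).card) (h' : Odd (T ∩ supp ρ).card) : Odd ρ.card := by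
  have h1 := hρ.sum_supp (ind T)
  rw [sum_ind, (ZMod.natCast_eq_one_iff_odd).2 h', sum_congr rfl fun A hA => by
    rw [sum_ind, (ZMod.natCast_eq_one_iff_odd).2 (h A hA)], sum_const, nsmul_eq_mul, mul_one] at h1
  exact (ZMod.natCast_eq_one_iff_odd).1 h1.symm

end Deg2Aux

open Deg2Aux in
theorem pf_Deg2 (G : Gr V E) (h1 : S_Lev0 G) (_h2 : S_Comp G) (h3 : S_Kids G) (h4 : S_Gen G)
    (h5 : S_Sebo G) : S_Deg2 G := by
  intro T J w hM hw hg b t D hB hG hx
  obtain ⟨k1, k2, k3, k4, k5, k6⟩ := h3 T J w hM hw b t D hB hG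
  obtain ⟨s1, s2, s3⟩ := h5 T J w hM hw b D hB.1
  have hD : D = supp (G.kids w J t D) :=
    Subset.antisymm (fun v hv => (k4 v hv).2 (hx v hv)) k3
  have hA : ∀ A ∈ G.kids w J t D, G.Comp w J t A ∧ A ⊆ D := fun A h => (G.mem_kids _ _ _ _ _).1 h
  have ho : Odd (G.kids w J t D).card :=
    odd_card k1 T (fun A h => (h5 T J w hM hw t A (hA A h).1).1) (hD ▸ s1)
  refine ⟨hD, ho, ?_, fun A hAk => ?_⟩
  · have : (G.kids w J t D).card ≠ 1 := fun e => by
      obtain ⟨A, hA'⟩ := card_eq_one.1 e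
      refine k2 A (hA' ▸ mem_singleton_self A) ?_
      rw [hD, hA', supp_singleton]
    obtain ⟨m, hm⟩ := ho
    omega
  obtain ⟨e0, he0, hc0⟩ := k6 {A} (singleton_subset_iff.2 hAk) (singleton_nonempty A)
    (by rw [supp_singleton]; exact k2 A hAk)
  rw [supp_singleton] at hc0
  obtain ⟨y0, i0, -⟩ := (G.mem_tight _ _ _ _ _ _).1 he0
  have a2 := (h5 T J w hM hw t A (hA A hAk).1).2.1
  refine le_antisymm ?_ ?_
  · have e1 := sum_vec G J A hc0
    have e2 : ((J (G.s e0)).filter (G.Cr A)).card + ((J (G.t e0)).filter (G.Cr A)).card = 1 := by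
      rw [a2, a2]
      rcases hc0 with ⟨p, q⟩ | ⟨p, q⟩ <;> simp [p, q]
    rw [e2] at e1
    refine le_trans ?_ e1.le
    rw [card_eq_sum_ones]
    refine le_trans (sum_le_sum fun e he => ?_) (sum_le_sum_of_subset
      (filter_subset_filter _ (subset_univ (G.tight w J b D (G.kids w J t D)))))
    rw [(h4 T J w hM hg).2.2 e0 e
      (y0.trans ((G.mem_tight _ _ _ _ _ _).1 (mem_filter.1 he).1).1.symm) e]
    simp [Gr.vec]
  · have key : ∀ v, v ∈ D → v ∉ A → e0 ∉ J v →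
        2 ≤ ((G.tight w J b D (G.kids w J t D)).filter (G.Cr A)).card := fun v hv hvA hn => by
      have c1 := a2 v
      rw [if_neg hvA] at c1
      obtain ⟨f, hf⟩ := card_pos.1 (c1 ▸ one_pos)
      obtain ⟨f1, f2⟩ := mem_filter.1 hf
      have c2 := s2 v
      rw [if_pos hv, card_eq_zero, filter_eq_empty_iff] at c2
      have f3 : G.In D f := by
        have := c2 f1
        rcases f2 with ⟨p, -⟩ | ⟨p, -⟩
        · exact ⟨(hA A hAk).2 p, by_contra fun q => this (Or.inl ⟨(hA A hAk).2 p, q⟩)⟩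
        · exact ⟨by_contra fun q => this (Or.inr ⟨(hA A hAk).2 p, q⟩), (hA A hAk).2 p⟩
      have f4 : ∀ B ∈ G.kids w J t D, ¬ G.In B f := fun B hB' hi => by
        rcases f2 with ⟨p, q⟩ | ⟨p, q⟩
        · exact q (k1.unique hB' hAk hi.1 p ▸ hi.2)
        · exact q (k1.unique hB' hAk hi.2 p ▸ hi.1)
      refine one_lt_card.2 ⟨e0, mem_filter.2 ⟨he0, hc0⟩, f, mem_filter.2
        ⟨(G.mem_tight _ _ _ _ _ _).2 ⟨le_antisymm (s3 v f f1 f3) (k5 f f3 f4), f3, f4⟩, f2⟩, ?_⟩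
      rintro rfl
      exact hn f1
    obtain ⟨l1, l2, l3, l4⟩ := h1 T J w hM hw e0
    rw [y0] at l1 l2 l3 l4
    rcases hc0 with ⟨-, q⟩ | ⟨-, q⟩
    · exact key _ i0.2 q fun hm => hx _ i0.2 (le_antisymm l2 (l4 hm))
    · exact key _ i0.1 q fun hm => hx _ i0.1 (le_antisymm l1 (l3 hm))

end Pool.Agent.P.MP_81d17b_pr.St
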