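import Pool.Agent.P.MP_81d17b_pr.St.Stm

/-! The determinant of one event: one for a star, at most two for an odd cycle. -/

namespace Pool.Agent.P.MP_81d17b_pr.St

open Finset

variable {V E : Type} [Fintype V] [DecidableEq V] [Fintype E] [DecidableEq E]

namespace DetChAux

set_option linter.unusedSectionVars false

variable (G : Gr V E)

/-- An edge between two blocks crosses exactly these two blocks. -/
theorem cr_iff {ρ : Finset (Finset V)} (h : Valid ρ) {X Y Z : Finset V} (hX : X ∈ ρ) (hY : Y ∈ ρ)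
    (hZ : Z ∈ ρ) (hne : X ≠ Y) {e : E} (he : G.Jn X Y e) : G.Cr Z e ↔ Z = X ∨ Z = Y := by
  have d := disjoint_left.1 (h.2 X hX Y hY hne)
  constructor
  · rintro (⟨a, -⟩ | ⟨a, -⟩) <;> rcases he with ⟨b, c⟩ | ⟨b, c⟩
    · exact Or.inl (h.unique hZ hX a b)
    · exact Or.inr (h.unique hZ hY a c)
    · exact Or.inr (h.unique hZ hY a c)
    · exact Or.inl (h.unique hZ hX a b)
  · rintro (rfl | rfl) <;> rcases he with ⟨b, c⟩ | ⟨b, c⟩
    · exact Or.inl ⟨b, fun a => d a c⟩
    · exact Or.inr ⟨b, fun a => d a c⟩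
    · exact Or.inr ⟨c, d b⟩
    · exact Or.inl ⟨c, d b⟩

theorem mx_eq (N : Finset (Finset V × E)) (g f : E) :
    G.Mx N g f = (∑ p ∈ N.filter (fun p => p.2 = f), if G.Cr p.1 g then 1 else 0) +
      if g = f then (if g ∈ N.image Prod.snd then 0 else 1) else 0 := by
  unfold Gr.Mx
  by_cases h : f ∈ N.image Prod.snd
  · rw [if_pos h]
    by_cases e : g = f
    · rw [if_pos e, if_pos (e ▸ h), add_zero]
    · rw [if_neg e, add_zero]
  · rw [if_neg h, filter_eq_empty_iff.2 fun p hp (e : p.2 = f) => h (e ▸ mem_image_of_mem _ hp),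
      sum_empty, zero_add]
    by_cases e : g = f
    · rw [if_pos e, if_pos e, if_neg (e ▸ h)]
    · rw [if_neg e, if_neg e]

theorem row (N : Finset (Finset V × E)) (v : E → ℝ) (g : E) :
    (G.Mx N).mulVec v g = (∑ p ∈ N, if G.Cr p.1 g then v p.2 else 0) +
      if g ∈ N.image Prod.snd then 0 else v g := by
  simp only [Matrix.mulVec, dotProduct, mx_eq, add_mul, sum_add_distrib]
  congr 1
  · rw [← sum_fiberwise N Prod.snd]
    refine sum_congr rfl fun f _ => ?_
    rw [sum_mul]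
    refine sum_congr rfl fun p hp => ?_
    rw [(mem_filter.1 hp).2, ite_mul, one_mul, zero_mul]
  · simp only [ite_mul, zero_mul, one_mul, sum_ite_eq, mem_univ, if_true]

theorem mx_insert (N : Finset (Finset V × E)) (R : Finset V) (e : E) (h : e ∉ N.image Prod.snd) :
    G.Mx (insert (R, e) N) = (G.Mx N).updateCol e fun g => if G.Cr R g then 1 else 0 := by
  ext g f
  rw [Matrix.updateCol_apply]
  unfold Gr.Mx
  by_cases hf : f = e
  · subst hf
    rw [if_pos rfl, if_pos (by simp), filter_insert, if_pos rfl,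
      filter_eq_empty_iff.2 fun p hp (e : p.2 = f) => h (e ▸ mem_image_of_mem _ hp),
      insert_empty_eq, sum_singleton]
  · rw [if_neg hf, filter_insert, if_neg (Ne.symm hf), image_insert]
    simp only [mem_insert, hf, false_or]

theorem sum_cr {ρ : Finset (Finset V)} (h : Valid ρ) {N : Finset (Finset V × E)}
    (hN : ∀ p ∈ N, p.1 ∈ ρ) (v : E → ℝ) {X Y : Finset V} (hX : X ∈ ρ) (hY : Y ∈ ρ) (hne : X ≠ Y)
    {e : E} (he : G.Jn X Y e) : (∑ p ∈ N, if G.Cr p.1 e then v p.2 else 0) =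
      (∑ p ∈ N, if p.1 = X then v p.2 else 0) + ∑ p ∈ N, if p.1 = Y then v p.2 else 0 := by
  rw [← sum_add_distrib]
  refine sum_congr rfl fun p hp => ?_
  simp only [cr_iff G h hX hY (hN p hp) hne he]
  by_cases a : p.1 = X
  · simp [a, hne]
  · by_cases b : p.1 = Y <;> simp [a, b, hne.symm]

end DetChAux

open DetChAux in
theorem pf_DetCh (G : Gr V E) (h1 : S_DetMul G) (h2 : S_DetPath G) (h3 : S_PathCh G)
    (h4 : S_Chan G) : S_DetCh G := by
  intro ρ Ch hρ
  refine ⟨fun x hx hs => ?_, fun hb => ?_⟩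
  · have g := ((h4 ρ Ch hρ).1 x hx hs).2.2.2
    have hv : Valid (insert {x} ρ) :=
      hρ.insert (singleton_nonempty x) (disjoint_singleton_left.2 hx)
    have hm : ∀ p ∈ Ch, p.1 ∈ ρ := fun p hp => hs.1 ▸ mem_image_of_mem _ hp
    have hn : ∀ p ∈ Ch, {x} ≠ p.1 := fun p hp e =>
      hx (subset_supp (hm p hp) (e ▸ mem_singleton_self x))
    refine h1.2.2.2 Ch (fun p hp => (g p hp).1) fun p hp p' hp' ne c => ?_
    rcases (cr_iff G hv (mem_insert_self _ _) (mem_insert_of_mem (hm p hp))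
      (mem_insert_of_mem (hm p' hp')) (hn p hp) (hs.2.2 p hp)).1 c with e | e
    · exact hn p' hp' e.symm
    · exact ne (hs.2.1 p hp p' hp' e.symm)
  have g := ((h4 ρ Ch hρ).2 hb).1.2.2.1
  obtain ⟨D, D', e, e', Ch0, hR, hD, hD', -, je, je', hp, rfl⟩ := hb
  generalize root ρ = R at *
  obtain ⟨S, hS⟩ : ∃ S, S = ((ρ.erase R).erase D).erase D' := ⟨_, rfl⟩
  rw [← hS] at hp
  obtain ⟨n1, m1⟩ := mem_erase.1 hD
  obtain ⟨n2, hD''⟩ := mem_erase.1 hD'
  obtain ⟨n3, m2⟩ := mem_erase.1 hD''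
  have mS : ∀ X ∈ S, X ≠ D' ∧ X ≠ D ∧ X ≠ R ∧ X ∈ ρ := fun X hX => by
    simpa only [hS, mem_erase] using hX
  have hv : Valid (insert D (insert D' S)) := hρ.subset
    (insert_subset m1 (insert_subset m2 fun X hX => (mS X hX).2.2.2))
  have k1 : D ∉ S := fun a => (mS D a).2.1 rfl
  have k2 : D' ∉ S := fun a => (mS D' a).1 rfl
  obtain ⟨p1, -⟩ := h3 D S D' Ch0 hp hv n2.symm k1 k2
  obtain ⟨d0, hα⟩ := h2 D S D' Ch0 hp hv n2.symm k1 k2
  have m0 : ∀ p ∈ Ch0, p.1 ≠ D' ∧ p.1 ≠ R ∧ p.1 ∈ ρ := fun p a => by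
    rcases mem_insert.1 (p1 ▸ mem_image_of_mem Prod.fst a) with b | b
    · rw [b]; exact ⟨n2.symm, n1, m1⟩
    · exact ⟨(mS _ b).1, (mS _ b).2.2⟩
  have mN : ∀ p ∈ insert (D', e') Ch0, p.1 ≠ R ∧ p.1 ∈ ρ := fun p a => by
    rcases mem_insert.1 a with rfl | b
    · exact ⟨n3, m2⟩
    · exact (m0 p b).2
  have dN : (G.Mx (insert (D', e') Ch0)).det = 1 := by
    rw [insert_eq, h1.1 _ _ fun q hq p a => ?_, Matrix.det_mul, d0, mul_one]
    · exact h1.2.2.1 _ ((cr_iff G hρ m2 hR m2 n3 je').2 (Or.inl rfl))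
    · rw [mem_singleton.1 hq]
      refine ⟨fun c => ?_, fun c => (m0 p a).1 (congrArg Prod.fst (g (D', e')
        (mem_insert_of_mem (mem_insert_self _ _)) p (mem_insert_of_mem (mem_insert_of_mem a)) c)).symm⟩
      rcases (cr_iff G hρ m2 hR (m0 p a).2.2 n3 je').1 c with b | b
      · exact (m0 p a).1 b
      · exact (m0 p a).2.1 b
  generalize hN : insert (D', e') Ch0 = N at *
  have s1 : (D', e') ∈ N := hN ▸ mem_insert_self _ _
  have s2 : Ch0 ⊆ N := hN ▸ subset_insert _ _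
  have he : e ∉ N.image Prod.snd := fun a => by
    obtain ⟨p, b, c⟩ := mem_image.1 a
    exact (mN p b).1 (congrArg Prod.fst (g p (mem_insert_of_mem b) (R, e) (mem_insert_self _ _) c))
  rw [mx_insert G N R e he, ← Matrix.cramer_apply]
  have hc := Matrix.mulVec_cramer (G.Mx N) fun g => if G.Cr R g then (1 : ℝ) else 0
  rw [dN, one_smul] at hc
  generalize (G.Mx N).cramer (fun g => if G.Cr R g then (1 : ℝ) else 0) = v at hc ⊢
  have hm := fun p a => (mN p a).2
  have r0 : (∑ p ∈ N, if p.1 = R then v p.2 else 0) = 0 :=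
    sum_eq_zero fun p a => if_neg (mN p a).1
  have r1 := congrFun hc e
  rw [row, if_neg he, sum_cr G hρ hm v hR m1 n1.symm je, r0,
    if_pos ((cr_iff G hρ hR m1 hR n1.symm je).2 (Or.inl rfl))] at r1
  have r2 := congrFun hc e'
  rw [row, if_pos (mem_image_of_mem Prod.snd s1), sum_cr G hρ hm v m2 hR n3 je', r0,
    if_pos ((cr_iff G hρ m2 hR hR n3 je').2 (Or.inr rfl))] at r2
  have r3 := hα (fun X => ∑ p ∈ N, if p.1 = X then v p.2 else 0) fun p a Y hY ne j => by
    have y : Y ≠ R ∧ Y ∈ ρ := by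
      rcases mem_insert.1 hY with rfl | b
      · exact ⟨n3, m2⟩
      · exact (mS Y b).2.2
    have r := congrFun hc p.2
    rwa [row, if_pos (mem_image_of_mem Prod.snd (s2 a)),
      sum_cr G hρ hm v (m0 p a).2.2 y.2 ne.symm j, add_zero, if_neg fun c => by
        rcases (cr_iff G hρ (m0 p a).2.2 y.2 hR ne.symm j).1 c with b | b
        · exact (m0 p a).2.1 b.symm
        · exact y.1 b.symm] at r
  rw [add_zero, add_zero] at r2
  simp only [r2, abs_one] at r3
  have := abs_le.1 r3.le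
  exact abs_le.2 ⟨by linarith [this.2], by linarith [this.1]⟩

end Pool.Agent.P.MP_81d17b_pr.St
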