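import Pool.Agent.P.MP_81d17b_pr.St.Stm

/-! Multiplicativity of the cluster matrices. -/

namespace Pool.Agent.P.MP_81d17b_pr.St

open Finset

set_option linter.unusedSectionVars false

variable {V E : Type} [Fintype V] [DecidableEq V] [Fintype E] [DecidableEq E]

namespace DetMulAux

theorem mx_of_not_mem (G : Gr V E) {c : Finset (Finset V × E)} {f : E}
    (h : f ∉ c.image Prod.snd) (e : E) : G.Mx c e f = if e = f then 1 else 0 := by
  simp only [Gr.Mx, if_neg h]

theorem mx_of_mem (G : Gr V E) {c : Finset (Finset V × E)} {f : E}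
    (h : f ∈ c.image Prod.snd) (e : E) :
    G.Mx c e f = ∑ p ∈ c.filter (fun p => p.2 = f), (if G.Cr p.1 e then (1 : ℝ) else 0) := by
  simp only [Gr.Mx, if_pos h]

theorem mx_union (G : Gr V E) (c1 c2 : Finset (Finset V × E))
    (h : ∀ p1 ∈ c1, ∀ p2 ∈ c2, ¬ G.Cr p2.1 p1.2 ∧ p1.2 ≠ p2.2) :
    G.Mx (c1 ∪ c2) = G.Mx c1 * G.Mx c2 := by
  ext e f
  rw [Matrix.mul_apply]
  by_cases hf : f ∈ c2.image Prod.snd
  · have hu : f ∈ (c1 ∪ c2).image Prod.snd :=
      Finset.image_subset_image Finset.subset_union_right hf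
    have hfil : (c1 ∪ c2).filter (fun p => p.2 = f) = c2.filter (fun p => p.2 = f) := by
      ext p
      simp only [Finset.mem_filter, Finset.mem_union]
      constructor
      · rintro ⟨hp | hp, hpf⟩
        · obtain ⟨p2, hp2, h2⟩ := Finset.mem_image.1 hf
          exact absurd (hpf.trans h2.symm) (h p hp p2 hp2).2
        · exact ⟨hp, hpf⟩
      · rintro ⟨hp, hpf⟩
        exact ⟨Or.inr hp, hpf⟩
    have hterm : ∀ g, G.Mx c1 e g * G.Mx c2 g f = if e = g then G.Mx c2 g f else 0 := by
      intro g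
      by_cases hg : g ∈ c1.image Prod.snd
      · have h0 : G.Mx c2 g f = 0 := by
          rw [mx_of_mem G hf]
          refine Finset.sum_eq_zero fun p hp => ?_
          obtain ⟨p1, hp1, h1⟩ := Finset.mem_image.1 hg
          rw [if_neg]
          rw [← h1]
          exact (h p1 hp1 p (Finset.mem_filter.1 hp).1).1
        rw [h0]
        simp
      · rw [mx_of_not_mem G hg]
        split_ifs <;> simp
    rw [Finset.sum_congr rfl fun g _ => hterm g, Finset.sum_ite_eq, if_pos (Finset.mem_univ _),
      mx_of_mem G hu, mx_of_mem G hf, hfil]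
  · have hterm : ∀ g, G.Mx c1 e g * G.Mx c2 g f = if g = f then G.Mx c1 e g else 0 := by
      intro g
      rw [mx_of_not_mem G hf]
      split_ifs <;> simp
    rw [Finset.sum_congr rfl fun g _ => hterm g, Finset.sum_ite_eq', if_pos (Finset.mem_univ _)]
    have hfil : (c1 ∪ c2).filter (fun p => p.2 = f) = c1.filter (fun p => p.2 = f) := by
      ext p
      simp only [Finset.mem_filter, Finset.mem_union]
      constructor
      · rintro ⟨hp | hp, hpf⟩
        · exact ⟨hp, hpf⟩
        · exact absurd (Finset.mem_image.2 ⟨p, hp, hpf⟩) hf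
      · rintro ⟨hp, hpf⟩
        exact ⟨Or.inl hp, hpf⟩
    by_cases h1 : f ∈ c1.image Prod.snd
    · have hu : f ∈ (c1 ∪ c2).image Prod.snd :=
        Finset.image_subset_image Finset.subset_union_left h1
      rw [mx_of_mem G hu, mx_of_mem G h1, hfil]
    · have hu : f ∉ (c1 ∪ c2).image Prod.snd := by
        rw [Finset.image_union, Finset.mem_union]
        exact fun hh => hh.elim h1 hf
      rw [mx_of_not_mem G hu, mx_of_not_mem G h1]

theorem mx_empty (G : Gr V E) : G.Mx ∅ = 1 := by
  ext e f
  rw [mx_of_not_mem G (by simp), Matrix.one_apply]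

theorem det_single (G : Gr V E) (p : Finset V × E) (hp : G.Cr p.1 p.2) : (G.Mx {p}).det = 1 := by
  have h : G.Mx {p} =
      (1 : Matrix E E ℝ).updateCol p.2 (fun e => if G.Cr p.1 e then (1 : ℝ) else 0) := by
    ext e f
    by_cases hf : f = p.2
    · subst hf
      rw [Matrix.updateCol_self, mx_of_mem G (by simp), Finset.filter_singleton, if_pos rfl,
        Finset.sum_singleton]
    · rw [Matrix.updateCol_ne hf, mx_of_not_mem G (by simpa using hf),
        Matrix.one_apply]
  rw [h, ← Matrix.cramer_apply, Matrix.cramer_one]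
  simp [hp]

theorem det_indep (G : Gr V E) (c : Finset (Finset V × E)) (h1 : ∀ p ∈ c, G.Cr p.1 p.2)
    (h2 : ∀ p ∈ c, ∀ p' ∈ c, p ≠ p' → ¬ G.Cr p'.1 p.2) : (G.Mx c).det = 1 := by
  induction c using Finset.induction_on with
  | empty => rw [mx_empty, Matrix.det_one]
  | insert p c hp ih =>
    have hu : insert p c = c ∪ {p} := by
      ext x
      simp only [Finset.mem_insert, Finset.mem_union, Finset.mem_singleton]
      exact or_comm
    have hpc : G.Cr p.1 p.2 := h1 p (Finset.mem_insert_self _ _)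
    rw [hu, mx_union, Matrix.det_mul, det_single G p hpc, mul_one]
    · exact ih (fun x hx => h1 x (Finset.mem_insert_of_mem hx)) fun x hx y hy =>
        h2 x (Finset.mem_insert_of_mem hx) y (Finset.mem_insert_of_mem hy)
    · intro p1 hp1 p2 hp2
      rw [Finset.mem_singleton.1 hp2]
      have hne : p1 ≠ p := fun hh => hp (hh ▸ hp1)
      have hn := h2 p1 (Finset.mem_insert_of_mem hp1) p (Finset.mem_insert_self _ _) hne
      exact ⟨hn, fun hh => hn (hh ▸ hpc)⟩

end DetMulAux

theorem pf_DetMul (G : Gr V E) : S_DetMul G :=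
  ⟨DetMulAux.mx_union G, DetMulAux.mx_empty G, DetMulAux.det_single G, DetMulAux.det_indep G⟩

end Pool.Agent.P.MP_81d17b_pr.St
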