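import Pool.Agent.P.MP_81d17b_pr.St.Stm

/-! Determinants of a path of blocks and of a glued structure. -/

namespace Pool.Agent.P.MP_81d17b_pr.St

open Finset

variable {V E : Type} [Fintype V] [DecidableEq V] [Fintype E] [DecidableEq E]

namespace DetPathAux

omit [Fintype V] [DecidableEq V] [Fintype E] [DecidableEq E] in
theorem cr_of_jn (G : Gr V E) {A B : Finset V} {e : E} (hd : Disjoint A B) (h : G.Jn A B e) :
    G.Cr A e := by
  rcases h with h | h
  · exact Or.inl ⟨h.1, disjoint_right.1 hd h.2⟩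
  · exact Or.inr ⟨h.1, disjoint_right.1 hd h.2⟩

omit [Fintype V] [DecidableEq V] [Fintype E] [DecidableEq E] in
theorem not_cr_of_jn (G : Gr V E) {A X Y : Finset V} {e : E} (hX : Disjoint A X)
    (hY : Disjoint A Y) (h : G.Jn X Y e) : ¬ G.Cr A e := by
  rcases h with h | h <;> rintro (h' | h')
  · exact disjoint_left.1 hX h'.1 h.1
  · exact disjoint_left.1 hY h'.1 h.2
  · exact disjoint_left.1 hY h'.1 h.2
  · exact disjoint_left.1 hX h'.1 h.1

end DetPathAux

open DetPathAux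

theorem pf_DetPath (G : Gr V E) (h1 : S_DetMul G) (h2 : S_PathCh G) : S_DetPath G := by
  intro A S B Ch hp
  induction hp with
  | @nil A B e hj =>
    intro hv hAB _ _
    refine ⟨h1.2.2.1 (A, e) (cr_of_jn G (hv.2 A (by simp) B (by simp) hAB) hj), fun α hα => ?_⟩
    have := hα (A, e) (mem_singleton_self _) B (mem_insert_self _ _) hAB.symm hj
    rw [eq_neg_of_add_eq_zero_left this, abs_neg]
  | @cons A D B S e Ch hD hj hp ih =>
    intro hv hAB hA hB
    have hAD : A ≠ D := fun h => hA (h ▸ hD)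
    have hDB : D ≠ B := fun h => hB (h ▸ hD)
    have hsub : insert D (insert B (S.erase D)) ⊆ insert B S := by
      intro X hX
      simp only [mem_insert, mem_erase] at hX ⊢
      rcases hX with rfl | rfl | hX
      · exact Or.inr hD
      · exact Or.inl rfl
      · exact Or.inr hX.2
    have hv' : Valid (insert D (insert B (S.erase D))) :=
      hv.subset (hsub.trans (subset_insert _ _))
    have hB' : B ∉ S.erase D := fun h => hB (mem_of_mem_erase h)
    have hdis : ∀ X ∈ insert B S, Disjoint A X := fun X hX =>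
      hv.2 A (mem_insert_self _ _) X (mem_insert_of_mem hX) (by
        rintro rfl
        exact (mem_insert.1 hX).elim hAB hA)
    obtain ⟨i1, i2⟩ := ih hv' hDB (notMem_erase _ _) hB'
    obtain ⟨a1, -, -, a4⟩ := h2 D (S.erase D) B Ch hp hv' hDB (notMem_erase _ _) hB'
    have hc : G.Cr A e := cr_of_jn G (hdis D (mem_insert_of_mem hD)) hj
    refine ⟨?_, fun α hα => ?_⟩
    · rw [insert_eq, union_comm, h1.1 Ch {(A, e)}, Matrix.det_mul, i1, h1.2.2.1 (A, e) hc, one_mul]
      intro p hp1 p2 hp2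
      rw [mem_singleton.1 hp2]
      obtain ⟨Y, hY, -, hJ⟩ := a4 p hp1
      have hX : p.1 ∈ insert D (S.erase D) := a1 ▸ mem_image_of_mem Prod.fst hp1
      rw [insert_erase hD] at hX
      have hn := not_cr_of_jn G (hdis _ (mem_insert_of_mem hX))
        (hdis _ (hsub (mem_insert_of_mem hY))) hJ
      exact ⟨hn, fun h => hn (h ▸ hc)⟩
    · have h3 := hα (A, e) (mem_insert_self _ _) D (mem_insert_of_mem hD) hAD.symm hj
      rw [eq_neg_of_add_eq_zero_left h3, abs_neg]
      exact i2 α fun p hp1 Y hY => hα p (mem_insert_of_mem hp1) Y (hsub (mem_insert_of_mem hY))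

theorem pf_DetGlue (G : Gr V E) (h1 : S_DetMul G) (h2 : S_StrB G) : S_DetGlue G := by
  intro ρ D Ch sub tt hv hg hs
  have hin : ∀ A ∈ ρ, ∀ p ∈ sub A, p.1 ⊆ A ∧ G.In A p.2 := fun A hA p hp =>
    ⟨((h2 A _ _ (hs A hA)).2.1 p hp).1, ((h2 A _ _ (hs A hA)).2.1 p hp).2.2.2⟩
  have key : ∀ σ : Finset (Finset V), σ ⊆ ρ →
      (G.Mx (σ.biUnion sub)).det = ∏ A ∈ σ, (G.Mx (sub A)).det := by
    intro σ
    induction σ using Finset.induction_on with
    | empty => intro _; simp [h1.2.1]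
    | insert A σ hA ih =>
      intro hσ
      have hAρ := hσ (mem_insert_self _ _)
      rw [biUnion_insert, prod_insert hA, h1.1, Matrix.det_mul,
        ih ((subset_insert _ _).trans hσ)]
      intro p1 hp1 p2 hp2
      obtain ⟨A', hA', hp2⟩ := mem_biUnion.1 hp2
      have hA'ρ := hσ (mem_insert_of_mem hA')
      have hd : Disjoint A A' := hv.2 A hAρ A' hA'ρ fun h => hA (h ▸ hA')
      obtain ⟨-, b1⟩ := hin A hAρ p1 hp1
      obtain ⟨b2, b3⟩ := hin A' hA'ρ p2 hp2
      refine ⟨?_, fun h => disjoint_left.1 hd b1.1 (h ▸ b3.1)⟩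
      rintro (h | h)
      · exact disjoint_left.1 hd b1.1 (b2 h.1)
      · exact disjoint_left.1 hd b1.2 (b2 h.1)
  rw [union_comm, h1.1, Matrix.det_mul, key ρ subset_rfl, mul_comm]
  intro p1 hp1 p2 hp2
  obtain ⟨A, hA, hp1⟩ := mem_biUnion.1 hp1
  obtain ⟨-, b1⟩ := hin A hA p1 hp1
  have hX : p2.1 ∈ ρ := hg.1 ▸ mem_image_of_mem Prod.fst hp2
  refine ⟨?_, fun h => (hg.2.2.2 p2 hp2).2.2 A hA (h ▸ b1)⟩
  rintro (h | h)
  · exact h.2 (hv.unique hA hX b1.1 h.1 ▸ b1.2)
  · exact h.2 (hv.unique hA hX b1.2 h.1 ▸ b1.1)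

end Pool.Agent.P.MP_81d17b_pr.St
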