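import Pool.Agent.P.MP_81d17b_pr.St.Stm

/-! The ground state energy as a minimal join in the plaquette graph. -/

namespace Pool.Agent.P.MP_81d17b_pr.St

open Finset
open scoped symmDiff

namespace DualAux

variable {M n : ℕ}

theorem mem_dis (σ : ℤ × ℤ → Bool) (e : Edge M n) : e ∈ dis σ ↔ σ (tail e) ≠ σ (tip e) := by
  simp only [dis, mem_filter, mem_univ, true_and]

theorem dis_xor (σ τ : ℤ × ℤ → Bool) :
    (dis fun z => xor (σ z) (τ z) : Finset (Edge M n)) = dis σ ∆ dis τ := by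
  ext e
  rw [mem_symmDiff, mem_dis, mem_dis, mem_dis]
  cases σ (tail e) <;> cases σ (tip e) <;> cases τ (tail e) <;> cases τ (tip e) <;> simp

theorem ham_eq (Γ : Finset (Edge M n)) (J : Edge M n → ℝ) (σ : ℤ × ℤ → Bool) :
    ham (flipOn Γ J) σ = -∑ e, J e + 2 * wt J (dis σ ∆ Γ) := by
  have e : wt J (dis σ ∆ Γ) = ∑ e, if e ∈ dis σ ∆ Γ then J e else 0 := by
    rw [sum_ite_mem, univ_inter, wt]
  rw [e, ham, mul_sum, ← sum_neg_distrib, ← sum_neg_distrib, ← sum_add_distrib]
  refine sum_congr rfl fun e _ => ?_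
  simp only [mem_symmDiff, mem_dis, flipOn, spin]
  by_cases h : e ∈ Γ <;> cases σ (tail e) <;> cases σ (tip e) <;> simp [h] <;> ring

theorem bd_eq {Γ : Finset (Edge M n)} {o p : Plaq M n}
    (h : ∀ z, OddAt Γ z ↔ ¬ (z = o ↔ z = p)) : (dual M n).bd Γ = pt o + pt p := by
  funext z
  have h1 := (dual M n).sum_bd {z} Γ
  have h2 : Γ.filter ((dual M n).Cr {z}) = Γ.filter fun e => side0 e = z ∨ side1 e = z :=
    filter_congr fun e _ => by
      have : side0 e ≠ side1 e := (dual M n).ne e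
      simp only [Gr.Cr, mem_singleton, dual]
      constructor
      · tauto
      · rintro (h | h)
        · exact Or.inl ⟨h, fun h' => this (h.trans h'.symm)⟩
        · exact Or.inr ⟨h, fun h' => this (h'.trans h.symm)⟩
  rw [sum_singleton, h2] at h1
  have h3 := h z
  rw [OddAt, ← ZMod.natCast_eq_one_iff_odd, ← h1] at h3
  have h4 : ∀ a : ZMod 2, ¬ a = 1 → a = 0 := by decide
  simp only [Pi.add_apply, pt]
  split_ifs with a b b
  · rw [h4 _ fun e => h3.1 e (iff_of_true a b)]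
    decide
  · rw [h3.2 fun e => b (e.1 a), add_zero]
  · rw [h3.2 fun e => a (e.2 b), zero_add]
  · rw [h4 _ fun e => h3.1 e (iff_of_false a b), add_zero]

theorem ex_ind {V : Type} [Fintype V] [DecidableEq V] (f : V → ZMod 2) :
    ∃ T : Finset V, ind T = f := by
  have h4 : ∀ a : ZMod 2, ¬ a = 1 → 0 = a := by decide
  refine ⟨univ.filter fun z => f z = 1, funext fun z => ?_⟩
  simp only [ind, mem_filter, mem_univ, true_and]
  split_ifs with h
  exacts [h.symm, h4 _ h]

end DualAux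

open DualAux in
theorem pf_Dual (M n : ℕ) (h2 : S_Grid2 M n) (h3 : S_Grid3 M n) : S_Dual M n := by
  intro τ o
  obtain ⟨T, hT⟩ := ex_ind ((dual M n).bd (dis τ) + pt o)
  refine ⟨T, ?_, fun Γ p J h => ?_⟩
  · have h1 := sum_ind univ T
    rw [hT, inter_univ] at h1
    simp only [Pi.add_apply, sum_add_distrib, sum_pt, Gr.sum_bd, Gr.Cr, mem_univ, if_true] at h1
    rw [← ZMod.natCast_eq_one_iff_odd, ← h1]
    simp
  · have hΓ := bd_eq h
    let Φ : {σ : ℤ × ℤ → Bool // ∀ z, ¬ InBox M n z → σ z = τ z} →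
        {S : Finset (Edge M n) // (dual M n).bd S = ind T + pt p} := fun σ =>
      ⟨dis σ.1 ∆ Γ, by
        have e := h3 (fun z => xor (σ.1 z) (τ z)) fun z hz => by rw [σ.2 z hz, Bool.xor_self]
        rw [dis_xor, Gr.bd_symmDiff] at e
        rw [Gr.bd_symmDiff, hΓ, hT, ← add_assoc, add_right_cancel (e.trans (fn_add_self _).symm)]⟩
    have hΦ : Function.Surjective Φ := by
      rintro ⟨S, hS⟩
      obtain ⟨σ, e1, e2⟩ := h2 (S ∆ Γ ∆ dis τ) (by
        rw [Gr.bd_symmDiff, Gr.bd_symmDiff, hS, hT, hΓ, add_assoc _ (pt o), add_assoc _ _ (_ + _),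
          fn_add_self, add_zero, fn_add_self])
      refine ⟨⟨fun z => xor (σ z) (τ z), fun z hz => by simp only [e1 z hz, Bool.false_xor]⟩,
        Subtype.ext ?_⟩
      change dis (fun z => xor (σ z) (τ z)) ∆ Γ = S
      rw [dis_xor, e2, symmDiff_symmDiff_cancel_right, symmDiff_symmDiff_cancel_right]
    have : Nonempty {S : Finset (Edge M n) // (dual M n).bd S = ind T + pt p} :=
      ⟨Φ ⟨τ, fun _ _ => rfl⟩⟩
    rw [Gr.nu, Real.mul_iInf_of_nonneg zero_le_two, add_ciInf (Set.finite_range _).bddBelow,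
      ← hΦ.iInf_comp, ground]
    exact iInf_congr fun σ => ham_eq Γ J σ.1

end Pool.Agent.P.MP_81d17b_pr.St
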