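import Pool.Agent.P.MP_81d17b_pr.St.Stm

/-! A component born at the level of one of its vertices is a star. -/

namespace Pool.Agent.P.MP_81d17b_pr.St

open Finset

variable {V E : Type} [Fintype V] [DecidableEq V] [Fintype E] [DecidableEq E]

theorem pf_EvStar (G : Gr V E) (_h1 : S_Comp G) (h2 : S_Kids G) (h3 : S_Gen G) (h4 : S_Sebo G) :
    S_EvStar G := by
  intro T J w hM hw hG b t D x hB hgap hx hxb
  obtain ⟨k1, k2, k3, k4, -, k6⟩ := h2 T J w hM hw b t D hB hgap
  obtain ⟨g1, g2, -⟩ := h3 T J w hM hG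
  have hx' : x ∉ supp (G.kids w J t D) := fun h => (k4 x hx).1 h hxb
  have hD : D = insert x (supp (G.kids w J t D)) := by
    refine Subset.antisymm (fun v hv => ?_) (insert_subset hx k3)
    by_cases h : hh w J v = b
    · rw [g1 v x (h.trans hxb.symm)]
      exact mem_insert_self _ _
    · exact mem_insert_of_mem ((k4 v hv).2 h)
  have odd : ∀ s A, G.Comp w J s A → ∑ z ∈ A, ind T z = 1 := fun s A hA => by
    rw [sum_ind]
    exact (ZMod.natCast_eq_one_iff_odd).2 (h4 T J w hM hw s A hA).1
  refine ⟨hD, hx', ?_, ?_⟩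
  · have h := odd b D hB.1
    rw [hD, sum_insert hx', k1.sum_supp,
      sum_congr rfl fun A hA => odd t A ((G.mem_kids w J t D A).1 hA).1, sum_const, nsmul_one] at h
    rw [← ZMod.natCast_eq_zero_iff_even]
    unfold ind at h
    split_ifs at h with hT
    · exact iff_of_true hT (add_eq_left.1 h)
    · rw [zero_add] at h
      exact iff_of_false hT (by rw [h]; exact one_ne_zero)
  · have key : ∀ A : G.kids w J t D, ∃ e, G.Jn {x} A e ∧ G.yy w J e = b := by
      rintro ⟨A, hA⟩
      obtain ⟨e, he, hc⟩ := k6 {A} (singleton_subset_iff.2 hA) (singleton_nonempty A)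
        (by rw [supp_singleton]; exact k2 A hA)
      rw [supp_singleton] at hc
      have hy := ((G.mem_tight w J b D _ e).1 he).1
      have hxA : x ∉ A := fun h => hx' (subset_supp hA h)
      refine ⟨e, ?_, hy⟩
      rcases g2 e x (hy.trans hxb.symm) with h | h
      · exact Or.inl ⟨mem_singleton.2 h, (hc.resolve_left fun h' => hxA (h ▸ h'.1)).1⟩
      · exact Or.inr ⟨mem_singleton.2 h, (hc.resolve_right fun h' => hxA (h ▸ h'.1)).1⟩
    choose f f1 f2 using key
    refine ⟨univ.image fun A : G.kids w J t D => (A.1, f A), ⟨?_, ?_, ?_⟩, ?_⟩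
    · rw [image_image]
      exact attach_image_val
    · simp only [mem_image, mem_univ, true_and]
      rintro _ ⟨A, rfl⟩ _ ⟨B, rfl⟩ h
      rw [Subtype.ext h]
    · simp only [mem_image, mem_univ, true_and]
      rintro _ ⟨A, rfl⟩
      exact f1 A
    · simp only [mem_image, mem_univ, true_and]
      rintro _ ⟨A, rfl⟩
      exact f2 A

end Pool.Agent.P.MP_81d17b_pr.St
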