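import Pool.Agent.P.MP_81d17b_pr.St.Stm

namespace Pool.Agent.P.MP_81d17b_pr.St

open Finset

variable {V E : Type} [Fintype V] [DecidableEq V] [Fintype E] [DecidableEq E]

theorem pf_Exch (G : Gr V E) : S_Exch G := by
  classical
  intro F D x hF h2
  set K := F.filter fun e => G.s e ∉ D ∧ G.t e ∉ D with hK
  set R : E → Finset V := fun e => univ.filter fun v => G.Conn K (G.out D e) v with hR
  have mR : ∀ e v, v ∈ R e ↔ G.Conn K (G.out D e) v := fun e v => by simp [hR]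
  have hout : ∀ e, G.Cr D e → G.out D e ∉ D := fun e he => by
    unfold Gr.out
    rcases he with h | h
    · simp [h.1, h.2]
    · simp [h.2]
  have hRD : ∀ e, G.Cr D e → ∀ v ∈ R e, v ∉ D := fun e he v hv hD => by
    obtain ⟨f, hf, hc⟩ := ((mR e v).1 hv).symm.exists_cr hD (hout e he)
    have := (mem_filter.1 hf).2
    rcases hc with h | h
    · exact this.1 h.1
    · exact this.2 h.1
  have hcr : ∀ e, G.Cr D e → ∀ f ∈ F, G.Cr (R e) f ↔ G.Cr D f ∧ G.out D f ∈ R e := by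
    intro e he f hf
    have h1 := hRD e he (G.s f)
    have h3 := hRD e he (G.t f)
    have h4 : G.s f ∉ D → G.t f ∉ D → (G.s f ∈ R e ↔ G.t f ∈ R e) := fun a b => by
      have := Gr.conn_edge (G := G) (mem_filter.2 ⟨hf, a, b⟩ : f ∈ K)
      rw [mR, mR]
      exact ⟨fun h => h.trans this, fun h => h.trans this.symm⟩
    unfold Gr.Cr Gr.out
    by_cases a : G.s f ∈ D <;> by_cases b : G.t f ∈ D <;> simp only [a, b, if_true, if_false] <;>
      tauto
  have key : ∀ e ∈ F, G.Cr D e → x ∈ R e ∨ ∃ f ∈ F, e ≠ f ∧ G.Cr D f ∧ G.out D f ∈ R e := by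
    intro e he hc
    by_contra hn
    push Not at hn
    have h1 := G.sum_bd (R e) F
    rw [sum_congr rfl fun z hz => hF z (hRD e hc z hz), sum_pt, if_neg hn.1] at h1
    have h3 : F.filter (G.Cr (R e)) = {e} := by
      ext f
      rw [mem_filter, mem_singleton]
      refine ⟨fun h => by_contra fun hne => ?_, fun h => ?_⟩
      · have := (hcr e hc f h.1).1 h.2
        exact hn.2 f h.1 (Ne.symm hne) this.1 this.2
      · rw [h]
        exact ⟨he, (hcr e hc e he).2 ⟨hc, (mR _ _).2 (G.conn_refl _ _)⟩⟩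
    rw [h3] at h1
    simp at h1
  have fin : ∀ e ∈ F, ∀ f ∈ F, e ≠ f → G.Cr D e → G.Cr D f →
      G.Conn K (G.out D e) (G.out D f) → ∃ e1 ∈ F, ∃ e2 ∈ F, e1 ≠ e2 ∧ G.Cr D e1 ∧ G.Cr D e2 ∧
        ∃ P, P ⊆ F ∧ (∀ e ∈ P, G.s e ∉ D ∧ G.t e ∉ D) ∧
          G.bd P = pt (G.out D e1) + pt (G.out D e2) := by
    rintro e he f hf hne c1 c2 ⟨P, hP, hb⟩
    exact ⟨e, he, f, hf, hne, c1, c2, P, hP.trans (filter_subset _ _),
      fun g hg => (mem_filter.1 (hP hg)).2, hb⟩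
  obtain ⟨e1, h1, e2, h3, hne⟩ := one_lt_card.1 h2
  rw [mem_filter] at h1 h3
  rcases key e1 h1.1 h1.2 with a | ⟨f, hf, n, c, m⟩
  · rcases key e2 h3.1 h3.2 with b | ⟨f, hf, n, c, m⟩
    · exact fin e1 h1.1 e2 h3.1 hne h1.2 h3.2 (((mR _ _).1 a).trans ((mR _ _).1 b).symm)
    · exact fin e2 h3.1 f hf n h3.2 c ((mR _ _).1 m)
  · exact fin e1 h1.1 f hf n h1.2 c ((mR _ _).1 m)

end Pool.Agent.P.MP_81d17b_pr.St
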