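import Pool.Agent.P.MP_81d17b_pr.St.Stm

/-! Generic weights lie in the cone of a cluster structure on the whole graph. -/

namespace Pool.Agent.P.MP_81d17b_pr.St

open Finset

variable {V E : Type} [Fintype V] [DecidableEq V] [Fintype E] [DecidableEq E]

theorem pf_Exist (G : Gr V E) (h1 : S_Born G) (h2 : S_Glue G) (h3 : S_StrB G) : S_Exist G := by
  intro T J w hC hV hM hw hG
  obtain ⟨b1, -, -, -, b5⟩ := h1 J w
  obtain ⟨t, ht⟩ := b5 hC hV
  obtain ⟨c, c1, c2, c3, c4⟩ := h2 T J w hM hw hG univ _ (b1 t univ ht).1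
  rw [inter_univ] at c1
  obtain ⟨-, -, inj⟩ := h3 univ c T c1
  have hI : ∀ e, G.In univ e := fun e => ⟨mem_univ _, mem_univ _⟩
  obtain ⟨z, hz⟩ : ∃ z : E → ℝ, ∀ f, z f = if f ∈ c.image Prod.snd then
      ∑ p ∈ c.filter (fun p => p.2 = f), G.len w J p
      else w f - ∑ p ∈ c, if G.Cr p.1 f then G.len w J p else 0 := ⟨_, fun _ => rfl⟩
  have zp : ∀ p ∈ c, z p.2 = G.len w J p := by
    intro p hp
    rw [hz, if_pos (mem_image_of_mem _ hp)]
    refine sum_eq_single_of_mem p (mem_filter.2 ⟨hp, rfl⟩) fun q hq hne => ?_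
    exact absurd (inj q (mem_filter.1 hq).1 p hp (mem_filter.1 hq).2) hne
  refine ⟨c, c1, z, fun e => ?_, ?_, G.birth w J univ, fun x => ?_⟩
  · rw [hz]
    split_ifs
    · exact sum_nonneg fun p hp => c2 p (mem_filter.1 hp).1
    · exact sub_nonneg.2 (c4 e (hI e)).1
  · funext e
    have key : ∀ f, G.Mx c e f * z f =
        (∑ p ∈ c.filter (fun p => p.2 = f), if G.Cr p.1 e then G.len w J p else 0) +
          if e = f then (if f ∈ c.image Prod.snd then 0 else z f) else 0 := by
      intro f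
      unfold Gr.Mx
      by_cases hf : f ∈ c.image Prod.snd
      · rw [if_pos hf, if_pos hf, ite_self, add_zero, sum_mul]
        refine sum_congr rfl fun p hp => ?_
        rw [← (mem_filter.1 hp).2, zp p (mem_filter.1 hp).1, boole_mul]
      · rw [if_neg hf, if_neg hf, boole_mul, sum_eq_zero, zero_add]
        intro p hp
        exact absurd (mem_image.2 ⟨p, (mem_filter.1 hp).1, (mem_filter.1 hp).2⟩) hf
    simp only [Matrix.mulVec, dotProduct, key]
    rw [sum_add_distrib, sum_fiberwise, sum_ite_eq, if_pos (mem_univ e)]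
    by_cases he : e ∈ c.image Prod.snd
    · rw [if_pos he, add_zero]
      exact (c4 e (hI e)).2 he
    · rw [if_neg he, hz, if_neg he]
      ring
  · rw [c3 x (mem_univ x)]
    congr 1
    exact sum_congr rfl fun p hp => by rw [zp p hp]

end Pool.Agent.P.MP_81d17b_pr.St
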