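import Pool.Agent.P.MP_81d17b_pr.St.Stm

/-! The exponent in the coordinates of a structure. -/

namespace Pool.Agent.P.MP_81d17b_pr.St

open Finset

variable {V E : Type} [Fintype V] [DecidableEq V] [Fintype E] [DecidableEq E]

namespace ExpoAux

omit [Fintype V] in
theorem split (c : Finset (Finset V × E)) (g : Finset V → ℝ) (d z : E → ℝ) :
    ∑ f, (if f ∈ c.image Prod.snd then ∑ p ∈ c.filter (fun p => p.2 = f), g p.1 else d f) * z f =
      ∑ p ∈ c, g p.1 * z p.2 + ∑ f, if f ∈ c.image Prod.snd then 0 else d f * z f := by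
  rw [← sum_fiberwise c Prod.snd, ← sum_add_distrib]
  refine sum_congr rfl fun f _ => ?_
  split_ifs with h
  · rw [add_zero, sum_mul]
    exact sum_congr rfl fun p hp => by rw [(mem_filter.1 hp).2]
  · rw [filter_false_of_mem fun p hp e => h (mem_image.2 ⟨p, hp, e⟩), sum_empty, zero_add]

theorem rate_eq (G : Gr V E) (r θ : E → ℝ) {c : Finset (Finset V × E)}
    (hc : ∀ p ∈ c, ∀ p' ∈ c, p.2 = p'.2 → p = p') {p : Finset V × E} (hp : p ∈ c) :
    G.rate r θ c p.2 = G.q r θ p.1 := by
  have e : c.filter (fun p' => p'.2 = p.2) = {p} := eq_singleton_iff_unique_mem.2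
    ⟨mem_filter.2 ⟨hp, rfl⟩, fun p' h => hc p' (mem_filter.1 h).1 p hp (mem_filter.1 h).2⟩
  rw [Gr.rate, if_pos (mem_image_of_mem _ hp), e, sum_singleton]

end ExpoAux

open ExpoAux in
theorem pf_Expo (G : Gr V E) : S_Expo G := by
  intro r θ c hc
  refine ⟨fun z w h b hw hh => ?_, fun ha hcr => ?_⟩
  · have e1 : ∀ e, w e = ∑ p ∈ c, (if G.Cr p.1 e then 1 else 0) * z p.2 +
        ∑ f, if f ∈ c.image Prod.snd then 0 else (if e = f then 1 else 0) * z f := fun e => by
      rw [← hw]
      exact split c (fun D => if G.Cr D e then 1 else 0) (fun f => if e = f then 1 else 0) z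
    have e2 : ∑ e, r e * w e = ∑ p ∈ c, (∑ e, if G.Cr p.1 e then r e else 0) * z p.2 +
        ∑ f, if f ∈ c.image Prod.snd then 0 else r f * z f := by
      simp only [e1, mul_add, sum_add_distrib, mul_sum, sum_mul]
      rw [sum_comm, sum_comm (s := univ) (t := univ)]
      congr 1
      · exact sum_congr rfl fun p _ => sum_congr rfl fun e _ => by split_ifs <;> simp
      · exact sum_congr rfl fun f _ => by split_ifs <;> simp
    have e3 : ∑ x, G.dv θ x * h x = -∑ p ∈ c, (∑ x ∈ p.1, G.dv θ x) * z p.2 := by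
      simp only [hh, mul_sub, sum_sub_distrib, mul_sum]
      rw [← sum_mul, G.sum_dv, zero_mul, zero_sub, sum_comm]
      refine congrArg _ (sum_congr rfl fun p _ => ?_)
      simp only [mul_ite, mul_zero, sum_ite_mem, univ_inter, sum_mul]
    rw [e2, e3]
    refine Eq.trans ?_ (split c (G.q r θ) r z).symm
    simp only [G.q_eq_cut, add_mul, sum_add_distrib]
    ring
  · have r0 : ∀ f, 0 < r f := fun f => (abs_nonneg _).trans_lt (ha f)
    refine ⟨fun f => ?_, ?_⟩
    · by_cases h : f ∈ c.image Prod.snd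
      · obtain ⟨p, hp, rfl⟩ := mem_image.1 h
        rw [rate_eq G r θ hc hp]
        exact G.q_pos_of_cr ha (hcr p hp)
      · rw [Gr.rate, if_neg h]
        exact r0 f
    · rw [← prod_mul_distrib, ← prod_subset (subset_univ (c.image Prod.snd)) fun f _ h => by
        rw [Gr.rate, if_neg h, mul_inv_cancel₀ (r0 f).ne'], prod_image fun p hp p' hp' => hc p hp p' hp']
      exact prod_congr rfl fun p hp => by rw [rate_eq G r θ hc hp, div_eq_mul_inv]

end Pool.Agent.P.MP_81d17b_pr.St
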