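import Pool.Agent.P.MP_81d17b_pr.St.Stm

namespace Pool.Agent.P.MP_81d17b_pr.St

open Finset MeasureTheory

theorem pf_Final (h0 : ∀ M n : ℕ, S_Core0 (dual M n)) (h1 : ∀ M n : ℕ, S_Grid1 M n)
    (h2 : ∀ M n : ℕ, S_Dual M n) : S_Final := by
  intro M n τ c θ hc hθ o Γ hΓ
  obtain ⟨T1, hT, hD⟩ := h2 M n τ o
  have key := h0 M n c (fun e => 2 * θ e) hc (fun e => by
    have := hθ e
    rw [abs_mul, abs_two]
    linarith) (h1 M n) T1 hT
  have e1 : ∀ ξ : Edge M n → ℝ,
      ∑ p, outflow θ p * ground τ (flipOn (Γ p) fun e => c e * ξ e) =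
        ∑ x, (dual M n).dv (fun e => 2 * θ e) x *
          (dual M n).nu (fun e => c e * ξ e) (ind T1 + pt x) := by
    intro ξ
    have h3 : ∀ p, outflow θ p = (dual M n).dv θ p := fun p => rfl
    have h4 : ∀ p, (dual M n).dv (fun e => 2 * θ e) p = 2 * (dual M n).dv θ p := by
      intro p
      unfold Gr.dv
      rw [Finset.mul_sum]
      exact Finset.sum_congr rfl fun e _ => by ring
    simp only [h3, h4, hD _ _ _ (hΓ _), mul_add, Finset.sum_add_distrib]
    rw [← Finset.sum_mul, (dual M n).sum_dv, zero_mul, zero_add]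
    exact Finset.sum_congr rfl fun p _ => by ring
  have e2 : ∏ e, (1 - (2 * c e * θ e) ^ 2)⁻¹ = ∏ e, (1 - (c e * (2 * θ e)) ^ 2)⁻¹ :=
    Finset.prod_congr rfl fun e _ => by ring
  simp only [e1, e2]
  exact key

end Pool.Agent.P.MP_81d17b_pr.St
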