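import Pool.Agent.P.MP_81d17b_pr.St.MSign

/-! The characteristic function of the two-sided exponential law and two limits of products. -/

namespace Pool.Agent.P.MP_81d17b_pr.St

open Finset MeasureTheory Filter
open scoped Topology

namespace GLapAux

theorem charFun_laplace (t : ℝ) : charFun laplace t = ((1 + t ^ 2)⁻¹ : ℝ) := by
  rw [charFun_apply_real, laplace, integral_withDensity_eq_integral_toReal_smul (by fun_prop)
    (ae_of_all _ fun x => ENNReal.ofReal_lt_top)]
  have ha : (0 : ℝ) < (1 + t * Complex.I : ℂ).re := by simp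
  have hb : (-1 + t * Complex.I : ℂ).re < 0 := by simp
  have e1 : Set.EqOn (fun x : ℝ => Complex.exp ((1 + t * Complex.I) * x) / 2)
      (fun x : ℝ => (ENNReal.ofReal (Real.exp (-|x|) / 2)).toReal • Complex.exp (t * x * Complex.I))
      (Set.Iic 0) := by
    intro x hx
    simp only
    rw [ENNReal.toReal_ofReal (by positivity), abs_of_nonpos (Set.mem_Iic.1 hx), neg_neg,
      Complex.real_smul]
    push_cast
    rw [div_mul_eq_mul_div, ← Complex.exp_add]
    congr 2
    ring
  have e2 : Set.EqOn (fun x : ℝ => Complex.exp ((-1 + t * Complex.I) * x) / 2)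
      (fun x : ℝ => (ENNReal.ofReal (Real.exp (-|x|) / 2)).toReal • Complex.exp (t * x * Complex.I))
      (Set.Ioi 0) := by
    intro x hx
    simp only
    rw [ENNReal.toReal_ofReal (by positivity), abs_of_pos (Set.mem_Ioi.1 hx), Complex.real_smul]
    push_cast
    rw [div_mul_eq_mul_div, ← Complex.exp_add]
    congr 2
    ring
  have i1 := ((integrableOn_exp_mul_complex_Iic ha 0).div_const 2).congr
    ((ae_restrict_iff' measurableSet_Iic).2 (ae_of_all _ e1))
  have i2 := ((integrableOn_exp_mul_complex_Ioi hb 0).div_const 2).congr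
    ((ae_restrict_iff' measurableSet_Ioi).2 (ae_of_all _ e2))
  rw [← intervalIntegral.integral_Iic_add_Ioi (b := 0) i1 i2,
    ← setIntegral_congr_fun measurableSet_Iic e1, ← setIntegral_congr_fun measurableSet_Ioi e2,
    integral_div, integral_div, integral_exp_mul_complex_Iic ha, integral_exp_mul_complex_Ioi hb]
  have n1 : (1 + t * Complex.I : ℂ) ≠ 0 := fun h => by simp [h] at ha
  have n2 : (-1 + t * Complex.I : ℂ) ≠ 0 := fun h => by simp [h] at hb
  have n3 : (1 + (t : ℂ) ^ 2) ≠ 0 := by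
    have : (1 + t ^ 2 : ℝ) ≠ 0 := by positivity
    exact_mod_cast this
  push_cast
  simp only [mul_zero, Complex.exp_zero]
  field_simp
  linear_combination (-2 * (t : ℂ) ^ 2) * Complex.I_sq

instance probLaplace : IsProbabilityMeasure laplace := by
  have hf : IsFiniteMeasure laplace := isFiniteMeasure_withDensity_ofReal MSignAux.integ.2
  have h := charFun_laplace 0
  rw [charFun_zero] at h
  have h1 : laplace.real Set.univ = 1 := by
    have : ((laplace.real Set.univ : ℝ) : ℂ) = ((1 : ℝ) : ℂ) := by rw [h]; norm_num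
    exact_mod_cast this
  exact isProbabilityMeasure_iff_real.2 h1

/-- The scales of the `k`-th approximation: `k + 1` of the given ones and `k + 1` small ones. -/
noncomputable def ap (σ : ℝ) (c : ℕ → ℝ) (k i : ℕ) : ℝ :=
  if i < k + 1 then |c i| else |σ| / Real.sqrt (2 * (k + 1))

theorem ap_nonneg (σ : ℝ) (c : ℕ → ℝ) (k i : ℕ) : 0 ≤ ap σ c k i := by
  unfold ap
  split_ifs <;> positivity

theorem prod_ap (σ : ℝ) (c : ℕ → ℝ) (y : ℝ) (k : ℕ) :
    ∏ i : Fin (2 * k + 1 + 1), (1 + y * ap σ c k i ^ 2)⁻¹ =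
      (∏ i ∈ range (k + 1), (1 + y * c i ^ 2)⁻¹) *
        ((1 + (y * σ ^ 2 / 2) / ((k + 1 : ℕ) : ℝ)) ^ (k + 1))⁻¹ := by
  rw [Fin.prod_univ_eq_prod_range (fun i => (1 + y * ap σ c k i ^ 2)⁻¹) (2 * k + 1 + 1),
    show 2 * k + 1 + 1 = (k + 1) + (k + 1) by ring, prod_range_add]
  congr 1
  · refine prod_congr rfl fun i hi => ?_
    rw [ap, if_pos (mem_range.1 hi), sq_abs]
  · rw [← inv_pow, ← card_range (k + 1), ← prod_const, card_range]
    refine prod_congr rfl fun i _ => ?_
    rw [ap, if_neg (by omega), div_pow, sq_abs, Real.sq_sqrt (by positivity)]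
    push_cast
    congr 2
    field_simp

theorem lim_ap (σ : ℝ) (c : ℕ → ℝ) (hs : Summable fun i => c i ^ 2) (y : ℝ)
    (hy : ∀ i, 1 + y * c i ^ 2 ≠ 0) :
    Tendsto (fun k : ℕ => ∏ i : Fin (2 * k + 1 + 1), (1 + y * ap σ c k i ^ 2)⁻¹) atTop
      (𝓝 (Real.exp (-(y * σ ^ 2 / 2)) * ∏' i, (1 + y * c i ^ 2)⁻¹)) := by
  simp only [prod_ap]
  rw [mul_comm (Real.exp _), Real.exp_neg]
  have h1 : Summable fun i => y * c i ^ 2 := hs.mul_left y
  have h2 := ((Real.multipliable_one_add_of_summable h1).inv₀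
    (tprod_one_add_ne_zero_of_summable hy h1.norm)).hasProd.tendsto_prod_nat
  exact (h2.comp (tendsto_add_atTop_nat 1)).mul
    (((Real.tendsto_one_add_div_pow_exp _).comp (tendsto_add_atTop_nat 1)).inv₀
      (Real.exp_pos _).ne')

theorem ap_small (σ : ℝ) (c : ℕ → ℝ) (θ : ℝ) (h : ∀ i, |c i * θ| < 1) :
    ∀ᶠ k : ℕ in atTop, ∀ i, ap σ c k i * |θ| < 1 := by
  have h1 : Tendsto (fun k : ℕ => |σ| / Real.sqrt (2 * (k + 1)) * |θ|) atTop (𝓝 (0 * |θ|)) := by
    refine Tendsto.mul_const _ (tendsto_const_nhds.div_atTop (Real.tendsto_sqrt_atTop.comp ?_))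
    exact (tendsto_atTop_add_const_right _ _ tendsto_natCast_atTop_atTop).const_mul_atTop two_pos
  rw [zero_mul] at h1
  filter_upwards [h1.eventually_lt_const one_pos] with k hk i
  unfold ap
  split_ifs
  · rw [← abs_mul]
    exact h i
  · exact hk

end GLapAux

end Pool.Agent.P.MP_81d17b_pr.St
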