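import Pool.Agent.P.MP_81d17b_pr.St.GSub
import Pool.Agent.P.MP_81d17b_pr.St.GLap

/-! Weak limits of sums of two-sided exponential couplings (Gaussian couplings among them). -/

namespace Pool.Agent.P.MP_81d17b_pr.St

open Finset MeasureTheory Filter GSubAux GLapAux WithLp
open scoped Topology ENNReal

variable {V E : Type} [Fintype V] [DecidableEq V] [Fintype E] [DecidableEq E]

namespace GLimAux

/-- The vector of the sums, as a point of Euclidean space. -/
noncomputable def X (K : ℕ) (a : E × Fin K → ℝ) (ξ : E × Fin K → ℝ) : EuclideanSpace ℝ E :=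
  toLp 2 fun e => ∑ i, a (e, i) * ξ (e, i)

omit [DecidableEq E] in
theorem X_meas (K : ℕ) (a : E × Fin K → ℝ) : Measurable (X K a) := by
  refine Continuous.measurable ?_
  unfold X
  fun_prop

omit [DecidableEq E] in
theorem charFun_X (K : ℕ) (a : E × Fin K → ℝ) (t : EuclideanSpace ℝ E) :
    charFun ((Measure.pi fun _ : E × Fin K => laplace).map (X K a)) t =
      ((∏ e, ∏ i, (1 + t e ^ 2 * a (e, i) ^ 2)⁻¹ : ℝ) : ℂ) := by
  rw [charFun_apply, integral_map (X_meas K a).aemeasurable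
    (Continuous.aestronglyMeasurable (by fun_prop))]
  have h1 : ∀ ξ : E × Fin K → ℝ, Complex.exp ((inner ℝ (X K a ξ) t : ℝ) * Complex.I) =
      ∏ p : E × Fin K, Complex.exp (((t p.1 * a p : ℝ) : ℂ) * ξ p * Complex.I) := by
    intro ξ
    rw [← Complex.exp_sum, ← sum_mul, Fintype.sum_prod_type]
    congr 2
    simp only [X, PiLp.inner_apply, RCLike.inner_apply, conj_trivial]
    push_cast
    refine sum_congr rfl fun e _ => ?_
    rw [mul_sum]
    exact sum_congr rfl fun i _ => by ring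
  simp only [h1]
  rw [integral_fintype_prod_eq_prod
    (fun (p : E × Fin K) (x : ℝ) => Complex.exp (((t p.1 * a p : ℝ) : ℂ) * x * Complex.I))]
  simp only [← charFun_apply_real, charFun_laplace]
  rw [Fintype.prod_prod_type]
  push_cast
  simp only [mul_pow]

end GLimAux

open GLimAux

theorem corePF (G : Gr V E) (h0 : ∀ k, S_Core0 (sub G k)) (hN : S_Nu G) (μ : E → Measure ℝ)
    [∀ e, IsProbabilityMeasure (μ e)] (σ : E → ℝ) (c : E → ℕ → ℝ)
    (hs : ∀ e, Summable fun i => c e i ^ 2)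
    (hμ : ∀ e t, charFun (μ e) t =
      ((Real.exp (-(σ e * t) ^ 2 / 2) * ∏' i, (1 + (c e i * t) ^ 2)⁻¹ : ℝ) : ℂ))
    (θ : E → ℝ) (hθ : ∀ e i, |c e i * θ e| < 1) (hG : G.Cnd) (T : Finset V) (hT : Odd T.card) :
    ∫⁻ J, ENNReal.ofReal (Real.exp (∑ x, G.dv θ x * G.nu J (ind T + pt x))) ∂(Measure.pi μ) ≤
      ENNReal.ofReal (∏ e, Real.exp ((σ e * θ e) ^ 2 / 2) * ∏' i, (1 - (c e i * θ e) ^ 2)⁻¹) := by
  set a : ∀ k : ℕ, E × Fin (2 * k + 1 + 1) → ℝ := fun k p => ap (σ p.1) (c p.1) k p.2 with ha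
  set f : EuclideanSpace ℝ E → ℝ := fun v =>
    Real.exp (∑ x, G.dv θ x * G.nu (ofLp v) (ind T + pt x)) with hf
  have fc : Continuous f := Real.continuous_exp.comp (continuous_finsetSum _ fun x _ =>
    continuous_const.mul ((hN.2.1 _).comp (PiLp.continuous_ofLp 2 _)))
  have mL : Measurable (toLp 2 : (E → ℝ) → EuclideanSpace ℝ E) :=
    (PiLp.continuous_toLp 2 _).measurable
  let ν : ℕ → ProbabilityMeasure (EuclideanSpace ℝ E) := fun k =>
    ⟨(Measure.pi fun _ : E × Fin (2 * k + 1 + 1) => laplace).map (X _ (a k)),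
      Measure.isProbabilityMeasure_map (X_meas _ _).aemeasurable⟩
  let ν0 : ProbabilityMeasure (EuclideanSpace ℝ E) :=
    ⟨(Measure.pi μ).map (toLp 2), Measure.isProbabilityMeasure_map mL.aemeasurable⟩
  have hw : Tendsto ν atTop (𝓝 ν0) := by
    refine ProbabilityMeasure.tendsto_iff_tendsto_charFun.2 fun t => ?_
    have e0 : charFun (ν0 : Measure (EuclideanSpace ℝ E)) t =
        ((∏ e, Real.exp (-(t e ^ 2 * σ e ^ 2 / 2)) * ∏' i, (1 + t e ^ 2 * c e i ^ 2)⁻¹ : ℝ) : ℂ) := by
      change charFun ((Measure.pi μ).map (toLp 2)) t = _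
      rw [charFun_pi, Complex.ofReal_prod]
      refine prod_congr rfl fun e _ => ?_
      rw [hμ]
      congr 2
      · congr 1
        ring
      · exact tprod_congr fun i => by ring
    have e1 : ∀ k, charFun (ν k : Measure (EuclideanSpace ℝ E)) t =
        ((∏ e, ∏ i, (1 + t e ^ 2 * a k (e, i) ^ 2)⁻¹ : ℝ) : ℂ) := fun k => charFun_X _ _ t
    simp only [e0, e1]
    refine (Complex.continuous_ofReal.tendsto _).comp (tendsto_finsetProd _ fun e _ => ?_)
    exact lim_ap (σ e) (c e) (hs e) (t e ^ 2) fun i => by positivity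
  have hP := lintegral_le_liminf_lintegral_of_forall_isOpen_measure_le_liminf_measure
    (μ := (ν0 : Measure (EuclideanSpace ℝ E))) (μs := fun k => (ν k : Measure _)) fc
    (fun v => (Real.exp_pos _).le)
    fun U hU => ProbabilityMeasure.le_liminf_measure_open_of_tendsto hw hU
  have fm : Measurable fun v => ENNReal.ofReal (f v) :=
    ENNReal.measurable_ofReal.comp fc.measurable
  have hB : Tendsto (fun k : ℕ => ENNReal.ofReal (∏ p, (1 - (a k p * θ p.1) ^ 2)⁻¹)) atTop
      (𝓝 (ENNReal.ofReal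
        (∏ e, Real.exp ((σ e * θ e) ^ 2 / 2) * ∏' i, (1 - (c e i * θ e) ^ 2)⁻¹))) := by
    refine ENNReal.tendsto_ofReal ?_
    simp only [Fintype.prod_prod_type]
    refine tendsto_finsetProd _ fun e _ => ?_
    have := lim_ap (σ e) (c e) (hs e) (-θ e ^ 2) fun i => by
      have h1 := (sq_lt_one_iff_abs_lt_one _).2 (hθ e i)
      nlinarith
    convert this using 3
    · simp only [ha]
      ring
    · congr 1
      ring
    · exact tprod_congr fun i => by ring
  rw [← hB.liminf_eq]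
  refine le_of_eq_of_le ?_ (hP.trans (liminf_le_liminf ?_))
  · exact (lintegral_map fm mL).symm
  · filter_upwards [eventually_all.2 fun e => ap_small (σ e) (c e) (θ e) (hθ e)] with k hk
    have h1 := lintegral_map (μ := Measure.pi fun _ : E × Fin (2 * k + 1 + 1) => laplace) fm
      (X_meas (2 * k + 1 + 1) (a k))
    refine le_of_eq_of_le h1 ?_
    exact coreSum G (2 * k + 1) (h0 _) (a k) θ (fun p => ap_nonneg _ _ _ _)
      (fun p => hk p.1 p.2) hG T hT

end Pool.Agent.P.MP_81d17b_pr.St
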