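import Pool.Agent.P.MP_81d17b_pr.St.Main
import Pool.Agent.P.MP_81d17b_pr.St.GLim

/-! The stiffness bound on the box for Gaussian, two-sided exponential and all laws with
characteristic function `exp (-(σ t)^2/2) * ∏ (1 + (c_i t)^2)⁻¹`. -/

namespace Pool.Agent.P.MP_81d17b_pr.St

open Finset MeasureTheory

theorem all_FinalPF (M n : ℕ) (τ : ℤ × ℤ → Bool) (μ : Edge M n → Measure ℝ)
    [∀ e, IsProbabilityMeasure (μ e)] (σ : Edge M n → ℝ) (c : Edge M n → ℕ → ℝ)
    (hs : ∀ e, Summable fun i => c e i ^ 2)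
    (hμ : ∀ e t, charFun (μ e) t =
      ((Real.exp (-(σ e * t) ^ 2 / 2) * ∏' i, (1 + (c e i * t) ^ 2)⁻¹ : ℝ) : ℂ))
    (θ : Edge M n → ℝ) (hθ : ∀ e i, 2 * |c e i * θ e| < 1)
    (o : Plaq M n) (Γ : Plaq M n → Finset (Edge M n))
    (hΓ : ∀ p z, OddAt (Γ p) z ↔ ¬ (z = o ↔ z = p)) :
    ∫⁻ J, ENNReal.ofReal (Real.exp (∑ p, outflow θ p * ground τ (flipOn (Γ p) J)))
        ∂(Measure.pi μ) ≤
      ENNReal.ofReal
        (∏ e, Real.exp (2 * (σ e * θ e) ^ 2) * ∏' i, (1 - (2 * c e i * θ e) ^ 2)⁻¹) := by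
  obtain ⟨T1, hT, hD⟩ := pf_Dual M n (pf_Grid2 M n) (pf_Grid3 M n) τ o
  have key := corePF (dual M n) (fun k => all_Core0 _) (pf_Nu _) μ σ c hs hμ (fun e => 2 * θ e)
    (fun e i => by
      have := hθ e i
      rw [mul_left_comm, abs_mul, abs_two]
      exact this) (pf_Grid1 M n) T1 hT
  have e1 : ∀ J : Edge M n → ℝ,
      ∑ p, outflow θ p * ground τ (flipOn (Γ p) J) =
        ∑ x, (dual M n).dv (fun e => 2 * θ e) x * (dual M n).nu J (ind T1 + pt x) := by
    intro J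
    have h3 : ∀ p, outflow θ p = (dual M n).dv θ p := fun p => rfl
    have h4 : ∀ p, (dual M n).dv (fun e => 2 * θ e) p = 2 * (dual M n).dv θ p := by
      intro p
      unfold Gr.dv
      rw [Finset.mul_sum]
      exact Finset.sum_congr rfl fun e _ => by ring
    simp only [h3, h4, hD _ _ _ (hΓ _), mul_add, Finset.sum_add_distrib]
    rw [← Finset.sum_mul, (dual M n).sum_dv, zero_mul, zero_add]
    exact Finset.sum_congr rfl fun p _ => by ring
  have e2 : ∏ e, Real.exp (2 * (σ e * θ e) ^ 2) * ∏' i, (1 - (2 * c e i * θ e) ^ 2)⁻¹ =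
      ∏ e, Real.exp ((σ e * (2 * θ e)) ^ 2 / 2) * ∏' i, (1 - (c e i * (2 * θ e)) ^ 2)⁻¹ := by
    refine Finset.prod_congr rfl fun e _ => ?_
    congr 1
    · congr 1
      ring
    · exact tprod_congr fun i => by ring
  simp only [e1, e2]
  exact key

open ProbabilityTheory in
/-- Gaussian couplings of variance `v e`. -/
theorem all_FinalGauss (M n : ℕ) (τ : ℤ × ℤ → Bool) (v : Edge M n → NNReal) (θ : Edge M n → ℝ)
    (o : Plaq M n) (Γ : Plaq M n → Finset (Edge M n))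
    (hΓ : ∀ p z, OddAt (Γ p) z ↔ ¬ (z = o ↔ z = p)) :
    ∫⁻ J, ENNReal.ofReal (Real.exp (∑ p, outflow θ p * ground τ (flipOn (Γ p) J)))
        ∂(Measure.pi fun e => gaussianReal 0 (v e)) ≤
      ENNReal.ofReal (Real.exp (2 * ∑ e, v e * θ e ^ 2)) := by
  have key := all_FinalPF M n τ (fun e => gaussianReal 0 (v e)) (fun e => Real.sqrt (v e))
    (fun _ _ => 0) (fun _ => by simp) (fun e t => by
      rw [charFun_gaussianReal, mul_pow, Real.sq_sqrt (v e).coe_nonneg]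
      simp only [zero_mul, mul_zero, ne_eq, OfNat.ofNat_ne_zero, not_false_eq_true, zero_pow,
        add_zero, inv_one, tprod_one, mul_one, Complex.ofReal_zero, zero_sub]
      push_cast
      congr 1
      ring) θ (fun _ _ => by simp) o Γ hΓ
  refine key.trans_eq ?_
  congr 1
  rw [mul_sum, Real.exp_sum]
  refine prod_congr rfl fun e _ => ?_
  rw [mul_pow, Real.sq_sqrt (v e).coe_nonneg]
  simp

end Pool.Agent.P.MP_81d17b_pr.St
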