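import Pool.Agent.P.MP_81d17b_pr.St.Stm

/-! Subdividing every edge into `k + 1` edges in series: sums of independent couplings. -/

namespace Pool.Agent.P.MP_81d17b_pr.St

open Finset MeasureTheory

variable {V E : Type} [Fintype V] [DecidableEq V] [Fintype E] [DecidableEq E]

namespace GSubAux

/-- The `i`-th vertex on the path that replaces the edge `e`. -/
def nd (G : Gr V E) (k : ℕ) (e : E) (i : ℕ) : V ⊕ E × Fin k :=
  if i = 0 then Sum.inl (G.s e)
  else if h : i - 1 < k then Sum.inr (e, ⟨i - 1, h⟩) else Sum.inl (G.t e)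

omit [Fintype V] [DecidableEq V] [Fintype E] [DecidableEq E] in
theorem nd_zero (G : Gr V E) (k : ℕ) (e : E) : nd G k e 0 = Sum.inl (G.s e) := by simp [nd]

omit [Fintype V] [DecidableEq V] [Fintype E] [DecidableEq E] in
theorem nd_last (G : Gr V E) (k : ℕ) (e : E) : nd G k e (k + 1) = Sum.inl (G.t e) := by simp [nd]

omit [Fintype V] [DecidableEq V] [Fintype E] [DecidableEq E] in
theorem nd_inr (G : Gr V E) (k : ℕ) (e e' : E) (i : ℕ) (j : Fin k) :
    nd G k e i = Sum.inr (e', j) ↔ e = e' ∧ i = j + 1 := by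
  unfold nd
  have hj := j.2
  split_ifs with h1 h2
  · simp only [reduceCtorEq, false_iff, not_and]
    omega
  · simp only [Sum.inr.injEq, Prod.mk.injEq, Fin.ext_iff]
    exact and_congr_right fun _ => by omega
  · simp only [reduceCtorEq, false_iff, not_and]
    omega

/-- The subdivided graph. -/
def sub (G : Gr V E) (k : ℕ) : Gr (V ⊕ E × Fin k) (E × Fin (k + 1)) where
  s p := nd G k p.1 p.2
  t p := nd G k p.1 (p.2 + 1)
  ne := by
    rintro ⟨e, i⟩ h
    have hi := i.2
    by_cases h1 : (i : ℕ) < k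
    · have h2 := (nd_inr G k e e (i + 1) ⟨i, h1⟩).2 ⟨rfl, rfl⟩
      have h3 := (nd_inr G k e e i ⟨i, h1⟩).1 (h.trans h2)
      simp at h3
    · have h2 : (i : ℕ) = k := by omega
      simp only [h2, nd_last] at h
      by_cases h0 : k = 0
      · subst h0
        rw [nd_zero] at h
        exact G.ne e (Sum.inl.inj h)
      · have h3 := (nd_inr G k e e k ⟨k - 1, by omega⟩).2 ⟨rfl, by simp; omega⟩
        rw [h3] at h
        simp at h

/-- Extension by zero to the new vertices. -/
def ext0 {α : Type} [Zero α] (E : Type) (k : ℕ) (B : V → α) : V ⊕ E × Fin k → α :=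
  Sum.elim B fun _ => 0

omit [Fintype V] [Fintype E] in
theorem pt_inl (k : ℕ) (x : V) : pt (Sum.inl x : V ⊕ E × Fin k) = ext0 E k (pt x) := by
  funext z
  rcases z with z | z <;> simp [pt, ext0]

omit [Fintype V] [DecidableEq V] [Fintype E] [DecidableEq E] in
theorem ext0_add (k : ℕ) (B B' : V → ZMod 2) : ext0 E k (B + B') = ext0 E k B + ext0 E k B' := by
  funext z
  rcases z with z | z <;> simp [ext0]

omit [Fintype V] [DecidableEq V] [Fintype E] [DecidableEq E] in
theorem ext0_inj {k : ℕ} {B B' : V → ZMod 2} (h : ext0 E k B = ext0 E k B') : B = B' :=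
  funext fun x => congrFun h (Sum.inl x)

theorem tele (G : Gr V E) (k : ℕ) (e : E) (m : ℕ) :
    ∑ i ∈ range m, (pt (nd G k e i) + pt (nd G k e (i + 1))) =
      pt (nd G k e 0) + pt (nd G k e m) := by
  induction m with
  | zero => simp [fn_add_self]
  | succ m ih =>
    rw [sum_range_succ, ih]
    have := fn_add_self (pt (nd G k e m))
    linear_combination (exp := 1) this

theorem bd_prod (G : Gr V E) (k : ℕ) (S : Finset E) :
    (sub G k).bd (S ×ˢ univ) = ext0 E k (G.bd S) := by
  unfold Gr.bd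
  rw [sum_product]
  have h1 : ∀ e, ∑ i : Fin (k + 1), (pt ((sub G k).s (e, i)) + pt ((sub G k).t (e, i))) =
      ext0 E k (pt (G.s e) + pt (G.t e)) := by
    intro e
    have := Fin.sum_univ_eq_sum_range (fun i => pt (nd G k e i) + pt (nd G k e (i + 1))) (k + 1)
    rw [tele, nd_zero, nd_last, pt_inl, pt_inl, ← ext0_add] at this
    exact this
  simp only [h1]
  funext z
  rcases z with z | z <;> simp [ext0, Finset.sum_apply]

theorem mem_step (G : Gr V E) (k : ℕ) (S : Finset (E × Fin (k + 1))) (e : E) (j : Fin k)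
    (h : (sub G k).bd S (Sum.inr (e, j)) = 0) : (e, j.succ) ∈ S ↔ (e, j.castSucc) ∈ S := by
  have h1 : ∀ p : E × Fin (k + 1), (pt ((sub G k).s p) + pt ((sub G k).t p)) (Sum.inr (e, j)) =
      (if p = (e, j.succ) then 1 else 0) + if p = (e, j.castSucc) then 1 else 0 := by
    rintro ⟨e', i⟩
    simp only [Pi.add_apply, pt, sub, eq_comm (a := Sum.inr (e, j)), nd_inr, Prod.mk.injEq,
      Fin.ext_iff, Fin.val_succ, Fin.val_castSucc, Nat.add_right_cancel_iff]
  unfold Gr.bd at h
  rw [Finset.sum_apply] at h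
  simp only [h1, sum_add_distrib, sum_ite_eq'] at h
  by_cases h2 : (e, j.succ) ∈ S <;> by_cases h3 : (e, j.castSucc) ∈ S <;> simp_all

theorem eq_prod (G : Gr V E) (k : ℕ) (S : Finset (E × Fin (k + 1)))
    (h : ∀ z, (sub G k).bd S (Sum.inr z) = 0) :
    S = (univ.filter fun e => (e, 0) ∈ S) ×ˢ univ := by
  ext ⟨e, i⟩
  simp only [mem_product, mem_filter, mem_univ, true_and, and_true]
  induction i using Fin.induction with
  | zero => rfl
  | succ j ih => exact (mem_step G k S e j (h _)).trans ih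

theorem nu_sub (G : Gr V E) (k : ℕ) (w : E × Fin (k + 1) → ℝ) (B : V → ZMod 2) :
    (sub G k).nu w (ext0 E k B) = G.nu (fun e => ∑ i, w (e, i)) B := by
  unfold Gr.nu
  symm
  refine Function.Surjective.iInf_congr
    (fun S => ⟨S.1 ×ˢ univ, by rw [bd_prod, S.2]⟩) ?_ ?_
  · rintro ⟨S, hS⟩
    have h1 := eq_prod G k S fun z => by rw [hS]; rfl
    refine ⟨⟨univ.filter fun e => (e, 0) ∈ S, ext0_inj (E := E) (k := k) ?_⟩, Subtype.ext h1.symm⟩
    rw [← bd_prod, ← h1, hS]
  · intro S
    simp only [wt, sum_product]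

theorem cnd_sub (G : Gr V E) (k : ℕ) (h : G.Cnd) : (sub G k).Cnd := by
  have h1 : ∀ u v, (sub G k).Conn univ (Sum.inl u) (Sum.inl v) := by
    intro u v
    obtain ⟨P, _, hP⟩ := h u v
    exact ⟨P ×ˢ univ, subset_univ _, by rw [bd_prod, hP, ext0_add, pt_inl, pt_inl]⟩
  have h2 : ∀ e (i : ℕ), i ≤ k + 1 → (sub G k).Conn univ (Sum.inl (G.s e)) (nd G k e i) := by
    intro e i
    induction i with
    | zero => exact fun _ => (sub G k).conn_refl _ _
    | succ i ih =>
      intro hi
      exact (ih (by omega)).trans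
        ((sub G k).conn_edge (e := (e, ⟨i, by omega⟩)) (mem_univ _))
  have h3 : ∀ z, ∃ u, (sub G k).Conn univ (Sum.inl u) z := by
    rintro (u | ⟨e, j⟩)
    · exact ⟨u, h1 u u⟩
    · have := h2 e (j + 1) (by have := j.2; omega)
      rw [(nd_inr G k e e _ j).2 ⟨rfl, rfl⟩] at this
      exact ⟨_, this⟩
  intro y z
  obtain ⟨u, hu⟩ := h3 y
  obtain ⟨v, hv⟩ := h3 z
  exact (hu.symm.trans (h1 u v)).trans hv

theorem dv_sub (G : Gr V E) (k : ℕ) (θ : E → ℝ) :
    (sub G k).dv (fun p => θ p.1) = ext0 E k (G.dv θ) := by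
  funext z
  unfold Gr.dv
  rw [Fintype.sum_prod_type]
  have h1 : ∀ e, ∑ i : Fin (k + 1), θ e * ((if (sub G k).s (e, i) = z then (1 : ℝ) else 0) -
      (if (sub G k).t (e, i) = z then 1 else 0)) =
      θ e * ((if Sum.inl (G.s e) = z then 1 else 0) - if Sum.inl (G.t e) = z then 1 else 0) := by
    intro e
    rw [← mul_sum]
    congr 1
    have := Fin.sum_univ_eq_sum_range (fun i => (if nd G k e i = z then (1 : ℝ) else 0) -
      if nd G k e (i + 1) = z then 1 else 0) (k + 1)
    rw [sum_range_sub' (fun i => if nd G k e i = z then (1 : ℝ) else 0), nd_zero, nd_last] at this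
    exact this
  simp only [h1]
  rcases z with z | z <;> simp [ext0]

end GSubAux

open GSubAux

/-- The bound for couplings that are finite sums of independent two-sided exponential variables. -/
theorem coreSum (G : Gr V E) (k : ℕ) (h0 : S_Core0 (sub G k)) (c : E × Fin (k + 1) → ℝ)
    (θ : E → ℝ) (hc : ∀ p, 0 ≤ c p) (hθ : ∀ p, c p * |θ p.1| < 1) (hG : G.Cnd) (T : Finset V)
    (hT : Odd T.card) :
    ∫⁻ ξ, ENNReal.ofReal (Real.exp (∑ x, G.dv θ x *
        G.nu (fun e => ∑ i, c (e, i) * ξ (e, i)) (ind T + pt x)))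
        ∂(Measure.pi fun _ : E × Fin (k + 1) => laplace) ≤
      ENNReal.ofReal (∏ p, (1 - (c p * θ p.1) ^ 2)⁻¹) := by
  have key := h0 c (fun p => θ p.1) hc hθ (cnd_sub G k hG) (T.map Function.Embedding.inl)
    (by rwa [card_map])
  refine le_of_eq_of_le (lintegral_congr fun ξ => ?_) key
  have h1 : ind (T.map Function.Embedding.inl) = ext0 E k (ind T) := by
    funext z
    rcases z with z | z <;> simp [ind, ext0]
  rw [Fintype.sum_sum_type, dv_sub]
  simp only [h1, pt_inl, ← ext0_add, nu_sub]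
  simp [ext0]

end Pool.Agent.P.MP_81d17b_pr.St
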