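import Pool.Agent.P.MP_81d17b_pr.St.Stm

/-! The domain wall energy of a box with free vertical sides, as an instance of `S_Final`. -/

namespace Pool.Agent.P.MP_81d17b_pr.St

open Finset MeasureTheory

namespace WallAux

variable {M n : ℕ}

/-- Scale 0 on the horizontal edges that leave the box, scale 1 on all other edges. -/
def cw : Edge M n → ℝ
  | .inl (i, _) => if (i : ℕ) = 0 ∨ (i : ℕ) = M then 0 else 1
  | .inr _ => 1

/-- The boundary condition with the spins of row 0 reversed. -/
def neg0 (τ : ℤ × ℤ → Bool) : ℤ × ℤ → Bool := fun z => if z.2 = 0 then !τ z else τ z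

def bot (M n : ℕ) : Finset (Edge M n) := univ.image fun i : Fin M => Sum.inr (i, 0)

noncomputable def th (γ : ℝ) : Edge M n → ℝ
  | .inl (i, j) => ((if (i : ℕ) = M then 1 else 0) - (if (i : ℕ) = 0 then 1 else 0)) *
      (γ * ((n : ℝ) - j) / (n + 1))
  | .inr _ => -γ / (n + 1)

theorem neg0_neg0 (τ : ℤ × ℤ → Bool) : neg0 (neg0 τ) = τ := by
  funext z
  by_cases h : z.2 = 0 <;> simp [neg0, h]

theorem mem_bot (e : Edge M n) : e ∈ bot M n ↔ ∃ i : Fin M, Sum.inr (i, 0) = e := by simp [bot]

theorem ham_flip (J : Edge M n → ℝ) (σ : ℤ × ℤ → Bool) :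
    ham (flipOn (bot M n) J) σ = ham J (neg0 σ) := by
  unfold ham
  congr 1
  refine Finset.sum_congr rfl fun e _ => ?_
  rcases e with ⟨i, j⟩ | ⟨i, j⟩
  · have h1 : ((j : ℕ) : ℤ) + 1 ≠ 0 := by omega
    simp [flipOn, mem_bot, neg0, tail, tip, h1]
  · have h1 : ((j : ℕ) : ℤ) + 1 ≠ 0 := by omega
    by_cases hj : j = 0
    · subst hj
      simp only [flipOn, mem_bot, neg0, tail, tip]
      by_cases h0 : σ (((i : ℕ) : ℤ) + 1, 0) = true <;> simp [spin, h0]
    · have h2 : ¬ ((0 : Fin (n + 1)) = j) := fun h => hj h.symm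
      simp [flipOn, mem_bot, neg0, tail, tip, h1, hj, h2]

theorem ground_flip (τ : ℤ × ℤ → Bool) (J : Edge M n → ℝ) :
    ground τ (flipOn (bot M n) J) = ground (neg0 τ) J := by
  unfold ground
  refine Function.Surjective.iInf_congr (fun σ => ⟨neg0 σ.1, fun z hz => ?_⟩) ?_ ?_
  · simp only [neg0, σ.2 z hz]
  · rintro ⟨σ, hσ⟩
    refine ⟨⟨neg0 σ, fun z hz => ?_⟩, Subtype.ext (neg0_neg0 σ)⟩
    have := congrFun (neg0_neg0 τ) z
    rw [← this]
    simp only [neg0, hσ z hz]
  · intro σ
    exact (ham_flip J σ.1).symm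

theorem oddAt_iff (Γ : Finset (Edge M n)) (z : Plaq M n) :
    OddAt Γ z ↔ (dual M n).bd Γ z = 1 := by
  have h := (dual M n).sum_bd {z} Γ
  rw [Finset.sum_singleton] at h
  rw [h, ZMod.natCast_eq_one_iff_odd, OddAt]
  have : (Γ.filter fun e => side0 e = z ∨ side1 e = z) = Γ.filter ((dual M n).Cr {z}) := by
    refine Finset.filter_congr fun e _ => ?_
    have hne : side0 e ≠ side1 e := (dual M n).ne e
    simp only [Gr.Cr, Finset.mem_singleton]
    change _ ↔ (side0 e = z ∧ ¬ side1 e = z) ∨ (side1 e = z ∧ ¬ side0 e = z)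
    constructor
    · rintro (h | h)
      · exact Or.inl ⟨h, fun h' => hne (h.trans h'.symm)⟩
      · exact Or.inr ⟨h, fun h' => hne (h'.trans h.symm)⟩
    · rintro (h | h)
      · exact Or.inl h.1
      · exact Or.inr h.1
  rw [this]

theorem oddAt_of_bd {Γ : Finset (Edge M n)} {o p : Plaq M n}
    (h : (dual M n).bd Γ = pt o + pt p) (z : Plaq M n) : OddAt Γ z ↔ ¬ (z = o ↔ z = p) := by
  rw [oddAt_iff, h]
  by_cases h1 : z = o <;> by_cases h2 : z = p
  · simp only [Pi.add_apply, pt, if_pos h1, if_pos h2]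
    simp [h1.symm ▸ h2, h1]
  · simp only [Pi.add_apply, pt, if_pos h1, if_neg h2]
    simp [h1, h1 ▸ h2]
  · simp only [Pi.add_apply, pt, if_neg h1, if_pos h2]
    simp [h2, h2 ▸ h1]
  · simp only [Pi.add_apply, pt, if_neg h1, if_neg h2]
    simp [h1, h2]

theorem bd_bot : (dual M n).bd (bot M n) = pt (0, 0) + pt (Fin.last M, 0) := by
  unfold Gr.bd bot
  rw [Finset.sum_image (fun a _ b _ h => by simpa using h)]
  change ∑ i : Fin M, (pt ((i.castSucc, 0) : Plaq M n) + pt (i.succ, 0)) = _
  have h1 := Fin.sum_univ_castSucc fun i : Fin (M + 1) => pt ((i, 0) : Plaq M n)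
  have h2 := Fin.sum_univ_succ fun i : Fin (M + 1) => pt ((i, 0) : Plaq M n)
  rw [Finset.sum_add_distrib]
  have h3 := fn_add_self (∑ i : Fin (M + 1), pt ((i, 0) : Plaq M n))
  nth_rewrite 1 [h1] at h3
  rw [h2] at h3
  have h4 := fn_add_self (pt ((0, 0) : Plaq M n) + pt (Fin.last M, 0))
  linear_combination (exp := 1) h3 - h4

theorem sum_cs (m : ℕ) (f : Fin m → ℝ) (F : ℕ → ℝ) (hf : ∀ j, f j = F j) (k : Fin (m + 1)) :
    ∑ j : Fin m, f j * ((if j.castSucc = k then 1 else 0) - (if j.succ = k then 1 else 0)) =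
      (if (k : ℕ) < m then F k else 0) - if (k : ℕ) = 0 then 0 else F (k - 1) := by
  simp only [mul_sub, Finset.sum_sub_distrib, hf]
  congr 1
  · split_ifs with h
    · rw [Finset.sum_eq_single ⟨k, h⟩]
      · simp
      · intro j _ hj
        rw [if_neg, mul_zero]
        intro h'
        exact hj (Fin.ext (by simpa using congrArg Fin.val h'))
      · simp
    · refine Finset.sum_eq_zero fun j _ => ?_
      rw [if_neg, mul_zero]
      intro h'
      have := congrArg Fin.val h'
      have := j.2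
      simp at *
      omega
  · split_ifs with h
    · refine Finset.sum_eq_zero fun j _ => ?_
      rw [if_neg, mul_zero]
      intro h'
      have := congrArg Fin.val h'
      simp at this
      omega
    · have hk := k.2
      rw [Finset.sum_eq_single ⟨k - 1, by omega⟩]
      · rw [if_pos, mul_one]
        exact Fin.ext (by simp; omega)
      · intro j _ hj
        rw [if_neg, mul_zero]
        intro h'
        refine hj (Fin.ext ?_)
        have := congrArg Fin.val h'
        simp at this ⊢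
        omega
      · simp

theorem outflow_th (γ : ℝ) (p : Plaq M n) :
    outflow (th γ) p =
      γ * ((if p = (Fin.last M, 0) then 1 else 0) - if p = (0, 0) then 1 else 0) := by
  obtain ⟨a, b⟩ := p
  unfold outflow
  rw [Fintype.sum_sum_type, Fintype.sum_prod_type, Fintype.sum_prod_type_right]
  have e1 : ∀ i : Fin (M + 1), ∑ j : Fin n, th γ (Sum.inl (i, j) : Edge M n) *
      ((if side0 (Sum.inl (i, j) : Edge M n) = (a, b) then 1 else 0) -
        (if side1 (Sum.inl (i, j) : Edge M n) = (a, b) then 1 else 0)) =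
      if i = a then ((if (a : ℕ) = M then 1 else 0) - (if (a : ℕ) = 0 then 1 else 0)) *
        ((if (b : ℕ) < n then γ * ((n : ℝ) - (b : ℕ)) / (n + 1) else 0) -
          if (b : ℕ) = 0 then 0 else γ * ((n : ℝ) - ((b : ℕ) - 1 : ℕ)) / (n + 1)) else 0 := by
    intro i
    by_cases hi : i = a
    · subst hi
      rw [if_pos rfl, ← sum_cs n (fun j => γ * ((n : ℝ) - (j : ℕ)) / (n + 1))
        (fun j => γ * ((n : ℝ) - j) / (n + 1)) (fun _ => rfl) b, Finset.mul_sum]
      refine Finset.sum_congr rfl fun j _ => ?_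
      simp only [th, side0, side1, Prod.mk.injEq, true_and]
      ring
    · simp [side0, side1, hi]
  have e2 : ∀ j : Fin (n + 1), ∑ i : Fin M, th γ (Sum.inr (i, j) : Edge M n) *
      ((if side0 (Sum.inr (i, j) : Edge M n) = (a, b) then 1 else 0) -
        (if side1 (Sum.inr (i, j) : Edge M n) = (a, b) then 1 else 0)) =
      if j = b then (if (a : ℕ) < M then -γ / (n + 1) else 0) -
        (if (a : ℕ) = 0 then 0 else -γ / (n + 1)) else 0 := by
    intro j
    by_cases hj : j = b
    · subst hj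
      rw [if_pos rfl, ← sum_cs M (fun _ => -γ / (n + 1)) (fun _ => -γ / (n + 1)) (fun _ => rfl) a]
      refine Finset.sum_congr rfl fun i _ => ?_
      simp only [th, side0, side1, Prod.mk.injEq, and_true]
    · simp [side0, side1, hj]
  simp only [e1, e2, Finset.sum_ite_eq', Finset.mem_univ, if_true]
  simp only [Prod.mk.injEq, Fin.ext_iff, Fin.val_last, Fin.val_zero]
  have hn : (n : ℝ) + 1 ≠ 0 := by positivity
  have ha := a.2
  have hb := b.2
  have hA : (if (a : ℕ) < M then -γ / (n + 1) else 0) - (if (a : ℕ) = 0 then 0 else -γ / (n + 1)) =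
      ((if (a : ℕ) = M then 1 else 0) - (if (a : ℕ) = 0 then 1 else 0)) * (γ / (n + 1)) := by
    by_cases h1 : (a : ℕ) = M <;> by_cases h2 : (a : ℕ) = 0
    · have : ¬ (a : ℕ) < M := by omega
      rw [if_neg this, if_pos h2, if_pos h1, if_pos h2]
      ring
    · have : ¬ (a : ℕ) < M := by omega
      rw [if_neg this, if_neg h2, if_pos h1, if_neg h2]
      ring
    · have : (a : ℕ) < M := by omega
      rw [if_pos this, if_pos h2, if_neg h1, if_pos h2]
      ring
    · have : (a : ℕ) < M := by omega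
      rw [if_pos this, if_neg h2, if_neg h1, if_neg h2]
      ring
  have hB : ((if (b : ℕ) < n then γ * ((n : ℝ) - (b : ℕ)) / (n + 1) else 0) -
      if (b : ℕ) = 0 then 0 else γ * ((n : ℝ) - ((b : ℕ) - 1 : ℕ)) / (n + 1)) =
      (if (b : ℕ) = 0 then γ else 0) - γ / (n + 1) := by
    have h0 : (if (b : ℕ) < n then γ * ((n : ℝ) - (b : ℕ)) / (n + 1) else 0) =
        γ * ((n : ℝ) - (b : ℕ)) / (n + 1) := by
      split_ifs with h
      · rfl
      · have : (b : ℕ) = n := by omega
        simp [this]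
    rw [h0]
    split_ifs with h
    · rw [h]
      field_simp
      push_cast
      ring
    · rw [Nat.cast_sub (by omega)]
      field_simp
      push_cast
      ring
  rw [hA, hB]
  by_cases h3 : (b : ℕ) = 0
  · simp only [h3, if_true, and_true]
    ring
  · simp only [h3, if_false, and_false]
    ring

end WallAux

open WallAux

/-- Free vertical sides, any spins `τ` on the top and bottom rows: the energy cost of reversing the
bottom row has a moment generating function bounded by `(1 - (2γ/(n+1))^2)^(-M(n+1))`. -/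
theorem wall (hF : S_Final) (h1 : ∀ M n : ℕ, S_Grid1 M n) (M n : ℕ) (τ : ℤ × ℤ → Bool) (γ : ℝ)
    (hγ : 2 * |γ| < n + 1) :
    ∫⁻ ξ, ENNReal.ofReal (Real.exp (γ * (ground (neg0 τ) (fun e : Edge M n => cw e * ξ e) -
        ground τ (fun e : Edge M n => cw e * ξ e)))) ∂(Measure.pi fun _ : Edge M n => laplace) ≤
      ENNReal.ofReal (((1 - (2 * γ / (n + 1)) ^ 2)⁻¹) ^ (M * (n + 1))) := by
  have hn : (0 : ℝ) < n + 1 := by positivity
  choose P _ hP using fun p => h1 M n (0, 0) p
  set Γ : Plaq M n → Finset (Edge M n) := fun p =>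
    if p = (Fin.last M, 0) then bot M n else if p = (0, 0) then ∅ else P p with hΓ
  have hz : ∀ (i : Fin (M + 1)) (j : Fin n), cw (Sum.inl (i, j) : Edge M n) *
      th γ (Sum.inl (i, j) : Edge M n) = 0 := by
    intro i j
    simp only [cw, th]
    by_cases h : (i : ℕ) = 0 ∨ (i : ℕ) = M
    · rw [if_pos h, zero_mul]
    · push Not at h
      rw [if_neg h.1, if_neg h.2]
      ring
  have hc : ∀ e : Edge M n, 0 ≤ cw e := by
    rintro (⟨i, j⟩ | _)
    · simp only [cw]
      split_ifs <;> norm_num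
    · simp [cw]
  have key := hF M n τ cw (th γ) hc (by
    rintro (⟨i, j⟩ | ⟨i, j⟩)
    · rw [mul_assoc, ← abs_of_nonneg (hc (Sum.inl (i, j))), ← abs_mul, hz]
      norm_num
    · simp only [cw, th]
      rw [abs_div, abs_neg, abs_of_pos hn, mul_one, ← mul_div_assoc, div_lt_one hn]
      exact hγ) (0, 0) Γ (by
    intro p z
    refine oddAt_of_bd ?_ z
    simp only [hΓ]
    split_ifs with h h'
    · rw [h, bd_bot]
    · rw [h', Gr.bd_empty, fn_add_self]
    · exact hP p)
  have e1 : ∀ J : Edge M n → ℝ, ∑ p, outflow (th γ) p * ground τ (flipOn (Γ p) J) =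
      γ * (ground (neg0 τ) J - ground τ J) := by
    intro J
    simp only [outflow_th, mul_assoc, sub_mul, ← Finset.mul_sum, Finset.sum_sub_distrib, ite_mul,
      one_mul, zero_mul, Finset.sum_ite_eq', Finset.mem_univ, if_true]
    congr 2
    · simp only [hΓ, if_true]
      exact ground_flip τ J
    · simp only [hΓ]
      split_ifs with h
      · have hM : M = 0 := by simpa using (congrArg (fun p => (p.1 : ℕ)) h).symm
        subst hM
        congr 1
      · congr 1
  have e2 : ∏ e : Edge M n, (1 - (2 * cw e * th γ e) ^ 2)⁻¹ =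
      ((1 - (2 * γ / (n + 1)) ^ 2)⁻¹) ^ (M * (n + 1)) := by
    rw [Fintype.prod_sum_type, Finset.prod_eq_one, one_mul, Finset.prod_congr rfl
      (g := fun _ => (1 - (2 * γ / (n + 1)) ^ 2)⁻¹), Finset.prod_const]
    · simp
    · intro p _
      simp only [cw, th]
      ring
    · rintro ⟨i, j⟩ _
      rw [mul_assoc, hz]
      simp
  simp only [e1, e2] at key
  exact key

end Pool.Agent.P.MP_81d17b_pr.St
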