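import Pool.Agent.P.MP_81d17b_pr.St.GFinal
import Pool.Agent.P.MP_81d17b_pr.St.Wall

/-! The domain wall energy for Gaussian couplings and free vertical sides. -/

namespace Pool.Agent.P.MP_81d17b_pr.St

open Finset MeasureTheory ProbabilityTheory WallAux

/-- Free vertical sides (variance 0 on the horizontal edges that leave the box), standard Gaussian
couplings elsewhere: the cost of reversing the bottom row is sub-Gaussian. -/
theorem wallGauss (M n : ℕ) (τ : ℤ × ℤ → Bool) (γ : ℝ) :
    ∫⁻ J : Edge M n → ℝ, ENNReal.ofReal (Real.exp (γ * (ground (neg0 τ) J - ground τ J)))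
        ∂(Measure.pi fun e => gaussianReal 0 (cw e).toNNReal) ≤
      ENNReal.ofReal (Real.exp (2 * γ ^ 2 * M / (n + 1))) := by
  have hn : (0 : ℝ) < n + 1 := by positivity
  choose P _ hP using fun p => pf_Grid1 M n (0, 0) p
  set Γ : Plaq M n → Finset (Edge M n) := fun p =>
    if p = (Fin.last M, 0) then bot M n else if p = (0, 0) then ∅ else P p with hΓ
  have hz : ∀ (i : Fin (M + 1)) (j : Fin n), cw (Sum.inl (i, j) : Edge M n) *
      th γ (Sum.inl (i, j) : Edge M n) = 0 := by
    intro i j
    simp only [cw, th]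
    by_cases h : (i : ℕ) = 0 ∨ (i : ℕ) = M
    · rw [if_pos h, zero_mul]
    · push Not at h
      rw [if_neg h.1, if_neg h.2]
      ring
  have hc : ∀ e : Edge M n, 0 ≤ cw e := by
    rintro (⟨i, j⟩ | _)
    · simp only [cw]
      split_ifs <;> norm_num
    · simp [cw]
  have key := all_FinalGauss M n τ (fun e => (cw e).toNNReal) (th γ) (0, 0) Γ (by
    intro p z
    refine oddAt_of_bd ?_ z
    simp only [hΓ]
    split_ifs with h h'
    · rw [h, bd_bot]
    · rw [h', Gr.bd_empty, fn_add_self]
    · exact hP p)
  have e1 : ∀ J : Edge M n → ℝ, ∑ p, outflow (th γ) p * ground τ (flipOn (Γ p) J) =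
      γ * (ground (neg0 τ) J - ground τ J) := by
    intro J
    simp only [outflow_th, mul_assoc, sub_mul, ← Finset.mul_sum, Finset.sum_sub_distrib, ite_mul,
      one_mul, zero_mul, Finset.sum_ite_eq', Finset.mem_univ, if_true]
    congr 2
    · simp only [hΓ, if_true]
      exact ground_flip τ J
    · simp only [hΓ]
      split_ifs with h
      · have hM : M = 0 := by simpa using (congrArg (fun p => (p.1 : ℕ)) h).symm
        subst hM
        congr 1
      · congr 1
  have e2 : 2 * ∑ e : Edge M n, ((cw e).toNNReal : ℝ) * th γ e ^ 2 = 2 * γ ^ 2 * M / (n + 1) := by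
    simp only [Real.coe_toNNReal _ (hc _)]
    rw [Fintype.sum_sum_type, Finset.sum_eq_zero, zero_add, Finset.sum_congr rfl
      (g := fun _ => (γ / (n + 1)) ^ 2), Finset.sum_const]
    · simp only [card_univ, Fintype.card_prod, Fintype.card_fin, nsmul_eq_mul]
      push_cast
      field_simp
    · intro p _
      simp only [cw, th]
      ring
    · rintro ⟨i, j⟩ _
      rw [sq, ← mul_assoc, hz, zero_mul]
  simp only [e1, e2] at key
  exact key

end Pool.Agent.P.MP_81d17b_pr.St
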