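import Pool.Agent.P.MP_81d17b_pr.St.Stm

/-! Consequences of generic weights: heights and edge levels determine their indicator vectors. -/

namespace Pool.Agent.P.MP_81d17b_pr.St

open Finset

set_option linter.unusedSectionVars false

variable {V E : Type} [Fintype V] [DecidableEq V] [Fintype E] [DecidableEq E]

namespace GenAux

theorem gen_nat {w : E → ℝ} (hw : Gen w) (a b : E → ℕ)
    (h : ∑ f, (a f : ℝ) * w f = ∑ f, (b f : ℝ) * w f) (f : E) : a f = b f := by
  have h0 := hw (fun f => (a f : ℤ) - b f) (by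
    simp only [Int.cast_sub, Int.cast_natCast, sub_mul]
    rw [Finset.sum_sub_distrib, h, sub_self]) f
  have h1 : (a f : ℤ) = b f := sub_eq_zero.1 h0
  exact_mod_cast h1

theorem hh_eq (w : E → ℝ) (J : V → Finset E) (x : V) :
    hh w J x = ∑ f, ((if f ∈ J x then 1 else 0 : ℕ) : ℝ) * w f := by
  unfold hh wt
  simp only [Nat.cast_ite, Nat.cast_one, Nat.cast_zero, ite_mul, one_mul, zero_mul]
  rw [Finset.sum_ite_mem, Finset.univ_inter]

theorem two_hh_eq (w : E → ℝ) (J : V → Finset E) (x : V) :
    2 * hh w J x = ∑ f, ((2 * (if f ∈ J x then 1 else 0) : ℕ) : ℝ) * w f := by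
  rw [hh_eq, Finset.mul_sum]
  refine Finset.sum_congr rfl fun f _ => ?_
  push_cast
  ring

theorem two_yy_eq (G : Gr V E) (w : E → ℝ) (J : V → Finset E) (e : E) :
    2 * G.yy w J e = ∑ f, (G.vec J e f : ℝ) * w f := by
  have he : w e = ∑ f, ((if f = e then 1 else 0 : ℕ) : ℝ) * w f := by
    simp
  have h2 : 2 * G.yy w J e = hh w J (G.s e) + hh w J (G.t e) + w e := by
    unfold Gr.yy
    ring
  rw [h2, hh_eq, hh_eq, he, ← Finset.sum_add_distrib, ← Finset.sum_add_distrib]
  refine Finset.sum_congr rfl fun f _ => ?_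
  unfold Gr.vec
  push_cast
  ring

theorem eq_of_J_eq {G : Gr V E} {T : Finset V} {J : V → Finset E} {w : E → ℝ}
    (hm : G.MinFam T J w) {x x' : V} (h : J x = J x') : x = x' := by
  have h1 := hm.1 x
  have h2 := hm.1 x'
  rw [h, h2] at h1
  exact (pt_inj (add_left_cancel h1)).symm

end GenAux

open GenAux in
theorem pf_Gen (G : Gr V E) : S_Gen G := by
  intro T J w hm hw
  refine ⟨fun x x' h => ?_, fun e x h => ?_, fun e e' h f => ?_⟩
  · refine eq_of_J_eq hm (Finset.ext fun f => ?_)
    have := gen_nat hw (fun f => if f ∈ J x then 1 else 0) (fun f => if f ∈ J x' then 1 else 0)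
      (by rw [← hh_eq, ← hh_eq, h]) f
    by_cases a : f ∈ J x <;> by_cases b : f ∈ J x' <;> simp_all
  · have key : ∀ f, G.vec J e f = 2 * (if f ∈ J x then 1 else 0) :=
      gen_nat hw (G.vec J e) (fun f => 2 * (if f ∈ J x then 1 else 0))
        (by rw [← two_yy_eq, ← two_hh_eq, h])
    have ke := key e
    unfold Gr.vec at key ke
    by_cases a : e ∈ J (G.s e)
    · left
      refine eq_of_J_eq hm (Finset.ext fun f => ?_)
      by_cases hf : f = e
      · subst hf
        by_cases c : f ∈ J x <;> simp_all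
      · have := key f
        by_cases a1 : f ∈ J (G.s e) <;> by_cases a2 : f ∈ J (G.t e) <;>
          by_cases a3 : f ∈ J x <;> simp_all
    · right
      refine eq_of_J_eq hm (Finset.ext fun f => ?_)
      by_cases hf : f = e
      · subst hf
        by_cases b : f ∈ J (G.t f) <;> by_cases c : f ∈ J x <;> simp_all
      · have := key f
        by_cases a1 : f ∈ J (G.s e) <;> by_cases a2 : f ∈ J (G.t e) <;>
          by_cases a3 : f ∈ J x <;> simp_all
  · exact gen_nat hw (G.vec J e) (G.vec J e') (by rw [← two_yy_eq, ← two_yy_eq, h]) f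

end Pool.Agent.P.MP_81d17b_pr.St
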