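import Pool.Agent.P.MP_81d17b_pr.St.Stm

/-! The cluster structure of a component, by induction over its children. -/

set_option linter.unusedSectionVars false

namespace Pool.Agent.P.MP_81d17b_pr.St

open Finset

variable {V E : Type} [Fintype V] [DecidableEq V] [Fintype E] [DecidableEq E]

namespace GlueAux

theorem inter_supp (T : Finset V) (ρ : Finset (Finset V)) :
    T ∩ supp ρ = ρ.biUnion fun A => T ∩ A := by
  ext v
  simp only [mem_inter, mem_supp, mem_biUnion]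
  tauto

theorem inter_insert (T : Finset V) (ρ : Finset (Finset V)) {x : V} {p : Prop} [Decidable p]
    (h : x ∈ T ↔ p) :
    T ∩ insert x (supp ρ) = (if p then {x} else ∅) ∪ ρ.biUnion fun A => T ∩ A := by
  rw [← inter_supp]
  split_ifs with hp
  · rw [inter_insert_of_mem (h.2 hp), insert_eq]
  · rw [inter_insert_of_notMem fun hx => hp (h.1 hx), empty_union]

theorem supp_ne {ρ S : Finset (Finset V)} (h : Valid ρ) (hS : S ⊆ ρ) (hne : S ≠ ρ) :
    supp S ≠ supp ρ := fun e => by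
  obtain ⟨A, hA, hA'⟩ := exists_of_ssubset (hS.ssubset_of_ne hne)
  obtain ⟨a, ha⟩ := h.1 A hA
  obtain ⟨B, hB, hb⟩ := mem_supp.1 (e ▸ subset_supp hA ha : a ∈ supp S)
  exact hA' (h.unique hA (hS hB) ha hb ▸ hB)

end GlueAux

theorem pf_Glue (G : Gr V E) (h1 : S_Born G) (h2 : S_Kids G) (h3 : S_EvStar G) (h4 : S_Deg2 G)
    (h5 : S_Ham G) (h6 : S_Chan G) (h7 : S_GlueLin G) : S_Glue G := by
  intro T J w hM hw hG D
  induction D using Finset.strongInduction with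
  | H D ih =>
  intro b hb
  obtain ⟨b1, -, b3, -⟩ := h1 J w
  obtain ⟨t, ht⟩ := b3 b
  obtain ⟨k1, k2, k3, k4, k5, k6⟩ := h2 T J w hM hw b t D hb ht
  have hk : ∀ A ∈ G.kids w J t D, G.Comp w J t A ∧ A ⊆ D := fun A hA => (G.mem_kids ..).1 hA
  have hsub := fun A (hA : A ∈ G.kids w J t D) =>
    ih A ((hk A hA).2.ssubset_of_ne (k2 A hA)) _ (b1 t A (hk A hA).1).1
  choose! sub s1 s2 s3 s4 using hsub
  obtain ⟨Ch, c1, c2, c3⟩ : ∃ Ch, G.GoodCh (G.kids w J t D) D Ch ∧ (∀ p ∈ Ch, G.yy w J p.2 = b) ∧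
      G.IsStr D (Ch ∪ (G.kids w J t D).biUnion sub) (T ∩ D) := by
    by_cases hx : ∃ x ∈ D, hh w J x = b
    · obtain ⟨x, hx, hx'⟩ := hx
      obtain ⟨e1, e2, e3, Ch, e4, e5⟩ := h3 T J w hM hw hG b t D x hb ht hx hx'
      have e6 := (h6 _ Ch k1).1 x e2 e4
      rw [← e1] at e6
      refine ⟨Ch, e6, e5, Gr.IsStr.star x _ Ch sub (fun A => T ∩ A) k1 e2 e4 s1 e1 rfl ?_⟩
      rw [← GlueAux.inter_insert T _ e3, ← e1]
    · push Not at hx
      obtain ⟨e1, e2, e3, e4⟩ := h4 T J w hM hw hG b t D hb ht hx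
      obtain ⟨Ch, e5, e6⟩ := h5 _ (G.tight w J b D (G.kids w J t D)) k1 e3
        (fun e he => by
          rw [← e1]
          exact ((G.mem_tight ..).1 he).2) e4
        fun S hS hS' hne => k6 S hS hS' fun e => GlueAux.supp_ne k1 hS hne (e.trans e1)
      have e7 := ((h6 _ Ch k1).2 e5).1
      rw [← e1] at e7
      refine ⟨Ch, e7, fun p hp => ((G.mem_tight ..).1 (e6 p hp)).1,
        Gr.IsStr.blo _ Ch sub (fun A => T ∩ A) k1 e2 e5 s1 e1 rfl ?_⟩
      rw [← GlueAux.inter_supp, ← e1]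
  refine ⟨_, c3, fun p hp => ?_, h7 J w b _ D Ch sub _ k1 k3 c1 s1 c2
    (fun x hx hx' => not_not.1 fun e => hx' ((k4 x hx).2 e)) k5 s3 s4⟩
  rcases mem_union.1 hp with hp | hp
  · have hA : p.1 ∈ G.kids w J t D := c1.1 ▸ mem_image_of_mem _ hp
    rw [Gr.len, c2 p hp, sub_nonneg]
    exact (b1 t _ (hk _ hA).1).2.trans ht.1.le
  · obtain ⟨A, hA, hp⟩ := mem_biUnion.1 hp
    exact s2 A hA p hp

end Pool.Agent.P.MP_81d17b_pr.St
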