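import Pool.Agent.P.MP_81d17b_pr.St.Stm

/-! The linear relations pass from the children to the parent. -/

namespace Pool.Agent.P.MP_81d17b_pr.St

open Finset

variable {V E : Type} [Fintype V] [DecidableEq V] [Fintype E] [DecidableEq E]

theorem pf_GlueLin (G : Gr V E) (h1 : S_StrB G) (h2 : S_StrSum G) : S_GlueLin G := by
  intro J w b ρ D Ch sub tt hv _ hg hstr hy hb hle hx he
  have hsum := fun g => (h2 ρ D Ch sub tt hv hg hstr g).1
  obtain ⟨g1, g2, -, g4⟩ := hg
  have hρ : ∀ p ∈ Ch, p.1 ∈ ρ := fun p hp => g1 ▸ mem_image_of_mem _ hp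
  have hsb : ∀ A ∈ ρ, ∀ p ∈ sub A, p.1 ⊆ A ∧ G.In A p.2 := fun A hA p hp =>
    ⟨((h1 _ _ _ (hstr A hA)).2.1 p hp).1, ((h1 _ _ _ (hstr A hA)).2.1 p hp).2.2.2⟩
  have key : ∀ x ∈ D, hh w J x =
      b - ∑ p ∈ Ch ∪ ρ.biUnion sub, if x ∈ p.1 then G.len w J p else 0 := fun x hxD => by
    have e1 : (∑ p ∈ Ch, if x ∈ p.1 then G.len w J p else 0) =
        ∑ A ∈ ρ, if x ∈ A then b - G.birth w J A else 0 := by
      rw [← g1, sum_image fun p hp p' hp' e => g2 p hp p' hp' e]
      exact sum_congr rfl fun p hp => by rw [Gr.len, hy p hp]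
    have e2 : ∀ A ∈ ρ, ((if x ∈ A then b - G.birth w J A else 0) +
        ∑ p ∈ sub A, if x ∈ p.1 then G.len w J p else 0) =
        if x ∈ A then b - hh w J x else 0 := fun A hA => by
      split_ifs with h
      · rw [hx A hA x h]
        ring
      · rw [zero_add]
        exact sum_eq_zero fun p hp => if_neg fun h' => h ((hsb A hA p hp).1 h')
    rw [hsum, e1, ← sum_add_distrib, sum_congr rfl e2]
    by_cases h : x ∈ supp ρ
    · obtain ⟨A, hA, hxA⟩ := mem_supp.1 h
      rw [sum_eq_single_of_mem A hA fun B hB hne => if_neg fun h' => hne (hv.unique hB hA h' hxA),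
        if_pos hxA]
      ring
    · rw [sum_eq_zero fun A hA => if_neg fun h' => h (subset_supp hA h'), hb x hxD h, sub_zero]
  refine ⟨key, fun e heD => ?_⟩
  by_cases hin : ∃ A ∈ ρ, G.In A e
  · obtain ⟨A, hA, hAe⟩ := hin
    have hno : ∀ B ∈ ρ, B ≠ A → ∀ X, X ⊆ B → ¬ G.Cr X e := fun B hB hne X hX hc => by
      rcases hc with h | h
      · exact hne (hv.unique hB hA (hX h.1) hAe.1)
      · exact hne (hv.unique hB hA (hX h.1) hAe.2)
    have e1 : (∑ p ∈ Ch ∪ ρ.biUnion sub, if G.Cr p.1 e then G.len w J p else 0) =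
        ∑ p ∈ sub A, if G.Cr p.1 e then G.len w J p else 0 := by
      rw [hsum, sum_eq_zero fun p hp => if_neg fun hc => ?_, zero_add,
        sum_eq_single_of_mem A hA fun B hB hne => sum_eq_zero fun p hp =>
          if_neg (hno B hB hne _ (hsb B hB p hp).1)]
      by_cases h : p.1 = A
      · rw [h] at hc
        rcases hc with h | h
        exacts [h.2 hAe.2, h.2 hAe.1]
      · exact hno _ (hρ p hp) h _ Subset.rfl hc
    rw [e1]
    refine ⟨(he A hA e hAe).1, fun hm => (he A hA e hAe).2 ?_⟩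
    obtain ⟨p, hp, rfl⟩ := mem_image.1 hm
    rcases mem_union.1 hp with hp | hp
    · exact absurd hAe ((g4 p hp).2.2 A hA)
    · obtain ⟨B, hB, hp⟩ := mem_biUnion.1 hp
      obtain rfl := hv.unique hB hA (hsb B hB p hp).2.1 hAe.1
      exact mem_image_of_mem _ hp
  · push Not at hin
    have e1 : (∑ p ∈ Ch ∪ ρ.biUnion sub, if G.Cr p.1 e then G.len w J p else 0) =
        (∑ p ∈ Ch ∪ ρ.biUnion sub, if G.s e ∈ p.1 then G.len w J p else 0) +
          ∑ p ∈ Ch ∪ ρ.biUnion sub, if G.t e ∈ p.1 then G.len w J p else 0 := by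
      rw [← sum_add_distrib]
      refine sum_congr rfl fun p hp => ?_
      have h : ¬ G.In p.1 e := by
        rcases mem_union.1 hp with hp | hp
        · exact hin _ (hρ p hp)
        · obtain ⟨B, hB, hp⟩ := mem_biUnion.1 hp
          exact fun h => hin B hB ⟨(hsb B hB p hp).1 h.1, (hsb B hB p hp).1 h.2⟩
      by_cases a1 : G.s e ∈ p.1 <;> by_cases a2 : G.t e ∈ p.1
      · exact absurd ⟨a1, a2⟩ h
      all_goals simp [Gr.Cr, a1, a2]
    have k1 := key _ heD.1
    have k2 := key _ heD.2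
    have k3 := hle e heD hin
    have k4 : G.yy w J e = (hh w J (G.s e) + hh w J (G.t e) + w e) / 2 := rfl
    refine ⟨by linarith, fun hm => ?_⟩
    obtain ⟨p, hp, rfl⟩ := mem_image.1 hm
    rcases mem_union.1 hp with hp | hp
    · have := hy p hp
      linarith
    · obtain ⟨B, hB, hp⟩ := mem_biUnion.1 hp
      exact absurd (hsb B hB p hp).2 (hin B hB)

end Pool.Agent.P.MP_81d17b_pr.St
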