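import Pool.Agent.P.MP_81d17b_pr.St.Stm

/-! The plaquette graph is connected, and disagreement sets are cycles. -/

namespace Pool.Agent.P.MP_81d17b_pr.St

open Finset

namespace Grid13Aux

theorem conn0 {M n : ℕ} (i : Fin (M + 1)) (j : Fin (n + 1)) :
    (dual M n).Conn univ (0, 0) (i, j) := by
  induction j using Fin.induction with
  | zero =>
    induction i using Fin.induction with
    | zero => exact (dual M n).conn_refl _ _
    | succ i ih => exact ih.trans ((dual M n).conn_edge (e := .inr (i, 0)) (mem_univ _))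
  | succ j ih => exact ih.trans ((dual M n).conn_edge (e := .inl (i, j)) (mem_univ _))

theorem line {n : ℕ} (F : ℤ → ZMod 2) (h0 : F 0 = 0) (h1 : F (n + 1) = 0) (b : Fin (n + 1)) :
    ∑ j : Fin n, F ((j : ℕ) + 1) * ((if b = j.castSucc then 1 else 0) + if b = j.succ then 1 else 0) =
      F ((b : ℕ) + 1) + F (b : ℕ) := by
  simp only [mul_add, sum_add_distrib, mul_ite, mul_one, mul_zero]
  congr 1
  · induction b using Fin.lastCases with
    | last => simp [h1, (Fin.castSucc_lt_last _).ne']
    | cast b => simp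
  · induction b using Fin.cases with
    | zero => simp [h0, (Fin.succ_ne_zero _).symm]
    | succ b => simp

/-- the spin as a residue -/
def g (σ : ℤ × ℤ → Bool) (z : ℤ × ℤ) : ZMod 2 := if σ z then 1 else 0

theorem ite_ne (σ : ℤ × ℤ → Bool) (z z' : ℤ × ℤ) (x : ZMod 2) :
    (if σ z ≠ σ z' then x else 0) = (g σ z + g σ z') * x := by
  unfold g
  cases σ z <;> cases σ z' <;> simp [CharTwo.add_self_eq_zero]

end Grid13Aux

open Grid13Aux

theorem pf_Grid1 (M n : ℕ) : S_Grid1 M n := fun u v => (conn0 u.1 u.2).symm.trans (conn0 v.1 v.2)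

theorem pf_Grid3 (M n : ℕ) : S_Grid3 M n := by
  intro σ hσ
  have h0 : ∀ z, ¬ InBox M n z → g σ z = 0 := fun z hz => by simp [g, hσ z hz]
  funext ⟨a, b⟩
  have h1 := line (fun y => g σ ((a : ℕ), y) + g σ ((a : ℕ) + 1, y))
    (by rw [h0, h0, add_zero] <;> simp [InBox]) (by rw [h0, h0, add_zero] <;> simp [InBox]) b
  have h2 := line (fun x => g σ (x, (b : ℕ)) + g σ (x, (b : ℕ) + 1))
    (by rw [h0, h0, add_zero] <;> simp [InBox])
    (by rw [h0, h0, add_zero] <;> (simp only [InBox]; omega)) a
  rw [Gr.bd, Finset.sum_apply, dis, sum_filter, Fintype.sum_sum_type, Fintype.sum_prod_type,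
    Fintype.sum_prod_type_right, sum_eq_single a, sum_eq_single b]
  · simp only [ite_ne, dual, tail, tip, side0, side1, Pi.add_apply, pt, Prod.mk.injEq, true_and,
      and_true]
    rw [h1, h2, Pi.zero_apply]
    generalize g σ (_, _) = x1
    generalize g σ (_, _) = x2
    generalize g σ (_, _) = x3
    generalize g σ (_, _) = x4
    revert x1 x2 x3 x4
    decide
  · intro j _ hj
    simp [dual, side0, side1, pt, hj.symm]
  · simp
  · intro i _ hi
    simp [dual, side0, side1, pt, hi.symm]
  · simp

end Pool.Agent.P.MP_81d17b_pr.St
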