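import Pool.Agent.P.MP_81d17b_pr.St.Stm

/-! An edge set with no odd plaquette is the set of disagreements of a configuration. -/

namespace Pool.Agent.P.MP_81d17b_pr.St

open Finset

namespace Grid2Aux

variable {M n : ℕ}

/-- `e` is the horizontal edge with left end `(i,j)` -/
def hor (i j : ℕ) : Edge M n → ZMod 2
  | .inl (a, b) => if (a : ℕ) = i ∧ (b : ℕ) + 1 = j then 1 else 0
  | .inr _ => 0

/-- `e` is the vertical edge with lower end `(i,j)` -/
def ver (i j : ℕ) : Edge M n → ZMod 2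
  | .inl _ => 0
  | .inr (a, b) => if (a : ℕ) + 1 = i ∧ (b : ℕ) = j then 1 else 0

theorem loc (p : Plaq M n) (e : Edge M n) : pt (side0 e) p + pt (side1 e) p =
    hor p.1 (p.2 + 1) e + hor p.1 p.2 e + (ver (p.1 + 1) p.2 e + ver p.1 p.2 e) := by
  obtain ⟨i, j⟩ := p
  rcases e with ⟨a, b⟩ | ⟨a, b⟩ <;>
    simp [pt, side0, side1, hor, ver, Fin.ext_iff, eq_comm]

theorem hor_eq (a : Fin (M + 1)) (b : Fin n) (e : Edge M n) :
    hor a (b + 1) e = if .inl (a, b) = e then 1 else 0 := by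
  rcases e with ⟨c, d⟩ | ⟨c, d⟩ <;> simp [hor, Fin.ext_iff, eq_comm]

theorem ver_eq (a : Fin M) (b : Fin (n + 1)) (e : Edge M n) :
    ver (a + 1) b e = if .inr (a, b) = e then 1 else 0 := by
  rcases e with ⟨c, d⟩ | ⟨c, d⟩ <;> simp [ver, Fin.ext_iff, eq_comm]

theorem hor_zero (i j : ℕ) (h : j = 0 ∨ j = n + 1) (e : Edge M n) : hor i j e = 0 := by
  rcases e with ⟨c, d⟩ | ⟨c, d⟩
  · exact if_neg (by have := d.2; omega)
  · rfl

theorem ver_zero (i j : ℕ) (h : i = 0 ∨ i = M + 1) (e : Edge M n) : ver i j e = 0 := by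
  rcases e with ⟨c, d⟩ | ⟨c, d⟩
  · rfl
  · exact if_neg (by have := c.2; omega)

/-- the parity of the number of horizontal edges to the left -/
def phi (S : Finset (Edge M n)) (i j : ℕ) : ZMod 2 := ∑ k ∈ range i, ∑ e ∈ S, hor k j e

theorem z1 : ∀ a b c d x y : ZMod 2, a + b = x → d + c + (y + x) = 0 → a + c + (b + d) = y := by
  decide

theorem z2 : ∀ x y : ZMod 2, decide (x = 1) ≠ decide (y = 1) ↔ x + y = 1 := by decide

theorem z3 : ∀ x y : ZMod 2, x + (x + y) = y := by decide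

theorem phi_ver {S : Finset (Edge M n)} (h : (dual M n).bd S = 0) {j : ℕ} (hj : j ≤ n) :
    ∀ i, i ≤ M + 1 → phi S i j + phi S i (j + 1) = ∑ e ∈ S, ver i j e := by
  intro i
  induction i with
  | zero => intro _; simp [phi, ver_zero]
  | succ i ih =>
    intro hi
    have e := congrFun h (⟨i, by omega⟩, ⟨j, by omega⟩)
    simp only [Gr.bd, Finset.sum_apply, Pi.add_apply, dual, loc, sum_add_distrib,
      Pi.zero_apply] at e
    rw [phi, phi, sum_range_succ, sum_range_succ]
    exact z1 _ _ _ _ _ _ (ih (by omega)) e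

theorem phi_zero {S : Finset (Edge M n)} (h : (dual M n).bd S = 0) {i j : ℕ} (hj : j ≤ n + 1)
    (hb : i = 0 ∨ i = M + 1 ∨ j = 0 ∨ j = n + 1) : phi S i j = 0 := by
  rcases hb with rfl | rfl | hb
  · simp [phi]
  · induction j with
    | zero => simp [phi, hor_zero]
    | succ j ih =>
      have := phi_ver h (by omega : j ≤ n) (M + 1) le_rfl
      rw [ih (by omega), zero_add] at this
      rw [this]
      exact sum_eq_zero fun e _ => ver_zero _ _ (Or.inr rfl) e
  · exact sum_eq_zero fun k _ => sum_eq_zero fun e _ => hor_zero _ _ hb e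

end Grid2Aux

open Grid2Aux in
theorem pf_Grid2 (M n : ℕ) : S_Grid2 M n := by
  classical
  intro S h
  let σ : ℤ × ℤ → Bool := fun z =>
    if InBox M n z then decide (phi S z.1.toNat z.2.toNat = 1) else false
  have hσ : ∀ i j : ℕ, i ≤ M + 1 → j ≤ n + 1 → σ (i, j) = decide (phi S i j = 1) := by
    intro i j hi hj
    by_cases hb : InBox M n ((i : ℤ), (j : ℤ))
    · simp only [σ, if_pos hb, Int.toNat_natCast]
    · simp only [σ, if_neg hb]
      rw [phi_zero h hj (by unfold InBox at hb; omega)]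
      rfl
  refine ⟨σ, fun z hz => if_neg hz, ?_⟩
  ext e
  rw [dis, mem_filter_univ]
  rcases e with ⟨a, b⟩ | ⟨a, b⟩
  · have h1 := hσ a (b + 1) (by omega) (by omega)
    have h2 := hσ (a + 1) (b + 1) (by omega) (by omega)
    rw [tail, tip, ← Nat.cast_succ, ← Nat.cast_succ, h1, h2, z2, phi, phi, sum_range_succ, z3]
    simp [hor_eq]
  · have h1 := hσ (a + 1) b (by omega) (by omega)
    have h2 := hσ (a + 1) (b + 1) (by omega) (by omega)
    rw [tail, tip, ← Nat.cast_succ, ← Nat.cast_succ, h1, h2, z2,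
      phi_ver h (by omega) _ (by omega)]
    simp [ver_eq]

end Pool.Agent.P.MP_81d17b_pr.St
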