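import Pool.Agent.P.MP_81d17b_pr.St.Stm

/-! Growing the potential on one component. -/

namespace Pool.Agent.P.MP_81d17b_pr.St

open Finset
open scoped symmDiff

set_option linter.unusedSectionVars false

variable {V E : Type} [Fintype V] [DecidableEq V] [Fintype E] [DecidableEq E]

namespace GrowAux

variable {G : Gr V E} {T D : Finset V} {J : V → Finset E} {w : E → ℝ} {η : V → ℝ} {K : Finset E}
  {ε : ℝ}

theorem ends {e : E} (h : G.Cr D e) : ∃ z ∈ D, G.out D e ∉ D ∧
    pt (G.s e) + pt (G.t e) = pt (G.out D e) + pt z ∧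
    ((G.s e = z ∧ G.t e = G.out D e) ∨ (G.t e = z ∧ G.s e = G.out D e)) := by
  rcases h with ⟨h1, h2⟩ | ⟨h1, h2⟩
  · have : G.out D e = G.t e := if_pos h1
    exact ⟨_, h1, this ▸ h2, by rw [this, add_comm], Or.inl ⟨rfl, this.symm⟩⟩
  · have : G.out D e = G.s e := if_neg h2
    exact ⟨_, h1, this ▸ h2, by rw [this], Or.inr ⟨rfl, this.symm⟩⟩

theorem wt_zero (hK : ∀ e ∈ K, w e = 0) {Z : Finset E} (hZ : Z ⊆ K) (S : Finset E) :
    wt w (S ∆ Z) = wt w S := by
  rw [wt_symmDiff, wt, wt, sum_eq_zero (s := Z) fun e he => by simp [sgn, hK e (hZ he)], add_zero]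

theorem cr_zero {Z : Finset E} (hZ : ∀ e ∈ Z, ¬ G.Cr D e) (S : Finset E) :
    (S ∆ Z).filter (G.Cr D) = S.filter (G.Cr D) := by
  ext e
  have := hZ e
  simp only [mem_filter, mem_symmDiff]
  tauto

theorem lower (h : G.Opt T J w η) (hK : ∀ e ∈ K, w e = 0) {b z u : V} (hc : G.Conn K z b)
    {R : Finset E} (hR : G.bd R = pt u + pt z) : η u - η b ≤ wt (sgn (J b) w) R := by
  obtain ⟨Z, hZ, hb⟩ := hc
  have := h.2 u b ((J b ∆ R) ∆ Z) (by
    rw [G.bd_symmDiff, G.bd_symmDiff, h.1, hR, hb]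
    linear_combination fn_add_self (pt b) + fn_add_self (pt z))
  rw [wt_zero hK hZ, wt_symmDiff] at this
  linarith

theorem parity {S : Finset E} {x : V} (hS : G.bd S = ind T + pt x) :
    ((S.filter (G.Cr D)).card : ZMod 2) = (T ∩ D).card + if x ∈ D then 1 else 0 := by
  rw [← G.sum_bd, hS, ← sum_ind, ← sum_pt, ← sum_add_distrib]
  rfl

theorem wt_new (S : Finset E) : wt (fun e => w e - if G.Cr D e then ε else 0) S =
    wt w S - ε * (S.filter (G.Cr D)).card := by
  simp only [wt, sum_sub_distrib, ← sum_filter, sum_const, nsmul_eq_mul, mul_comm]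

theorem key (h1 : S_Exch G) (h : G.Opt T J w η) (hK : ∀ e ∈ K, w e = 0)
    (hK' : ∀ e ∈ K, ¬ G.Cr D e) (hc : ∀ z ∈ D, ∀ z' ∈ D, G.Conn K z z') {b : V} (hb : b ∈ D)
    (hε : 0 < ε) (hcr : ∀ e, G.Cr D e → 2 * ε ≤ w e + η (G.out D e) - η b)
    (hJ : ∀ e ∈ J b, ¬ G.Cr D e) (hT : ((T ∩ D).card : ZMod 2) = 1) (x : V) (k : ℕ) :
    ∀ S, G.bd S = ind T + pt x → (S.filter (G.Cr D)).card = k →
      wt w (J b) - η b + ε * (k - if x ∈ D then 0 else 1) ≤ wt w S - η x := by
  induction k using Nat.strong_induction_on with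
  | _ k ih =>
  intro S hS hk
  have h0 := h.2 x b S hS
  rcases Nat.lt_or_ge k 2 with hk2 | hk2
  · have hp := parity (D := D) hS
    rw [hk, hT] at hp
    have : ε * ((k : ℝ) - if x ∈ D then 0 else 1) ≤ 0 := by
      refine mul_nonpos_of_nonneg_of_nonpos hε.le ?_
      interval_cases k
      · split_ifs <;> norm_num
      · split_ifs at hp ⊢
        · exact absurd hp (by decide)
        · norm_num
    linarith
  obtain ⟨e1, he1, e2, he2, hne, c1, c2, P, hP, hPo, hPb⟩ := h1 (S ∆ J b) D x (fun z hz => by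
    have : G.bd (S ∆ J b) = pt x + pt b := by
      rw [G.bd_symmDiff, hS, h.1]
      linear_combination fn_add_self (ind T)
    rw [this, Pi.add_apply, show pt b z = 0 from if_neg fun e : z = b => hz (e ▸ hb), add_zero])
    (by rw [cr_zero hJ, hk]; exact hk2)
  have hPc : ∀ e ∈ P, ¬ G.Cr D e := fun e he hc => by
    have := hPo e he
    rcases hc with c | c <;> tauto
  have m1 : e1 ∈ S ∧ e1 ∉ J b := (mem_symmDiff.1 he1).resolve_right fun a => hJ _ a.1 c1
  have m2 : e2 ∈ S ∧ e2 ∉ J b := (mem_symmDiff.1 he2).resolve_right fun a => hJ _ a.1 c2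
  obtain ⟨z1, hz1, -, b1, -⟩ := ends c1
  obtain ⟨z2, hz2, -, b2, -⟩ := ends c2
  have n2 : e2 ∉ P := fun a => hPc _ a c2
  have n1 : e1 ∉ insert e2 P := fun a => (mem_insert.1 a).elim hne fun a => hPc _ a c1
  have hR : G.bd (insert e2 P) = pt (G.out D e1) + pt z2 := by
    rw [G.bd_insert n2, hPb, b2]
    linear_combination fn_add_self (pt (G.out D e2))
  have l1 := lower h hK (hc z2 hz2 b hb) hR
  obtain ⟨Z, hZ, hZb⟩ := hc z1 hz1 z2 hz2
  have hcard : (((S ∆ insert e1 (insert e2 P)) ∆ Z).filter (G.Cr D)).card = k - 2 := by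
    have : (S ∆ insert e1 (insert e2 P)).filter (G.Cr D) =
        ((S.filter (G.Cr D)).erase e1).erase e2 := by
      ext e
      have := hPc e
      simp only [mem_filter, mem_symmDiff, mem_erase, mem_insert]
      by_cases a1 : e = e1
      · simp [a1, m1.1]
      by_cases a2 : e = e2
      · simp [a2, m2.1]
      tauto
    rw [cr_zero fun e he => hK' e (hZ he), this,
      card_erase_of_mem (mem_erase.2 ⟨hne.symm, mem_filter.2 ⟨m2.1, c2⟩⟩),
      card_erase_of_mem (mem_filter.2 ⟨m1.1, c1⟩), hk]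
    rfl
  have l2 := ih (k - 2) (by omega) _ (by
    rw [G.bd_symmDiff, G.bd_symmDiff, hS, G.bd_insert n1, hR, hZb, b1]
    linear_combination fn_add_self (pt (G.out D e1)) + fn_add_self (pt z1) +
      fn_add_self (pt z2)) hcard
  have l3 : wt (sgn S w) (insert e1 (insert e2 P)) =
      -(w e1 + wt (sgn (J b) w) (insert e2 P)) := by
    rw [wt, sum_insert n1, neg_add, wt, ← sum_neg_distrib, sgn, if_pos m1.1]
    congr 1
    refine sum_congr rfl fun e he => ?_
    have : e ∈ S ∆ J b := (mem_insert.1 he).elim (fun a => a ▸ he2) fun a => hP a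
    rcases mem_symmDiff.1 this with a | a <;> simp [sgn, a.1, a.2]
  rw [wt_zero hK hZ, wt_symmDiff, l3, Nat.cast_sub hk2] at l2
  have := hcr e1 c1
  push_cast at l2
  linarith

end GrowAux

open GrowAux in
theorem pf_Grow (G : Gr V E) (h1 : S_Exch G) : S_Grow G := by
  rintro T J w η D K ε h hK hK' hc ⟨b, hb⟩ hε hs ht
  have hη : ∀ z ∈ D, ∀ z' ∈ D, η z ≤ η z' := fun z hz z' hz' => by
    have := lower h hK (hc z hz z' hz') (u := z) (R := ∅) (by rw [G.bd_empty, fn_add_self])
    simpa [wt] using this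
  have hcr : ∀ e, G.Cr D e → 2 * ε ≤ w e + η (G.out D e) - η b := fun e he => by
    obtain ⟨z, hz, ho, -, ⟨a, a'⟩ | ⟨a, a'⟩⟩ := ends he
    · have := hs e (a ▸ hz) (a' ▸ ho)
      have := hη b hb z hz
      rw [← a', ← a] at *
      linarith
    · have := ht e (a ▸ hz) (a' ▸ ho)
      have := hη b hb z hz
      rw [← a', ← a] at *
      linarith
  have hJ : ∀ e ∈ J b, ¬ G.Cr D e := fun e he hce => by
    obtain ⟨z, hz, -, hz', -⟩ := ends hce
    have := lower h hK (hc z hz b hb) ((G.bd_singleton e).trans hz')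
    rw [wt, sum_singleton, sgn, if_pos he] at this
    linarith [hcr e hce]
  have hT : ((T ∩ D).card : ZMod 2) = 1 := by
    have := parity (D := D) (h.1 b)
    rw [filter_false_of_mem hJ, card_empty, if_pos hb] at this
    revert this
    generalize ((T ∩ D).card : ZMod 2) = a
    revert a
    decide
  have hk := key h1 h hK hK' hc hb hε hcr hJ hT
  have hx : ∀ x, ((J x).filter (G.Cr D)).card = if x ∈ D then 0 else 1 := fun x => by
    have a1 := hk x _ _ (h.1 x) rfl
    have a2 := h.2 b x _ (h.1 b)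
    have a3 := (mul_nonpos_iff_pos_imp_nonpos.1
      (by linarith : ε * ((((J x).filter (G.Cr D)).card : ℝ) - if x ∈ D then 0 else 1) ≤ 0)).1 hε
    have hp := parity (D := D) (h.1 x)
    rw [hT] at hp
    generalize ((J x).filter (G.Cr D)).card = n at a3 hp
    split_ifs at a3 hp ⊢
    · exact_mod_cast le_antisymm (by linarith : (n : ℝ) ≤ 0) (Nat.cast_nonneg n)
    · have : n ≤ 1 := by exact_mod_cast (by linarith : (n : ℝ) ≤ 1)
      interval_cases n
      · exact absurd hp (by decide)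
      · rfl
  refine ⟨⟨h.1, fun x x' S hS => ?_⟩, (ZMod.natCast_eq_one_iff_odd).1 hT, hx⟩
  have a1 := hk x _ S hS rfl
  have a2 := h.2 b x' _ (h.1 b)
  rw [wt_new, wt_new, hx]
  dsimp only
  split_ifs at a1 ⊢ <;> push_cast <;> linarith

end Pool.Agent.P.MP_81d17b_pr.St
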