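import Pool.Agent.P.MP_81d17b_pr.St.Stm

/-! A connected two-regular family of blocks is a cycle. -/

namespace Pool.Agent.P.MP_81d17b_pr.St

open Finset

variable {V E : Type} [Fintype V] [DecidableEq V] [Fintype E] [DecidableEq E]

namespace HamAux

theorem mem_iff {ρ S : Finset (Finset V)} (h : Valid ρ) (hS : S ⊆ ρ) {R : Finset V} (hR : R ∈ ρ)
    {x : V} (hx : x ∈ R) : x ∈ supp S ↔ R ∈ S :=
  ⟨fun a => by
    obtain ⟨A, hA, a⟩ := mem_supp.1 a
    rwa [h.unique hR (hS hA) hx a], fun a => subset_supp a hx⟩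

omit [Fintype E] [DecidableEq E] in
theorem cr_iff (G : Gr V E) {ρ S : Finset (Finset V)} (h : Valid ρ) (hS : S ⊆ ρ)
    {R D : Finset V} (hR : R ∈ ρ) (hD : D ∈ ρ) {e : E} (j : G.Jn R D e) :
    G.Cr (supp S) e ↔ (R ∈ S ∧ D ∉ S) ∨ (D ∈ S ∧ R ∉ S) := by
  rcases j with ⟨a, b⟩ | ⟨a, b⟩
  · rw [Gr.Cr, mem_iff h hS hR a, mem_iff h hS hD b]
  · rw [Gr.Cr, mem_iff h hS hR a, mem_iff h hS hD b, or_comm]

omit [Fintype E] [DecidableEq E] in
theorem cr_one (G : Gr V E) {ρ : Finset (Finset V)} (h : Valid ρ) {R D X : Finset V} (hR : R ∈ ρ)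
    (hD : D ∈ ρ) (hX : X ∈ ρ) {e : E} (j : G.Jn R D e) :
    G.Cr X e ↔ (R = X ∧ D ≠ X) ∨ (D = X ∧ R ≠ X) := by
  simpa using cr_iff G h (singleton_subset_iff.2 hX) hR hD j

omit [Fintype E] [DecidableEq E] in
theorem other (G : Gr V E) {ρ : Finset (Finset V)} {R : Finset V} {e : E} (h : G.In (supp ρ) e)
    (c : G.Cr R e) : ∃ D ∈ ρ, D ≠ R ∧ G.Jn R D e := by
  rcases c with ⟨a, b⟩ | ⟨a, b⟩
  · obtain ⟨D, hD, d⟩ := mem_supp.1 h.2
    exact ⟨D, hD, fun q => b (q ▸ d), Or.inl ⟨a, d⟩⟩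
  · obtain ⟨D, hD, d⟩ := mem_supp.1 h.1
    exact ⟨D, hD, fun q => b (q ▸ d), Or.inr ⟨a, d⟩⟩

omit [DecidableEq E] in
theorem ord_inj {e e' : E} (h : ord e = ord e') : e = e' :=
  (Fintype.equivFin E).injective (Fin.ext h)

theorem two {s : Finset E} (h : s.card = 2) :
    ∃ e e', ord e < ord e' ∧ ∀ f, f ∈ s ↔ f = e ∨ f = e' := by
  obtain ⟨e, e', ne, rfl⟩ := card_eq_two.1 h
  rcases lt_trichotomy (ord e) (ord e') with l | l | l
  · exact ⟨e, e', l, by simp⟩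
  · exact absurd (ord_inj l) ne
  · exact ⟨e', e, l, by simp [or_comm]⟩

end HamAux

open HamAux in
theorem pf_Ham (G : Gr V E) (h1 : S_HamPath G) : S_Ham G := by
  intro ρ C hv h3 hin h2 hc
  have hR : root ρ ∈ ρ := root_mem (card_pos.1 (by omega))
  set R := root ρ with hRd
  obtain ⟨e, e', lt, he⟩ := two (h2 R hR)
  simp only [mem_filter] at he
  have ne : e ≠ e' := fun q => lt.ne (congrArg ord q)
  obtain ⟨eC, eR⟩ := (he e).2 (Or.inl rfl)
  obtain ⟨eC', eR'⟩ := (he e').2 (Or.inr rfl)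
  obtain ⟨D, hD, nD, jD⟩ := other G (hin e eC).1 eR
  obtain ⟨D', hD', nD', jD'⟩ := other G (hin e' eC').1 eR'
  have cD : G.Cr D e := (cr_one G hv hR hD hD jD).2 (Or.inr ⟨rfl, nD.symm⟩)
  have cD' : G.Cr D' e' := (cr_one G hv hR hD' hD' jD').2 (Or.inr ⟨rfl, nD'.symm⟩)
  have nDD : D' ≠ D := by
    rintro rfl
    have hs : ({R, D'} : Finset (Finset V)) ⊆ ρ := insert_subset hR (singleton_subset_iff.2 hD)
    obtain ⟨f, fC, cf⟩ := hc {R, D'} hs (insert_nonempty _ _) fun q => by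
      have := card_le_two (a := R) (b := D')
      rw [q] at this
      omega
    have q : ({e, e'} : Finset E) = C.filter (G.Cr D') := eq_of_subset_of_card_le
      (insert_subset (mem_filter.2 ⟨eC, cD⟩) (singleton_subset_iff.2 (mem_filter.2 ⟨eC', cD'⟩)))
      (by rw [h2 D' hD, card_pair ne])
    have : f = e ∨ f = e' := by
      by_cases a : G.Cr R f
      · exact (he f).1 ⟨fC, a⟩
      · have b : f ∈ C.filter (G.Cr D') := by
          refine mem_filter.2 ⟨fC, ?_⟩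
          simp only [Gr.Cr, supp_insert, supp_singleton, mem_union, not_or] at a cf ⊢
          rcases cf with ⟨x | x, y, z⟩ | ⟨x | x, y, z⟩
          exacts [absurd ⟨x, y⟩ a.1, Or.inl ⟨x, z⟩, absurd ⟨x, y⟩ a.2, Or.inr ⟨x, z⟩]
        simpa [← q] using b
    rcases this with rfl | rfl
    · simpa using (cr_iff G hv hs hR hD jD).1 cf
    · simpa using (cr_iff G hv hs hR hD jD').1 cf
  have m1 : D ∈ ρ.erase R := mem_erase.2 ⟨nD, hD⟩
  have m2 : D' ∈ (ρ.erase R).erase D := mem_erase.2 ⟨nDD, mem_erase.2 ⟨nD', hD'⟩⟩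
  have eq : insert D (insert D' (((ρ.erase R).erase D).erase D')) = ρ.erase R := by
    rw [insert_erase m2, insert_erase m1]
  have cut : ∀ S ⊆ ρ, R ∉ S → ∀ f ∈ C, G.Cr R f → G.Cr (supp S) f →
      (f = e ∧ D ∈ S) ∨ (f = e' ∧ D' ∈ S) := fun S hS r f fC a b => by
    rcases (he f).1 ⟨fC, a⟩ with rfl | rfl
    · exact Or.inl ⟨rfl, by simpa [r] using (cr_iff G hv hS hR hD jD).1 b⟩
    · exact Or.inr ⟨rfl, by simpa [r] using (cr_iff G hv hS hR hD' jD').1 b⟩
  have cut1 : ∀ X ∈ ρ, X ≠ R → ∀ f ∈ C, G.Cr R f → G.Cr X f →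
      (f = e ∧ D = X) ∨ (f = e' ∧ D' = X) := fun X hX r f fC a b => by
    simpa using cut {X} (singleton_subset_iff.2 hX) (by simpa using r.symm) f fC a (by simpa using b)
  have one : ∀ X ∈ ρ, ∀ g ∈ C, G.Cr R g → G.Cr X g → (∀ f ∈ C, G.Cr R f → G.Cr X f → f = g) →
      ((C.filter fun f => ¬ G.Cr R f).filter (G.Cr X)).card = 1 := fun X hX g gC a b u => by
    have : (C.filter fun f => ¬ G.Cr R f).filter (G.Cr X) = (C.filter (G.Cr X)).erase g := by
      ext f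
      simp only [mem_filter, mem_erase]
      exact ⟨fun ⟨⟨p, q⟩, r⟩ => ⟨fun z => q (z ▸ a), p, r⟩,
        fun ⟨p, q, r⟩ => ⟨⟨q, fun z => p (u f q z r)⟩, r⟩⟩
    rw [this, card_erase_of_mem (mem_filter.2 ⟨gC, b⟩), h2 X hX]
  obtain ⟨Ch, p1, p2⟩ := h1 (((ρ.erase R).erase D).erase D') D D' (C.filter fun f => ¬ G.Cr R f)
    (hv.subset (eq.trans_subset (erase_subset _ _))) nDD.symm (by simp) (by simp)
    (fun f hf => by
      obtain ⟨fC, a⟩ := mem_filter.1 hf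
      obtain ⟨⟨i1, i2⟩, i3⟩ := hin f fC
      have b := i3 R hR
      rw [eq]
      refine ⟨?_, fun X hX => i3 X (mem_of_mem_erase hX)⟩
      rw [← insert_erase hR, supp_insert, mem_union] at i1 i2
      exact ⟨i1.resolve_left fun x => a (Or.inl ⟨x, fun y => b ⟨x, y⟩⟩),
        i2.resolve_left fun x => a (Or.inr ⟨x, fun y => b ⟨y, x⟩⟩)⟩)
    (one D hD e eC eR cD fun f fC a b =>
      (cut1 D hD nD f fC a b).elim And.left fun z => absurd z.2 nDD)
    (one D' hD' e' eC' eR' cD' fun f fC a b =>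
      (cut1 D' hD' nD' f fC a b).elim (fun z => absurd z.2 nDD.symm) And.left)
    (fun X hX => by
      simp only [mem_erase] at hX
      obtain ⟨x1, x2, x3, x4⟩ := hX
      rw [← h2 X x4, filter_filter]
      congr 1
      refine filter_congr fun f fC => ⟨And.right, fun b => ⟨fun a => ?_, b⟩⟩
      exact (cut1 X x4 x3 f fC a b).elim (fun z => x2 z.2.symm) fun z => x1 z.2.symm)
    (fun S hS hn => by
      have s1 : S ⊆ ρ := fun X hX => by simpa using (mem_erase.1 (mem_erase.1 (mem_erase.1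
        (hS hX)).2).2).2
      have s2 : R ∉ S := fun z => by simpa using hS z
      obtain ⟨f, fC, b⟩ := hc S s1 hn fun q => s2 (q ▸ hR)
      refine ⟨f, mem_filter.2 ⟨fC, fun a => ?_⟩, b⟩
      exact (cut S s1 s2 f fC a b).elim (fun z => by simpa using hS z.2)
        fun z => by simpa using hS z.2)
  refine ⟨_, ⟨D, D', e, e', Ch, hR, m1, m2, lt, jD, ?_, p1, rfl⟩, fun p hp => ?_⟩
  · exact jD'.elim (fun z => Or.inr z.symm) fun z => Or.inl z.symm
  · rcases mem_insert.1 hp with rfl | hp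
    · exact eC
    rcases mem_insert.1 hp with rfl | hp
    · exact eC'
    · exact (mem_filter.1 (p2 p hp)).1

end Pool.Agent.P.MP_81d17b_pr.St
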