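import Pool.Agent.P.MP_81d17b_pr.St.Stm

/-! A connected system of blocks with degrees one, two, ..., two, one is a path. -/

namespace Pool.Agent.P.MP_81d17b_pr.St

open Finset

set_option linter.unusedSectionVars false

variable {V E : Type} [Fintype V] [DecidableEq V] [Fintype E] [DecidableEq E]

namespace HamPathAux

variable {G : Gr V E} {ρ : Finset (Finset V)} {A Y Z : Finset V} {e : E}

theorem ends (he : G.In (supp ρ) e) (hA : G.Cr A e) : ∃ Y ∈ ρ, Y ≠ A ∧ G.Jn A Y e := by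
  rcases hA with h | h
  · obtain ⟨Y, hY, h'⟩ := mem_supp.1 he.2
    exact ⟨Y, hY, fun e' => h.2 (e' ▸ h'), Or.inl ⟨h.1, h'⟩⟩
  · obtain ⟨Y, hY, h'⟩ := mem_supp.1 he.1
    exact ⟨Y, hY, fun e' => h.2 (e' ▸ h'), Or.inr ⟨h.1, h'⟩⟩

theorem cr_right (hV : Valid ρ) (hA : A ∈ ρ) (hY : Y ∈ ρ) (hne : Y ≠ A) (h : G.Jn A Y e) :
    G.Cr Y e := by
  rcases h with h | h
  · exact Or.inr ⟨h.2, fun h' => hne (hV.unique hY hA h' h.1)⟩
  · exact Or.inl ⟨h.2, fun h' => hne (hV.unique hY hA h' h.1)⟩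

theorem not_cr_supp (hV : Valid ρ) (hA : A ∈ ρ) (hY : Y ∈ ρ) (h : G.Jn A Y e)
    {S : Finset (Finset V)} (hS : S ⊆ ρ) (h1 : A ∉ S) (h2 : Y ∉ S) : ¬ G.Cr (supp S) e := by
  have key : ∀ x, x ∈ A ∨ x ∈ Y → x ∉ supp S := fun x hx hx' => by
    obtain ⟨X, hX, hxX⟩ := mem_supp.1 hx'
    rcases hx with hx | hx
    · exact h1 (hV.unique (hS hX) hA hxX hx ▸ hX)
    · exact h2 (hV.unique (hS hX) hY hxX hx ▸ hX)
  have hs : G.s e ∉ supp S := key _ (h.imp And.left And.right)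
  have ht : G.t e ∉ supp S := key _ (h.symm.imp And.left And.right)
  rintro (h' | h')
  · exact hs h'.1
  · exact ht h'.1

theorem not_cr (hV : Valid ρ) (hA : A ∈ ρ) (hY : Y ∈ ρ) (h : G.Jn A Y e) (hZ : Z ∈ ρ)
    (h1 : Z ≠ A) (h2 : Z ≠ Y) : ¬ G.Cr Z e := by
  have := not_cr_supp hV hA hY h (singleton_subset_iff.2 hZ) (fun h' => h1 (mem_singleton.1 h').symm)
    fun h' => h2 (mem_singleton.1 h').symm
  rwa [supp_singleton] at this

theorem cr_of_mem (h : ¬ G.In A e) (h' : G.s e ∈ A ∨ G.t e ∈ A) : G.Cr A e := by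
  rcases h' with h' | h'
  · exact Or.inl ⟨h', fun h'' => h ⟨h', h''⟩⟩
  · exact Or.inr ⟨h', fun h'' => h ⟨h'', h'⟩⟩

theorem uniq {C : Finset E} (h : (C.filter (G.Cr A)).card = 1) :
    ∃ e ∈ C, G.Cr A e ∧ ∀ f ∈ C, G.Cr A f → f = e := by
  obtain ⟨e, he⟩ := card_eq_one.1 h
  have h1 := mem_filter.1 (he ▸ mem_singleton_self e)
  exact ⟨e, h1.1, h1.2, fun f hf hc => mem_singleton.1 (he ▸ mem_filter.2 ⟨hf, hc⟩)⟩

end HamPathAux

open HamPathAux

theorem pf_HamPath (G : Gr V E) : S_HamPath G := by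
  intro S
  induction S using Finset.strongInduction with
  | H S ih =>
  intro A B C hV hAB hAS hBS hC hA hB hS hcut
  obtain ⟨e, heC, heA, huA⟩ := uniq hA
  obtain ⟨Y, hY, hYA, hJ⟩ := ends (hC e heC).1 heA
  have mA : A ∈ insert A (insert B S) := mem_insert_self _ _
  have mB : B ∈ insert A (insert B S) := mem_insert_of_mem (mem_insert_self _ _)
  have mS : S ⊆ insert A (insert B S) := (subset_insert _ _).trans (subset_insert _ _)
  rcases mem_insert.1 ((mem_insert.1 hY).resolve_left hYA) with rfl | hYS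
  · obtain rfl : S = ∅ := by
      by_contra hne
      obtain ⟨f, hf, hcr⟩ := hcut S Subset.rfl (nonempty_iff_ne_empty.2 hne)
      obtain ⟨e', -, -, huB⟩ := uniq hB
      have h1 : ∃ x, (x = G.s f ∨ x = G.t f) ∧ x ∈ supp (insert A (insert Y S)) ∧ x ∉ supp S := by
        rcases hcr with h | h
        · exact ⟨_, Or.inr rfl, (hC f hf).1.2, h.2⟩
        · exact ⟨_, Or.inl rfl, (hC f hf).1.1, h.2⟩
      obtain ⟨x, hx, h2, h3⟩ := h1
      have h4 : ∀ X : Finset V, x ∈ X → G.s f ∈ X ∨ G.t f ∈ X := fun X h =>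
        hx.imp (fun e => by rwa [← e]) fun e => by rwa [← e]
      rw [supp_insert, supp_insert, mem_union, mem_union] at h2
      have h5 : f = e := by
        rcases h2 with h | h | h
        · exact huA f hf (cr_of_mem ((hC f hf).2 A mA) (h4 A h))
        · exact (huB f hf (cr_of_mem ((hC f hf).2 Y mB) (h4 Y h))).trans
            (huB e heC (cr_right hV mA mB hYA hJ)).symm
        · exact absurd h h3
      exact not_cr_supp hV mA mB hJ mS hAS hBS (h5 ▸ hcr)
    exact ⟨_, .nil hJ, fun p hp => mem_singleton.1 hp ▸ heC⟩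
  · have e1 : insert Y (insert B (S.erase Y)) = insert B S := by
      rw [insert_comm, insert_erase hYS]
    have hYB : Y ≠ B := fun h => hBS (h ▸ hYS)
    have hkeep : ∀ X ∈ insert A (insert B S), X ≠ A → X ≠ Y →
        (C.erase e).filter (G.Cr X) = C.filter (G.Cr X) := fun X hX h1 h2 => by
      rw [filter_erase, erase_eq_of_notMem fun h => not_cr hV mA hY hJ hX h1 h2 (mem_filter.1 h).2]
    refine Exists.elim (ih (S.erase Y) (erase_ssubset hYS) Y B (C.erase e)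
      (e1 ▸ hV.subset (subset_insert _ _)) hYB (notMem_erase _ _)
      (fun h => hBS (mem_of_mem_erase h)) (fun f hf => ?_) ?_ ?_ (fun X hX => ?_)
      (fun S' hS' hne => ?_)) fun Ch ⟨h1, h2⟩ => ?_
    · obtain ⟨hfe, hfC⟩ := mem_erase.1 hf
      have h3 := hC f hfC
      have h4 : ¬ (G.s f ∈ A ∨ G.t f ∈ A) := fun h => hfe (huA f hfC (cr_of_mem (h3.2 A mA) h))
      rw [e1]
      refine ⟨?_, fun X hX => h3.2 X (mem_insert_of_mem hX)⟩
      have h5 := h3.1
      rw [supp_insert] at h5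
      exact ⟨(mem_union.1 h5.1).resolve_left fun h => h4 (Or.inl h),
        (mem_union.1 h5.2).resolve_left fun h => h4 (Or.inr h)⟩
    · rw [filter_erase, card_erase_of_mem (mem_filter.2 ⟨heC, cr_right hV mA hY hYA hJ⟩), hS Y hYS]
    · rw [hkeep B mB hAB.symm hYB.symm, hB]
    · obtain ⟨h3, h4⟩ := mem_erase.1 hX
      rw [hkeep X (mS h4) (fun h => hAS (h ▸ h4)) h3, hS X h4]
    · have h3 : S' ⊆ S := hS'.trans (erase_subset _ _)
      obtain ⟨f, hf, hcr⟩ := hcut S' h3 hne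
      refine ⟨f, mem_erase.2 ⟨fun h => ?_, hf⟩, hcr⟩
      exact not_cr_supp hV mA hY hJ (h3.trans mS) (fun h' => hAS (h3 h'))
        (fun h' => notMem_erase _ _ (hS' h')) (h ▸ hcr)
    · refine ⟨_, .cons hYS hJ h1, fun p hp => ?_⟩
      rcases mem_insert.1 hp with rfl | hp
      · exact heC
      · exact mem_of_mem_erase (h2 p hp)

end Pool.Agent.P.MP_81d17b_pr.St
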