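import Pool.Agent.P.MP_81d17b_pr.St.Stm

/-! The intertwining relation for the cycle operators. -/

namespace Pool.Agent.P.MP_81d17b_pr.St

open Finset

variable {V E : Type} [Fintype V] [DecidableEq V] [Fintype E] [DecidableEq E]

namespace I1Aux

theorem Kop_sub (G : Gr V E) (e : E) {f g h : Finset (Finset V) → ℝ} {π : Finset (Finset V)}
    (hπ : Valid π) (H : ∀ π', Valid π' → f π' = g π' - h π') :
    G.Kop e f π = G.Kop e g π - G.Kop e h π := by
  by_cases a : ∃ X ∈ π, ∃ Y ∈ π, X ≠ Y ∧ G.s e ∈ X ∧ G.t e ∈ Y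
  · obtain ⟨X, hX, Y, hY, hne, hs, ht⟩ := a
    simp only [G.Kop_eq hπ hX hY hne hs ht]
    exact H _ (hπ.mrg (insert_subset hX (singleton_subset_iff.2 hY)) (insert_nonempty _ _))
  · simp only [G.Kop_eq_zero a, sub_zero]

/-- The operator `Om` shifts the weights of a difference of cycle operators. -/
theorem om_cop (G : Gr V E) (h : S_IdE G) (r W W' : E → ℝ) (f : Finset (Finset V) → ℝ)
    (l : List E) : ∀ π, Valid π →
    G.Om r l (fun π' => Cop (G.U W) f π' - Cop (G.U W') f π') π =
      Cop (G.U (W + (l.map fun e => Pi.single e (r e)).sum)) (G.Om r l f) π -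
        Cop (G.U (W' + (l.map fun e => Pi.single e (r e)).sum)) (G.Om r l f) π := by
  induction l with
  | nil => intro π _; simp [Gr.Om]
  | cons e l ih =>
    intro π hπ
    have h1 := h (W + (l.map fun e => Pi.single e (r e)).sum) e (r e) (G.Om r l f) π hπ
    have h2 := h (W' + (l.map fun e => Pi.single e (r e)).sum) e (r e) (G.Om r l f) π hπ
    simp only [Gr.Om, List.map_cons, List.sum_cons]
    rw [ih π hπ, Kop_sub G e hπ ih, add_comm (Pi.single e (r e) : E → ℝ), ← add_assoc, ← add_assoc]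
    linear_combination h1 - h2

end I1Aux

theorem pf_I1 (G : Gr V E) (h1 : S_IdE G) (h2 : S_OmB G) (h3 : S_CopSplit G) : S_I1 G := by
  intro r θ f π hπ
  obtain ⟨a1, -, a3, -⟩ := h2 r univ.toList
  have e := I1Aux.om_cop G h1 r r (-r) f univ.toList π hπ
  obtain ⟨-, b2, b3, b4⟩ := h3 r θ (G.Om r univ.toList f) π hπ
  rw [Finset.sum_map_toList, univ_sum_single, neg_add_cancel, b4, sub_zero] at e
  rw [a3 _ (fun π' => 1 / 2 * (Cop (G.U r) f π' - Cop (G.U (-r)) f π') +
    -G.rho r θ (supp π) univ * f π') π hπ fun π' a b => by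
      obtain ⟨c1, -, c3, -⟩ := h3 r θ f π' a
      rw [c1, c3, b]
      ring, a1, e, b3]
  linear_combination 1 / 2 * b2

end Pool.Agent.P.MP_81d17b_pr.St
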