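import Pool.Agent.P.MP_81d17b_pr.St.Stm

namespace Pool.Agent.P.MP_81d17b_pr.St

open Finset

set_option linter.unusedSectionVars false

variable {V E : Type} [Fintype V] [DecidableEq V] [Fintype E] [DecidableEq E]

namespace IdEAux

theorem pair_of_mrg {π S : Finset (Finset V)} (hS : S ⊆ π) {x y : V}
    (h : ∃ X ∈ mrg π S, ∃ Y ∈ mrg π S, X ≠ Y ∧ x ∈ X ∧ y ∈ Y) :
    ∃ X ∈ π, ∃ Y ∈ π, X ≠ Y ∧ x ∈ X ∧ y ∈ Y := by
  obtain ⟨X, hX, Y, hY, hne, hx, hy⟩ := h
  rcases Finset.mem_insert.1 hX with rfl | hX' <;> rcases Finset.mem_insert.1 hY with rfl | hY'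
  · exact absurd rfl hne
  · obtain ⟨A, hA, hxA⟩ := mem_supp.1 hx
    exact ⟨A, hS hA, Y, (Finset.mem_sdiff.1 hY').1,
      fun h => (Finset.mem_sdiff.1 hY').2 (h ▸ hA), hxA, hy⟩
  · obtain ⟨A, hA, hyA⟩ := mem_supp.1 hy
    exact ⟨X, (Finset.mem_sdiff.1 hX').1, A, hS hA,
      fun h => (Finset.mem_sdiff.1 hX').2 (h ▸ hA), hx, hyA⟩
  · exact ⟨X, (Finset.mem_sdiff.1 hX').1, Y, (Finset.mem_sdiff.1 hY').1, hne, hx, hy⟩

theorem mrg_pair {ρ : Finset (Finset V)} {A B : Finset V} (hA : A ∉ ρ) (hB : B ∉ ρ) :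
    mrg (insert A (insert B ρ)) {A, B} = insert (A ∪ B) ρ := by
  unfold mrg
  rw [supp_insert, supp_singleton]
  congr 1
  ext C
  simp only [Finset.mem_sdiff, Finset.mem_insert, Finset.mem_singleton]
  constructor
  · rintro ⟨h | h | h, h'⟩
    · exact absurd (Or.inl h) h'
    · exact absurd (Or.inr h) h'
    · exact h
  · intro h
    refine ⟨Or.inr (Or.inr h), ?_⟩
    rintro (rfl | rfl)
    · exact hA h
    · exact hB h

theorem Kop_pair (G : Gr V E) {ρ : Finset (Finset V)} {A B : Finset V} {e : E}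
    (h : Valid (insert A (insert B ρ))) (hne : A ≠ B) (hA : A ∉ ρ) (hB : B ∉ ρ) (hs : G.s e ∈ A)
    (ht : G.t e ∈ B) (f : Finset (Finset V) → ℝ) :
    G.Kop e f (insert A (insert B ρ)) = f (insert (A ∪ B) ρ) := by
  rw [G.Kop_eq h (Finset.mem_insert_self _ _)
    (Finset.mem_insert_of_mem (Finset.mem_insert_self _ _)) hne hs ht, mrg_pair hA hB]

theorem Cop_ite (u : Finset V → Finset V → ℝ) (f : Finset (Finset V) → ℝ) (π : Finset (Finset V)) :
    Cop u f π = ∑ S ∈ π.powerset, if S.Nonempty then Cyc u S * f (mrg π S) else 0 := by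
  rw [Cop, Finset.sum_filter]

end IdEAux

open IdEAux

theorem pf_IdE (G : Gr V E) (h1 : S_CycW G) : S_IdE G := by
  intro W e a f π hπ
  by_cases hXY : ∃ X ∈ π, ∃ Y ∈ π, X ≠ Y ∧ G.s e ∈ X ∧ G.t e ∈ Y
  swap
  · rw [G.Kop_eq_zero hXY, mul_zero, add_zero]
    unfold Cop
    rw [← Finset.sum_sub_distrib]
    refine Finset.sum_congr rfl fun S hS => ?_
    obtain ⟨hS1, hS2⟩ := Finset.mem_filter.1 hS
    have hS3 := Finset.mem_powerset.1 hS1
    have h2 := h1.2.2 W e a S (hπ.subset hS3) hS2 (fun ⟨X, hX, Y, hY, hh⟩ =>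
      hXY ⟨X, hS3 hX, Y, hS3 hY, hh⟩)
    beta_reduce
    rw [G.Kop_eq_zero (fun hh => hXY (pair_of_mrg hS3 hh)), ← sub_mul, h2]
    ring
  obtain ⟨X, hX, Y, hY, hne, hs, ht⟩ := hXY
  obtain ⟨π0, hX0, hY0, rfl⟩ : ∃ π0 : Finset (Finset V), X ∉ π0 ∧ Y ∉ π0 ∧
      π = insert X (insert Y π0) := by
    refine ⟨(π.erase X).erase Y, by simp, by simp, ?_⟩
    rw [Finset.insert_erase (Finset.mem_erase.2 ⟨hne.symm, hY⟩), Finset.insert_erase hX]
  have hsub : π0 ⊆ insert X (insert Y π0) :=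
    (Finset.subset_insert _ _).trans (Finset.subset_insert _ _)
  have hs0 : ∀ B ∈ π0, G.s e ∉ B := fun B hB h => hX0 (hπ.unique (hsub hB) hX h hs ▸ hB)
  have ht0 : ∀ B ∈ π0, G.t e ∉ B := fun B hB h => hY0 (hπ.unique (hsub hB) hY h ht ▸ hB)
  have hd : Disjoint X Y := hπ.2 X hX Y hY hne
  have hsY : G.s e ∉ Y := fun h => Finset.disjoint_left.1 hd hs h
  have htX : G.t e ∉ X := fun h => Finset.disjoint_left.1 hd h ht
  have hZ0 : X ∪ Y ∉ π0 := fun h => hs0 _ h (Finset.mem_union_left _ hs)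
  have hXY0 : X ∉ insert Y π0 := by simp [hne, hX0]
  rw [Kop_pair G hπ hne hX0 hY0 hs ht]
  simp only [Cop_ite]
  rw [← Finset.sum_sub_distrib, Finset.sum_powerset_insert hXY0, Finset.sum_powerset_insert hXY0,
    Finset.sum_powerset_insert hY0, Finset.sum_powerset_insert hY0, Finset.sum_powerset_insert hY0,
    Finset.sum_powerset_insert hY0, Finset.sum_powerset_insert hZ0]
  simp only [← Finset.sum_add_distrib, Finset.mul_sum]
  refine Finset.sum_congr rfl fun S hS => ?_
  have hS0 := Finset.mem_powerset.1 hS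
  have hXS : X ∉ S := fun h => hX0 (hS0 h)
  have hYS : Y ∉ S := fun h => hY0 (hS0 h)
  have hZS : X ∪ Y ∉ S := fun h => hZ0 (hS0 h)
  have hsS : G.s e ∉ supp S := fun h => by
    obtain ⟨B, hB, h'⟩ := mem_supp.1 h
    exact hs0 B (hS0 hB) h'
  have htS : G.t e ∉ supp S := fun h => by
    obtain ⟨B, hB, h'⟩ := mem_supp.1 h
    exact ht0 B (hS0 hB) h'
  have hsρ : ∀ B, G.s e ∈ B → B ∉ π0 \ S := fun B h hB => hs0 B (Finset.mem_sdiff.1 hB).1 h
  have htρ : ∀ B, G.t e ∈ B → B ∉ π0 \ S := fun B h hB => ht0 B (Finset.mem_sdiff.1 hB).1 h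
  have m0 : mrg (insert X (insert Y π0)) S = insert X (insert Y (insert (supp S) (π0 \ S))) := by
    unfold mrg
    rw [Finset.insert_sdiff_of_notMem _ hXS, Finset.insert_sdiff_of_notMem _ hYS,
      Finset.insert_comm, Finset.insert_comm (supp S)]
  have mX : mrg (insert X (insert Y π0)) (insert X S) =
      insert (X ∪ supp S) (insert Y (π0 \ S)) := by
    unfold mrg
    rw [supp_insert, Finset.insert_sdiff_insert, Finset.sdiff_insert_of_notMem hXY0,
      Finset.insert_sdiff_of_notMem _ hYS]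
  have mY : mrg (insert X (insert Y π0)) (insert Y S) =
      insert X (insert (Y ∪ supp S) (π0 \ S)) := by
    unfold mrg
    rw [supp_insert, Finset.insert_sdiff_of_notMem _ (by simp [hne, hXS]),
      Finset.insert_sdiff_insert, Finset.sdiff_insert_of_notMem hY0, Finset.insert_comm]
  have mXY : mrg (insert X (insert Y π0)) (insert X (insert Y S)) =
      insert (X ∪ Y ∪ supp S) (π0 \ S) := by
    unfold mrg
    rw [supp_insert, supp_insert, Finset.insert_sdiff_insert, Finset.sdiff_insert_of_notMem hXY0,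
      Finset.insert_sdiff_insert, Finset.sdiff_insert_of_notMem hY0, Finset.union_assoc]
  have n0 : mrg (insert (X ∪ Y) π0) S = insert (X ∪ Y) (insert (supp S) (π0 \ S)) := by
    unfold mrg
    rw [Finset.insert_sdiff_of_notMem _ hZS, Finset.insert_comm]
  have nZ : mrg (insert (X ∪ Y) π0) (insert (X ∪ Y) S) = insert (X ∪ Y ∪ supp S) (π0 \ S) := by
    unfold mrg
    rw [supp_insert, Finset.insert_sdiff_insert, Finset.sdiff_insert_of_notMem hZ0]
  have sX : insert X S ⊆ insert X (insert Y π0) :=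
    Finset.insert_subset_insert _ (hS0.trans (Finset.subset_insert _ _))
  have sY : insert Y S ⊆ insert X (insert Y π0) :=
    (Finset.insert_subset_insert _ hS0).trans (Finset.subset_insert _ _)
  have sXY : insert X (insert Y S) ⊆ insert X (insert Y π0) :=
    Finset.insert_subset_insert _ (Finset.insert_subset_insert _ hS0)
  have kX : G.Kop e f (insert (X ∪ supp S) (insert Y (π0 \ S))) =
      f (insert (X ∪ Y ∪ supp S) (π0 \ S)) := by
    rw [Kop_pair G (mX ▸ hπ.mrg sX (Finset.insert_nonempty _ _))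
      (fun h : X ∪ supp S = Y => hsY (h ▸ Finset.mem_union_left _ hs)) (hsρ _ (Finset.mem_union_left _ hs))
      (htρ _ ht) (Finset.mem_union_left _ hs) ht, Finset.union_right_comm]
  have kY : G.Kop e f (insert X (insert (Y ∪ supp S) (π0 \ S))) =
      f (insert (X ∪ Y ∪ supp S) (π0 \ S)) := by
    rw [Kop_pair G (mY ▸ hπ.mrg sY (Finset.insert_nonempty _ _))
      (fun h : X = Y ∪ supp S => htX (h ▸ Finset.mem_union_left _ ht)) (hsρ _ hs)
      (htρ _ (Finset.mem_union_left _ ht)) hs (Finset.mem_union_left _ ht), Finset.union_assoc]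
  have kXY : G.Kop e f (insert (X ∪ Y ∪ supp S) (π0 \ S)) = 0 := by
    refine G.Kop_eq_zero (fun ⟨A, hA, B, hB, hAB, h2, h3⟩ => ?_) f
    rcases Finset.mem_insert.1 hA with rfl | hA'
    · rcases Finset.mem_insert.1 hB with rfl | hB'
      · exact hAB rfl
      · exact htρ B h3 hB'
    · exact hsρ A h2 hA'
  have cX := h1.2.2 W e a (insert X S) (hπ.subset sX) (Finset.insert_nonempty _ _)
    (fun ⟨A, _, B, hB, _, _, h3⟩ => by
      rcases Finset.mem_insert.1 hB with rfl | hB'
      · exact htX h3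
      · exact ht0 B (hS0 hB') h3)
  have cY := h1.2.2 W e a (insert Y S) (hπ.subset sY) (Finset.insert_nonempty _ _)
    (fun ⟨A, hA, B, _, _, h2, _⟩ => by
      rcases Finset.mem_insert.1 hA with rfl | hA'
      · exact hsY h2
      · exact hs0 A (hS0 hA') h2)
  have cXY := h1.2.1 W e a S X Y (hπ.subset sXY) hne hXS hYS hs ht
  have cZ := h1.1 W S X Y hd hXS hYS hZS
  simp only [Finset.insert_nonempty, if_true]
  rw [mX, mY, mXY, nZ, kX, kY, kXY, cZ]
  have e0 : ((if S.Nonempty then Cyc (G.U (W + Pi.single e a)) S *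
        (f (mrg (insert X (insert Y π0)) S) + a * G.Kop e f (mrg (insert X (insert Y π0)) S))
        else 0) -
      if S.Nonempty then Cyc (G.U (Pi.single e a)) S *
        (f (mrg (insert X (insert Y π0)) S) + a * G.Kop e f (mrg (insert X (insert Y π0)) S))
        else 0) =
      (if S.Nonempty then Cyc (G.U W) S * f (mrg (insert X (insert Y π0)) S) else 0) +
        a * if S.Nonempty then Cyc (G.U W) S * f (mrg (insert (X ∪ Y) π0) S) else 0 := by
    by_cases hne' : S.Nonempty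
    · have c0 := h1.2.2 W e a S (hπ.subset (hS0.trans hsub)) hne'
        (fun ⟨A, hA, B, _, _, h2, _⟩ => hs0 A (hS0 hA) h2)
      have k0 : G.Kop e f (mrg (insert X (insert Y π0)) S) = f (mrg (insert (X ∪ Y) π0) S) := by
        have hv := hπ.mrg (hS0.trans hsub) hne'
        rw [m0] at hv
        rw [m0, n0, Kop_pair G hv hne ?_ ?_ hs ht]
        · intro h
          rcases Finset.mem_insert.1 h with h | h
          · exact hsS (h ▸ hs)
          · exact hsρ _ hs h
        · intro h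
          rcases Finset.mem_insert.1 h with h | h
          · exact htS (h ▸ ht)
          · exact htρ _ ht h
      simp only [hne', if_true]
      rw [← sub_mul, c0, k0]
      ring
    · simp [hne']
  rw [e0, ← sub_mul, ← sub_mul, ← sub_mul, cX, cY, cXY]
  ring

end Pool.Agent.P.MP_81d17b_pr.St
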