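import Pool.Agent.P.MP_81d17b_pr.St.Stm

/-! The commutation rule for the star operator. -/

namespace Pool.Agent.P.MP_81d17b_pr.St

open Finset

variable {V E : Type} [Fintype V] [DecidableEq V] [Fintype E] [DecidableEq E]

set_option linter.unusedSectionVars false

namespace IdSAux

theorem kop_ins (G : Gr V E) {e : E} {A B : Finset V} {R : Finset (Finset V)}
    (h : Valid (insert A (insert B R))) (hA : A ∉ insert B R) (hB : B ∉ R)
    (he : (G.s e ∈ A ∧ G.t e ∈ B) ∨ (G.t e ∈ A ∧ G.s e ∈ B)) (f : Finset (Finset V) → ℝ) :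
    G.Kop e f (insert A (insert B R)) = f (insert (A ∪ B) R) := by
  rw [mem_insert, not_or] at hA
  have e1 : insert A (insert B R) \ {A, B} = R := by
    ext D
    simp only [mem_sdiff, mem_insert, mem_singleton]
    constructor
    · tauto
    · exact fun hD => ⟨by tauto, by rintro (rfl | rfl) <;> tauto⟩
  have a := mem_insert_self A (insert B R)
  have b := mem_insert_of_mem (b := A) (mem_insert_self B R)
  rcases he with he | he
  · rw [G.Kop_eq h a b hA.1 he.1 he.2, mrg, e1, supp_insert, supp_singleton]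
  · rw [G.Kop_eq h b a (Ne.symm hA.1) he.2 he.1, pair_comm, mrg, e1, supp_insert, supp_singleton]

theorem kop_same (G : Gr V E) {e : E} {A : Finset V} {π : Finset (Finset V)} (h : Valid π)
    (hA : A ∈ π) (hs : G.s e ∈ A) (ht : G.t e ∈ A) (f : Finset (Finset V) → ℝ) :
    G.Kop e f π = 0 :=
  G.Kop_eq_zero (fun ⟨_, hX, _, hY, hne, a, b⟩ =>
    hne ((h.unique hX hA a hs).trans (h.unique hA hY ht b))) f

theorem kop_out (G : Gr V E) {e : E} {π : Finset (Finset V)}
    (h : G.s e ∉ supp π ∨ G.t e ∉ supp π) (f : Finset (Finset V) → ℝ) : G.Kop e f π = 0 :=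
  G.Kop_eq_zero (fun ⟨_, hX, _, hY, _, a, b⟩ =>
    h.elim (fun h => h (subset_supp hX a)) fun h => h (subset_supp hY b)) f

theorem str_out {π S : Finset (Finset V)} {Y : Finset V} (h : Y ∉ S) (x : V) :
    str (insert Y π) x S = insert (insert x (supp S)) (insert Y (π \ S)) := by
  rw [str, insert_sdiff_of_notMem _ h]

theorem str_in {π : Finset (Finset V)} (S : Finset (Finset V)) {Y : Finset V} (h : Y ∉ π) (x : V) :
    str (insert Y π) x (insert Y S) = insert (insert x (supp S) ∪ Y) (π \ S) := by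
  rw [str, supp_insert, union_comm Y, insert_union, insert_sdiff_insert, sdiff_insert_of_notMem h]

theorem new_not_mem {π R : Finset (Finset V)} {x : V} (hx : x ∉ supp π) (hR : R ⊆ π)
    {T : Finset V} (hT : x ∈ T) : T ∉ R := fun h => hx (subset_supp (hR h) hT)

/-- the case where `x` is an end of the edge -/
theorem case_end (G : Gr V E) (W : E → ℝ) (e : E) (a : ℝ) {x y : V} (f : Finset (Finset V) → ℝ)
    {π : Finset (Finset V)} (hπ : Valid π) (hx : x ∉ supp π)
    (he : (G.s e = x ∧ G.t e = y) ∨ (G.t e = x ∧ G.s e = y)) :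
    G.Sx W x (fun π' => f π' + a * G.Kop e f π') π = G.Sx (W + Pi.single e a) x f π := by
  have hxy : y ≠ x := by
    rintro rfl
    rcases he with h | h
    exacts [G.ne e (h.1.trans h.2.symm), G.ne e (h.2.trans h.1.symm)]
  have hu : ∀ D, G.U (W + Pi.single e a) {x} D = G.U W {x} D + if y ∈ D then a else 0 := by
    intro D
    rw [G.U_add, G.U_single]
    rcases he with ⟨rfl, rfl⟩ | ⟨rfl, rfl⟩ <;> simp [hxy]
  unfold Gr.Sx
  simp only [hu]
  by_cases hy : y ∈ supp π
  swap
  · refine sum_congr rfl fun S hS => ?_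
    rw [mem_powerset] at hS
    rw [kop_out G (π := str π x S) (by
      rw [supp_str hS]
      rcases he with ⟨-, h⟩ | ⟨-, h⟩ <;> simp [h, hxy, hy]), mul_zero, add_zero]
    congr 1
    exact prod_congr rfl fun D hD => by rw [if_neg fun h => hy (subset_supp (hS hD) h), add_zero]
  obtain ⟨Y, hY, hyY⟩ := mem_supp.1 hy
  obtain ⟨π₀, hY0, rfl⟩ : ∃ π₀, Y ∉ π₀ ∧ π = insert Y π₀ :=
    ⟨π.erase Y, notMem_erase _ _, (insert_erase hY).symm⟩
  rw [sum_powerset_insert hY0, sum_powerset_insert hY0, ← sum_add_distrib, ← sum_add_distrib]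
  refine sum_congr rfl fun S hS => ?_
  rw [mem_powerset] at hS
  have hYS : Y ∉ S := fun h => hY0 (hS h)
  have v1 := hπ.str (hS.trans (subset_insert _ _)) hx
  have v2 := hπ.str (insert_subset_insert Y hS) hx
  have p1 : ∏ D ∈ S, (G.U W {x} D + if y ∈ D then a else 0) = ∏ D ∈ S, G.U W {x} D :=
    prod_congr rfl fun D hD => by
      rw [if_neg fun h => hYS (hπ.unique (mem_insert_of_mem (hS hD)) hY h hyY ▸ hD), add_zero]
  rw [str_out hYS] at v1 ⊢
  rw [str_in S hY0] at v2 ⊢
  rw [prod_insert hYS, prod_insert hYS, p1, if_pos hyY, kop_ins G v1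
    (new_not_mem hx (insert_subset_insert Y sdiff_subset) (mem_insert_self _ _))
    (fun h => hY0 (mem_sdiff.1 h).1) (by rcases he with ⟨rfl, rfl⟩ | ⟨rfl, rfl⟩ <;> simp [hyY]),
    kop_same G v2 (mem_insert_self _ _) (by rcases he with ⟨rfl, rfl⟩ | ⟨rfl, rfl⟩ <;> simp [hyY])
      (by rcases he with ⟨rfl, rfl⟩ | ⟨rfl, rfl⟩ <;> simp [hyY])]
  ring

/-- the case where `x` is not an end of the edge -/
theorem case_not (G : Gr V E) (W : E → ℝ) (e : E) {x : V} (f : Finset (Finset V) → ℝ)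
    {π : Finset (Finset V)} (hπ : Valid π) (hx : x ∉ supp π) (hs : G.s e ≠ x) (ht : G.t e ≠ x) :
    G.Sx W x (G.Kop e f) π = G.Kop e (G.Sx W x f) π := by
  by_cases h : ∃ X ∈ π, ∃ Y ∈ π, X ≠ Y ∧ G.s e ∈ X ∧ G.t e ∈ Y
  swap
  · rw [G.Kop_eq_zero h]
    refine sum_eq_zero fun S hS => mul_eq_zero_of_right _ ?_
    rw [mem_powerset] at hS
    by_cases h1 : G.s e ∈ supp π ∧ G.t e ∈ supp π
    swap
    · exact kop_out G (by rw [supp_str hS]; simpa [hs, ht, ← not_and_or] using h1) f
    obtain ⟨X, hX, a⟩ := mem_supp.1 h1.1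
    obtain ⟨Y, hY, b⟩ := mem_supp.1 h1.2
    obtain rfl : X = Y := not_not.1 fun n => h ⟨X, hX, Y, hY, n, a, b⟩
    by_cases hXS : X ∈ S
    · exact kop_same G (hπ.str hS hx) (mem_insert_self _ _)
        (mem_insert_of_mem (subset_supp hXS a)) (mem_insert_of_mem (subset_supp hXS b)) f
    · exact kop_same G (hπ.str hS hx) (mem_insert_of_mem (mem_sdiff.2 ⟨hX, hXS⟩)) a b f
  obtain ⟨X, hX, Y, hY, hne, a, b⟩ := h
  obtain ⟨π₀, hX0, hY0, rfl⟩ : ∃ π₀, X ∉ insert Y π₀ ∧ Y ∉ π₀ ∧ π = insert X (insert Y π₀) :=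
    ⟨(π.erase X).erase Y, by simp [hne], notMem_erase _ _, by
      rw [insert_erase (mem_erase.2 ⟨hne.symm, hY⟩), insert_erase hX]⟩
  have hX1 : X ∉ π₀ := fun h => hX0 (mem_insert_of_mem h)
  have hZ : X ∪ Y ∉ π₀ := fun h => hX1
    (hπ.unique (mem_insert_of_mem (mem_insert_of_mem h)) hX (mem_union_left _ a) a ▸ h)
  rw [kop_ins G hπ hX0 hY0 (Or.inl ⟨a, b⟩)]
  unfold Gr.Sx
  rw [sum_powerset_insert hX0, sum_powerset_insert hY0, sum_powerset_insert hY0,
    sum_powerset_insert hZ, ← sum_add_distrib, ← sum_add_distrib, ← sum_add_distrib,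
    ← sum_add_distrib]
  refine sum_congr rfl fun S hS => ?_
  rw [mem_powerset] at hS
  have hXS : X ∉ S := fun h => hX1 (hS h)
  have hYS : Y ∉ S := fun h => hY0 (hS h)
  have hZS : X ∪ Y ∉ S := fun h => hZ (hS h)
  have hXR : X ∉ π₀ \ S := fun h => hX1 (mem_sdiff.1 h).1
  have hYR : Y ∉ π₀ \ S := fun h => hY0 (mem_sdiff.1 h).1
  have s1 : insert Y S ⊆ insert X (insert Y π₀) :=
    (insert_subset_insert Y hS).trans (subset_insert _ _)
  have s2 : insert X S ⊆ insert X (insert Y π₀) :=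
    insert_subset_insert X (hS.trans (subset_insert _ _))
  have r1 : insert X (π₀ \ S) ⊆ insert X (insert Y π₀) :=
    insert_subset_insert X (sdiff_subset.trans (subset_insert _ _))
  have r2 : insert Y (π₀ \ S) ⊆ insert X (insert Y π₀) :=
    (insert_subset_insert Y sdiff_subset).trans (subset_insert _ _)
  have e0 : str (insert X (insert Y π₀)) x S =
      insert X (insert Y (insert (insert x (supp S)) (π₀ \ S))) := by
    rw [str_out hXS, insert_sdiff_of_notMem _ hYS, Finset.insert_comm,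
      Finset.insert_comm (insert x (supp S))]
  have e1 : str (insert X (insert Y π₀)) x (insert Y S) =
      insert (insert x (supp S) ∪ Y) (insert X (π₀ \ S)) := by
    rw [Finset.insert_comm, str_in S (by simp [hne.symm, hY0]), insert_sdiff_of_notMem _ hXS]
  have e2 : str (insert X (insert Y π₀)) x (insert X S) =
      insert (insert x (supp S) ∪ X) (insert Y (π₀ \ S)) := by
    rw [str_in S hX0, insert_sdiff_of_notMem _ hYS]
  have v0 := hπ.str ((subset_insert _ _).trans s1) hx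
  have v1 := hπ.str s1 hx
  have v2 := hπ.str s2 hx
  have v3 := hπ.str (insert_subset_insert X (insert_subset_insert Y hS)) hx
  have nX : X ≠ insert x (supp S) := fun h => hx (subset_supp hX (h ▸ mem_insert_self _ _))
  have nY : Y ≠ insert x (supp S) := fun h => hx (subset_supp hY (h ▸ mem_insert_self _ _))
  rw [kop_same G v3 (mem_insert_self _ _)
    (mem_insert_of_mem (subset_supp (mem_insert_self _ _) a))
    (mem_insert_of_mem (subset_supp (mem_insert_of_mem (mem_insert_self _ _)) b))]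
  rw [e0] at v0 ⊢
  rw [e1] at v1 ⊢
  rw [e2] at v2 ⊢
  rw [kop_ins G v0 (by simp only [mem_insert, not_or]; exact ⟨hne, nX, hXR⟩)
      (by simp only [mem_insert, not_or]; exact ⟨nY, hYR⟩) (Or.inl ⟨a, b⟩),
    kop_ins G v1 (new_not_mem hx r1 (by simp)) hXR (Or.inr ⟨mem_union_right _ b, a⟩),
    kop_ins G v2 (new_not_mem hx r2 (by simp)) hYR (Or.inl ⟨mem_union_right _ a, b⟩),
    str_out hZS, str_in S hZ, Finset.insert_comm (X ∪ Y), union_assoc, union_assoc, union_comm Y X,
    prod_insert hXS, prod_insert hYS, prod_insert hZS,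
    show G.U W {x} (X ∪ Y) = G.U W {x} X + G.U W {x} Y from
      G.blk_union_right W W _ (hπ.2 X hX Y hY hne)]
  ring

end IdSAux

open IdSAux in
theorem pf_IdS (G : Gr V E) : S_IdS G := by
  intro W e a x f π hπ hx
  by_cases hs : G.s e = x
  · rw [case_end G W e a f hπ hx (Or.inl ⟨hs, rfl⟩), kop_out G (Or.inl (hs ▸ hx)), mul_zero,
      add_zero]
  by_cases ht : G.t e = x
  · rw [case_end G W e a f hπ hx (Or.inr ⟨ht, rfl⟩), kop_out G (Or.inr (ht ▸ hx)), mul_zero,
      add_zero]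
  have h : G.Sx (W + Pi.single e a) x f = G.Sx W x f := by
    funext π'
    simp [Gr.Sx, G.U_add, G.U_single, hs, ht]
  rw [h, ← case_not G W e f hπ hx hs ht]
  simp only [Gr.Sx, mul_add, sum_add_distrib, mul_sum, mul_left_comm a]

end Pool.Agent.P.MP_81d17b_pr.St
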