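import Pool.Agent.P.MP_81d17b_pr.St.Stm

/-! Inner edges of a component of weight zero, and the level of an edge. -/

namespace Pool.Agent.P.MP_81d17b_pr.St

open Finset
open scoped symmDiff

set_option linter.unusedSectionVars false

variable {V E : Type} [Fintype V] [DecidableEq V] [Fintype E] [DecidableEq E]

namespace InnerAux

theorem wt_symmDiff_zero {w : E → ℝ} {K Z : Finset E} (hK : ∀ e ∈ K, w e = 0) (hZ : Z ⊆ K)
    (S : Finset E) : wt w (S ∆ Z) = wt w S := by
  rw [wt_symmDiff]
  have h0 : wt (sgn S w) Z = 0 := by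
    unfold wt
    refine Finset.sum_eq_zero fun e he => ?_
    simp [sgn, hK e (hZ he)]
  rw [h0, add_zero]

theorem wt_symmDiff_single (w : E → ℝ) (S : Finset E) (e : E) :
    wt w (S ∆ {e}) = wt w S + if e ∈ S then -w e else w e := by
  rw [wt_symmDiff]
  simp [wt, sgn]

theorem exists_cover (G : Gr V E) (K : Finset E) (F : Finset E) :
    (∀ e ∈ F, G.Conn K (G.s e) (G.t e)) → ∃ Z, Z ⊆ K ∧ G.bd Z = G.bd F := by
  induction F using Finset.induction_on with
  | empty => exact fun _ => ⟨∅, Finset.empty_subset _, rfl⟩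
  | insert e F he ih =>
    intro h
    obtain ⟨Z, hZ, hb⟩ := ih fun f hf => h f (Finset.mem_insert_of_mem hf)
    obtain ⟨P, hP, hbP⟩ := h e (Finset.mem_insert_self _ _)
    refine ⟨P ∆ Z, ?_, ?_⟩
    · intro f hf
      rcases Finset.mem_symmDiff.1 hf with h1 | h1
      · exact hP h1.1
      · exact hZ h1.1
    · rw [G.bd_symmDiff, hb, hbP, ← G.bd_singleton, ← G.bd_union (Finset.disjoint_singleton_left.2 he)]
      rfl

theorem inner_nonpos (G : Gr V E) {T : Finset V} {J : V → Finset E} {w : E → ℝ} {η : V → ℝ}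
    {K : Finset E} (h : G.Opt T J w η) (hK : ∀ e ∈ K, w e = 0) (x : V) (f : E) (hf : f ∈ J x)
    (hc : G.Conn K (G.s f) (G.t f)) : w f ≤ 0 := by
  obtain ⟨P, hP, hb⟩ := hc
  have h1 : G.bd ((J x ∆ {f}) ∆ P) = ind T + pt x := by
    rw [G.bd_symmDiff, G.bd_symmDiff, G.bd_singleton, hb, h.1 x, add_assoc, fn_add_self, add_zero]
  have h2 := h.2 x x _ h1
  rw [wt_symmDiff_zero hK hP, wt_symmDiff_single, if_pos hf] at h2
  linarith

theorem step (G : Gr V E) {T : Finset V} {J : V → Finset E} {w : E → ℝ} (h : G.MinFam T J w)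
    (e : E) (a b : V) (hab : pt (G.s e) + pt (G.t e) = (pt a + pt b : V → ZMod 2)) :
    hh w J b ≤ hh w J a + if e ∈ J a then -w e else w e := by
  have h1 : G.bd (J a ∆ {e}) = ind T + pt b := by
    rw [G.bd_symmDiff, G.bd_singleton, hab, h.1 a, add_assoc, ← add_assoc (pt a), fn_add_self,
      zero_add]
  have h2 := h.2 b b _ h1
  rw [wt_symmDiff_single] at h2
  unfold hh at h2 ⊢
  linarith

end InnerAux

open InnerAux

theorem pf_Inner (G : Gr V E) : S_Inner G := by
  classical
  intro T J w η K h hK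
  refine ⟨fun x f hf hc => inner_nonpos G h hK x f hf hc, fun w' hin hout => ⟨h.1, ?_⟩⟩
  intro x x' S hS
  have hJ : wt w' (J x') = wt w (J x') := by
    unfold wt
    refine Finset.sum_congr rfl fun f hf => ?_
    by_cases hc : G.Conn K (G.s f) (G.t f)
    · have h1 := inner_nonpos G h hK x' f hf hc
      have h2 := hin f hc
      linarith [h2.1, h2.2]
    · exact hout f hc
  set F : Finset E := univ.filter fun e => G.Conn K (G.s e) (G.t e) with hF
  have hmem : ∀ e, e ∈ F ↔ G.Conn K (G.s e) (G.t e) := fun e => by simp [hF]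
  obtain ⟨Z, hZ, hb⟩ := exists_cover G K (S ∩ F) fun e he => (hmem e).1 (Finset.mem_inter.1 he).2
  have h1 : G.bd ((S \ F) ∆ Z) = ind T + pt x := by
    rw [G.bd_symmDiff, hb, ← G.bd_sdiff_add_inter, hS]
  have h2 := h.2 x x' _ h1
  rw [wt_symmDiff_zero hK hZ] at h2
  have h3 : wt w (S \ F) = wt w' (S \ F) := by
    unfold wt
    refine Finset.sum_congr rfl fun e he => (hout e fun hc => ?_).symm
    exact (Finset.mem_sdiff.1 he).2 ((hmem e).2 hc)
  have h4 : wt w' (S \ F) ≤ wt w' S := by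
    unfold wt
    refine Finset.sum_le_sum_of_subset_of_nonneg Finset.sdiff_subset fun e he hne => ?_
    refine (hin e ((hmem e).1 ?_)).1
    by_contra hn
    exact hne (Finset.mem_sdiff.2 ⟨he, hn⟩)
  linarith

theorem pf_Lev0 (G : Gr V E) : S_Lev0 G := by
  intro T J w h hw e
  have h1 := step G h e (G.s e) (G.t e) rfl
  have h2 := step G h e (G.t e) (G.s e) (add_comm _ _)
  have h0 := hw e
  unfold Gr.yy
  refine ⟨?_, ?_, fun he => ?_, fun he => ?_⟩
  · split_ifs at h2 <;> linarith
  · split_ifs at h1 <;> linarith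
  · rw [if_pos he] at h1
    linarith
  · rw [if_pos he] at h2
    linarith

end Pool.Agent.P.MP_81d17b_pr.St
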