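import Pool.Agent.P.MP_81d17b_pr.St.Stm

/-! The intertwining of the two cluster recursions. -/

namespace Pool.Agent.P.MP_81d17b_pr.St

open Finset

variable {V E : Type} [Fintype V] [DecidableEq V] [Fintype E] [DecidableEq E]

namespace InterAux

theorem Kop_congr (G : Gr V E) (e : E) {f g : Finset (Finset V) → ℝ} {π : Finset (Finset V)}
    (hπ : Valid π) (h : ∀ π', Valid π' → supp π' = supp π → f π' = g π') :
    G.Kop e f π = G.Kop e g π := by
  refine sum_congr rfl fun X hX => sum_congr rfl fun Y hY => ?_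
  have hS : ({X, Y} : Finset (Finset V)) ⊆ π := by
    intro Z hZ
    rcases mem_insert.1 hZ with rfl | hZ
    · exact hX
    · rwa [mem_singleton.1 hZ]
  rw [h _ (hπ.mrg hS (insert_nonempty _ _)) (supp_mrg hS)]

theorem Sx_Om (G : Gr V E) (h2 : S_IdS G) (r : E → ℝ) (x : V) (f : Finset (Finset V) → ℝ) :
    ∀ (l : List E) (W : E → ℝ) (π : Finset (Finset V)), Valid π → x ∉ supp π →
      G.Sx W x (G.Om r l f) π =
        G.Om r l (G.Sx (W + (l.map fun e => (Pi.single e (r e) : E → ℝ)).sum) x f) π := by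
  intro l
  induction l with
  | nil => intro W π _ _; simp [Gr.Om]
  | cons e l ih =>
    intro W π hπ hx
    have e1 := h2 W e (r e) x (G.Om r l f) π hπ hx
    rw [List.map_cons, List.sum_cons, ← add_assoc]
    simp only [Gr.Om]
    rw [e1, ih _ π hπ hx, Kop_congr G e hπ fun π' h h' => ih _ π' h (h' ▸ hx)]

theorem Sx_zero (G : Gr V E) (x : V) (f : Finset (Finset V) → ℝ) (π : Finset (Finset V)) :
    G.Sx 0 x f π = f (insert {x} π) := by
  rw [Gr.Sx, sum_eq_single ∅]
  · rw [prod_empty, one_mul, str_empty]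
  · intro S _ hS
    obtain ⟨D, hD⟩ := nonempty_iff_ne_empty.2 hS
    rw [prod_eq_zero hD (by simp [Gr.U, Gr.blk]), zero_mul]
  · intro h
    exact absurd (empty_mem_powerset π) h

theorem w2_insert {π : Finset (Finset V)} {x : V} (hx : x ∉ supp π) :
    w2 (insert {x} π) = w2 π := by
  have h1 : ({x} : Finset V) ∉ π := fun h => hx (subset_supp h (mem_singleton_self x))
  rw [w2, w2, supp_insert, card_insert_of_notMem h1, ← insert_eq, card_insert_of_notMem hx,
    pow_succ, pow_succ, mul_div_mul_right _ _ two_ne_zero]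

end InterAux

open InterAux in
theorem pf_Inter (G : Gr V E) (h1 : S_I1 G) (h2 : S_IdS G) (h3 : S_OmB G) : S_Inter G := by
  intro r θ f π hπ
  obtain ⟨a1, a2, a3, -, -⟩ := h3 r univ.toList
  have e0 : ((univ : Finset E).toList.map fun e => (Pi.single e (r e) : E → ℝ)).sum = r := by
    rw [sum_map_toList]
    exact univ_sum_single r
  have e1 : G.LT r θ f = fun π' => 1 * G.Sop r f π' +
      1 * (Odd3 (G.U r) f π' - G.Qs r θ π' * f π') := by
    funext π'
    rw [Gr.LT]
    ring
  have e2 : G.Om r univ.toList (G.Sop r f) π =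
      ∑ x ∈ (supp π)ᶜ, G.Om r univ.toList f (insert {x} π) := by
    rw [a3 _ (fun π' => ∑ x ∈ (supp π)ᶜ, G.Sx r x f π') π hπ fun π' _ h => by rw [Gr.Sop, h], a2]
    refine sum_congr rfl fun x hx => ?_
    have := Sx_Om G h2 r x f univ.toList 0 π hπ (mem_compl.1 hx)
    rw [e0, zero_add, Sx_zero] at this
    exact this.symm
  have e3 : Bop (fun π' => w2 π' * G.Om r univ.toList f π') π =
      w2 π * G.Om r univ.toList (G.Sop r f) π := by
    rw [e2, mul_sum, Bop]
    exact sum_congr rfl fun x hx => by rw [w2_insert (mem_compl.1 hx)]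
  rw [e1, a1, Gr.LA, e3, one_mul, one_mul, mul_add, h1 r θ f π hπ]
  ring

end Pool.Agent.P.MP_81d17b_pr.St
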