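import Pool.Agent.P.MP_81d17b_pr.St.Stm

/-! The children of a component at its birth. -/

namespace Pool.Agent.P.MP_81d17b_pr.St

variable {V E : Type} [Fintype V] [DecidableEq V] [Fintype E] [DecidableEq E]

theorem pf_Kids (G : Gr V E) (h1 : S_Comp G) : S_Kids G := by
  intro T J w hm hw b t D hb hg
  obtain ⟨c1, c2, c3, c4, c5⟩ := h1 T J w hm hw
  have kt : ∀ s e, e ∈ G.Kt w J s ↔ G.yy w J e ≤ s := fun s e => by simp [Gr.Kt]
  have val : Valid (G.kids w J t D) := by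
    refine ⟨fun A hA => (c1 t A ((G.mem_kids w J t D A).1 hA).1).1, fun A hA B hB hne => ?_⟩
    have a := ((G.mem_kids w J t D A).1 hA).1
    have a' := ((G.mem_kids w J t D B).1 hB).1
    exact Finset.disjoint_left.2 fun v hv hv' => hne (Finset.Subset.antisymm
      (c3 t t A B v le_rfl a a' hv hv') (c3 t t B A v le_rfl a' a hv' hv))
  have sub : supp (G.kids w J t D) ⊆ D := fun v hv => by
    obtain ⟨A, hA, h⟩ := mem_supp.1 hv
    exact ((G.mem_kids w J t D A).1 hA).2 h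
  have kid : ∀ v ∈ D, hh w J v ≤ t → ∃ A ∈ G.kids w J t D, v ∈ A := fun v hv h => by
    obtain ⟨A, hA, h'⟩ := c2 t v h
    exact ⟨A, (G.mem_kids w J t D A).2 ⟨hA, c3 b t A D v hg.1.le hA hb.1 h' hv⟩, h'⟩
  have low : ∀ e, G.In D e → (∀ A ∈ G.kids w J t D, ¬ G.In A e) → b ≤ G.yy w J e := by
    intro e he hn
    refine (hg.2.2 e).resolve_left fun h => ?_
    have hk := (kt t e).2 h
    obtain ⟨A, hA, h'⟩ := kid _ he.1 (c5 t _ _ (Gr.conn_edge hk) (G.ne e)).1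
    refine hn A hA ⟨h', ?_⟩
    by_contra h''
    exact (c1 t A ((G.mem_kids w J t D A).1 hA).1).2.2.1 e hk (Or.inl ⟨h', h''⟩)
  refine ⟨val, fun A hA e => hb.2 t hg.1 (e ▸ ((G.mem_kids w J t D A).1 hA).1), sub,
    fun v hv => ⟨fun h => ?_, fun h => ?_⟩, low, fun S hS hne hD => ?_⟩
  · obtain ⟨A, hA, h⟩ := mem_supp.1 h
    exact (((c1 t A ((G.mem_kids w J t D A).1 hA).1).2.1 v h).trans_lt hg.1).ne
  · exact mem_supp.2 (kid v hv ((hg.2.1 v).resolve_right fun h' =>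
      h (le_antisymm ((c1 b D hb.1).2.1 v hv) h')))
  · obtain ⟨e, he, hc, hi⟩ := c4 b D (supp S) hb.1 ((supp_mono hS).trans sub)
      ((val.subset hS).supp_nonempty hne) hD
    have hn : ∀ A ∈ G.kids w J t D, ¬ G.In A e := fun A hA h => by
      rcases hc with hc | hc
      · obtain ⟨B, hB, h'⟩ := mem_supp.1 hc.1
        exact hc.2 (mem_supp.2 ⟨B, hB, val.unique hA (hS hB) h.1 h' ▸ h.2⟩)
      · obtain ⟨B, hB, h'⟩ := mem_supp.1 hc.1
        exact hc.2 (mem_supp.2 ⟨B, hB, val.unique hA (hS hB) h.2 h' ▸ h.1⟩)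
    exact ⟨e, (G.mem_tight w J b D _ e).2 ⟨le_antisymm ((kt b e).1 he) (low e hi hn), hi, hn⟩, hc⟩

end Pool.Agent.P.MP_81d17b_pr.St
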