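import Pool.Agent.P.MP_81d17b_pr.St.Stm

/-! The integral over the weights is bounded by the total weight of the cluster structures. -/

namespace Pool.Agent.P.MP_81d17b_pr.St

open Finset MeasureTheory
open scoped ENNReal

variable {V E : Type} [Fintype V] [DecidableEq V] [Fintype E] [DecidableEq E]

theorem pf_M4 (G : Gr V E) (h1 : S_CV E) (h2 : S_GenAE E) (h3 : S_Orth E) (h4 : S_Expo G)
    (h5 : S_Nu G) (h6 : S_Exist G) (h7 : S_StrB G) : S_M4 G := by
  intro r θ hA hC T hT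
  have hV : Nonempty V := ⟨(card_pos.1 hT.pos).choose⟩
  set X := (G.strs univ).filter (fun ct => ct.2 = T) with hX
  have ex : ∀ ct ∈ X, (∀ f, 0 < G.rate r θ ct.1 f) ∧
      (∏ e, r e) * ∏ f, (G.rate r θ ct.1 f)⁻¹ = ∏ p ∈ ct.1, r p.2 / G.q r θ p.1 := by
    intro ct hct
    obtain ⟨-, s2, s3⟩ := h7 univ _ _ ((G.mem_strs ..).1 (mem_filter.1 hct).1)
    exact (h4 r θ ct.1 s3).2 hA fun p hp => (s2 p hp).2.2.1
  have cv := fun ct (hct : ct ∈ X) => h1 (Matrix.diagonal r * G.Mx ct.1) _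
    (h3 _ (ex ct hct).1).1
  choose! H m1 m2 m3 using cv
  have r0 : 0 ≤ ∏ e, r e := prod_nonneg fun e _ => (hA.pos e).le
  have w0 : ∀ ct ∈ X, G.wtc r θ ct.1 =
      |(Matrix.diagonal r * G.Mx ct.1).det| * ∏ f, (G.rate r θ ct.1 f)⁻¹ := by
    intro ct hct
    rw [Gr.wtc, ← (ex ct hct).2, Matrix.det_mul, Matrix.det_diagonal, abs_mul, abs_of_nonneg r0]
    ring
  have ae : ∀ᵐ v : E → ℝ, G.FT r θ (ind T) v ≤ ∑ ct ∈ X, H ct v := by
    filter_upwards [h2 r hA.pos, (Filter.eventually_all_finset X).2 m3] with v g1 g2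
    unfold Gr.FT
    split_ifs with hv
    swap
    · exact zero_le
    obtain ⟨J, j1, j2⟩ := h5.1 T (fun e => v e / r e) hC hT
    obtain ⟨c, c1, z, z0, z1, b, z2⟩ := h6 T J _ hC hV j1
      (fun e => (div_pos (hv e) (hA.pos e)).le) g1
    have hm : (c, T) ∈ X := mem_filter.2 ⟨(G.mem_strs ..).2 c1, rfl⟩
    have e0 : ∀ e, r e * (v e / r e) = v e := fun e => mul_div_cancel₀ _ (hA.pos e).ne'
    have e1 := (h4 r θ c (h7 univ c T c1).2.2).1 z _ _ b z1 z2
    simp only [e0, j2] at e1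
    have e2 := g2 _ hm z (by
      rw [← Matrix.mulVec_mulVec, z1]
      funext e
      rw [Matrix.mulVec_diagonal, e0])
    refine le_trans (le_of_eq ?_) (e2.trans (single_le_sum (f := fun ct => H ct v)
      (fun _ _ => zero_le) hm))
    unfold orthE
    rw [if_pos z0, ← e1]
    congr 2
    ring
  refine (lintegral_mono_ae ae).trans ?_
  rw [lintegral_finsetSum X m1, ENNReal.ofReal_sum_of_nonneg fun ct hct => by
    rw [w0 ct hct]
    exact mul_nonneg (abs_nonneg _) (prod_nonneg fun f _ => (inv_pos.2 ((ex ct hct).1 f)).le)]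
  refine sum_le_sum fun ct hct => (m2 ct hct).trans (le_of_eq ?_)
  rw [(h3 _ (ex ct hct).1).2, w0 ct hct, ENNReal.ofReal_mul (abs_nonneg _)]

end Pool.Agent.P.MP_81d17b_pr.St
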