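import Pool.Agent.P.MP_81d17b_pr.St.Stm

namespace Pool.Agent.P.MP_81d17b_pr.St

open Finset
open scoped symmDiff ENNReal

set_option linter.unusedSectionVars false

variable {V E : Type} [Fintype V] [DecidableEq V] [Fintype E] [DecidableEq E]

namespace MFibAux

def toSet (B : V → ZMod 2) : Finset V := univ.filter fun z => B z = 1

theorem ind_toSet (B : V → ZMod 2) : ind (toSet B) = B := by
  funext z
  have h : ∀ a : ZMod 2, (if a = 1 then 1 else 0) = a := by decide
  simp only [ind, toSet, Finset.mem_filter, Finset.mem_univ, true_and]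
  exact h _

theorem toSet_ind (T : Finset V) : toSet (ind T) = T := by
  ext z
  by_cases h : z ∈ T <;> simp [toSet, ind, h]

theorem sum_ind_univ (T : Finset V) : ∑ z, ind T z = (T.card : ZMod 2) := by
  rw [sum_ind, Finset.inter_univ]

theorem sum_bd_univ (G : Gr V E) (N : Finset E) : ∑ z, G.bd N z = 0 := by
  rw [G.sum_bd, Finset.filter_false_of_mem]
  · simp
  · intro e _ h
    rcases h with ⟨_, h⟩ | ⟨_, h⟩ <;> exact h (Finset.mem_univ _)

theorem card_odd (x : V) :
    2 ^ (Fintype.card V - 1) ≤ (univ.filter fun T : Finset V => Odd T.card).card := by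
  have h1 : ((univ.erase x).powerset : Finset (Finset V)).card = 2 ^ (Fintype.card V - 1) := by
    rw [Finset.card_powerset, Finset.card_erase_of_mem (Finset.mem_univ x), Finset.card_univ]
  rw [← h1]
  have hx : ∀ A ∈ (univ.erase x).powerset, x ∉ A := fun A hA h =>
    Finset.notMem_erase x univ (Finset.mem_powerset.1 hA h)
  have he : ∀ A ∈ (univ.erase x).powerset,
      (if Odd A.card then A else insert x A).erase x = A := by
    intro A hA
    split_ifs
    · exact Finset.erase_eq_of_notMem (hx A hA)
    · exact Finset.erase_insert (hx A hA)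
  refine Finset.card_le_card_of_injOn (fun A => if Odd A.card then A else insert x A) ?_ ?_
  · intro A hA
    simp only [Finset.coe_filter, Finset.mem_univ, true_and, Set.mem_ofPred_eq]
    split_ifs with h
    · exact h
    · rw [Finset.card_insert_of_notMem (hx A hA)]
      exact (Nat.not_odd_iff_even.1 h).add_one
  · intro A hA B hB h
    rw [← he A hA, ← he B hB]
    exact congrArg (fun C => Finset.erase C x) h

end MFibAux

open MFibAux

theorem pf_M6 (G : Gr V E) (h1 : S_Nu G) : S_M6 G := by
  intro hc T1 hT1 Φ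
  obtain ⟨x, _⟩ : T1.Nonempty := Finset.card_pos.1 hT1.pos
  set O : Finset (Finset V) := univ.filter fun T : Finset V => Odd T.card with hO
  set g : Finset E → Finset V := fun N => toSet (ind T1 + G.bd N) with hg
  have hmaps : ∀ N ∈ (univ : Finset (Finset E)), g N ∈ O := by
    intro N _
    refine Finset.mem_filter.2 ⟨Finset.mem_univ _, (ZMod.natCast_eq_one_iff_odd).1 ?_⟩
    rw [← sum_ind_univ, hg]
    simp only [ind_toSet, Pi.add_apply, Finset.sum_add_distrib, sum_bd_univ, sum_ind_univ, add_zero]
    exact (ZMod.natCast_eq_one_iff_odd).2 hT1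
  set m : ℕ := (univ.filter fun N : Finset E => G.bd N = 0).card with hm
  have hfib : ∀ T ∈ O, (univ.filter fun N : Finset E => g N = T).card = m := by
    intro T hT
    have hT' : Odd T.card := (Finset.mem_filter.1 hT).2
    obtain ⟨S, hS⟩ := h1.2.2.2 (ind T1 + ind T) hc (by
      simp only [Pi.add_apply, Finset.sum_add_distrib, sum_ind_univ]
      rw [(ZMod.natCast_eq_one_iff_odd).2 hT1, (ZMod.natCast_eq_one_iff_odd).2 hT']
      exact CharTwo.add_self_eq_zero _)
    refine Finset.card_nbij' (fun N => N ∆ S) (fun N => N ∆ S) ?_ ?_ ?_ ?_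
    · intro N hN
      have h2 : g N = T := by simpa using hN
      have h3 : ind T1 + G.bd N = ind T := by rw [← h2, hg, ind_toSet]
      simp only [Finset.coe_filter, Finset.mem_univ, true_and, Set.mem_ofPred_eq]
      rw [G.bd_symmDiff, hS, ← h3]
      calc G.bd N + (ind T1 + (ind T1 + G.bd N)) = (G.bd N + G.bd N) + (ind T1 + ind T1) := by abel
        _ = 0 := by rw [fn_add_self, fn_add_self, add_zero]
    · intro N hN
      have h2 : G.bd N = 0 := by simpa using hN
      simp only [Finset.coe_filter, Finset.mem_univ, true_and, Set.mem_ofPred_eq, hg]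
      rw [G.bd_symmDiff, hS, h2, zero_add, ← add_assoc, fn_add_self, zero_add, toSet_ind]
    · intro N _
      exact symmDiff_symmDiff_cancel_right _ _
    · intro N _
      exact symmDiff_symmDiff_cancel_right _ _
  have htot : O.card * m = 2 ^ Fintype.card E := by
    have := Finset.card_eq_sum_card_fiberwise (f := g) (s := univ) (t := O)
      (fun N hN => hmaps N hN)
    rw [Finset.sum_congr rfl hfib, Finset.sum_const, smul_eq_mul, Finset.card_univ,
      Fintype.card_finset] at this
    exact this.symm
  have hle : 2 ^ (Fintype.card V - 1) * m ≤ 2 ^ Fintype.card E :=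
    htot ▸ Nat.mul_le_mul_right m (card_odd x)
  have hsum : ∑ N : Finset E, Φ (ind T1 + G.bd N) = ∑ T ∈ O, (m : ℝ≥0∞) * Φ (ind T) := by
    rw [← Finset.sum_fiberwise_of_maps_to hmaps]
    refine Finset.sum_congr rfl fun T hT => ?_
    rw [Finset.sum_congr rfl (g := fun _ => Φ (ind T)), Finset.sum_const, hfib T hT, nsmul_eq_mul]
    intro N hN
    rw [← (Finset.mem_filter.1 hN).2, hg, ind_toSet]
  rw [hsum, ← Finset.mul_sum, ← mul_assoc]
  refine mul_le_mul_left ?_ _
  exact_mod_cast hle

end Pool.Agent.P.MP_81d17b_pr.St
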