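import Pool.Agent.P.MP_81d17b_pr.St.Stm

/-! Splitting the product of two-sided exponential laws according to the signs. -/

namespace Pool.Agent.P.MP_81d17b_pr.St

open Finset MeasureTheory
open scoped ENNReal

variable {E : Type} [Fintype E] [DecidableEq E]

namespace MSignAux

theorem integ : Integrable fun x : ℝ => Real.exp (-|x|) / 2 := by
  refine Integrable.div_const ?_ 2
  rw [← integrableOn_univ, ← Set.Iic_union_Ioi (a := (0 : ℝ))]
  refine IntegrableOn.union ?_ ?_
  · refine (integrableOn_exp_Iic 0).congr_fun (fun x hx => ?_) measurableSet_Iic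
    simp only [abs_of_nonpos (Set.mem_Iic.1 hx), neg_neg]
  · refine (integrableOn_exp_neg_Ioi 0).congr_fun (fun x hx => ?_) measurableSet_Ioi
    simp only [abs_of_pos (Set.mem_Ioi.1 hx)]

omit [DecidableEq E] in
theorem dens : (Measure.pi fun _ : E => laplace) =
    volume.withDensity fun ξ : E → ℝ => ENNReal.ofReal (∏ e, Real.exp (-|ξ e|) / 2) := by
  have : IsFiniteMeasure laplace := isFiniteMeasure_withDensity_ofReal integ.2
  have p : ∀ x : ℝ, 0 ≤ Real.exp (-|x|) / 2 := fun x => by positivity
  refine Measure.pi_eq fun s hs => ?_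
  rw [withDensity_apply _ (MeasurableSet.univ_pi hs), volume_pi, Measure.restrict_pi_pi,
    ← ofReal_integral_eq_lintegral_ofReal
      (Integrable.fintype_prod (f := fun _ x => Real.exp (-|x|) / 2) fun _ => integ.restrict)
      (ae_of_all _ fun ξ => Finset.prod_nonneg fun e _ => p _),
    integral_fintype_prod_eq_prod (fun _ x => Real.exp (-|x|) / 2),
    ENNReal.ofReal_prod_of_nonneg fun e _ => integral_nonneg p]
  refine Finset.prod_congr rfl fun e _ => ?_
  rw [laplace, withDensity_apply _ (hs e),
    ofReal_integral_eq_lintegral_ofReal integ.restrict (ae_of_all _ p)]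

theorem sgn_pres (N : Finset E) : MeasurePreserving (sgn N : (E → ℝ) → E → ℝ) := by
  have h := volume_preserving_pi (α' := fun _ : E => ℝ) (β' := fun _ : E => ℝ)
    (f := fun e x => if e ∈ N then -x else x) fun e => by
      by_cases he : e ∈ N
      · simp only [if_pos he]
        exact Measure.measurePreserving_neg _
      · simp only [if_neg he]
        exact MeasurePreserving.id _
  exact h

theorem meas {F : (E → ℝ) → ℝ≥0∞} (hF : Measurable F) (N : Finset E) :
    Measurable (posPart F N) := by
  refine Measurable.ite ?_ ((hF.comp (sgn_pres N).measurable).mul ?_) measurable_const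
  · rw [Set.ofPred_forall]
    exact MeasurableSet.iInter fun e => measurableSet_lt measurable_const (measurable_pi_apply e)
  · fun_prop

theorem point (F : (E → ℝ) → ℝ≥0∞) (ξ : E → ℝ) (h : ∀ e, ξ e ≠ 0) :
    ENNReal.ofReal (∏ e, Real.exp (-|ξ e|) / 2) * F ξ ≤ ∑ N : Finset E, posPart F N (sgn N ξ) := by
  obtain ⟨N, hN⟩ : ∃ N : Finset E, ∀ e, e ∈ N ↔ ξ e < 0 :=
    ⟨univ.filter fun e => ξ e < 0, fun e => by simp⟩
  have a : ∀ e, sgn N ξ e = |ξ e| := fun e => by
    unfold sgn
    split_ifs with he
    · rw [abs_of_neg ((hN e).1 he)]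
    · rw [abs_of_nonneg (not_lt.1 fun h' => he ((hN e).2 h'))]
  have b : sgn N (sgn N ξ) = ξ := by
    funext e
    unfold sgn
    split_ifs <;> simp
  refine le_trans (le_of_eq ?_)
    (Finset.single_le_sum (f := fun N => posPart F N (sgn N ξ)) (fun _ _ => zero_le) (mem_univ N))
  rw [posPart, if_pos fun e => by rw [a]; exact abs_pos.2 (h e), b, mul_comm,
    Finset.prod_div_distrib, ← Real.exp_sum, Finset.prod_const, Finset.card_univ,
    Finset.sum_neg_distrib]
  simp only [a]

end MSignAux

open MSignAux in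
theorem pf_M5 : S_M5 E := by
  intro F hF
  rw [MSignAux.dens, lintegral_withDensity_eq_lintegral_mul _ (by fun_prop) hF]
  have h0 : ∀ᵐ ξ : E → ℝ, ∀ e, ξ e ≠ 0 :=
    ae_all_iff.2 fun e => Measure.ae_eval_ne (fun _ : E => (volume : Measure ℝ)) e 0
  refine (lintegral_mono_ae (h0.mono fun ξ h => point F ξ h)).trans (le_of_eq ?_)
  rw [lintegral_finsetSum (f := fun N a => posPart F N (sgn N a)) _ fun N _ =>
    (meas hF N).comp (sgn_pres N).measurable]
  exact Finset.sum_congr rfl fun N _ => (sgn_pres N).lintegral_comp (meas hF N)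

end Pool.Agent.P.MP_81d17b_pr.St
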