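import Pool.Agent.P.MP_81d17b_pr.St.Stm

/-! The minimal weight of a join. -/

namespace Pool.Agent.P.MP_81d17b_pr.St

open Finset
open scoped symmDiff

set_option linter.unusedSectionVars false

variable {V E : Type} [Fintype V] [DecidableEq V] [Fintype E] [DecidableEq E]

namespace NuAux

theorem nu_le (G : Gr V E) (w : E → ℝ) {B : V → ZMod 2} {S : Finset E} (h : G.bd S = B) :
    G.nu w B ≤ wt w S :=
  ciInf_le (Finite.bddBelow_range fun S : {S : Finset E // G.bd S = B} => wt w S.1) ⟨S, h⟩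

theorem nu_ex (G : Gr V E) (w : E → ℝ) {B : V → ZMod 2} (h : ∃ S, G.bd S = B) :
    ∃ S, G.bd S = B ∧ wt w S = G.nu w B := by
  have : Nonempty {S : Finset E // G.bd S = B} := nonempty_subtype.2 h
  obtain ⟨S, hS⟩ := exists_eq_ciInf_of_finite
    (f := fun S : {S : Finset E // G.bd S = B} => wt w S.1)
  exact ⟨S.1, S.2, hS⟩

theorem ex_join (G : Gr V E) (B : V → ZMod 2) (hc : G.Cnd) (h : ∑ x, B x = 0) :
    ∃ S, G.bd S = B := by
  rcases isEmpty_or_nonempty V with hV | ⟨⟨o⟩⟩
  · exact ⟨∅, Subsingleton.elim _ _⟩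
  have key : ∀ A : Finset V, ∃ S, G.bd S = ∑ x ∈ A, B x • (pt o + pt x) := by
    intro A
    induction A using Finset.induction_on with
    | empty => exact ⟨∅, by simp⟩
    | insert x A hx ih =>
      obtain ⟨S, hS⟩ := ih
      obtain ⟨P, -, hP⟩ := hc o x
      have h01 : ∀ c : ZMod 2, c = 0 ∨ c = 1 := by decide
      rw [sum_insert hx]
      rcases h01 (B x) with h0 | h0
      · exact ⟨S, by rw [h0, zero_smul, zero_add, hS]⟩
      · exact ⟨P ∆ S, by rw [h0, one_smul, G.bd_symmDiff, hP, hS]⟩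
  obtain ⟨S, hS⟩ := key univ
  refine ⟨S, hS.trans ?_⟩
  simp only [smul_add, sum_add_distrib]
  rw [← sum_smul, h, zero_smul, zero_add]
  funext z
  simp [pt, Finset.sum_apply]

end NuAux

open NuAux in
theorem pf_Nu (G : Gr V E) : S_Nu G := by
  refine ⟨fun T w hc hT => ?_, fun B => ?_, fun B N w hB => ?_, ex_join G⟩
  · have : ∀ x, ∃ S, G.bd S = ind T + pt x ∧ wt w S = G.nu w (ind T + pt x) := fun x =>
      nu_ex G w (ex_join G _ hc (by
        simp only [Pi.add_apply, sum_add_distrib]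
        rw [sum_ind, sum_pt, if_pos (mem_univ x), inter_univ, (ZMod.natCast_eq_one_iff_odd).2 hT]
        rfl))
    choose J h1 h2 using this
    refine ⟨J, ⟨h1, fun x x' S hS => ?_⟩, h2⟩
    have := nu_le G w hS
    rw [hh, hh, sub_self, h2]
    linarith
  · rcases isEmpty_or_nonempty {S : Finset E // G.bd S = B} with h | h
    · simp only [Gr.nu, Real.iInf_of_isEmpty]
      exact continuous_const
    · simp only [Gr.nu, ← Finset.inf'_univ_eq_ciInf]
      exact Continuous.finset_inf'_apply _ fun S _ =>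
        continuous_finsetSum _ fun e _ => continuous_apply e
  · refine le_antisymm ?_ ?_
    · obtain ⟨S, hS⟩ := hB
      obtain ⟨P, h1, h2⟩ := nu_ex G w (B := B + G.bd N) ⟨S ∆ N, by rw [G.bd_symmDiff, hS]⟩
      have h3 := nu_le G (sgn N w) (B := B) (S := N ∆ P) (by
        rw [G.bd_symmDiff, h1, add_comm B, ← add_assoc, fn_add_self, zero_add])
      have h4 := wt_symmDiff w N (N ∆ P)
      rw [symmDiff_symmDiff_cancel_left] at h4
      linarith
    · obtain ⟨S, h1, h2⟩ := nu_ex G (sgn N w) hB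
      have h3 := nu_le G w (B := B + G.bd N) (S := N ∆ S) (by rw [G.bd_symmDiff, h1, add_comm])
      have h4 := wt_symmDiff w N S
      linarith

end Pool.Agent.P.MP_81d17b_pr.St
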