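import Pool.Agent.P.MP_81d17b_pr.St.Stm

/-! Basic properties of the product of the merging operators. -/

namespace Pool.Agent.P.MP_81d17b_pr.St

open Finset

set_option linter.unusedSectionVars false

variable {V E : Type} [Fintype V] [DecidableEq V] [Fintype E] [DecidableEq E]

namespace OmBAux

variable (G : Gr V E) (e : E)

theorem lin (f g : Finset (Finset V) → ℝ) (a b : ℝ) (π : Finset (Finset V)) :
    G.Kop e (fun π' => a * f π' + b * g π') π = a * G.Kop e f π + b * G.Kop e g π := by
  simp only [Gr.Kop, mul_sum, ← sum_add_distrib]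
  refine sum_congr rfl fun X _ => sum_congr rfl fun Y _ => ?_
  split_ifs <;> simp

theorem sub {π : Finset (Finset V)} {X Y : Finset V} (hX : X ∈ π) (hY : Y ∈ π) : {X, Y} ⊆ π :=
  insert_subset hX (singleton_subset_iff.2 hY)

theorem cgr {f g : Finset (Finset V) → ℝ} {π : Finset (Finset V)} (h : Valid π)
    (hf : ∀ π', Valid π' → supp π' = supp π → f π' = g π') : G.Kop e f π = G.Kop e g π :=
  sum_congr rfl fun _ hX => sum_congr rfl fun _ hY => if_congr Iff.rfl
    (hf _ (h.mrg (sub hX hY) (insert_nonempty _ _)) (supp_mrg (sub hX hY))) rfl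

theorem pos {f : Finset (Finset V) → ℝ} {π : Finset (Finset V)} (h : Valid π)
    (hf : ∀ π', Valid π' → 0 ≤ f π') : 0 ≤ G.Kop e f π :=
  sum_nonneg fun _ hX => sum_nonneg fun _ hY =>
    ite_nonneg (hf _ (h.mrg (sub hX hY) (insert_nonempty _ _))) le_rfl

theorem om_lin (r : E → ℝ) (l : List E) (f g : Finset (Finset V) → ℝ) (a b : ℝ) :
    G.Om r l (fun π' => a * f π' + b * g π') =
      fun π => a * G.Om r l f π + b * G.Om r l g π := by
  induction l with
  | nil => rfl
  | cons e l ih =>
    funext π
    simp only [Gr.Om]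
    rw [ih, lin]
    ring

end OmBAux

open OmBAux

theorem pf_OmB (G : Gr V E) : S_OmB G := by
  intro r l
  refine ⟨fun f g a b π => congrFun (om_lin G r l f g a b) π, fun s F π => ?_, fun f g => ?_,
    fun f hr hf => ?_, fun f π hπ => ?_⟩
  · induction s using Finset.induction_on with
    | empty => simpa using congrFun (om_lin G r l (fun _ => 0) (fun _ => 0) 0 0) π
    | insert x s hx ih =>
      have := congrFun (om_lin G r l (F x) (fun π' => ∑ y ∈ s, F y π') 1 1) π
      simp only [one_mul] at this
      simp only [sum_insert hx]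
      rw [this, ih]
  · induction l with
    | nil => exact fun π h hf => hf π h rfl
    | cons e l ih =>
      intro π h hf
      simp only [Gr.Om]
      rw [ih π h hf, cgr G e h fun π' h1 h2 => ih π' h1 fun π'' h3 h4 => hf π'' h3 (h4.trans h2)]
  · induction l with
    | nil => exact hf
    | cons e l ih => exact fun π h => add_nonneg (ih π h) (mul_nonneg (hr e) (pos G e h ih))
  · induction l with
    | nil => rfl
    | cons e l ih =>
      simp only [Gr.Om]
      rw [ih, G.Kop_eq_zero (fun ⟨X, hX, Y, hY, h, _⟩ => h (card_le_one.1 hπ X hX Y hY)), mul_zero,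
        add_zero]

end Pool.Agent.P.MP_81d17b_pr.St
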