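import Pool.Agent.P.MP_81d17b_pr.St.Stm

/-! The integral of an exponential over the orthant. -/

namespace Pool.Agent.P.MP_81d17b_pr.St

open Finset MeasureTheory

theorem pf_Orth (E : Type) [Fintype E] : S_Orth E := by
  classical
  intro l hl
  let g : E → ℝ → ℝ := fun e => (Set.Ici 0).indicator fun x => Real.exp (-l e * x)
  have hi : ∀ e, Integrable (g e) := fun e =>
    (integrable_indicator_iff measurableSet_Ici).2 ((integrableOn_Ici_iff_integrableOn_Ioi).2
      (integrableOn_exp_mul_Ioi (neg_lt_zero.2 (hl e)) 0))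
  have hm : ∀ e, Measurable (g e) := fun e => Measurable.indicator (by fun_prop) measurableSet_Ici
  have h0 : ∀ e x, 0 ≤ g e x := fun e x => Set.indicator_nonneg (fun _ _ => (Real.exp_pos _).le) x
  have hv : ∀ e, ∫ x, g e x = (l e)⁻¹ := fun e => by
    rw [integral_indicator measurableSet_Ici, integral_Ici_eq_integral_Ioi,
      integral_exp_mul_Ioi (neg_lt_zero.2 (hl e)), mul_zero, Real.exp_zero, neg_div_neg_eq, one_div]
  have he : orthE l = fun z => ENNReal.ofReal (∏ e, g e (z e)) := by
    funext z
    unfold orthE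
    split_ifs with h
    · rw [← sum_neg_distrib, Real.exp_sum]
      congr 1
      exact prod_congr rfl fun e _ => by
        simp only [g]
        rw [Set.indicator_of_mem (Set.mem_Ici.2 (h e)), neg_mul]
    · obtain ⟨e, h⟩ := not_forall.1 h
      rw [prod_eq_zero (mem_univ e) (Set.indicator_of_notMem h _), ENNReal.ofReal_zero]
  rw [he]
  refine ⟨(Finset.measurable_prod _ fun e _ =>
    (hm e).comp (measurable_pi_apply e)).ennreal_ofReal, ?_⟩
  beta_reduce
  rw [volume_pi, ← ofReal_integral_eq_lintegral_ofReal (Integrable.fintype_prod hi)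
    (Filter.Eventually.of_forall fun z => prod_nonneg fun e _ => h0 e _),
    integral_fintype_prod_eq_prod]
  simp only [hv]

end Pool.Agent.P.MP_81d17b_pr.St
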