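import Pool.Agent.P.MP_81d17b_pr.St.Stm

/-! Path sums: the last step, the splitting at a block, the choice of the root of a cycle. -/

namespace Pool.Agent.P.MP_81d17b_pr.St

open Finset

set_option linter.unusedSectionVars false

variable {V E : Type} [Fintype V] [DecidableEq V] [Fintype E] [DecidableEq E]

namespace Pth1Aux

theorem sum_pow_mem {α : Type} [DecidableEq α] (T : Finset α) (F : α → Finset α → ℝ) :
    ∑ S ∈ T.powerset, ∑ D ∈ S, F D S =
      ∑ D ∈ T, ∑ S ∈ (T.erase D).powerset, F D (insert D S) := by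
  have h1 : ∀ S ∈ T.powerset, ∑ D ∈ S, F D S = ∑ D ∈ T, if D ∈ S then F D S else 0 := fun S hS => by
    rw [← sum_filter, filter_mem_eq_inter, inter_eq_right.2 (mem_powerset.1 hS)]
  rw [sum_congr rfl h1, sum_comm]
  refine sum_congr rfl fun D hD => ?_
  conv_lhs => rw [← insert_erase hD]
  rw [sum_powerset_insert (notMem_erase D T), sum_eq_zero, zero_add]
  · exact sum_congr rfl fun S _ => if_pos (mem_insert_self _ _)
  · exact fun S hS => if_neg fun h => notMem_erase D T (mem_powerset.1 hS h)

theorem last (u : Finset V → Finset V → ℝ) (B : Finset V) (n : ℕ) :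
    ∀ (φ : Finset V → ℝ) (S : Finset (Finset V)), S.card = n + 1 →
      Pth u φ S B = ∑ D ∈ S, Pth u φ (S.erase D) D * u D B := by
  induction n with
  | zero =>
    intro φ S hS
    obtain ⟨A, rfl⟩ := card_eq_one.1 hS
    rw [Pth_step u φ (singleton_nonempty A)]
    simp
  | succ n ih =>
    intro φ S hS
    have hc : ∀ D ∈ S, (S.erase D).card = n + 1 := fun D hD => by
      rw [card_erase_of_mem hD, hS]; rfl
    have h1 : Pth u φ S B = ∑ D ∈ S, ∑ D' ∈ S.erase D,
        φ D * (Pth u (u D) ((S.erase D).erase D') D' * u D' B) := by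
      rw [Pth_step u φ (card_pos.1 (by omega))]
      exact sum_congr rfl fun D hD => by rw [ih (u D) _ (hc D hD), mul_sum]
    rw [h1, sum_comm' (s' := fun D => S.erase D) (t' := S) fun x y => by
      simp only [mem_erase]; tauto]
    refine sum_congr rfl fun D hD => ?_
    rw [Pth_step u φ (card_pos.1 (by rw [hc D hD]; omega)), sum_mul]
    exact sum_congr rfl fun D' _ => by rw [mul_assoc, erase_right_comm]

theorem step' (u : Finset V → Finset V → ℝ) (φ : Finset V → ℝ) (S : Finset (Finset V))
    (B : Finset V) : Pth u φ S B =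
      (if S = ∅ then φ B else 0) + ∑ D ∈ S, φ D * Pth u (u D) (S.erase D) B := by
  rcases S.eq_empty_or_nonempty with rfl | h
  · simp
  · rw [if_neg h.ne_empty, zero_add, Pth_step u φ h]

theorem split (u : Finset V → Finset V → ℝ) (B D : Finset V) (n : ℕ) :
    ∀ (φ : Finset V → ℝ) (T : Finset (Finset V)), T.card = n → D ∉ T →
      Pth u φ (insert D T) B = ∑ S ∈ T.powerset, Pth u φ S D * Pth u (u D) (T \ S) B := by
  induction n with
  | zero =>
    intro φ T hT _
    obtain rfl := card_eq_zero.1 hT
    rw [Pth_step u φ (insert_nonempty _ _)]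
    simp
  | succ n ih =>
    intro φ T hT hD
    rw [Pth_step u φ (insert_nonempty _ _), sum_insert hD, erase_insert hD,
      sum_congr (s₁ := T.powerset) rfl fun S _ => by rw [step' u φ S D, add_mul, sum_mul],
      sum_add_distrib,
      sum_pow_mem T fun D' S => φ D' * Pth u (u D') (S.erase D') D * Pth u (u D) (T \ S) B]
    congr 1
    · rw [sum_eq_single ∅ (fun S _ h => by rw [if_neg h, zero_mul]) (by simp)]
      simp
    · refine sum_congr rfl fun D' hD' => ?_
      rw [erase_insert_of_ne (fun e : D = D' => hD (e ▸ hD')),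
        ih (u D') (T.erase D') (by rw [card_erase_of_mem hD', hT]; rfl)
          fun h => hD (mem_of_mem_erase h), mul_sum]
      refine sum_congr rfl fun S hS => ?_
      rw [erase_insert fun h => notMem_erase D' T (mem_powerset.1 hS h), mul_assoc, sdiff_insert,
        erase_sdiff_comm]

theorem split' (u : Finset V → Finset V → ℝ) (φ : Finset V → ℝ) (S : Finset (Finset V))
    (B D : Finset V) (h : D ∈ S) : Pth u φ S B =
      ∑ S1 ∈ (S.erase D).powerset, Pth u φ S1 D * Pth u (u D) ((S.erase D) \ S1) B := by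
  rw [← split u B D _ φ _ rfl (notMem_erase D S), insert_erase h]

theorem reroot (u : Finset V → Finset V → ℝ) (S : Finset (Finset V)) {R R' : Finset V}
    (h : R ∈ S) (h' : R' ∈ S) : Pth u (u R') (S.erase R') R' = Pth u (u R) (S.erase R) R := by
  by_cases e : R = R'
  · rw [e]
  rw [split' u _ _ R' R (mem_erase.2 ⟨e, h⟩), split' u _ _ R R' (mem_erase.2 ⟨Ne.symm e, h'⟩),
    erase_right_comm (a := R)]
  refine sum_nbij' (fun S1 => (S.erase R').erase R \ S1) (fun S1 => (S.erase R').erase R \ S1)
    (fun _ _ => mem_powerset.2 sdiff_subset) (fun _ _ => mem_powerset.2 sdiff_subset)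
    (fun _ hS => Finset.sdiff_sdiff_eq_self (mem_powerset.1 hS))
    (fun _ hS => Finset.sdiff_sdiff_eq_self (mem_powerset.1 hS)) fun S1 hS => ?_
  rw [Finset.sdiff_sdiff_eq_self (mem_powerset.1 hS), mul_comm]

end Pth1Aux

theorem pf_Pth1 : S_Pth1 V := fun u =>
  ⟨fun φ S B h => Pth1Aux.last u B (S.card - 1) φ S (by have := h.card_pos; omega),
    fun φ S B D h => Pth1Aux.split' u φ S B D h,
    fun S _ h => Pth1Aux.reroot u S h (root_mem ⟨_, h⟩)⟩

end Pool.Agent.P.MP_81d17b_pr.St
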