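import Pool.Agent.P.MP_81d17b_pr.St.Stm

/-! Congruence, linearity, scaling and reversal of the path sums. -/

namespace Pool.Agent.P.MP_81d17b_pr.St

open Finset

variable {V : Type} [Fintype V] [DecidableEq V]

namespace Pth2Aux

theorem congr' (u u' : Finset V → Finset V → ℝ) (B B' : Finset V) (S : Finset (Finset V)) :
    ∀ φ φ' : Finset V → ℝ, (∀ D ∈ S, φ D = φ' D) → (S = ∅ → φ B = φ' B') →
    (∀ D ∈ S, ∀ D' ∈ S, D ≠ D' → u D D' = u' D D') → (∀ D ∈ S, u D B = u' D B') →
    Pth u φ S B = Pth u' φ' S B' := by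
  induction S using Finset.strongInduction with
  | H S ih =>
    intro φ φ' h1 h2 h3 h4
    rcases S.eq_empty_or_nonempty with rfl | hS
    · exact h2 rfl
    rw [Pth_step u φ hS, Pth_step u' φ' hS]
    refine sum_congr rfl fun D hD => ?_
    rw [h1 D hD, ih (S.erase D) (erase_ssubset hD) (u D) (u' D)
      (fun D' hD' => h3 D hD D' (mem_of_mem_erase hD') (ne_of_mem_erase hD').symm)
      (fun _ => h4 D hD)
      (fun X hX Y hY => h3 X (mem_of_mem_erase hX) Y (mem_of_mem_erase hY))
      fun X hX => h4 X (mem_of_mem_erase hX)]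

theorem scale (u : Finset V → Finset V → ℝ) (a : ℝ) (B : Finset V) (S : Finset (Finset V)) :
    ∀ φ : Finset V → ℝ,
      Pth (fun X Y => a * u X Y) (fun X => a * φ X) S B = a ^ (S.card + 1) * Pth u φ S B := by
  induction S using Finset.strongInduction with
  | H S ih =>
    intro φ
    rcases S.eq_empty_or_nonempty with rfl | hS
    · simp
    rw [Pth_step _ _ hS, Pth_step u φ hS, mul_sum]
    refine sum_congr rfl fun D hD => ?_
    rw [ih (S.erase D) (erase_ssubset hD) (u D), card_erase_add_one hD]
    ring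

theorem rev (h : S_Pth1 V) (u : Finset V → Finset V → ℝ) (B : Finset V) (S : Finset (Finset V)) :
    ∀ A, Pth u (u A) S B = Pth (fun X Y => u Y X) (fun Y => u Y B) S A := by
  induction S using Finset.strongInduction with
  | H S ih =>
    intro A
    rcases S.eq_empty_or_nonempty with rfl | hS
    · rfl
    rw [Pth_step _ _ hS, (h _).1 _ S A hS]
    exact sum_congr rfl fun D hD => by rw [ih (S.erase D) (erase_ssubset hD) D, mul_comm]

end Pth2Aux

open Pth2Aux

theorem pf_Pth2 (h : S_Pth1 V) : S_Pth2 V := by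
  refine ⟨fun u u' φ φ' S B B' => congr' u u' B B' S φ φ', fun u φ ψ S B => ?_,
    fun u φ S Xs B h1 h2 => ?_, fun u φ a S B => scale u a B S φ, fun u a S hS => ?_,
    fun u S A B => rev h u B S A⟩
  · rcases S.eq_empty_or_nonempty with rfl | hS
    · rfl
    · simp only [Pth_step _ _ hS, add_mul, sum_add_distrib]
  · rcases S.eq_empty_or_nonempty with rfl | hS
    · exact h1
    · simp only [(h u).1 φ S _ hS]
      rw [sum_comm]
      exact sum_congr rfl fun D hD => by rw [h2 D hD, mul_sum]
  · rw [Cyc, Cyc, scale, card_erase_add_one (root_mem hS)]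

end Pool.Agent.P.MP_81d17b_pr.St
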