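import Pool.Agent.P.MP_81d17b_pr.St.Stm

/-! Inequalities for path and cycle sums. -/

namespace Pool.Agent.P.MP_81d17b_pr.St

open Finset

variable {V : Type} [DecidableEq V]

namespace Pth3Aux

theorem step (u : Finset V → Finset V → ℝ) (φ : Finset V → ℝ) {S : Finset (Finset V)}
    (hS : S.Nonempty) (B : Finset V) :
    Pth u φ S B = ∑ D ∈ S, φ D * Pth u (u D) (S.erase D) B := by
  obtain ⟨k, hk⟩ : ∃ k, S.card = k + 1 := ⟨S.card - 1, by have := hS.card_pos; omega⟩
  unfold Pth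
  rw [hk, pth]
  refine sum_congr rfl fun D hD => ?_
  rw [card_erase_of_mem hD, hk]
  rfl

theorem nonneg {u : Finset V → Finset V → ℝ} (hu : ∀ X Y, 0 ≤ u X Y) (S : Finset (Finset V))
    (B : Finset V) : ∀ φ : Finset V → ℝ, (∀ X, 0 ≤ φ X) → 0 ≤ Pth u φ S B := by
  induction S using Finset.strongInduction with
  | H S ih =>
    intro φ hφ
    rcases S.eq_empty_or_nonempty with rfl | hS
    · exact hφ B
    · rw [step u φ hS]
      exact sum_nonneg fun D hD => mul_nonneg (hφ D) (ih _ (erase_ssubset hD) _ (hu D))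

theorem scale {u g : Finset V → Finset V → ℝ} {μ : Finset V → ℝ} {ρ : Finset (Finset V)}
    (hu : ∀ X Y, 0 ≤ u X Y) (hμ : ∀ X, 0 ≤ μ X)
    (h : ∀ X ∈ ρ, ∀ Y ∈ ρ, X ≠ Y → μ X * u X Y ≤ g X Y) {B : Finset V} (hB : B ∈ ρ)
    (S : Finset (Finset V)) : S ⊆ ρ → B ∉ S → ∀ A ∈ ρ, A ∉ S → (S = ∅ → A ≠ B) →
      μ A * (∏ X ∈ S, μ X) * Pth u (u A) S B ≤ Pth g (g A) S B := by
  induction S using Finset.strongInduction with
  | H S ih =>
    intro h1 h2 A hA h3 h4
    rcases S.eq_empty_or_nonempty with rfl | hS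
    · rw [prod_empty, mul_one]
      exact h A hA B hB (h4 rfl)
    · rw [step u _ hS, step g _ hS, mul_sum]
      refine sum_le_sum fun D hD => ?_
      have a := h A hA D (h1 hD) fun e => h3 (e ▸ hD)
      have b := ih _ (erase_ssubset hD) ((erase_subset D S).trans h1)
        (fun e => h2 (mem_of_mem_erase e)) D (h1 hD) (notMem_erase D S) fun _ e => h2 (e ▸ hD)
      refine le_trans (le_of_eq ?_) (mul_le_mul a b (mul_nonneg (mul_nonneg (hμ D)
        (prod_nonneg fun X _ => hμ X)) (nonneg hu _ _ _ (hu D)))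
        ((mul_nonneg (hμ A) (hu A D)).trans a))
      rw [← mul_prod_erase S μ hD]
      ring

theorem sq_le {u v g : Finset V → Finset V → ℝ} (hu : ∀ X Y, 0 ≤ u X Y) (hv : ∀ X Y, 0 ≤ v X Y)
    (h : ∀ X Y, g X Y ^ 2 ≤ u X Y * v X Y) (B : Finset V) (S : Finset (Finset V)) :
    ∀ A, Pth g (g A) S B ^ 2 ≤ Pth u (u A) S B * Pth v (v A) S B := by
  induction S using Finset.strongInduction with
  | H S ih =>
    intro A
    rcases S.eq_empty_or_nonempty with rfl | hS
    · exact h A B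
    · rw [step u _ hS, step v _ hS, step g _ hS]
      refine sum_sq_le_sum_mul_sum_of_sq_le_mul S
        (fun D _ => mul_nonneg (hu A D) (nonneg hu _ _ _ (hu D)))
        (fun D _ => mul_nonneg (hv A D) (nonneg hv _ _ _ (hv D))) fun D hD => ?_
      rw [mul_pow, mul_mul_mul_comm]
      exact mul_le_mul (h A D) (ih _ (erase_ssubset hD) D) (sq_nonneg _)
        (mul_nonneg (hu A D) (hv A D))

end Pth3Aux

open Pth3Aux in
theorem pf_Pth3 (_h1 : S_Pth1 V) (h2 : S_Pth2 V) : S_Pth3 V := by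
  refine ⟨fun u φ hu hφ S B => nonneg hu S B φ hφ, fun u hu S => nonneg hu _ _ _ (hu _),
    fun u g μ ρ hu hμ h hρ => ?_, fun u g hu hg h S => ?_⟩
  · have hne : ρ.Nonempty := card_pos.1 (by omega)
    have hr : root ρ ∈ ρ := by
      simp only [root, hne, dif_pos]
      exact hne.choose_spec
    rw [← mul_prod_erase ρ μ hr]
    refine scale hu hμ h hr _ (erase_subset _ _) (notMem_erase _ _) _ hr (notMem_erase _ _)
      fun e => ?_
    have := card_erase_of_mem hr
    rw [e, card_empty] at this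
    omega
  · have a := sq_le (v := fun X Y => u Y X) hu (fun X Y => hu Y X) h (root S) (S.erase (root S))
      (root S)
    rw [← h2.2.2.2.2.2 u, ← sq] at a
    exact le_of_sq_le_sq a (nonneg hu _ _ _ (hu _))

end Pool.Agent.P.MP_81d17b_pr.St
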