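import Pool.Agent.P.MP_81d17b_pr.St.Stm

/-! The union bound for the odd cycle events. -/

namespace Pool.Agent.P.MP_81d17b_pr.St

open Finset

variable {V E : Type} [Fintype V] [DecidableEq V] [Fintype E] [DecidableEq E]

namespace RCycAux

theorem sum_biUnion_le {ι α : Type} [DecidableEq α] (s : Finset ι) (t : ι → Finset α) {w : α → ℝ}
    (hw : ∀ x, 0 ≤ w x) : ∑ x ∈ s.biUnion t, w x ≤ ∑ i ∈ s, ∑ x ∈ t i, w x := by
  classical
  induction s using Finset.induction_on with
  | empty => simp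
  | insert i s hi ih =>
    rw [biUnion_insert, sum_insert hi]
    have h1 := sum_union_inter (s₁ := t i) (s₂ := s.biUnion t) (f := w)
    have h2 : 0 ≤ ∑ x ∈ t i ∩ s.biUnion t, w x := sum_nonneg fun x _ => hw x
    linarith

theorem sum_image_le {ι α : Type} [DecidableEq α] (s : Finset ι) (F : ι → α) {w : α → ℝ}
    (hw : ∀ x, 0 ≤ w x) : ∑ x ∈ s.image F, w x ≤ ∑ i ∈ s, w (F i) := by
  classical
  induction s using Finset.induction_on with
  | empty => simp
  | insert i s hi ih =>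
    rw [image_insert, sum_insert hi]
    by_cases h : F i ∈ s.image F
    · rw [insert_eq_of_mem h]; linarith [hw (F i)]
    · rw [sum_insert h]; linarith

/-- The rate of an edge that joins two blocks. -/
def jr (G : Gr V E) (r : E → ℝ) (A B : Finset V) (e : E) : ℝ := if G.Jn A B e then r e else 0

omit [Fintype V] [Fintype E] [DecidableEq E] in
theorem jr_nonneg (G : Gr V E) {r : E → ℝ} (hr : ∀ e, 0 ≤ r e) (A B : Finset V) (e : E) :
    0 ≤ jr G r A B e := by
  unfold jr; split_ifs; exacts [hr e, le_rfl]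

omit [Fintype V] [DecidableEq E] in
theorem sum_jr_le (G : Gr V E) {r : E → ℝ} (hr : ∀ e, 0 ≤ r e) (A B : Finset V) :
    ∑ e, jr G r A B e ≤ G.U r A B := by
  unfold Gr.U Gr.blk
  refine sum_le_sum fun e _ => ?_
  have := hr e
  unfold jr Gr.Jn
  by_cases h1 : G.s e ∈ A ∧ G.t e ∈ B <;> by_cases h2 : G.t e ∈ A ∧ G.s e ∈ B <;>
    simp only [h1, h2, if_true, if_false, and_self, or_true, true_or, or_self] <;> linarith

/-- The path sum between two blocks through all the others. -/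
def mid (u : Finset V → Finset V → ℝ) (S : Finset (Finset V)) (D D' : Finset V) : ℝ :=
  Pth u (u D) ((S.erase D).erase D') D'

omit [Fintype V] in
theorem mid_symm (h2 : S_Pth2 V) {u : Finset V → Finset V → ℝ} (hu : ∀ X Y, u X Y = u Y X)
    (S : Finset (Finset V)) (D D' : Finset V) : mid u S D D' = mid u S D' D := by
  unfold mid
  rw [h2.2.2.2.2.2 u _ D D', erase_right_comm]
  have e1 : (fun X Y => u Y X) = u := by funext X Y; exact hu Y X
  have e2 : (fun Y => u Y D') = u D' := by funext Y; exact hu Y D'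
  rw [e1, e2]

/-- The channels with prescribed edges at the root. -/
noncomputable def fib (G : Gr V E) (R : Finset V) (S : Finset (Finset V)) (D D' : Finset V)
    (e e' : E) : Finset (Finset (Finset V × E)) :=
  if ord e < ord e' ∧ G.Jn R D e ∧ G.Jn R D' e' then
    (G.pathChs D ((S.erase D).erase D') D').image fun Ch0 => insert (R, e) (insert (D', e') Ch0)
  else ∅

theorem fib_le (G : Gr V E) (h : S_R2 G) {r : E → ℝ} (hr : ∀ e, 0 ≤ r e) {R : Finset V}
    {S : Finset (Finset V)} (hR : R ∉ S) {D D' : Finset V} (hD : D ∈ S) (hD' : D' ∈ S.erase D)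
    (e e' : E) : ∑ Ch ∈ fib G R S D D' e e', ∏ p ∈ Ch, r p.2 ≤
      if ord e < ord e' then jr G r R D e * jr G r R D' e' * mid (G.U r) S D D' else 0 := by
  have hA : D ∉ (S.erase D).erase D' := fun h => (notMem_erase D S) (mem_of_mem_erase h)
  obtain ⟨h1, h2⟩ := h r hr ((S.erase D).erase D') D D' hA
  unfold fib
  by_cases hc : ord e < ord e' ∧ G.Jn R D e ∧ G.Jn R D' e'
  · rw [if_pos hc, if_pos hc.1, jr, jr, if_pos hc.2.1, if_pos hc.2.2]
    refine (sum_image_le _ _ fun x => prod_nonneg fun p _ => hr p.2).trans ?_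
    refine le_trans (le_of_eq ?_) (mul_le_mul_of_nonneg_left h2 (mul_nonneg (hr e) (hr e')))
    rw [mul_sum]
    refine sum_congr rfl fun Ch0 hCh => ?_
    have h3 := h1 Ch0 ((G.mem_pathChs _ _ _ _).1 hCh)
    have h4 : (D', e') ∉ Ch0 := fun hm => by
      rcases mem_insert.1 (h3 _ hm) with h5 | h5
      · exact (mem_erase.1 hD').1 h5
      · exact notMem_erase _ _ h5
    have h5 : (R, e) ∉ insert (D', e') Ch0 := fun hm => by
      rcases mem_insert.1 hm with h6 | h6
      · exact hR ((Prod.mk.inj h6).1 ▸ mem_of_mem_erase hD')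
      · rcases mem_insert.1 (h3 _ h6) with h7 | h7
        · exact hR ((show R = D from h7) ▸ hD)
        · exact hR (mem_of_mem_erase (mem_of_mem_erase h7))
    rw [prod_insert h5, prod_insert h4, mul_assoc]
  · rw [if_neg hc, sum_empty]
    split_ifs with h3
    · have h4 : jr G r R D e * jr G r R D' e' = 0 := by
        unfold jr
        by_cases h5 : G.Jn R D e
        · rw [if_neg fun h6 => hc ⟨h3, h5, h6⟩, mul_zero]
        · rw [if_neg h5, zero_mul]
      rw [h4, zero_mul]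
    · exact le_rfl

theorem cover (G : Gr V E) (ρ : Finset (Finset V)) :
    G.bloChs ρ ⊆ (ρ.erase (root ρ)).biUnion fun D => ((ρ.erase (root ρ)).erase D).biUnion fun D' =>
      univ.biUnion fun e => univ.biUnion fun e' => fib G (root ρ) (ρ.erase (root ρ)) D D' e e' := by
  intro Ch hCh
  obtain ⟨D, D', e, e', Ch0, -, h1, h2, h3, h4, h5, h6, h7⟩ := (G.mem_bloChs _ _).1 hCh
  simp only [mem_biUnion, mem_univ, true_and]
  refine ⟨D, h1, D', h2, e, e', ?_⟩
  have h8 : G.Jn (root ρ) D' e' := by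
    unfold Gr.Jn at h5 ⊢; tauto
  unfold fib
  rw [if_pos ⟨h3, h4, h8⟩]
  exact mem_image.2 ⟨Ch0, (G.mem_pathChs _ _ _ _).2 h6, h7.symm⟩

theorem swap {α β : Type} [DecidableEq α] [Fintype β] (S : Finset α) (F : α → α → β → β → ℝ) :
    ∑ D ∈ S, ∑ D' ∈ S.erase D, ∑ e, ∑ e', F D D' e e' =
      ∑ D ∈ S, ∑ D' ∈ S.erase D, ∑ e, ∑ e', F D' D e' e := by
  rw [sum_comm' (t' := S) (s' := fun D' => S.erase D') fun D D' => by
    simp only [mem_erase]; tauto]
  exact sum_congr rfl fun D _ => sum_congr rfl fun D' _ => sum_comm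

end RCycAux

open RCycAux in
theorem pf_R3 (G : Gr V E) (h : S_R2 G) (h1 : S_Pth1 V) (h2 : S_Pth2 V) (h3 : S_Pth3 V) :
    S_R3 G := by
  intro r hr ρ
  have hw : ∀ Ch : Finset (Finset V × E), 0 ≤ ∏ p ∈ Ch, r p.2 :=
    fun x => prod_nonneg fun p _ => hr p.2
  have hu : ∀ X Y, 0 ≤ G.U r X Y := G.blk_nonneg hr hr
  obtain ⟨R, hR⟩ : ∃ R, R = root ρ := ⟨_, rfl⟩
  obtain ⟨S, hS⟩ : ∃ S, S = ρ.erase R := ⟨_, rfl⟩
  have hRS : R ∉ S := hS ▸ notMem_erase _ _
  have hm : ∀ D D', 0 ≤ mid (G.U r) S D D' := fun D D' => h3.1 _ _ hu (hu D) _ _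
  have s1 : ∑ Ch ∈ G.bloChs ρ, ∏ p ∈ Ch, r p.2 ≤ ∑ D ∈ S, ∑ D' ∈ S.erase D, ∑ e, ∑ e',
      if ord e < ord e' then jr G r R D e * jr G r R D' e' * mid (G.U r) S D D' else 0 := by
    have c := cover G ρ
    rw [← hR, ← hS] at c
    refine (sum_le_sum_of_subset_of_nonneg c fun x _ _ => hw x).trans ?_
    refine (sum_biUnion_le _ _ hw).trans (sum_le_sum fun D hD => ?_)
    refine (sum_biUnion_le _ _ hw).trans (sum_le_sum fun D' hD' => ?_)
    refine (sum_biUnion_le _ _ hw).trans (sum_le_sum fun e _ => ?_)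
    refine (sum_biUnion_le _ _ hw).trans (sum_le_sum fun e' _ => ?_)
    exact fib_le G h hr hRS hD hD' e e'
  have s1' := s1
  rw [swap] at s1'
  have s2 : 2 * ∑ Ch ∈ G.bloChs ρ, ∏ p ∈ Ch, r p.2 ≤ ∑ D ∈ S, ∑ D' ∈ S.erase D, ∑ e, ∑ e',
      jr G r R D e * jr G r R D' e' * mid (G.U r) S D D' := by
    rw [two_mul]
    refine (add_le_add s1 s1').trans ?_
    simp only [← sum_add_distrib]
    refine sum_le_sum fun D _ => sum_le_sum fun D' _ => sum_le_sum fun e _ =>
      sum_le_sum fun e' _ => ?_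
    have p : 0 ≤ jr G r R D e * jr G r R D' e' * mid (G.U r) S D D' :=
      mul_nonneg (mul_nonneg (jr_nonneg G hr _ _ _) (jr_nonneg G hr _ _ _)) (hm _ _)
    rw [mid_symm h2 (G.U_symm r) S D' D, mul_comm (jr G r R D' e')]
    split_ifs with a b b
    · omega
    all_goals linarith
  refine s2.trans ?_
  have e0 : Cyc (G.U r) ρ = Pth (G.U r) (G.U r R) S R := by rw [hS, hR]; rfl
  rcases S.eq_empty_or_nonempty with h0 | h0
  · rw [h0, sum_empty]; exact h3.2.1 _ hu ρ
  rw [e0, Pth_step _ _ h0]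
  refine sum_le_sum fun D _ => ?_
  rcases (S.erase D).eq_empty_or_nonempty with h4 | h4
  · rw [h4, sum_empty]; exact mul_nonneg (hu _ _) (h3.1 _ _ hu (hu D) _ _)
  rw [(h1 (G.U r)).1 _ _ _ h4, mul_sum]
  refine sum_le_sum fun D' _ => ?_
  simp only [← sum_mul, ← mul_sum]
  have a1 := sum_jr_le G hr R D
  have a2 := sum_jr_le G hr R D'
  have a3 : 0 ≤ ∑ e, jr G r R D' e := sum_nonneg fun e _ => jr_nonneg G hr _ _ _
  calc _ ≤ G.U r R D * G.U r R D' * mid (G.U r) S D D' :=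
        mul_le_mul_of_nonneg_right (mul_le_mul a1 a2 a3 (hu _ _)) (hm _ _)
    _ = _ := by rw [G.U_symm r D' R]; unfold mid; ring

end Pool.Agent.P.MP_81d17b_pr.St
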