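import Pool.Agent.P.MP_81d17b_pr.St.Stm

/-! The total weight of the structures glued along a fixed set of choices. -/

namespace Pool.Agent.P.MP_81d17b_pr.St

open Finset

variable {V E : Type} [Fintype V] [DecidableEq V] [Fintype E] [DecidableEq E]

namespace RGlueAux

theorem wtc_nonneg (G : Gr V E) {r θ : E → ℝ} (h : Adm r θ) (c : Finset (Finset V × E)) :
    0 ≤ G.wtc r θ c :=
  mul_nonneg (abs_nonneg _)
    (Finset.prod_nonneg fun p _ => div_nonneg (h.pos p.2).le (G.q_nonneg h p.1))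

theorem wtc_glue (G : Gr V E) (h1 : S_StrSum G) (h2 : S_DetGlue G) (r θ : E → ℝ)
    {ρ : Finset (Finset V)} {D : Finset V} {Ch : Finset (Finset V × E)}
    (sub : Finset V → Finset (Finset V × E)) (tt : Finset V → Finset V) (hV : Valid ρ)
    (hG : G.GoodCh ρ D Ch) (hs : ∀ A ∈ ρ, G.IsStr A (sub A) (tt A)) :
    G.wtc r θ (Ch ∪ ρ.biUnion sub) = G.wtc r θ Ch * ∏ A ∈ ρ, G.wtc r θ (sub A) := by
  unfold Gr.wtc
  rw [h2 ρ D Ch sub tt hV hG hs, (h1 ρ D Ch sub tt hV hG hs _).2, abs_mul, Finset.abs_prod,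
    Finset.prod_mul_distrib]
  ring

theorem wtc_ch (G : Gr V E) (r θ : E → ℝ) {ρ : Finset (Finset V)} {D : Finset V}
    {Ch : Finset (Finset V × E)} (hG : G.GoodCh ρ D Ch) :
    G.wtc r θ Ch = |(G.Mx Ch).det| * (∏ p ∈ Ch, r p.2) / ∏ A ∈ ρ, G.q r θ A := by
  unfold Gr.wtc
  rw [Finset.prod_div_distrib, ← hG.1,
    Finset.prod_image (fun p hp p' hp' h => hG.2.1 p hp p' hp' h), mul_div_assoc]

end RGlueAux

open RGlueAux in
theorem pf_R4a (G : Gr V E) (h1 : S_StrSum G) (h2 : S_DetGlue G) : S_R4a G := by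
  classical
  intro r θ hA ρ D Ch T0 X hV hG hX
  let t : Finset V → Finset (Finset (Finset V × E) × Finset V) :=
    fun A => if A ∈ ρ then G.strs A else {(∅, ∅)}
  let gl : (Finset V → Finset (Finset V × E) × Finset V) → Finset (Finset V × E) × Finset V :=
    fun F => (Ch ∪ ρ.biUnion (fun A => (F A).1), T0 ∪ ρ.biUnion (fun A => (F A).2))
  have hsub : X ⊆ (Fintype.piFinset t).image gl := by
    intro ct hct
    obtain ⟨sub, tt, hs, e1, e2⟩ := hX ct hct
    refine Finset.mem_image.2 ⟨fun A => if A ∈ ρ then (sub A, tt A) else (∅, ∅), ?_, ?_⟩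
    · refine Fintype.mem_piFinset.2 fun A => ?_
      by_cases hA' : A ∈ ρ
      · simp only [t, if_pos hA']
        exact (G.mem_strs A _).2 (hs A hA')
      · simp only [t, if_neg hA']
        exact Finset.mem_singleton_self _
    · refine Prod.ext ?_ ?_
      · rw [e1]
        show Ch ∪ _ = _
        congr 1
        exact Finset.biUnion_congr rfl fun A hA' => by simp only [if_pos hA']
      · rw [e2]
        show T0 ∪ _ = _
        congr 1
        exact Finset.biUnion_congr rfl fun A hA' => by simp only [if_pos hA']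
  have hgl : ∀ F ∈ Fintype.piFinset t,
      G.wtc r θ (gl F).1 =
        G.wtc r θ Ch * ∏ A, (if A ∈ ρ then G.wtc r θ (F A).1 else 1) := by
    intro F hF
    have hs : ∀ A ∈ ρ, G.IsStr A (F A).1 (F A).2 := by
      intro A hA'
      have := Fintype.mem_piFinset.1 hF A
      simp only [t, if_pos hA'] at this
      exact (G.mem_strs A _).1 this
    rw [Finset.prod_ite_mem, Finset.univ_inter]
    exact wtc_glue G h1 h2 r θ (fun A => (F A).1) (fun A => (F A).2) hV hG hs
  have hprod : ∑ F ∈ Fintype.piFinset t, ∏ A, (if A ∈ ρ then G.wtc r θ (F A).1 else 1) =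
      ∏ A ∈ ρ, G.BT r θ A := by
    rw [← Finset.prod_univ_sum t (fun A ct => if A ∈ ρ then G.wtc r θ ct.1 else 1)]
    have : ∀ A, (∑ ct ∈ t A, if A ∈ ρ then G.wtc r θ ct.1 else 1) =
        if A ∈ ρ then G.BT r θ A else 1 := by
      intro A
      by_cases hA' : A ∈ ρ
      · simp only [t, if_pos hA', Gr.BT]
      · simp only [t, if_neg hA', Finset.sum_singleton]
    rw [Finset.prod_congr rfl fun A _ => this A, Finset.prod_ite_mem, Finset.univ_inter]
  calc ∑ ct ∈ X, G.wtc r θ ct.1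
      ≤ ∑ ct ∈ (Fintype.piFinset t).image gl, G.wtc r θ ct.1 :=
        Finset.sum_le_sum_of_subset_of_nonneg hsub fun ct _ _ => wtc_nonneg G hA _
    _ ≤ ∑ F ∈ Fintype.piFinset t, G.wtc r θ (gl F).1 :=
        Finset.sum_image_le_of_nonneg fun ct _ => wtc_nonneg G hA _
    _ = G.wtc r θ Ch * ∏ A ∈ ρ, G.BT r θ A := by
        rw [Finset.sum_congr rfl hgl, ← Finset.mul_sum, hprod]
    _ = _ := by
        rw [wtc_ch G r θ hG, Finset.prod_div_distrib]
        ring

end Pool.Agent.P.MP_81d17b_pr.St
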