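import Pool.Agent.P.MP_81d17b_pr.St.Stm

/-! The recursion for the total weight of the cluster structures. -/

namespace Pool.Agent.P.MP_81d17b_pr.St

open Finset

variable {V E : Type} [Fintype V] [DecidableEq V] [Fintype E] [DecidableEq E]

namespace RRecAux

theorem su {α : Type} [DecidableEq α] {f : α → ℝ} (h : ∀ a, 0 ≤ f a) (s t : Finset α) :
    ∑ a ∈ s ∪ t, f a ≤ ∑ a ∈ s, f a + ∑ a ∈ t, f a := by
  rw [← sum_union_inter]
  exact le_add_of_nonneg_right (sum_nonneg fun a _ => h a)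

theorem sb {α ι : Type} [DecidableEq α] {f : α → ℝ} (h : ∀ a, 0 ≤ f a) (I : Finset ι)
    (X : ι → Finset α) : ∑ a ∈ I.biUnion X, f a ≤ ∑ i ∈ I, ∑ a ∈ X i, f a := by
  classical
  induction I using Finset.induction_on with
  | empty => simp
  | insert i I hi ih =>
    rw [biUnion_insert, sum_insert hi]
    exact (su h _ _).trans (add_le_add_right ih _)

open Classical in
/-- The structures with a given top event. -/
noncomputable def fib (G : Gr V E) (ρ : Finset (Finset V)) (Ch : Finset (Finset V × E))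
    (T0 : Finset V) : Finset (Finset (Finset V × E) × Finset V) :=
  univ.filter fun ct => ∃ (sub : Finset V → Finset (Finset V × E)) (tt : Finset V → Finset V),
    (∀ A ∈ ρ, G.IsStr A (sub A) (tt A)) ∧ ct.1 = Ch ∪ ρ.biUnion sub ∧ ct.2 = T0 ∪ ρ.biUnion tt

theorem mem_fib {G : Gr V E} {ρ : Finset (Finset V)} {Ch : Finset (Finset V × E)} {T0 : Finset V}
    {ct : Finset (Finset V × E) × Finset V} : ct ∈ fib G ρ Ch T0 ↔
    ∃ (sub : Finset V → Finset (Finset V × E)) (tt : Finset V → Finset V),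
      (∀ A ∈ ρ, G.IsStr A (sub A) (tt A)) ∧ ct.1 = Ch ∪ ρ.biUnion sub ∧
        ct.2 = T0 ∪ ρ.biUnion tt := by
  simp only [fib, mem_filter, mem_univ, true_and]

theorem cover (G : Gr V E) (h4 : S_Chan G) (D : Finset V) : G.strs D ⊆
    (D.biUnion fun x => (parts (D.erase x)).biUnion fun ρ => (G.starChs x ρ).biUnion fun Ch =>
      fib G ρ Ch (if Even ρ.card then {x} else ∅)) ∪
    ((parts D).filter fun ρ => Odd ρ.card ∧ 3 ≤ ρ.card).biUnion fun ρ =>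
      (G.bloChs ρ).biUnion fun Ch => fib G ρ Ch ∅ := by
  rintro ⟨c, T⟩ hct
  have h : G.IsStr D c T := (G.mem_strs D _).1 hct
  cases h with
  | star x ρ Ch sub tt a1 a2 a3 a4 a5 a6 a7 =>
    refine mem_union_left _ (mem_biUnion.2 ⟨x, a5 ▸ mem_insert_self _ _, mem_biUnion.2
      ⟨ρ, mem_parts.2 ⟨a1, ?_⟩, mem_biUnion.2 ⟨Ch, (G.mem_starChs _ _ _).2 a3,
        mem_fib.2 ⟨sub, tt, a4, a6, a7⟩⟩⟩⟩)
    rw [a5, erase_insert a2]
  | blo ρ Ch sub tt a1 a2 a3 a4 a5 a6 a7 =>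
    exact mem_union_right _ (mem_biUnion.2 ⟨ρ, mem_filter.2 ⟨mem_parts.2 ⟨a1, a5.symm⟩, a2,
      ((h4 ρ Ch a1).2 a3).2⟩, mem_biUnion.2 ⟨Ch, (G.mem_bloChs _ _).2 a3,
        mem_fib.2 ⟨sub, tt, a4, a6, by rw [empty_union]; exact a7⟩⟩⟩)

end RRecAux

open RRecAux

theorem pf_R4 (G : Gr V E) (h1 : S_R1 G) (h2 : S_R3 G) (h3 : S_R4a G) (h4 : S_Chan G)
    (h5 : S_DetCh G) (_h6 : S_Pth3 V) : S_R4 G := by
  intro r θ ha D
  have r0 : ∀ e, 0 ≤ r e := fun e => (ha.pos e).le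
  have w0 : ∀ ct : Finset (Finset V × E) × Finset V, 0 ≤ G.wtc r θ ct.1 := fun ct =>
    mul_nonneg (abs_nonneg _) (prod_nonneg fun p _ => div_nonneg (r0 _) (G.q_nonneg ha _))
  have b0 : ∀ A, 0 ≤ G.BT r θ A := fun A => sum_nonneg fun ct _ => w0 ct
  have p0 : ∀ ρ : Finset (Finset V), 0 ≤ ∏ A ∈ ρ, G.BT r θ A / G.q r θ A := fun ρ =>
    prod_nonneg fun A _ => div_nonneg (b0 A) (G.q_nonneg ha A)
  refine ⟨b0 D, (sum_le_sum_of_subset_of_nonneg (cover G h4 D) fun ct _ _ => w0 ct).trans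
    ((su w0 _ _).trans (add_le_add ((sb w0 _ _).trans (sum_le_sum fun x _ => (sb w0 _ _).trans
      (sum_le_sum fun ρ hρ => (sb w0 _ _).trans ?_)))
      ((sb w0 _ _).trans (sum_le_sum fun ρ hρ => (sb w0 _ _).trans ?_))))⟩
  · obtain ⟨a1, a2⟩ := mem_parts.1 hρ
    have a3 : x ∉ supp ρ := a2 ▸ notMem_erase x D
    rw [prod_mul_distrib]
    refine le_trans ?_ (mul_le_mul_of_nonneg_right (h1 r x ρ r0) (p0 ρ))
    rw [sum_mul]
    refine sum_le_sum fun Ch hC => ?_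
    have a4 := (G.mem_starChs _ _ _).1 hC
    have := h3 r θ ha ρ _ Ch _ (fib G ρ Ch (if Even ρ.card then {x} else ∅)) a1
      ((h4 ρ Ch a1).1 x a3 a4) fun ct h => mem_fib.1 h
    rwa [(h5 ρ Ch a1).1 x a3 a4, abs_one, one_mul] at this
  · have a1 := (mem_parts.1 (mem_filter.1 hρ).1).1
    refine le_trans ?_ (mul_le_mul_of_nonneg_right (h2 r r0 ρ) (p0 ρ))
    rw [mul_sum, sum_mul]
    refine sum_le_sum fun Ch hC => ?_
    have a4 := (G.mem_bloChs _ _).1 hC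
    exact (h3 r θ ha ρ _ Ch _ (fib G ρ Ch ∅) a1 ((h4 ρ Ch a1).2 a4).1
      fun ct h => mem_fib.1 h).trans (mul_le_mul_of_nonneg_right (mul_le_mul_of_nonneg_right
        ((h5 ρ Ch a1).2 a4) (prod_nonneg fun p _ => r0 _)) (p0 ρ))

end Pool.Agent.P.MP_81d17b_pr.St
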