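import Pool.Agent.P.MP_81d17b_pr.St.Stm

/-! Parity and crossing numbers of the components at each level. -/

namespace Pool.Agent.P.MP_81d17b_pr.St

open Finset

variable {V E : Type} [Fintype V] [DecidableEq V] [Fintype E] [DecidableEq E]

theorem pf_Sebo (G : Gr V E) (h1 : S_Grow G) (h2 : S_Inner G) (h3 : S_Lev0 G) (h4 : S_Comp G)
    (h5 : S_Born G) (h6 : S_Inv G) : S_Sebo G := by
  intro T J w hm hw t D hD
  obtain ⟨c1, c2, c3, c4⟩ := (h4 T J w hm hw).1 t D hD
  obtain ⟨t', g1, -, g3⟩ := (h5 J w).2.2.2.1 t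
  have mK : ∀ e, e ∈ G.Kt w J t ↔ G.yy w J e ≤ t := fun e => by simp [Gr.Kt]
  have z : ∀ e ∈ G.Kt w J t, G.res w J t e = 0 := fun e he => by
    have a := (mK e).1 he
    obtain ⟨b1, b2, -⟩ := h3 T J w hm hw e
    rw [Gr.res, max_eq_right a, max_eq_right (b1.trans a), max_eq_right (b2.trans a)]
    ring
  have y : ∀ e, G.Cr D e → t' ≤ G.yy w J e := fun e he =>
    (g3 e).resolve_left fun a => c3 e ((mK e).2 a) he
  obtain ⟨-, r1, r2⟩ := h1 T J _ _ D _ (t' - t) (h6 T J w hm hw t) z c3 c4 c1 (sub_pos.2 g1)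
    (fun e a b => by
      have := y e (Or.inl ⟨a, b⟩)
      have := le_max_left (G.yy w J e) t
      simp only [Gr.res, max_eq_right (c2 _ a)]
      linarith)
    fun e a b => by
      have := y e (Or.inr ⟨a, b⟩)
      have := le_max_left (G.yy w J e) t
      simp only [Gr.res, max_eq_right (c2 _ a)]
      linarith
  refine ⟨r1, r2, fun x f hf hi => ?_⟩
  have := (h2 T J _ _ _ (h6 T J w hm hw t) z).1 x f hf (c4 _ hi.1 _ hi.2)
  rw [Gr.res, max_eq_right (c2 _ hi.1), max_eq_right (c2 _ hi.2)] at this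
  linarith [le_max_left (G.yy w J f) t]

end Pool.Agent.P.MP_81d17b_pr.St
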