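import Pool.Agent.P.MP_81d17b_pr.St.Stm

/-! One step of the growth process. -/

namespace Pool.Agent.P.MP_81d17b_pr.St

open Finset

variable {V E : Type} [Fintype V] [DecidableEq V] [Fintype E] [DecidableEq E]

theorem pf_Step (G : Gr V E) (h1 : S_Grow G) (h2 : S_Inner G) (h3 : S_Lev0 G) (h4 : S_Comp G) :
    S_Step G := by
  intro T J w hM hw t t' hg hO
  obtain ⟨c1, c2, c3, -, c5⟩ := h4 T J w hM hw
  have l0 := h3 T J w hM hw
  obtain ⟨g1, g2, g3⟩ := hg
  set ε := t' - t with hε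
  have ε0 : 0 < ε := by linarith
  set K := G.Kt w J t with hK
  have mK : ∀ e, e ∈ K ↔ G.yy w J e ≤ t := fun e => by simp [hK, Gr.Kt]
  set 𝒦 := G.kids w J t univ with h𝒦
  have m𝒦 : ∀ D, D ∈ 𝒦 ↔ G.Comp w J t D := fun D => by simp [h𝒦, Gr.mem_kids]
  have uniq : ∀ D ∈ 𝒦, ∀ D' ∈ 𝒦, ∀ v, v ∈ D → v ∈ D' → D = D' := fun D a D' b v p q =>
    Subset.antisymm (c3 t t D D' v le_rfl ((m𝒦 D).1 a) ((m𝒦 D').1 b) p q)
      (c3 t t D' D v le_rfl ((m𝒦 D').1 b) ((m𝒦 D).1 a) q p)
  have r0 : ∀ e ∈ K, G.res w J t e = 0 := fun e he => by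
    have a := (mK e).1 he
    obtain ⟨b1, b2, -⟩ := l0 e
    rw [Gr.res, max_eq_right a, max_eq_right (b1.trans a), max_eq_right (b2.trans a)]
    ring
  have w0 : ∀ A, A ⊆ 𝒦 → ∀ e ∈ K,
      G.res w J t e - ∑ D ∈ A, (if G.Cr D e then ε else 0) = 0 := fun A hA e he => by
    rw [r0 e he, sum_eq_zero fun D hD => if_neg ((c1 t D ((m𝒦 D).1 (hA hD))).2.2.1 e he), sub_zero]
  have big : ∀ e, e ∉ K → t' ≤ G.yy w J e := fun e he =>
    (g3 e).elim (fun a => absurd ((mK e).2 a) he) id
  have ind : ∀ A, A ⊆ 𝒦 → G.Opt T J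
      (fun e => G.res w J t e - ∑ D ∈ A, (if G.Cr D e then ε else 0))
      (fun x => max (hh w J x) t + ∑ D ∈ A, (if x ∈ D then ε else 0)) := by
    intro A
    induction A using Finset.induction_on with
    | empty => intro _; simpa using hO
    | insert D A hD ih =>
      intro hA
      have hA' : A ⊆ 𝒦 := (subset_insert D A).trans hA
      have hD' : D ∈ 𝒦 := hA (mem_insert_self D A)
      obtain ⟨d1, d2, d3, d4⟩ := c1 t D ((m𝒦 D).1 hD')
      have out : ∀ z ∈ D, ∀ D' ∈ A, z ∉ D' := fun z hz D' a b =>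
        hD (uniq D hD' D' (hA' a) z hz b ▸ a)
      have key := (h1 T J _ _ D K ε (ih hA') (w0 A hA') d3 d4 d1 ε0 (fun e a b => ?_)
        (fun e a b => ?_)).1
      · convert key using 2 with e x
        · rw [sum_insert hD]; ring
        · rw [sum_insert hD]; ring
      · have s1 : ∑ D' ∈ A, (if G.Cr D' e then ε else 0) = ∑ D' ∈ A, if G.t e ∈ D' then ε else 0 :=
          sum_congr rfl fun D' p => by simp [Gr.Cr, out _ a D' p]
        have s2 : ∑ D' ∈ A, (if G.s e ∈ D' then ε else 0) = 0 :=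
          sum_eq_zero fun D' p => if_neg (out _ a D' p)
        have s3 := big e fun p => d3 e p (Or.inl ⟨a, b⟩)
        simp only [s1, s2, Gr.res, max_eq_right (d2 _ a), max_eq_left (g1.le.trans s3)]
        linarith
      · have s1 : ∑ D' ∈ A, (if G.Cr D' e then ε else 0) = ∑ D' ∈ A, if G.s e ∈ D' then ε else 0 :=
          sum_congr rfl fun D' p => by simp [Gr.Cr, out _ a D' p]
        have s2 : ∑ D' ∈ A, (if G.t e ∈ D' then ε else 0) = 0 :=
          sum_eq_zero fun D' p => if_neg (out _ a D' p)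
        have s3 := big e fun p => d3 e p (Or.inr ⟨a, b⟩)
        simp only [s1, s2, Gr.res, max_eq_right (d2 _ a), max_eq_left (g1.le.trans s3)]
        linarith
  have fin : ∀ x, max (hh w J x) t + ∑ D ∈ 𝒦, (if x ∈ D then ε else 0) = max (hh w J x) t' := by
    intro x
    rcases g2 x with a | a
    · obtain ⟨D, p, q⟩ := c2 t x a
      rw [sum_eq_single D (fun D' b c => if_neg fun d => c (uniq D' b D ((m𝒦 D).2 p) x d q))
        (fun b => absurd ((m𝒦 D).2 p) b), if_pos q, max_eq_right a, max_eq_right (a.trans g1.le)]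
      linarith
    · rw [sum_eq_zero fun D b => if_neg fun d => by
        have := (c1 t D ((m𝒦 D).1 b)).2.1 x d
        linarith, max_eq_left a, max_eq_left (g1.le.trans a), add_zero]
  have last := (h2 T J _ _ K (ind 𝒦 subset_rfl) (w0 𝒦 subset_rfl)).2 (G.res w J t')
    (fun e a => ?_) (fun e a => ?_)
  · simpa only [fin] using last
  · obtain ⟨b1, b2⟩ := c5 t _ _ a (G.ne e)
    have s1 : ∑ D ∈ 𝒦, (if G.Cr D e then ε else 0) = 0 := by
      refine sum_eq_zero fun D p => if_neg fun q => ?_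
      have d3 := (c1 t D ((m𝒦 D).1 p)).2.2.1
      rcases q with q | q
      · obtain ⟨f, f1, f2⟩ := a.exists_cr q.1 q.2
        exact d3 f f1 f2
      · obtain ⟨f, f1, f2⟩ := a.symm.exists_cr q.1 q.2
        exact d3 f f1 f2
    simp only [s1, Gr.res, max_eq_right b1, max_eq_right b2, max_eq_right (b1.trans g1.le),
      max_eq_right (b2.trans g1.le)]
    have m1 := le_max_right (G.yy w J e) t'
    have m2 : max (G.yy w J e) t' ≤ max (G.yy w J e) t + ε :=
      max_le (by have := le_max_left (G.yy w J e) t; linarith)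
        (by have := le_max_right (G.yy w J e) t; linarith)
    constructor <;> linarith
  · have s3 := big e fun p => a (Gr.conn_edge p)
    have s1 : ∑ D ∈ 𝒦, (if G.Cr D e then ε else 0) =
        ∑ D ∈ 𝒦, (if G.s e ∈ D then ε else 0) + ∑ D ∈ 𝒦, (if G.t e ∈ D then ε else 0) := by
      rw [← sum_add_distrib]
      refine sum_congr rfl fun D p => ?_
      have d4 := (c1 t D ((m𝒦 D).1 p)).2.2.2
      by_cases p1 : G.s e ∈ D <;> by_cases p2 : G.t e ∈ D
      · exact absurd (d4 _ p1 _ p2) a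
      all_goals simp [Gr.Cr, p1, p2]
    have f1 := fin (G.s e)
    have f2 := fin (G.t e)
    simp only [s1, Gr.res, max_eq_left s3, max_eq_left (g1.le.trans s3)]
    linarith

end Pool.Agent.P.MP_81d17b_pr.St
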