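import Pool.Agent.P.MP_81d17b_pr.St.Stm

/-! Basic properties of cluster structures and sums over a glued structure. -/

namespace Pool.Agent.P.MP_81d17b_pr.St

open Finset

variable {V E : Type} [Fintype V] [DecidableEq V] [Fintype E] [DecidableEq E]

namespace StrBAux

/-- The properties of the list of clusters. -/
def Pr (G : Gr V E) (D : Finset V) (c : Finset (Finset V × E)) : Prop :=
  (∀ p ∈ c, p.1 ⊆ D ∧ p.1 ≠ D ∧ G.Cr p.1 p.2 ∧ G.In D p.2) ∧
    ∀ p ∈ c, ∀ p' ∈ c, p.2 = p'.2 → p = p'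

omit [Fintype V] [DecidableEq V] [Fintype E] [DecidableEq E] in
theorem ne_of_cr {G : Gr V E} {A D : Finset V} {e : E} (h : G.Cr A e) (h' : G.In D e) :
    A ≠ D := by
  rintro rfl
  rcases h with h | h
  · exact h.2 h'.2
  · exact h.2 h'.1

omit [Fintype E] in
theorem glue {G : Gr V E} {ρ : Finset (Finset V)} {D : Finset V} {Ch : Finset (Finset V × E)}
    {sub : Finset V → Finset (Finset V × E)} (hv : Valid ρ) (hD : supp ρ ⊆ D)
    (hg : G.GoodCh ρ D Ch) (ih : ∀ A ∈ ρ, Pr G A (sub A)) : Pr G D (Ch ∪ ρ.biUnion sub) := by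
  obtain ⟨g1, -, g3, g4⟩ := hg
  constructor
  · intro p hp
    rcases mem_union.1 hp with hp | hp
    · obtain ⟨a, b, -⟩ := g4 p hp
      exact ⟨(subset_supp (g1 ▸ mem_image_of_mem _ hp)).trans hD, ne_of_cr a b, a, b⟩
    · obtain ⟨A, hA, hp⟩ := mem_biUnion.1 hp
      obtain ⟨a, -, b, c⟩ := (ih A hA).1 p hp
      have hAD : A ⊆ D := (subset_supp hA).trans hD
      have d : G.In D p.2 := ⟨hAD c.1, hAD c.2⟩
      exact ⟨a.trans hAD, ne_of_cr b d, b, d⟩
  · intro p hp p' hp' h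
    rcases mem_union.1 hp with hp | hp <;> rcases mem_union.1 hp' with hp' | hp'
    · exact g3 p hp p' hp' h
    · obtain ⟨A, hA, hp'⟩ := mem_biUnion.1 hp'
      exact absurd (h ▸ ((ih A hA).1 p' hp').2.2.2) ((g4 p hp).2.2 A hA)
    · obtain ⟨A, hA, hp⟩ := mem_biUnion.1 hp
      exact absurd (h ▸ ((ih A hA).1 p hp).2.2.2) ((g4 p' hp').2.2 A hA)
    · obtain ⟨A, hA, hp⟩ := mem_biUnion.1 hp
      obtain ⟨B, hB, hp'⟩ := mem_biUnion.1 hp'
      obtain rfl : A = B := hv.unique hA hB ((ih A hA).1 p hp).2.2.2.1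
        (h ▸ ((ih B hB).1 p' hp').2.2.2.1)
      exact (ih A hA).2 p hp p' hp' h

end StrBAux

open StrBAux

theorem pf_StrB (G : Gr V E) (h1 : S_Chan G) : S_StrB G := by
  intro D c T h
  induction h with
  | star x ρ Ch sub tt hv hx hc _ hD hcc _ ih =>
    subst hD hcc
    exact ⟨insert_nonempty _ _,
      glue hv (subset_insert _ _) ((h1 ρ Ch hv).1 x hx hc) fun A hA => (ih A hA).2⟩
  | blo ρ Ch sub tt hv ho hc _ hD hcc _ ih =>
    subst hD hcc
    exact ⟨hv.supp_nonempty (card_pos.1 ho.pos),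
      glue hv Subset.rfl ((h1 ρ Ch hv).2 hc).1 fun A hA => (ih A hA).2⟩

theorem pf_StrSum (G : Gr V E) (h1 : S_StrB G) : S_StrSum G := by
  intro ρ D Ch sub tt hv hg hs g
  have hin : ∀ A ∈ ρ, ∀ p ∈ sub A, G.In A p.2 := fun A hA p hp =>
    ((h1 _ _ _ (hs A hA)).2.1 p hp).2.2.2
  have d1 : Disjoint Ch (ρ.biUnion sub) := disjoint_left.2 fun p hp hp' => by
    obtain ⟨A, hA, hp'⟩ := mem_biUnion.1 hp'
    exact (hg.2.2.2 p hp).2.2 A hA (hin A hA p hp')
  have d2 : (ρ : Set (Finset V)).PairwiseDisjoint sub := fun A hA B hB hne =>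
    disjoint_left.2 fun p hp hp' => hne (hv.unique hA hB (hin A hA p hp).1 (hin B hB p hp').1)
  exact ⟨by rw [sum_union d1, sum_biUnion d2], by rw [prod_union d1, prod_biUnion d2]⟩

end Pool.Agent.P.MP_81d17b_pr.St
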