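import Pool.Agent.P.MP_81d17b_pr.St.Stm

/-! A nonnegative function in the kernel of the operator of stars and odd cycles. -/

set_option linter.unusedSectionVars false

namespace Pool.Agent.P.MP_81d17b_pr.St

open Finset

variable {V E : Type} [Fintype V] [DecidableEq V] [Fintype E] [DecidableEq E]

namespace UexAux

/-- One step of the recursion. -/
noncomputable def T (G : Gr V E) (r θ : E → ℝ) (f : Finset (Finset V) → ℝ)
    (π : Finset (Finset V)) : ℝ :=
  if π = {univ} then 1 else (G.Sop r f π + Odd3 (G.U r) f π) / G.Qs r θ π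

/-- The quantity that drops along the moves. -/
def mu (π : Finset (Finset V)) : ℕ := 2 * (supp π)ᶜ.card + π.card

variable {G : Gr V E} {r θ : E → ℝ} {f g : Finset (Finset V) → ℝ} {π : Finset (Finset V)}

theorem T_congr (hπ : Valid π) (h : ∀ π', Valid π' → mu π' < mu π → f π' = g π') :
    T G r θ f π = T G r θ g π := by
  have h1 : G.Sop r f π = G.Sop r g π := sum_congr rfl fun x hx => sum_congr rfl fun S hS => by
    have hS := mem_powerset.1 hS
    have hx' := mem_compl.1 hx
    rw [h _ (hπ.str hS hx')]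
    have e1 := hπ.card_str hS hx'
    have e2 := card_erase_add_one hx
    rw [mu, mu, supp_str hS, compl_insert]
    omega
  have h2 : Odd3 (G.U r) f π = Odd3 (G.U r) g π := sum_congr rfl fun S hS => by
    obtain ⟨hS, -, h3⟩ := mem_filter.1 hS
    have hS := mem_powerset.1 hS
    have hne : S.Nonempty := card_pos.1 (by omega)
    rw [h _ (hπ.mrg hS hne)]
    have e1 := hπ.card_mrg hS hne
    rw [mu, mu, supp_mrg hS]
    omega
  rw [T, T, h1, h2]

theorem T_nonneg (h3 : S_Pth3 V) (ha : Adm r θ) (hf : ∀ π, Valid π → 0 ≤ f π) (hπ : Valid π) :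
    0 ≤ T G r θ f π := by
  unfold T
  split_ifs
  · exact zero_le_one
  refine div_nonneg (add_nonneg (sum_nonneg fun x hx => sum_nonneg fun S hS => mul_nonneg
    (prod_nonneg fun D _ => G.U_nonneg ha _ _) (hf _ (hπ.str (mem_powerset.1 hS) (mem_compl.1 hx))))
    (sum_nonneg fun S hS => ?_)) (sum_nonneg fun D _ => G.q_nonneg ha D)
  obtain ⟨hS, -, h4⟩ := mem_filter.1 hS
  exact mul_nonneg (h3.2.1 _ (G.U_nonneg ha) S)
    (hf _ (hπ.mrg (mem_powerset.1 hS) (card_pos.1 (by omega))))

theorem stab (k : ℕ) : ∀ π, Valid π → mu π < k →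
    (T G r θ)^[k + 1] 0 π = (T G r θ)^[k] 0 π := by
  induction k with
  | zero => exact fun _ _ h => absurd h (Nat.not_lt_zero _)
  | succ k ih =>
    intro π hπ h
    rw [Function.iterate_succ_apply' _ (k + 1)]
    conv_rhs => rw [Function.iterate_succ_apply']
    exact T_congr hπ fun π' h' h'' => ih π' h' (by omega)

end UexAux

open UexAux in
theorem pf_Uex (G : Gr V E) (h3 : S_Pth3 V) : S_Uex G := by
  intro r θ ha hc hV
  set f := (T G r θ)^[2 * Fintype.card V + Fintype.card (Finset V) + 1] 0 with hf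
  have h1 : ∀ π, Valid π → T G r θ f π = f π := fun π hπ => by
    rw [hf, ← Function.iterate_succ_apply' (T G r θ)]
    refine stab _ π hπ ?_
    have e1 := card_le_univ (supp π)ᶜ
    have e2 := card_le_univ π
    rw [mu]
    omega
  refine ⟨f, ?_, ?_, fun π hπ hne => ?_⟩
  · exact Function.Iterate.rec (fun f : Finset (Finset V) → ℝ => ∀ π, Valid π → 0 ≤ f π)
      (fun _ _ => le_rfl) (fun f hf π hπ => T_nonneg h3 ha hf hπ) _
  · rw [← h1 _ (valid_singleton univ_nonempty), T, if_pos rfl]
  by_cases hu : π = {univ}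
  · have : Odd3 (G.U r) f {univ} = 0 := sum_eq_zero fun S hS => by
      obtain ⟨hS, -, h4⟩ := mem_filter.1 hS
      have := card_le_card (mem_powerset.1 hS)
      rw [card_singleton] at this
      omega
    simp [hu, Gr.LT, Gr.Sop, Gr.Qs, G.q_univ, this]
  have hq : 0 < G.Qs r θ π := sum_pos (fun D hD => G.q_pos ha hc (hπ.1 D hD) fun e =>
    hu (eq_singleton_iff_unique_mem.2 ⟨e ▸ hD, fun A hA => by
      obtain ⟨x, hx⟩ := hπ.1 A hA
      exact hπ.unique hA (e ▸ hD) hx (mem_univ x)⟩)) (nonempty_iff_ne_empty.2 hne)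
  have := h1 π hπ
  rw [T, if_neg hu, div_eq_iff hq.ne'] at this
  rw [Gr.LT, this, mul_comm, sub_self]

end Pool.Agent.P.MP_81d17b_pr.St
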