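import Pool.Agent.P.MP_81d17b_pr.St.Exch
import Pool.Agent.P.MP_81d17b_pr.St.Grow
import Pool.Agent.P.MP_81d17b_pr.St.Inner
import Pool.Agent.P.MP_81d17b_pr.St.Comp
import Pool.Agent.P.MP_81d17b_pr.St.Step
import Pool.Agent.P.MP_81d17b_pr.St.Born
import Pool.Agent.P.MP_81d17b_pr.St.Sebo
import Pool.Agent.P.MP_81d17b_pr.St.Gen
import Pool.Agent.P.MP_81d17b_pr.St.Kids
import Pool.Agent.P.MP_81d17b_pr.St.EvStar
import Pool.Agent.P.MP_81d17b_pr.St.Deg2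
import Pool.Agent.P.MP_81d17b_pr.St.HamPath
import Pool.Agent.P.MP_81d17b_pr.St.Ham
import Pool.Agent.P.MP_81d17b_pr.St.Chan
import Pool.Agent.P.MP_81d17b_pr.St.StrB
import Pool.Agent.P.MP_81d17b_pr.St.GlueLin
import Pool.Agent.P.MP_81d17b_pr.St.Glue
import Pool.Agent.P.MP_81d17b_pr.St.Exist
import Pool.Agent.P.MP_81d17b_pr.St.DetMul
import Pool.Agent.P.MP_81d17b_pr.St.DetPath
import Pool.Agent.P.MP_81d17b_pr.St.DetCh
import Pool.Agent.P.MP_81d17b_pr.St.RStar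
import Pool.Agent.P.MP_81d17b_pr.St.RCyc
import Pool.Agent.P.MP_81d17b_pr.St.RGlue
import Pool.Agent.P.MP_81d17b_pr.St.RRec
import Pool.Agent.P.MP_81d17b_pr.St.Pth1
import Pool.Agent.P.MP_81d17b_pr.St.Pth2
import Pool.Agent.P.MP_81d17b_pr.St.Pth3
import Pool.Agent.P.MP_81d17b_pr.St.CycW
import Pool.Agent.P.MP_81d17b_pr.St.IdE
import Pool.Agent.P.MP_81d17b_pr.St.IdS
import Pool.Agent.P.MP_81d17b_pr.St.OmB
import Pool.Agent.P.MP_81d17b_pr.St.CopSplit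
import Pool.Agent.P.MP_81d17b_pr.St.I1
import Pool.Agent.P.MP_81d17b_pr.St.Inter
import Pool.Agent.P.MP_81d17b_pr.St.Adj
import Pool.Agent.P.MP_81d17b_pr.St.AdjM
import Pool.Agent.P.MP_81d17b_pr.St.Uex
import Pool.Agent.P.MP_81d17b_pr.St.Cmp
import Pool.Agent.P.MP_81d17b_pr.St.Bd
import Pool.Agent.P.MP_81d17b_pr.St.A1a
import Pool.Agent.P.MP_81d17b_pr.St.A1
import Pool.Agent.P.MP_81d17b_pr.St.A2a
import Pool.Agent.P.MP_81d17b_pr.St.Alg
import Pool.Agent.P.MP_81d17b_pr.St.CV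
import Pool.Agent.P.MP_81d17b_pr.St.Orth
import Pool.Agent.P.MP_81d17b_pr.St.Expo
import Pool.Agent.P.MP_81d17b_pr.St.Nu
import Pool.Agent.P.MP_81d17b_pr.St.MCone
import Pool.Agent.P.MP_81d17b_pr.St.MSign
import Pool.Agent.P.MP_81d17b_pr.St.MFib
import Pool.Agent.P.MP_81d17b_pr.St.Core
import Pool.Agent.P.MP_81d17b_pr.St.Core0
import Pool.Agent.P.MP_81d17b_pr.St.Grid13
import Pool.Agent.P.MP_81d17b_pr.St.Grid2
import Pool.Agent.P.MP_81d17b_pr.St.Dual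
import Pool.Agent.P.MP_81d17b_pr.St.Final

/-! Assembly of all steps. -/

namespace Pool.Agent.P.MP_81d17b_pr.St

section
variable {V E : Type} [Fintype V] [DecidableEq V] [Fintype E] [DecidableEq E]

theorem all_Exist (G : Gr V E) : S_Exist G := by
  have hGrow := pf_Grow G (pf_Exch G)
  have hInner := pf_Inner G
  have hLev := pf_Lev0 G
  have hComp := pf_Comp G hLev
  have hBorn := pf_Born G
  have hInv := pf_Inv G (pf_Step G hGrow hInner hLev hComp)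
  have hSebo := pf_Sebo G hGrow hInner hLev hComp hBorn hInv
  have hGen := pf_Gen G
  have hKids := pf_Kids G hComp
  have hChan := pf_Chan G (pf_PathCh G)
  have hStrB := pf_StrB G hChan
  exact pf_Exist G hBorn
    (pf_Glue G hBorn hKids (pf_EvStar G hComp hKids hGen hSebo)
      (pf_Deg2 G hLev hComp hKids hGen hSebo) (pf_Ham G (pf_HamPath G)) hChan
      (pf_GlueLin G hStrB (pf_StrSum G hStrB))) hStrB

theorem all_R4 (G : Gr V E) : S_R4 G := by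
  have h1 : S_Pth1 V := pf_Pth1
  have h2 : S_Pth2 V := pf_Pth2 h1
  have h3 : S_Pth3 V := pf_Pth3 h1 h2
  have hP := pf_PathCh G
  have hChan := pf_Chan G hP
  have hStrB := pf_StrB G hChan
  have hMul := pf_DetMul G
  exact pf_R4 G (pf_R1 G) (pf_R3 G (pf_R2 G) h1 h2 h3)
    (pf_R4a G (pf_StrSum G hStrB) (pf_DetGlue G hMul hStrB)) hChan
    (pf_DetCh G hMul (pf_DetPath G hMul hP) hP hChan) h3

theorem all_Inter (G : Gr V E) : S_Inter G := by
  have h1 : S_Pth1 V := pf_Pth1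
  have h2 : S_Pth2 V := pf_Pth2 h1
  exact pf_Inter G (pf_I1 G (pf_IdE G (pf_CycW G h1 h2)) (pf_OmB G) (pf_CopSplit G h2))
    (pf_IdS G) (pf_OmB G)

theorem all_Alg (G : Gr V E) : S_Alg G := by
  have h1 : S_Pth1 V := pf_Pth1
  have h2 : S_Pth2 V := pf_Pth2 h1
  have h3 : S_Pth3 V := pf_Pth3 h1 h2
  have hM : S_AdjM V := pf_AdjM pf_Adj1 pf_Adj2
  exact pf_Alg G (all_R4 G)
    (pf_Cmp G (all_Inter G) (pf_OmB G) hM (pf_AdjT G pf_Adj1 pf_Adj2) (pf_Uex G h3))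
    (pf_Bd h3) (pf_A1 G hM (pf_A1a h1) h1 h2) (pf_A2a G h3)

theorem all_Core0 (G : Gr V E) : S_Core0 G :=
  pf_Core0 G
    (pf_Core G
      (pf_M4 G pf_CV pf_GenAE (pf_Orth E) (pf_Expo G) (pf_Nu G) (all_Exist G)
        (pf_StrB G (pf_Chan G (pf_PathCh G))))
      pf_M5 (pf_M6 G (pf_Nu G)) (pf_Nu G) (all_Alg G))
    (pf_Nu G)

end

theorem all_Final : S_Final :=
  pf_Final (fun M n => all_Core0 (dual M n)) pf_Grid1
    (fun M n => pf_Dual M n (pf_Grid2 M n) (pf_Grid3 M n))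

end Pool.Agent.P.MP_81d17b_pr.St
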