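import Mathlib

/-! The Edwards-Anderson ground state energy on a box of the square lattice. -/

namespace Pool.Agent.P.MP_81d17b_pr.St

open MeasureTheory

/-- The edges of the square lattice that meet the box `[1,M] x [1,n]`: horizontal ones `inl (i,j)`
from `(i,j+1)` to `(i+1,j+1)`, vertical ones `inr (i,j)` from `(i+1,j)` to `(i+1,j+1)`. -/
abbrev Edge (M n : ℕ) : Type := (Fin (M + 1) × Fin n) ⊕ (Fin M × Fin (n + 1))

/-- The unit squares next to these edges: `(i,j)` has corners `(i,j)` and `(i+1,j+1)`. -/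
abbrev Plaq (M n : ℕ) : Type := Fin (M + 1) × Fin (n + 1)

variable {M n : ℕ}

/-- The left or lower end of an edge. -/
def tail : Edge M n → ℤ × ℤ
  | .inl (i, j) => ((i : ℕ), (j : ℕ) + 1)
  | .inr (i, j) => ((i : ℕ) + 1, (j : ℕ))

/-- The right or upper end of an edge. -/
def tip : Edge M n → ℤ × ℤ
  | .inl (i, j) => ((i : ℕ) + 1, (j : ℕ) + 1)
  | .inr (i, j) => ((i : ℕ) + 1, (j : ℕ) + 1)

/-- The unit square below a horizontal edge, left of a vertical edge. -/
def side0 : Edge M n → Plaq M n
  | .inl (i, j) => (i, j.castSucc)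
  | .inr (i, j) => (i.castSucc, j)

/-- The unit square above a horizontal edge, right of a vertical edge. -/
def side1 : Edge M n → Plaq M n
  | .inl (i, j) => (i, j.succ)
  | .inr (i, j) => (i.succ, j)

/-- The box `[1,M] x [1,n]`. -/
def InBox (M n : ℕ) (z : ℤ × ℤ) : Prop := 1 ≤ z.1 ∧ z.1 ≤ M ∧ 1 ≤ z.2 ∧ z.2 ≤ n

/-- The spin value of a Boolean. -/
def spin (b : Bool) : ℝ := if b then 1 else -1

/-- The energy of a configuration. -/
def ham (J : Edge M n → ℝ) (σ : ℤ × ℤ → Bool) : ℝ :=
  -∑ e, J e * spin (σ (tail e)) * spin (σ (tip e))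

/-- The ground state energy with boundary condition `τ` outside the box. -/
noncomputable def ground (τ : ℤ × ℤ → Bool) (J : Edge M n → ℝ) : ℝ :=
  ⨅ σ : {σ : ℤ × ℤ → Bool // ∀ z, ¬ InBox M n z → σ z = τ z}, ham J σ.1

/-- The couplings with the signs reversed on `Γ`. -/
def flipOn (Γ : Finset (Edge M n)) (J : Edge M n → ℝ) : Edge M n → ℝ :=
  fun e => if e ∈ Γ then -J e else J e

/-- An odd number of edges of `Γ` lie on the unit square `p`. -/
def OddAt (Γ : Finset (Edge M n)) (p : Plaq M n) : Prop :=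
  Odd (Γ.filter fun e => side0 e = p ∨ side1 e = p).card

/-- The net flow out of the unit square `p`; `θ e` flows across `e` from `side0 e` to `side1 e`. -/
def outflow (θ : Edge M n → ℝ) (p : Plaq M n) : ℝ :=
  ∑ e, θ e * ((if side0 e = p then 1 else 0) - (if side1 e = p then 1 else 0))

/-- The two-sided exponential law, of density `exp (-|x|) / 2`. -/
noncomputable def laplace : Measure ℝ :=
  volume.withDensity fun x => ENNReal.ofReal (Real.exp (-|x|) / 2)

end Pool.Agent.P.MP_81d17b_pr.St
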