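import Pool.Agent.P.MP_81d17b_pr.St.Stm

/-! Union bounds for the choices of edges in a star and along a path. -/

namespace Pool.Agent.P.MP_81d17b_pr.St

open Finset

variable {V E : Type} [Fintype V] [DecidableEq V] [Fintype E] [DecidableEq E]

namespace RStarAux

theorem cover {α β : Type} [DecidableEq α] (s : Finset α) (t : Finset β) (f : β → α) (F : α → ℝ)
    (H : β → ℝ) (h : ∀ a ∈ s, ∃ b ∈ t, f b = a ∧ F a = H b) (hH : ∀ b ∈ t, 0 ≤ H b) :
    ∑ a ∈ s, F a ≤ ∑ b ∈ t, H b := by
  calc _ ≤ ∑ a ∈ s, ∑ b ∈ t with f b = a, H b := sum_le_sum fun a ha => by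
        obtain ⟨b, hb, e, e'⟩ := h a ha
        rw [e']
        exact single_le_sum (fun c hc => hH c (mem_filter.1 hc).1) (mem_filter.2 ⟨hb, e⟩)
    _ ≤ _ := by
        rw [sum_fiberwise_eq_sum_filter]
        exact sum_le_sum_of_subset_of_nonneg (filter_subset _ _) fun b hb _ => hH b hb

omit [Fintype V] [DecidableEq E] in
theorem jn_le (G : Gr V E) {r : E → ℝ} (hr : ∀ e, 0 ≤ r e) (A B : Finset V) :
    ∑ e ∈ univ.filter (G.Jn A B), r e ≤ G.U r A B := by
  rw [sum_filter]
  refine sum_le_sum fun e _ => ?_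
  have := hr e
  by_cases h1 : G.s e ∈ A ∧ G.t e ∈ B <;> by_cases h2 : G.t e ∈ A ∧ G.s e ∈ B <;>
    simp [Gr.Jn, h1, h2, this]

omit [Fintype V] [Fintype E] in
theorem fst_mem {G : Gr V E} {A B : Finset V} {S : Finset (Finset V)} {Ch : Finset (Finset V × E)}
    (h : G.IsPath A S B Ch) : ∀ p ∈ Ch, p.1 ∈ insert A S := by
  induction h with
  | nil _ =>
    intro p hp
    rw [mem_singleton.1 hp]
    exact mem_insert_self _ _
  | cons hD _ _ ih =>
    intro p hp
    rcases mem_insert.1 hp with rfl | hp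
    · exact mem_insert_self _ _
    · exact mem_insert_of_mem (insert_erase hD ▸ ih p hp)

end RStarAux

open RStarAux

theorem pf_R1 (G : Gr V E) : S_R1 G := by
  intro r x ρ hr
  have hp : ∀ Ch : Finset (Finset V × E), 0 ≤ ∏ p ∈ Ch, r p.2 := fun Ch => prod_nonneg fun p _ => hr _
  induction ρ using Finset.induction_on with
  | empty =>
    refine (sum_le_sum_of_subset_of_nonneg (t := {∅}) (fun Ch h => ?_) fun _ _ _ => hp _).trans
      (by simp)
    exact mem_singleton.2 (image_eq_empty.1 ((G.mem_starChs _ _ _).1 h).1)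
  | insert A ρ hA ih =>
    refine (cover _ (univ.filter (G.Jn {x} A) ×ˢ G.starChs x ρ) (fun b => insert (A, b.1) b.2) _
      (fun b => r b.1 * ∏ p ∈ b.2, r p.2) (fun Ch h => ?_)
      fun b _ => mul_nonneg (hr _) (hp _)).trans ?_
    · obtain ⟨h1, h2, h3⟩ := (G.mem_starChs _ _ _).1 h
      obtain ⟨⟨A', e⟩, he, rfl : A' = A⟩ := mem_image.1 (h1 ▸ mem_insert_self A ρ)
      refine ⟨(e, Ch.erase (A', e)), mem_product.2 ⟨mem_filter.2 ⟨mem_univ _, h3 _ he⟩,
        (G.mem_starChs _ _ _).2 ⟨?_, fun p hp q hq => h2 p (mem_of_mem_erase hp) q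
          (mem_of_mem_erase hq), fun p hp => h3 p (mem_of_mem_erase hp)⟩⟩, insert_erase he,
        (mul_prod_erase Ch (fun p => r p.2) he).symm⟩
      ext B
      constructor
      · intro hB
        obtain ⟨p, hp, rfl⟩ := mem_image.1 hB
        refine (mem_insert.1 (h1 ▸ mem_image_of_mem _ (mem_of_mem_erase hp))).resolve_left
          fun e' => ne_of_mem_erase hp (h2 _ (mem_of_mem_erase hp) _ he e')
      · intro hB
        obtain ⟨p, hp, rfl⟩ := mem_image.1 (h1 ▸ mem_insert_of_mem hB : B ∈ Ch.image Prod.fst)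
        exact mem_image_of_mem _ (mem_erase.2 ⟨fun e' => hA (by rwa [e'] at hB), hp⟩)
    · rw [sum_product, prod_insert hA]
      simp only [← mul_sum, ← sum_mul]
      exact mul_le_mul (jn_le G hr _ _) ih (sum_nonneg fun _ _ => hp _) (G.blk_nonneg hr hr _ _)

theorem pf_R2 (G : Gr V E) : S_R2 G := by
  intro r hr S A B hA
  refine ⟨fun Ch h => fst_mem h, ?_⟩
  have hp : ∀ Ch : Finset (Finset V × E), 0 ≤ ∏ p ∈ Ch, r p.2 := fun Ch => prod_nonneg fun p _ => hr _
  induction S using Finset.strongInduction generalizing A with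
  | H S ih =>
    rcases S.eq_empty_or_nonempty with rfl | hS
    · refine (cover _ (univ.filter (G.Jn A B)) (fun e => {(A, e)}) _ r (fun Ch h => ?_)
        fun b _ => hr _).trans (jn_le G hr A B)
      have h1 := (G.mem_pathChs _ _ _ _).1 h
      generalize hS : (∅ : Finset (Finset V)) = S at h1
      cases h1 with
      | nil he => exact ⟨_, mem_filter.2 ⟨mem_univ _, he⟩, rfl, by simp⟩
      | cons hD _ _ => exact absurd (hS ▸ hD) (notMem_empty _)
    · refine (cover _ (S.sigma fun D => univ.filter (G.Jn A D) ×ˢ G.pathChs D (S.erase D) B)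
        (fun b => insert (A, b.2.1) b.2.2) _ (fun b => r b.2.1 * ∏ p ∈ b.2.2, r p.2)
        (fun Ch h => ?_) fun b _ => mul_nonneg (hr _) (hp _)).trans ?_
      · have h1 := (G.mem_pathChs _ _ _ _).1 h
        cases h1 with
        | nil _ => exact absurd hS not_nonempty_empty
        | @cons _ D _ _ e Ch hD he hc =>
          refine ⟨⟨D, e, Ch⟩, mem_sigma.2 ⟨hD, mem_product.2 ⟨mem_filter.2 ⟨mem_univ _, he⟩,
            (G.mem_pathChs _ _ _ _).2 hc⟩⟩, rfl, prod_insert fun hm => hA ?_⟩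
          exact insert_erase hD ▸ fst_mem hc _ hm
      · rw [sum_sigma, Pth_step _ _ hS]
        refine sum_le_sum fun D hD => ?_
        rw [sum_product]
        simp only [← mul_sum, ← sum_mul]
        exact mul_le_mul (jn_le G hr _ _) (ih _ (erase_ssubset hD) D (notMem_erase _ _))
          (sum_nonneg fun _ _ => hp _) (G.blk_nonneg hr hr _ _)

end Pool.Agent.P.MP_81d17b_pr.St
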