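import Pool.Agent.P.MP_81d17b_pr.St.Basic

/-! The steps of the proof, each as a proposition. -/

namespace Pool.Agent.P.MP_81d17b_pr.St

open Finset MeasureTheory
open scoped ENNReal

section
variable {V E : Type} [Fintype V] [DecidableEq V] [Fintype E] [DecidableEq E]

/-- The end outside `D` of an edge crossing `D`. -/
def Gr.out (G : Gr V E) (D : Finset V) (e : E) : V := if G.s e ∈ D then G.t e else G.s e

open Classical in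
noncomputable def Gr.tight (G : Gr V E) (w : E → ℝ) (J : V → Finset E) (b : ℝ) (D : Finset V)
    (ρ : Finset (Finset V)) : Finset E :=
  univ.filter fun e => G.yy w J e = b ∧ G.In D e ∧ ∀ A ∈ ρ, ¬ G.In A e

theorem Gr.mem_tight (G : Gr V E) (w : E → ℝ) (J : V → Finset E) (b : ℝ) (D : Finset V)
    (ρ : Finset (Finset V)) (e : E) :
    e ∈ G.tight w J b D ρ ↔ G.yy w J e = b ∧ G.In D e ∧ ∀ A ∈ ρ, ¬ G.In A e := by
  simp only [Gr.tight, Finset.mem_filter, Finset.mem_univ, true_and]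

open Classical in
noncomputable def orthE (l : E → ℝ) (z : E → ℝ) : ℝ≥0∞ :=
  if ∀ e, 0 ≤ z e then ENNReal.ofReal (Real.exp (-∑ e, l e * z e)) else 0

open Classical in
noncomputable def Gr.FT (G : Gr V E) (r θ : E → ℝ) (B : V → ZMod 2) (v : E → ℝ) : ℝ≥0∞ :=
  if ∀ e, 0 < v e then
    ENNReal.ofReal (Real.exp (-∑ e, v e + ∑ x, G.dv θ x * G.nu (fun e => v e / r e) (B + pt x)))
  else 0

open Classical in
noncomputable def posPart (F : (E → ℝ) → ℝ≥0∞) (N : Finset E) (v : E → ℝ) : ℝ≥0∞ :=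
  if ∀ e, 0 < v e then
    F (sgn N v) * ENNReal.ofReal (Real.exp (-∑ e, v e) / 2 ^ Fintype.card E)
  else 0

/-! ### J: joins and growth -/

def S_Exch (G : Gr V E) : Prop :=
  ∀ (F : Finset E) (D : Finset V) (x : V), (∀ z, z ∉ D → G.bd F z = pt x z) →
    2 ≤ (F.filter (G.Cr D)).card →
    ∃ e1 ∈ F, ∃ e2 ∈ F, e1 ≠ e2 ∧ G.Cr D e1 ∧ G.Cr D e2 ∧
      ∃ P, P ⊆ F ∧ (∀ e ∈ P, G.s e ∉ D ∧ G.t e ∉ D) ∧
        G.bd P = pt (G.out D e1) + pt (G.out D e2)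

def S_Grow (G : Gr V E) : Prop :=
  ∀ (T : Finset V) (J : V → Finset E) (w : E → ℝ) (η : V → ℝ) (D : Finset V) (K : Finset E)
    (ε : ℝ), G.Opt T J w η → (∀ e ∈ K, w e = 0) → (∀ e ∈ K, ¬ G.Cr D e) →
    (∀ z ∈ D, ∀ z' ∈ D, G.Conn K z z') → D.Nonempty → 0 < ε →
    (∀ e, G.s e ∈ D → G.t e ∉ D → 2 * ε ≤ w e + η (G.t e) - η (G.s e)) →
    (∀ e, G.t e ∈ D → G.s e ∉ D → 2 * ε ≤ w e + η (G.s e) - η (G.t e)) →
    G.Opt T J (fun e => w e - if G.Cr D e then ε else 0) (fun x => η x + if x ∈ D then ε else 0) ∧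
      Odd (T ∩ D).card ∧ ∀ x, ((J x).filter (G.Cr D)).card = if x ∈ D then 0 else 1

def S_Inner (G : Gr V E) : Prop :=
  ∀ (T : Finset V) (J : V → Finset E) (w : E → ℝ) (η : V → ℝ) (K : Finset E),
    G.Opt T J w η → (∀ e ∈ K, w e = 0) →
    (∀ x, ∀ f ∈ J x, G.Conn K (G.s f) (G.t f) → w f ≤ 0) ∧
      ∀ w' : E → ℝ, (∀ e, G.Conn K (G.s e) (G.t e) → 0 ≤ w' e ∧ w' e ≤ w e) →
        (∀ e, ¬ G.Conn K (G.s e) (G.t e) → w' e = w e) → G.Opt T J w' η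

def S_Lev0 (G : Gr V E) : Prop :=
  ∀ (T : Finset V) (J : V → Finset E) (w : E → ℝ), G.MinFam T J w → (∀ e, 0 ≤ w e) → ∀ e,
    hh w J (G.s e) ≤ G.yy w J e ∧ hh w J (G.t e) ≤ G.yy w J e ∧
      (e ∈ J (G.s e) → G.yy w J e ≤ hh w J (G.s e)) ∧ (e ∈ J (G.t e) → G.yy w J e ≤ hh w J (G.t e))

def S_Comp (G : Gr V E) : Prop :=
  ∀ (T : Finset V) (J : V → Finset E) (w : E → ℝ), G.MinFam T J w → (∀ e, 0 ≤ w e) →
    (∀ t D, G.Comp w J t D → D.Nonempty ∧ (∀ v ∈ D, hh w J v ≤ t) ∧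
      (∀ e ∈ G.Kt w J t, ¬ G.Cr D e) ∧ ∀ z ∈ D, ∀ z' ∈ D, G.Conn (G.Kt w J t) z z') ∧
    (∀ t v, hh w J v ≤ t → ∃ D, G.Comp w J t D ∧ v ∈ D) ∧
    (∀ t t' A D v, t' ≤ t → G.Comp w J t' A → G.Comp w J t D → v ∈ A → v ∈ D → A ⊆ D) ∧
    (∀ t D A, G.Comp w J t D → A ⊆ D → A.Nonempty → A ≠ D →
      ∃ e ∈ G.Kt w J t, G.Cr A e ∧ G.In D e) ∧
    (∀ t u v, G.Conn (G.Kt w J t) u v → u ≠ v → hh w J u ≤ t ∧ hh w J v ≤ t)

def S_Step (G : Gr V E) : Prop :=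
  ∀ (T : Finset V) (J : V → Finset E) (w : E → ℝ), G.MinFam T J w → (∀ e, 0 ≤ w e) →
    ∀ t t', G.Gap w J t t' → G.Opt T J (G.res w J t) (fun x => max (hh w J x) t) →
      G.Opt T J (G.res w J t') (fun x => max (hh w J x) t')

def S_Born (G : Gr V E) : Prop :=
  ∀ (J : V → Finset E) (w : E → ℝ),
    (∀ t D, G.Comp w J t D → G.Born w J (G.birth w J D) D ∧ G.birth w J D ≤ t) ∧
    (∀ b D, G.Born w J b D → G.birth w J D = b) ∧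
    (∀ b, ∃ t, G.Gap w J t b) ∧ (∀ t, ∃ t', G.Gap w J t t') ∧
    (G.Cnd → Nonempty V → ∃ t, G.Comp w J t univ)

def S_Inv (G : Gr V E) : Prop :=
  ∀ (T : Finset V) (J : V → Finset E) (w : E → ℝ), G.MinFam T J w → (∀ e, 0 ≤ w e) →
    ∀ t, G.Opt T J (G.res w J t) (fun x => max (hh w J x) t)

def S_Sebo (G : Gr V E) : Prop :=
  ∀ (T : Finset V) (J : V → Finset E) (w : E → ℝ), G.MinFam T J w → (∀ e, 0 ≤ w e) →
    ∀ t D, G.Comp w J t D → Odd (T ∩ D).card ∧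
      (∀ x, ((J x).filter (G.Cr D)).card = if x ∈ D then 0 else 1) ∧
      ∀ x, ∀ f ∈ J x, G.In D f → G.yy w J f ≤ t

/-! ### S: the cluster structure of generic weights -/

def S_Gen (G : Gr V E) : Prop :=
  ∀ (T : Finset V) (J : V → Finset E) (w : E → ℝ), G.MinFam T J w → Gen w →
    (∀ x x', hh w J x = hh w J x' → x = x') ∧
    (∀ e x, G.yy w J e = hh w J x → G.s e = x ∨ G.t e = x) ∧
    ∀ e e', G.yy w J e = G.yy w J e' → ∀ f, G.vec J e f = G.vec J e' f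

def S_Kids (G : Gr V E) : Prop :=
  ∀ (T : Finset V) (J : V → Finset E) (w : E → ℝ), G.MinFam T J w → (∀ e, 0 ≤ w e) →
    ∀ b t D, G.Born w J b D → G.Gap w J t b →
      Valid (G.kids w J t D) ∧ (∀ A ∈ G.kids w J t D, A ≠ D) ∧ supp (G.kids w J t D) ⊆ D ∧
      (∀ v ∈ D, v ∈ supp (G.kids w J t D) ↔ hh w J v ≠ b) ∧
      (∀ e, G.In D e → (∀ A ∈ G.kids w J t D, ¬ G.In A e) → b ≤ G.yy w J e) ∧
      ∀ S, S ⊆ G.kids w J t D → S.Nonempty → supp S ≠ D →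
        ∃ e ∈ G.tight w J b D (G.kids w J t D), G.Cr (supp S) e

def S_EvStar (G : Gr V E) : Prop :=
  ∀ (T : Finset V) (J : V → Finset E) (w : E → ℝ), G.MinFam T J w → (∀ e, 0 ≤ w e) → Gen w →
    ∀ b t D x, G.Born w J b D → G.Gap w J t b → x ∈ D → hh w J x = b →
      D = insert x (supp (G.kids w J t D)) ∧ x ∉ supp (G.kids w J t D) ∧
      (x ∈ T ↔ Even (G.kids w J t D).card) ∧
      ∃ Ch, G.IsStarCh x (G.kids w J t D) Ch ∧ ∀ p ∈ Ch, G.yy w J p.2 = b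

def S_Deg2 (G : Gr V E) : Prop :=
  ∀ (T : Finset V) (J : V → Finset E) (w : E → ℝ), G.MinFam T J w → (∀ e, 0 ≤ w e) → Gen w →
    ∀ b t D, G.Born w J b D → G.Gap w J t b → (∀ x ∈ D, hh w J x ≠ b) →
      D = supp (G.kids w J t D) ∧ Odd (G.kids w J t D).card ∧ 3 ≤ (G.kids w J t D).card ∧
      ∀ A ∈ G.kids w J t D, ((G.tight w J b D (G.kids w J t D)).filter (G.Cr A)).card = 2

def S_HamPath (G : Gr V E) : Prop :=
  ∀ (S : Finset (Finset V)) (A B : Finset V) (C : Finset E), Valid (insert A (insert B S)) →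
    A ≠ B → A ∉ S → B ∉ S →
    (∀ e ∈ C, G.In (supp (insert A (insert B S))) e ∧ ∀ X ∈ insert A (insert B S), ¬ G.In X e) →
    (C.filter (G.Cr A)).card = 1 → (C.filter (G.Cr B)).card = 1 →
    (∀ X ∈ S, (C.filter (G.Cr X)).card = 2) →
    (∀ S', S' ⊆ S → S'.Nonempty → ∃ e ∈ C, G.Cr (supp S') e) →
    ∃ Ch, G.IsPath A S B Ch ∧ ∀ p ∈ Ch, p.2 ∈ C

def S_Ham (G : Gr V E) : Prop :=
  ∀ (ρ : Finset (Finset V)) (C : Finset E), Valid ρ → 3 ≤ ρ.card →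
    (∀ e ∈ C, G.In (supp ρ) e ∧ ∀ X ∈ ρ, ¬ G.In X e) →
    (∀ X ∈ ρ, (C.filter (G.Cr X)).card = 2) →
    (∀ S, S ⊆ ρ → S.Nonempty → S ≠ ρ → ∃ e ∈ C, G.Cr (supp S) e) →
    ∃ Ch, G.IsBloCh ρ Ch ∧ ∀ p ∈ Ch, p.2 ∈ C

def S_PathCh (G : Gr V E) : Prop :=
  ∀ (A : Finset V) (S : Finset (Finset V)) (B : Finset V) (Ch : Finset (Finset V × E)),
    G.IsPath A S B Ch → Valid (insert A (insert B S)) → A ≠ B → A ∉ S → B ∉ S →
      Ch.image Prod.fst = insert A S ∧ (∀ p ∈ Ch, ∀ p' ∈ Ch, p.1 = p'.1 → p = p') ∧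
      (∀ p ∈ Ch, ∀ p' ∈ Ch, p.2 = p'.2 → p = p') ∧
      ∀ p ∈ Ch, ∃ Y ∈ insert B S, Y ≠ p.1 ∧ G.Jn p.1 Y p.2

def S_Chan (G : Gr V E) : Prop :=
  ∀ (ρ : Finset (Finset V)) (Ch : Finset (Finset V × E)), Valid ρ →
    (∀ x, x ∉ supp ρ → G.IsStarCh x ρ Ch → G.GoodCh ρ (insert x (supp ρ)) Ch) ∧
    (G.IsBloCh ρ Ch → G.GoodCh ρ (supp ρ) Ch ∧ 3 ≤ ρ.card)

def S_StrB (G : Gr V E) : Prop :=
  ∀ (D : Finset V) (c : Finset (Finset V × E)) (T : Finset V), G.IsStr D c T →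
    D.Nonempty ∧ (∀ p ∈ c, p.1 ⊆ D ∧ p.1 ≠ D ∧ G.Cr p.1 p.2 ∧ G.In D p.2) ∧
      ∀ p ∈ c, ∀ p' ∈ c, p.2 = p'.2 → p = p'

def S_StrSum (G : Gr V E) : Prop :=
  ∀ (ρ : Finset (Finset V)) (D : Finset V) (Ch : Finset (Finset V × E))
    (sub : Finset V → Finset (Finset V × E)) (tt : Finset V → Finset V), Valid ρ →
    G.GoodCh ρ D Ch → (∀ A ∈ ρ, G.IsStr A (sub A) (tt A)) → ∀ g : Finset V × E → ℝ,
      (∑ p ∈ Ch ∪ ρ.biUnion sub, g p = ∑ p ∈ Ch, g p + ∑ A ∈ ρ, ∑ p ∈ sub A, g p) ∧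
      ∏ p ∈ Ch ∪ ρ.biUnion sub, g p = (∏ p ∈ Ch, g p) * ∏ A ∈ ρ, ∏ p ∈ sub A, g p

/-- One gluing step: the linear relations pass from the children to the parent. -/
def S_GlueLin (G : Gr V E) : Prop :=
  ∀ (J : V → Finset E) (w : E → ℝ) (b : ℝ) (ρ : Finset (Finset V)) (D : Finset V)
    (Ch : Finset (Finset V × E)) (sub : Finset V → Finset (Finset V × E))
    (tt : Finset V → Finset V), Valid ρ → supp ρ ⊆ D → G.GoodCh ρ D Ch →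
    (∀ A ∈ ρ, G.IsStr A (sub A) (tt A)) → (∀ p ∈ Ch, G.yy w J p.2 = b) →
    (∀ x ∈ D, x ∉ supp ρ → hh w J x = b) →
    (∀ e, G.In D e → (∀ A ∈ ρ, ¬ G.In A e) → b ≤ G.yy w J e) →
    (∀ A ∈ ρ, ∀ x ∈ A,
      hh w J x = G.birth w J A - ∑ p ∈ sub A, if x ∈ p.1 then G.len w J p else 0) →
    (∀ A ∈ ρ, ∀ e, G.In A e → (∑ p ∈ sub A, if G.Cr p.1 e then G.len w J p else 0) ≤ w e ∧
      (e ∈ (sub A).image Prod.snd → (∑ p ∈ sub A, if G.Cr p.1 e then G.len w J p else 0) = w e)) →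
    (∀ x ∈ D, hh w J x = b - ∑ p ∈ Ch ∪ ρ.biUnion sub, if x ∈ p.1 then G.len w J p else 0) ∧
    ∀ e, G.In D e → (∑ p ∈ Ch ∪ ρ.biUnion sub, if G.Cr p.1 e then G.len w J p else 0) ≤ w e ∧
      (e ∈ (Ch ∪ ρ.biUnion sub).image Prod.snd →
        (∑ p ∈ Ch ∪ ρ.biUnion sub, if G.Cr p.1 e then G.len w J p else 0) = w e)

def S_Glue (G : Gr V E) : Prop :=
  ∀ (T : Finset V) (J : V → Finset E) (w : E → ℝ), G.MinFam T J w → (∀ e, 0 ≤ w e) → Gen w →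
    ∀ D b, G.Born w J b D → ∃ c, G.IsStr D c (T ∩ D) ∧ (∀ p ∈ c, 0 ≤ G.len w J p) ∧
      (∀ x ∈ D, hh w J x = b - ∑ p ∈ c, if x ∈ p.1 then G.len w J p else 0) ∧
      ∀ e, G.In D e → (∑ p ∈ c, if G.Cr p.1 e then G.len w J p else 0) ≤ w e ∧
        (e ∈ c.image Prod.snd → (∑ p ∈ c, if G.Cr p.1 e then G.len w J p else 0) = w e)

def S_Exist (G : Gr V E) : Prop :=
  ∀ (T : Finset V) (J : V → Finset E) (w : E → ℝ), G.Cnd → Nonempty V → G.MinFam T J w →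
    (∀ e, 0 ≤ w e) → Gen w → ∃ c, G.IsStr univ c T ∧ ∃ z : E → ℝ, (∀ e, 0 ≤ z e) ∧
      (G.Mx c).mulVec z = w ∧ ∃ b, ∀ x, hh w J x = b - ∑ p ∈ c, if x ∈ p.1 then z p.2 else 0

/-! ### D: determinants -/

def S_DetMul (G : Gr V E) : Prop :=
  (∀ c1 c2 : Finset (Finset V × E),
    (∀ p1 ∈ c1, ∀ p2 ∈ c2, ¬ G.Cr p2.1 p1.2 ∧ p1.2 ≠ p2.2) → G.Mx (c1 ∪ c2) = G.Mx c1 * G.Mx c2) ∧
  (G.Mx ∅ = 1) ∧ (∀ p : Finset V × E, G.Cr p.1 p.2 → (G.Mx {p}).det = 1) ∧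
  ∀ c : Finset (Finset V × E), (∀ p ∈ c, G.Cr p.1 p.2) →
    (∀ p ∈ c, ∀ p' ∈ c, p ≠ p' → ¬ G.Cr p'.1 p.2) → (G.Mx c).det = 1

def S_DetPath (G : Gr V E) : Prop :=
  ∀ (A : Finset V) (S : Finset (Finset V)) (B : Finset V) (Ch : Finset (Finset V × E)),
    G.IsPath A S B Ch → Valid (insert A (insert B S)) → A ≠ B → A ∉ S → B ∉ S →
      (G.Mx Ch).det = 1 ∧
      ∀ α : Finset V → ℝ, (∀ p ∈ Ch, ∀ Y ∈ insert B S, Y ≠ p.1 → G.Jn p.1 Y p.2 → α p.1 + α Y = 0) →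
        |α A| = |α B|

def S_DetCh (G : Gr V E) : Prop :=
  ∀ (ρ : Finset (Finset V)) (Ch : Finset (Finset V × E)), Valid ρ →
    (∀ x, x ∉ supp ρ → G.IsStarCh x ρ Ch → (G.Mx Ch).det = 1) ∧
    (G.IsBloCh ρ Ch → |(G.Mx Ch).det| ≤ 2)

def S_DetGlue (G : Gr V E) : Prop :=
  ∀ (ρ : Finset (Finset V)) (D : Finset V) (Ch : Finset (Finset V × E))
    (sub : Finset V → Finset (Finset V × E)) (tt : Finset V → Finset V), Valid ρ →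
    G.GoodCh ρ D Ch → (∀ A ∈ ρ, G.IsStr A (sub A) (tt A)) →
      (G.Mx (Ch ∪ ρ.biUnion sub)).det = (G.Mx Ch).det * ∏ A ∈ ρ, (G.Mx (sub A)).det

/-! ### R: the recursion for the total weight of the structures -/

def S_R1 (G : Gr V E) : Prop :=
  ∀ (r : E → ℝ) (x : V) (ρ : Finset (Finset V)), (∀ e, 0 ≤ r e) →
    ∑ Ch ∈ G.starChs x ρ, ∏ p ∈ Ch, r p.2 ≤ ∏ A ∈ ρ, G.U r {x} A

def S_R2 (G : Gr V E) : Prop :=
  ∀ (r : E → ℝ), (∀ e, 0 ≤ r e) → ∀ (S : Finset (Finset V)) (A B : Finset V), A ∉ S →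
    (∀ Ch, G.IsPath A S B Ch → ∀ p ∈ Ch, p.1 ∈ insert A S) ∧
    ∑ Ch ∈ G.pathChs A S B, ∏ p ∈ Ch, r p.2 ≤ Pth (G.U r) (G.U r A) S B

def S_R3 (G : Gr V E) : Prop :=
  ∀ (r : E → ℝ), (∀ e, 0 ≤ r e) → ∀ ρ : Finset (Finset V),
    2 * ∑ Ch ∈ G.bloChs ρ, ∏ p ∈ Ch, r p.2 ≤ Cyc (G.U r) ρ

/-- The union bound over the sub-structures of one event. -/
def S_R4a (G : Gr V E) : Prop :=
  ∀ (r θ : E → ℝ), Adm r θ → ∀ (ρ : Finset (Finset V)) (D : Finset V)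
    (Ch : Finset (Finset V × E)) (T0 : Finset V) (X : Finset (Finset (Finset V × E) × Finset V)),
    Valid ρ → G.GoodCh ρ D Ch →
    (∀ ct ∈ X, ∃ (sub : Finset V → Finset (Finset V × E)) (tt : Finset V → Finset V),
      (∀ A ∈ ρ, G.IsStr A (sub A) (tt A)) ∧ ct.1 = Ch ∪ ρ.biUnion sub ∧
        ct.2 = T0 ∪ ρ.biUnion tt) →
    ∑ ct ∈ X, G.wtc r θ ct.1 ≤
      |(G.Mx Ch).det| * (∏ p ∈ Ch, r p.2) * ∏ A ∈ ρ, G.BT r θ A / G.q r θ A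

def S_R4 (G : Gr V E) : Prop :=
  ∀ (r θ : E → ℝ), Adm r θ → ∀ D,
    0 ≤ G.BT r θ D ∧ G.BT r θ D ≤ G.InT r (fun A => G.BT r θ A / G.q r θ A) D

/-! ### A: the algebra -/

def S_Pth1 (V : Type) [DecidableEq V] : Prop :=
  ∀ u : Finset V → Finset V → ℝ,
    (∀ φ S B, S.Nonempty → Pth u φ S B = ∑ D ∈ S, Pth u φ (S.erase D) D * u D B) ∧
    (∀ φ S B D, D ∈ S → Pth u φ S B =
      ∑ S1 ∈ (S.erase D).powerset, Pth u φ S1 D * Pth u (u D) ((S.erase D) \ S1) B) ∧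
    ∀ S R, R ∈ S → Cyc u S = Pth u (u R) (S.erase R) R

def S_Pth2 (V : Type) [DecidableEq V] : Prop :=
  (∀ (u u' : Finset V → Finset V → ℝ) (φ φ' : Finset V → ℝ) (S : Finset (Finset V))
    (B B' : Finset V), (∀ D ∈ S, φ D = φ' D) → (S = ∅ → φ B = φ' B') →
    (∀ D ∈ S, ∀ D' ∈ S, D ≠ D' → u D D' = u' D D') → (∀ D ∈ S, u D B = u' D B') →
    Pth u φ S B = Pth u' φ' S B') ∧
  (∀ (u : Finset V → Finset V → ℝ) (φ ψ : Finset V → ℝ) (S : Finset (Finset V)) (B : Finset V),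
    Pth u (fun D => φ D + ψ D) S B = Pth u φ S B + Pth u ψ S B) ∧
  (∀ (u : Finset V → Finset V → ℝ) (φ : Finset V → ℝ) (S Xs : Finset (Finset V)) (B : Finset V),
    φ B = ∑ X ∈ Xs, φ X → (∀ D ∈ S, u D B = ∑ X ∈ Xs, u D X) →
    Pth u φ S B = ∑ X ∈ Xs, Pth u φ S X) ∧
  (∀ (u : Finset V → Finset V → ℝ) (φ : Finset V → ℝ) (a : ℝ) (S : Finset (Finset V))
    (B : Finset V),
    Pth (fun X Y => a * u X Y) (fun X => a * φ X) S B = a ^ (S.card + 1) * Pth u φ S B) ∧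
  (∀ (u : Finset V → Finset V → ℝ) (a : ℝ) (S : Finset (Finset V)), S.Nonempty →
    Cyc (fun X Y => a * u X Y) S = a ^ S.card * Cyc u S) ∧
  ∀ (u : Finset V → Finset V → ℝ) (S : Finset (Finset V)) (A B : Finset V),
    Pth u (u A) S B = Pth (fun X Y => u Y X) (fun Y => u Y B) S A

def S_Pth3 (V : Type) [DecidableEq V] : Prop :=
  (∀ (u : Finset V → Finset V → ℝ) (φ : Finset V → ℝ), (∀ X Y, 0 ≤ u X Y) → (∀ X, 0 ≤ φ X) →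
    ∀ S B, 0 ≤ Pth u φ S B) ∧
  (∀ (u : Finset V → Finset V → ℝ), (∀ X Y, 0 ≤ u X Y) → ∀ S, 0 ≤ Cyc u S) ∧
  (∀ (u g : Finset V → Finset V → ℝ) (μ : Finset V → ℝ) (ρ : Finset (Finset V)),
    (∀ X Y, 0 ≤ u X Y) → (∀ X, 0 ≤ μ X) →
    (∀ X ∈ ρ, ∀ Y ∈ ρ, X ≠ Y → μ X * u X Y ≤ g X Y) → 2 ≤ ρ.card →
    (∏ X ∈ ρ, μ X) * Cyc u ρ ≤ Cyc g ρ) ∧
  ∀ (u g : Finset V → Finset V → ℝ), (∀ X Y, 0 ≤ u X Y) → (∀ X Y, 0 ≤ g X Y) →
    (∀ X Y, g X Y ^ 2 ≤ u X Y * u Y X) → ∀ S, Cyc g S ≤ Cyc u S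

def S_CycW (G : Gr V E) : Prop :=
  (∀ (W : E → ℝ) (S : Finset (Finset V)) (X Y : Finset V), Disjoint X Y → X ∉ S → Y ∉ S →
    X ∪ Y ∉ S → Cyc (G.U W) (insert (X ∪ Y) S) =
      Cyc (G.U W) (insert X S) + Cyc (G.U W) (insert Y S) +
        (Pth (G.U W) (G.U W X) S Y + Pth (G.U W) (G.U W Y) S X)) ∧
  (∀ (W : E → ℝ) (e : E) (a : ℝ) (S : Finset (Finset V)) (X Y : Finset V),
    Valid (insert X (insert Y S)) → X ≠ Y → X ∉ S → Y ∉ S → G.s e ∈ X → G.t e ∈ Y →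
    Cyc (G.U (W + Pi.single e a)) (insert X (insert Y S)) -
        Cyc (G.U (Pi.single e a)) (insert X (insert Y S)) =
      Cyc (G.U W) (insert X (insert Y S)) +
        a * (Pth (G.U W) (G.U W X) S Y + Pth (G.U W) (G.U W Y) S X)) ∧
  ∀ (W : E → ℝ) (e : E) (a : ℝ) (S : Finset (Finset V)), Valid S → S.Nonempty →
    (¬ ∃ X ∈ S, ∃ Y ∈ S, X ≠ Y ∧ G.s e ∈ X ∧ G.t e ∈ Y) →
    Cyc (G.U (W + Pi.single e a)) S - Cyc (G.U (Pi.single e a)) S = Cyc (G.U W) S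

def S_IdE (G : Gr V E) : Prop :=
  ∀ (W : E → ℝ) (e : E) (a : ℝ) (f : Finset (Finset V) → ℝ) (π : Finset (Finset V)), Valid π →
    Cop (G.U W) f π + a * G.Kop e (Cop (G.U W) f) π =
      Cop (G.U (W + Pi.single e a)) (fun π' => f π' + a * G.Kop e f π') π -
        Cop (G.U (Pi.single e a)) (fun π' => f π' + a * G.Kop e f π') π

def S_IdS (G : Gr V E) : Prop :=
  ∀ (W : E → ℝ) (e : E) (a : ℝ) (x : V) (f : Finset (Finset V) → ℝ) (π : Finset (Finset V)),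
    Valid π → x ∉ supp π →
    G.Sx W x (fun π' => f π' + a * G.Kop e f π') π =
      G.Sx (W + Pi.single e a) x f π + a * G.Kop e (G.Sx (W + Pi.single e a) x f) π

def S_OmB (G : Gr V E) : Prop :=
  ∀ (r : E → ℝ) (l : List E),
    (∀ (f g : Finset (Finset V) → ℝ) (a b : ℝ) (π : Finset (Finset V)),
      G.Om r l (fun π' => a * f π' + b * g π') π = a * G.Om r l f π + b * G.Om r l g π) ∧
    (∀ (s : Finset V) (F : V → Finset (Finset V) → ℝ) (π : Finset (Finset V)),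
      G.Om r l (fun π' => ∑ x ∈ s, F x π') π = ∑ x ∈ s, G.Om r l (F x) π) ∧
    (∀ (f g : Finset (Finset V) → ℝ) (π : Finset (Finset V)), Valid π →
      (∀ π', Valid π' → supp π' = supp π → f π' = g π') → G.Om r l f π = G.Om r l g π) ∧
    (∀ (f : Finset (Finset V) → ℝ), (∀ e, 0 ≤ r e) → (∀ π', Valid π' → 0 ≤ f π') →
      ∀ π, Valid π → 0 ≤ G.Om r l f π) ∧
    ∀ (f : Finset (Finset V) → ℝ) (π : Finset (Finset V)), π.card ≤ 1 → G.Om r l f π = f π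

def S_CopSplit (G : Gr V E) : Prop :=
  ∀ (r θ : E → ℝ) (f : Finset (Finset V) → ℝ) (π : Finset (Finset V)), Valid π →
    (Cop (G.U r) f π - Cop (G.U (-r)) f π =
      2 * (Odd3 (G.U r) f π + (∑ D ∈ π, G.U r D D) * f π)) ∧
    (w2 π * Cop (G.U (r + r)) f π =
      2 * (All2 (G.U r) (fun π' => w2 π' * f π') π + (∑ D ∈ π, G.U r D D) * (w2 π * f π))) ∧
    (G.Qs r θ π = G.rho r θ (supp π) univ - ∑ D ∈ π, G.U r D D) ∧ Cop (G.U 0) f π = 0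

def S_I1 (G : Gr V E) : Prop :=
  ∀ (r θ : E → ℝ) (f : Finset (Finset V) → ℝ) (π : Finset (Finset V)), Valid π →
    w2 π * G.Om r univ.toList (fun π' => Odd3 (G.U r) f π' - G.Qs r θ π' * f π') π =
      All2 (G.U r) (fun π' => w2 π' * G.Om r univ.toList f π') π -
        G.Qs r θ π * (w2 π * G.Om r univ.toList f π)

def S_Inter (G : Gr V E) : Prop :=
  ∀ (r θ : E → ℝ) (f : Finset (Finset V) → ℝ) (π : Finset (Finset V)), Valid π →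
    w2 π * G.Om r univ.toList (G.LT r θ f) π =
      G.LA r θ (fun π' => w2 π' * G.Om r univ.toList f π') π

def S_Adj1 (V : Type) [Fintype V] [DecidableEq V] : Prop :=
  ∀ Φ : Finset (Finset V) → Finset (Finset V) → ℝ,
    ∑ π ∈ states V, ∑ S ∈ π.powerset.filter (fun S => S.Nonempty), Φ (π \ S) S =
      ∑ π ∈ states V, ∑ B ∈ π, ∑ ρ ∈ parts B, Φ (π.erase B) ρ

def S_Adj2 (V : Type) [Fintype V] [DecidableEq V] : Prop :=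
  ∀ Φ : Finset (Finset V) → V → Finset (Finset V) → ℝ,
    ∑ π ∈ states V, ∑ x ∈ (supp π)ᶜ, ∑ S ∈ π.powerset, Φ (π \ S) x S =
      ∑ π ∈ states V, ∑ B ∈ π, ∑ x ∈ B, ∑ ρ ∈ parts (B.erase x), Φ (π.erase B) x ρ

/-- Marked-block forms of the two adjoint identities. -/
def S_AdjM (V : Type) [Fintype V] [DecidableEq V] : Prop :=
  ∀ (u : Finset V → Finset V → ℝ) (β : Finset V → ℝ) (g : Finset (Finset V) → Finset V → ℝ),
    ∑ π ∈ states V, ∑ B ∈ π, g (π.erase B) B * InA u β B * ∏ A ∈ π.erase B, β A =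
      ∑ π ∈ states V, (∏ A ∈ π, β A) * ((∑ x ∈ (supp π)ᶜ, g π {x}) +
        ∑ S ∈ π.powerset.filter (fun S => 2 ≤ S.card), Cyc u S * g (π \ S) (supp S))

def S_AdjT (G : Gr V E) : Prop :=
  ∀ (r : E → ℝ) (β : Finset V → ℝ) (f : Finset (Finset V) → ℝ),
    ∑ π ∈ states V, (∏ A ∈ π, β A) * (G.Sop r f π + Odd3 (G.U r) f π) =
      ∑ π ∈ states V, f π * ∑ B ∈ π, G.InT r β B * ∏ A ∈ π.erase B, β A

def S_Uex (G : Gr V E) : Prop :=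
  ∀ (r θ : E → ℝ), Adm r θ → G.Cnd → Nonempty V → ∃ f : Finset (Finset V) → ℝ,
    (∀ π, Valid π → 0 ≤ f π) ∧ f {univ} = 1 ∧ ∀ π, Valid π → π ≠ ∅ → G.LT r θ f π = 0

def S_Cmp (G : Gr V E) : Prop :=
  ∀ (r θ : E → ℝ), Adm r θ → G.Cnd → Nonempty V → ∀ βT βA : Finset V → ℝ, (∀ D, 0 ≤ βT D) →
    (∀ D, 0 ≤ βA D) →
    (∀ D : Finset V, D.Nonempty → D ≠ univ → G.q r θ D * βT D ≤ G.InT r βT D) →
    (∀ D : Finset V, D.Nonempty → D ≠ univ → InA (G.U r) βA D ≤ G.q r θ D * βA D) →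
    G.InT r βT univ ≤ 2 ^ (Fintype.card V - 1) * InA (G.U r) βA univ

def S_Bd (V : Type) [Fintype V] [DecidableEq V] : Prop :=
  ∀ (u : Finset V → Finset V → ℝ) (qq : Finset V → ℝ), (∀ X Y, 0 ≤ u X Y) →
    (∀ D : Finset V, D.Nonempty → D ≠ univ → 0 < qq D) → ∃ β : Finset V → ℝ, (∀ D, 0 ≤ β D) ∧
      ∀ D : Finset V, D.Nonempty → D ≠ univ → qq D * β D = InA u β D

def S_A1a (V : Type) [DecidableEq V] : Prop :=
  ∀ (u : Finset V → Finset V → ℝ) (φ : Finset V → ℝ) (π : Finset (Finset V)),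
    ∑ S ∈ π.powerset.filter (fun S => 2 ≤ S.card), ∑ D ∈ S, Cyc u S * Pth u φ (π \ S) D =
      ∑ B ∈ π, ∑ D ∈ π.erase B, Pth u φ (π.erase B) B * u B D

def S_A1 (G : Gr V E) : Prop :=
  ∀ (r θ : E → ℝ) (β : Finset V → ℝ), Nonempty V →
    (∀ D : Finset V, D.Nonempty → D ≠ univ → G.q r θ D * β D = InA (G.rho r θ) β D) →
    InA (G.rho r θ) β univ = 1

def S_A2a (G : Gr V E) : Prop :=
  ∀ (r θ : E → ℝ), Adm r θ → ∀ S : Finset (Finset V), Valid S → 2 ≤ S.card →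
    Cyc (G.U r) S * G.Lam r θ (supp S) ≤ Cyc (G.rho r θ) S * ∏ A ∈ S, G.Lam r θ A

def S_Alg (G : Gr V E) : Prop :=
  ∀ (r θ : E → ℝ), Adm r θ → G.Cnd → Nonempty V →
    G.BT r θ univ ≤ 2 ^ (Fintype.card V - 1) * ∏ e, (1 - (θ e / r e) ^ 2)⁻¹

/-! ### M: the integrals -/

def S_CV (E : Type) [Fintype E] [DecidableEq E] : Prop :=
  ∀ (A : Matrix E E ℝ) (H : (E → ℝ) → ℝ≥0∞), Measurable H → ∃ H' : (E → ℝ) → ℝ≥0∞,
    Measurable H' ∧ ∫⁻ v, H' v ≤ ENNReal.ofReal |A.det| * ∫⁻ z, H z ∧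
      ∀ᵐ v : E → ℝ, ∀ z, A.mulVec z = v → H z ≤ H' v

def S_GenAE (E : Type) [Fintype E] : Prop :=
  ∀ r : E → ℝ, (∀ e, 0 < r e) → ∀ᵐ v : E → ℝ, Gen fun e => v e / r e

def S_Orth (E : Type) [Fintype E] : Prop :=
  ∀ l : E → ℝ, (∀ e, 0 < l e) →
    Measurable (orthE l) ∧ ∫⁻ z, orthE l z = ENNReal.ofReal (∏ e, (l e)⁻¹)

def S_Expo (G : Gr V E) : Prop :=
  ∀ (r θ : E → ℝ) (c : Finset (Finset V × E)), (∀ p ∈ c, ∀ p' ∈ c, p.2 = p'.2 → p = p') →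
    (∀ (z w : E → ℝ) (h : V → ℝ) (b : ℝ), (G.Mx c).mulVec z = w →
      (∀ x, h x = b - ∑ p ∈ c, if x ∈ p.1 then z p.2 else 0) →
      ∑ e, r e * w e - ∑ x, G.dv θ x * h x = ∑ f, G.rate r θ c f * z f) ∧
    (Adm r θ → (∀ p ∈ c, G.Cr p.1 p.2) → (∀ f, 0 < G.rate r θ c f) ∧
      (∏ e, r e) * ∏ f, (G.rate r θ c f)⁻¹ = ∏ p ∈ c, r p.2 / G.q r θ p.1)

def S_Nu (G : Gr V E) : Prop :=
  (∀ (T : Finset V) (w : E → ℝ), G.Cnd → Odd T.card →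
    ∃ J, G.MinFam T J w ∧ ∀ x, hh w J x = G.nu w (ind T + pt x)) ∧
  (∀ B, Continuous fun w : E → ℝ => G.nu w B) ∧
  (∀ (B : V → ZMod 2) (N : Finset E) (w : E → ℝ), (∃ S, G.bd S = B) →
    G.nu (sgn N w) B = G.nu w (B + G.bd N) - wt w N) ∧
  ∀ B : V → ZMod 2, G.Cnd → ∑ x, B x = 0 → ∃ S, G.bd S = B

def S_M4 (G : Gr V E) : Prop :=
  ∀ (r θ : E → ℝ), Adm r θ → G.Cnd → ∀ T : Finset V, Odd T.card →
    ∫⁻ v, G.FT r θ (ind T) v ≤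
      ENNReal.ofReal (∑ ct ∈ (G.strs univ).filter (fun ct => ct.2 = T), G.wtc r θ ct.1)

def S_M5 (E : Type) [Fintype E] [DecidableEq E] : Prop :=
  ∀ F : (E → ℝ) → ℝ≥0∞, Measurable F →
    ∫⁻ ξ, F ξ ∂(Measure.pi fun _ : E => laplace) ≤ ∑ N : Finset E, ∫⁻ v, posPart F N v

def S_M6 (G : Gr V E) : Prop :=
  G.Cnd → ∀ T1 : Finset V, Odd T1.card → ∀ Φ : (V → ZMod 2) → ℝ≥0∞,
    2 ^ (Fintype.card V - 1) * ∑ N : Finset E, Φ (ind T1 + G.bd N) ≤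
      2 ^ Fintype.card E * ∑ T ∈ univ.filter (fun T : Finset V => Odd T.card), Φ (ind T)

def S_Core (G : Gr V E) : Prop :=
  ∀ (r θ : E → ℝ), Adm r θ → G.Cnd → ∀ T1 : Finset V, Odd T1.card →
    ∫⁻ ξ, ENNReal.ofReal
        (Real.exp (∑ x, G.dv θ x * G.nu (fun e => ξ e / r e) (ind T1 + pt x)))
        ∂(Measure.pi fun _ : E => laplace) ≤
      ENNReal.ofReal (∏ e, (1 - (θ e / r e) ^ 2)⁻¹)

def S_Core0 (G : Gr V E) : Prop :=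
  ∀ (c θ : E → ℝ), (∀ e, 0 ≤ c e) → (∀ e, c e * |θ e| < 1) → G.Cnd → ∀ T1 : Finset V,
    Odd T1.card →
    ∫⁻ ξ, ENNReal.ofReal
        (Real.exp (∑ x, G.dv θ x * G.nu (fun e => c e * ξ e) (ind T1 + pt x)))
        ∂(Measure.pi fun _ : E => laplace) ≤
      ENNReal.ofReal (∏ e, (1 - (c e * θ e) ^ 2)⁻¹)

end

/-! ### F: the box -/

def S_Grid1 (M n : ℕ) : Prop := (dual M n).Cnd

def S_Grid2 (M n : ℕ) : Prop :=
  ∀ S : Finset (Edge M n), (dual M n).bd S = 0 →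
    ∃ σ : ℤ × ℤ → Bool, (∀ z, ¬ InBox M n z → σ z = false) ∧ dis σ = S

def S_Grid3 (M n : ℕ) : Prop :=
  ∀ σ : ℤ × ℤ → Bool, (∀ z, ¬ InBox M n z → σ z = false) →
    (dual M n).bd (dis σ : Finset (Edge M n)) = 0

def S_Dual (M n : ℕ) : Prop :=
  ∀ (τ : ℤ × ℤ → Bool) (o : Plaq M n), ∃ T1 : Finset (Plaq M n), Odd T1.card ∧
    ∀ (Γ : Finset (Edge M n)) (p : Plaq M n) (J : Edge M n → ℝ),
      (∀ z, OddAt Γ z ↔ ¬ (z = o ↔ z = p)) →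
      ground τ (flipOn Γ J) = -∑ e, J e + 2 * (dual M n).nu J (ind T1 + pt p)

def S_Final : Prop :=
  ∀ (M n : ℕ) (τ : ℤ × ℤ → Bool) (c θ : Edge M n → ℝ), (∀ e, 0 ≤ c e) →
    (∀ e, 2 * c e * |θ e| < 1) → ∀ (o : Plaq M n) (Γ : Plaq M n → Finset (Edge M n)),
    (∀ p z, OddAt (Γ p) z ↔ ¬ (z = o ↔ z = p)) →
    ∫⁻ ξ, ENNReal.ofReal
        (Real.exp (∑ p, outflow θ p * ground τ (flipOn (Γ p) fun e => c e * ξ e)))
        ∂(Measure.pi fun _ : Edge M n => laplace) ≤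
      ENNReal.ofReal (∏ e, (1 - (2 * c e * θ e) ^ 2)⁻¹)

end Pool.Agent.P.MP_81d17b_pr.St
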