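import Pool.Agent.P.MP_81d17b_pr.St.Basic

/-! Deterministic step of the torus bound: cheap even edge sets in every class. -/

namespace Pool.Agent.P.MP_81d17b_pr.St

open Finset
open scoped symmDiff

set_option linter.unusedSectionVars false

variable {V E : Type} [Fintype V] [DecidableEq V] [Fintype E] [DecidableEq E]

/-- Value of the cochain `φ` on an edge set. -/
def ph (φ : E → ZMod 2) (S : Finset E) : ZMod 2 := ∑ e ∈ S, φ e

namespace TorDetAux

theorem ph_union (φ : E → ZMod 2) {S P : Finset E} (h : Disjoint S P) :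
    ph φ (S ∪ P) = ph φ S + ph φ P := by simp [ph, Finset.sum_union h]

theorem ph_split (φ : E → ZMod 2) (S P : Finset E) : ph φ S = ph φ (S \ P) + ph φ (S ∩ P) := by
  rw [← ph_union φ (Finset.disjoint_sdiff_inter S P), Finset.sdiff_union_inter]

theorem z2 (a : ZMod 2) : a + a = 0 := CharTwo.add_self_eq_zero _

theorem ph_symmDiff (φ : E → ZMod 2) (S P : Finset E) : ph φ (S ∆ P) = ph φ S + ph φ P := by
  have h1 : S ∆ P = (S \ P) ∪ (P \ S) := rfl
  have hd : Disjoint (S \ P) (P \ S) := disjoint_sdiff_sdiff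
  rw [h1, ph_union φ hd, ph_split φ S P, ph_split φ P S, Finset.inter_comm P S]
  linear_combination (-1 : ZMod 2) * z2 (ph φ (S ∩ P))

theorem ph_sdiff (φ : E → ZMod 2) {X Y : Finset E} (h : Y ⊆ X) :
    ph φ (X \ Y) = ph φ X + ph φ Y := by
  rw [ph_split φ X Y, Finset.inter_eq_right.2 h]
  linear_combination (-1 : ZMod 2) * z2 (ph φ Y)

theorem wt_union (w : E → ℝ) {S P : Finset E} (h : Disjoint S P) :
    wt w (S ∪ P) = wt w S + wt w P := by simp [wt, Finset.sum_union h]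

theorem wt_sdiff (w : E → ℝ) {X Y : Finset E} (h : Y ⊆ X) : wt w X = wt w (X \ Y) + wt w Y := by
  simp only [wt]
  rw [Finset.sum_sdiff h]

variable (G : Gr V E)

theorem bd_sdiff {X Y : Finset E} (h : Y ⊆ X) : G.bd (X \ Y) = G.bd X + G.bd Y := by
  rw [G.bd_sdiff_add_inter X Y, Finset.inter_eq_right.2 h, add_assoc, fn_add_self, add_zero]

theorem cob (φ : E → ZMod 2) (g : V → ZMod 2) (A : Finset E)
    (h : ∀ e ∈ A, φ e = g (G.s e) + g (G.t e)) : ph φ A = ∑ v, g v * G.bd A v := by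
  simp only [ph, Gr.bd, Finset.sum_apply, Pi.add_apply, Finset.mul_sum]
  rw [Finset.sum_comm]
  refine Finset.sum_congr rfl fun e he => ?_
  rw [h e he]
  simp [pt, mul_add, Finset.sum_add_distrib]

theorem bd_end {A : Finset E} {v : V} (h : G.bd A v ≠ 0) : ∃ e ∈ A, G.s e = v ∨ G.t e = v := by
  by_contra hno
  push Not at hno
  apply h
  simp only [Gr.bd, Finset.sum_apply, Pi.add_apply]
  refine Finset.sum_eq_zero fun e he => ?_
  have := hno e he
  simp [pt, this.1.symm, this.2.symm]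

theorem path {X : Finset E} {r : V} (hr : G.bd X r ≠ 0) :
    ∃ s, s ≠ r ∧ G.bd X s ≠ 0 ∧ G.Conn X r s := by
  classical
  by_contra hno
  push Not at hno
  set D : Finset V := univ.filter fun v => G.Conn X r v with hD
  have hmem : ∀ v, v ∈ D ↔ G.Conn X r v := fun v => by simp [hD]
  have h1 := G.sum_bd D X
  rw [Finset.filter_false_of_mem] at h1
  · rw [Finset.sum_eq_single r] at h1
    · exact hr (by simpa using h1)
    · intro b hb hbr
      by_contra hb0
      exact hno b hbr hb0 ((hmem b).1 hb)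
    · intro h
      exact absurd ((hmem r).2 (G.conn_refl X r)) h
  · intro e he hc
    rcases hc with hc | hc
    · exact hc.2 ((hmem _).2 (((hmem _).1 hc.1).trans (Gr.conn_edge he)))
    · exact hc.2 ((hmem _).2 (((hmem _).1 hc.1).trans (Gr.conn_edge he).symm))

theorem z2_cases (a : ZMod 2) : a = 0 ∨ a = 1 := by
  revert a
  decide

theorem cancel {f : V → ZMod 2} {r s v : V} (hrs : s ≠ r) (hr : f r ≠ 0) (hs : f s ≠ 0)
    (h : (f + (pt r + pt s)) v ≠ 0) : f v ≠ 0 ∧ v ≠ r ∧ v ≠ s := by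
  have h1 : f r = 1 := (z2_cases _).resolve_left hr
  have h2 : f s = 1 := (z2_cases _).resolve_left hs
  have hvr : v ≠ r := by
    rintro rfl
    apply h
    simp only [Pi.add_apply, pt, h1, if_true, if_neg hrs.symm]
    decide
  have hvs : v ≠ s := by
    rintro rfl
    apply h
    simp only [Pi.add_apply, pt, h2, if_true, if_neg hrs]
    decide
  refine ⟨?_, hvr, hvs⟩
  simpa [pt, hvr, hvs] using h

theorem low (w : E → ℝ) (m : ℝ) (hm : 0 ≤ m) (ha : ∀ X, G.bd X = 0 → 0 ≤ wt w X)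
    (hb : ∀ r s X, G.bd X = pt r + pt s → -m ≤ wt w X) (n : ℕ) :
    ∀ (X : Finset E) (B : Finset V), B.card ≤ 2 * n → (∀ v, G.bd X v ≠ 0 → v ∈ B) →
      -(n * m) ≤ wt w X := by
  induction n with
  | zero =>
    intro X B hB h
    have hB0 : B = ∅ := Finset.card_eq_zero.1 (by omega)
    have : G.bd X = 0 := by
      funext v
      by_contra hv
      simpa [hB0] using h v hv
    simpa using ha X this
  | succ n ih =>
    intro X B hB h
    by_cases h0 : G.bd X = 0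
    · have h1 := ha X h0
      have : 0 ≤ ((n + 1 : ℕ) : ℝ) * m := by positivity
      linarith
    · obtain ⟨r, hr⟩ := Function.ne_iff.1 h0
      obtain ⟨s, hsr, hs, Y, hY, hbY⟩ := path G hr
      have h1 := hb r s Y hbY
      have hrB := h r hr
      have hsB : s ∈ B.erase r := Finset.mem_erase.2 ⟨hsr, h s hs⟩
      have h2 := ih (X \ Y) ((B.erase r).erase s) (by
        rw [Finset.card_erase_of_mem hsB, Finset.card_erase_of_mem hrB]
        omega) (by
        intro v hv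
        rw [bd_sdiff G hY, hbY] at hv
        obtain ⟨a, b, c⟩ := cancel hsr hr hs hv
        exact Finset.mem_erase.2 ⟨c, Finset.mem_erase.2 ⟨b, h v a⟩⟩)
      rw [wt_sdiff w hY]
      push_cast
      linarith

theorem low4 (w : E → ℝ) (m : ℝ) (hm : 0 ≤ m) (ha : ∀ X, G.bd X = 0 → 0 ≤ wt w X)
    (hb : ∀ r s X, G.bd X = pt r + pt s → -m ≤ wt w X) {X : Finset E} {a b c d : V}
    (h : G.bd X = pt a + pt b + (pt c + pt d)) : -(2 * m) ≤ wt w X := by
  have := low G w m hm ha hb 2 X {a, b, c, d} Finset.card_le_four (by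
    intro v hv
    by_contra hno
    simp only [Finset.mem_insert, Finset.mem_singleton, not_or] at hno
    apply hv
    rw [h]
    simp [pt, hno.1, hno.2.1, hno.2.2.1, hno.2.2.2])
  simpa using this

theorem pick (φ : E → ZMod 2) (g : V → ZMod 2) (W : V → Prop) (p : V) (hp : W p) (n : ℕ) :
    ∀ X : Finset E, X.card ≤ n → (∀ v, G.bd X v ≠ 0 → W v) →
      ph φ X + ∑ v, g v * G.bd X v ≠ 0 →
      ∃ Y, Y ⊆ X ∧ ∃ r s, W r ∧ W s ∧ G.bd Y = pt r + pt s ∧ ph φ Y + ∑ v, g v * G.bd Y v ≠ 0 := by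
  induction n with
  | zero =>
    intro X hX _ h
    have : X = ∅ := Finset.card_eq_zero.1 (by omega)
    subst this
    simp [ph] at h
  | succ n ih =>
    intro X hX hW h
    by_cases h0 : G.bd X = 0
    · exact ⟨X, Finset.Subset.refl _, p, p, hp, hp, by rw [h0, fn_add_self], h⟩
    · obtain ⟨r, hr⟩ := Function.ne_iff.1 h0
      obtain ⟨s, hsr, hs, Y, hY, hbY⟩ := path G hr
      by_cases hψ : ph φ Y + ∑ v, g v * G.bd Y v = 0
      · have hne : Y.Nonempty := by
          rw [Finset.nonempty_iff_ne_empty]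
          rintro rfl
          have := congrFun hbY r
          simp [pt, hsr.symm] at this
        obtain ⟨Y', hY', h'⟩ := ih (X \ Y) (by
          have := Finset.card_sdiff_add_card_eq_card hY
          have := hne.card_pos
          omega) (by
          intro v hv
          rw [bd_sdiff G hY, hbY] at hv
          exact hW v (cancel hsr hr hs hv).1) (by
          rw [ph_sdiff φ hY, bd_sdiff G hY]
          simp only [Pi.add_apply, mul_add, Finset.sum_add_distrib]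
          intro h1
          apply h
          linear_combination h1 - hψ)
        exact ⟨Y', hY'.trans Finset.sdiff_subset, h'⟩
      · exact ⟨Y, hY, r, s, hW r hr, hW s hs, hbY, hψ⟩

theorem ear (φ : E → ZMod 2) {K X A0 : Finset E} {p : V} (hK : ∀ e ∈ K, G.Conn K p (G.s e))
    (hex : ∀ Z, Z ⊆ K → G.bd Z = 0 → ph φ Z = 0) (hA0 : A0 ⊆ K) (hbd : G.bd A0 = G.bd X)
    (hne : ph φ X + ph φ A0 ≠ 0) :
    ∃ Y A r s, Y ⊆ X ∧ Disjoint Y K ∧ A ⊆ K ∧ G.bd Y = pt r + pt s ∧ G.bd A = pt r + pt s ∧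
      ph φ Y + ph φ A ≠ 0 := by
  classical
  have hsub : ∀ {S P : Finset E}, S ⊆ K → P ⊆ K → S ∆ P ⊆ K := by
    intro S P hS hP e he
    rcases Finset.mem_symmDiff.1 he with h | h
    · exact hS h.1
    · exact hP h.1
  have hch : ∀ y, ∃ P, G.Conn K p y → P ⊆ K ∧ G.bd P = pt p + pt y := by
    intro y
    by_cases h : G.Conn K p y
    · obtain ⟨P, hP⟩ := h
      exact ⟨P, fun _ => hP⟩
    · exact ⟨∅, fun h' => absurd h' h⟩
  choose Ky hKy using hch
  set g : V → ZMod 2 := fun y => ph φ (Ky y) with hg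
  have hedge : ∀ e ∈ K, φ e = g (G.s e) + g (G.t e) := by
    intro e he
    have h1 := hKy _ (hK e he)
    have h2 := hKy _ ((hK e he).trans (Gr.conn_edge he))
    have h3 := hex ((Ky (G.s e) ∆ Ky (G.t e)) ∆ {e}) (hsub (hsub h1.1 h2.1) (by simpa using he)) (by
      rw [G.bd_symmDiff, G.bd_symmDiff, h1.2, h2.2, G.bd_singleton]
      calc pt p + pt (G.s e) + (pt p + pt (G.t e)) + (pt (G.s e) + pt (G.t e))
          = (pt p + pt p) + (pt (G.s e) + pt (G.s e)) + (pt (G.t e) + pt (G.t e)) := by abel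
        _ = 0 := by simp only [fn_add_self, add_zero])
    rw [ph_symmDiff, ph_symmDiff] at h3
    have h4 : ph φ {e} = φ e := by simp [ph]
    rw [h4] at h3
    simp only [hg]
    linear_combination h3 - z2 (ph φ (Ky (G.s e))) - z2 (ph φ (Ky (G.t e)))
  have hcob : ∀ A, A ⊆ K → ph φ A = ∑ v, g v * G.bd A v := fun A hA =>
    cob G φ g A fun e he => hedge e (hA he)
  have hA1 : A0 ∆ (X ∩ K) ⊆ K := hsub hA0 Finset.inter_subset_right
  have hbR : G.bd (X \ K) = G.bd (A0 ∆ (X ∩ K)) := by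
    rw [G.bd_symmDiff, hbd, G.bd_sdiff_add_inter X K, add_assoc, fn_add_self, add_zero]
  obtain ⟨Y, hY, r, s, hr, hs, hbY, hψ⟩ := pick G φ g (G.Conn K p) p (G.conn_refl K p) _ (X \ K) le_rfl
    (by
      intro v hv
      rw [hbR] at hv
      obtain ⟨e, he, h | h⟩ := bd_end G hv
      · exact h ▸ hK e (hA1 he)
      · exact h ▸ (hK e (hA1 he)).trans (Gr.conn_edge (hA1 he)))
    (by
      rw [hbR, ← hcob _ hA1, ph_symmDiff]
      intro h
      apply hne
      rw [ph_split φ X K]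
      linear_combination h)
  obtain ⟨A, hA, hbA⟩ := hr.symm.trans hs
  refine ⟨Y, A, r, s, hY.trans Finset.sdiff_subset, ?_, hA, hbY, hbA, ?_⟩
  · exact Finset.disjoint_of_subset_left hY Finset.sdiff_disjoint
  · rw [hcob A hA, hbA, ← hbY]
    exact hψ

open Classical in
theorem comp (K : Finset E) (p v : V) :
    G.bd (K.filter fun e => G.Conn K p (G.s e)) v = if G.Conn K p v then G.bd K v else 0 := by
  simp only [Gr.bd, Finset.sum_apply, Pi.add_apply]
  split_ifs with h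
  · rw [Finset.sum_filter]
    refine Finset.sum_congr rfl fun e he => ?_
    split_ifs with h1
    · rfl
    · have h2 : v ≠ G.s e := fun h' => h1 (h' ▸ h)
      have h3 : v ≠ G.t e := fun h' => h1 ((h' ▸ h : G.Conn K p (G.t e)).trans (Gr.conn_edge he).symm)
      simp [pt, h2, h3]
  · refine Finset.sum_eq_zero fun e he => ?_
    obtain ⟨he, h1⟩ := Finset.mem_filter.1 he
    have h2 : v ≠ G.s e := fun h' => h (h' ▸ h1)
    have h3 : v ≠ G.t e := fun h' => h (h' ▸ h1.trans (Gr.conn_edge he))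
    simp [pt, h2, h3]

theorem minjoin {X : Finset E} {p q : V} (h : G.bd X = pt p + pt q) :
    ∃ P, P ⊆ X ∧ G.bd P = pt p + pt q ∧ (∀ e ∈ P, G.Conn P p (G.s e)) ∧
      ∀ Z, Z ⊆ P → G.bd Z = 0 → Z = ∅ := by
  classical
  obtain ⟨P, hP, hmin⟩ := Finset.exists_min_image
    (X.powerset.filter fun P => G.bd P = pt p + pt q) Finset.card ⟨X, by simp [h]⟩
  obtain ⟨hPX, hbP⟩ := Finset.mem_filter.1 hP
  rw [Finset.mem_powerset] at hPX
  have key : ∀ P', P' ⊆ P → G.bd P' = pt p + pt q → P' = P := fun P' h1 h2 =>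
    Finset.eq_of_subset_of_card_le h1
      (hmin P' (Finset.mem_filter.2 ⟨Finset.mem_powerset.2 (h1.trans hPX), h2⟩))
  refine ⟨P, hPX, hbP, ?_, ?_⟩
  · have h1 := key (P.filter fun e => G.Conn P p (G.s e)) (Finset.filter_subset _ _) (by
      funext v
      rw [comp G P p v]
      split_ifs with hv
      · rw [hbP]
      · have h2 : v ≠ p := fun h' => hv (h' ▸ G.conn_refl P v)
        have h3 : v ≠ q := fun h' => hv (h' ▸ ⟨P, Finset.Subset.refl _, h' ▸ hbP⟩)
        simp [pt, h2, h3])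
    intro e he
    rw [← h1] at he
    exact (Finset.mem_filter.1 he).2
  · intro Z hZ hb
    have h1 := key (P \ Z) Finset.sdiff_subset (by rw [bd_sdiff G hZ, hb, add_zero, hbP])
    have h2 : Disjoint P Z := Finset.sdiff_eq_self_iff_disjoint.1 h1
    exact Finset.disjoint_self_iff_empty Z |>.1 (Finset.disjoint_of_subset_left hZ h2)

end TorDetAux

open TorDetAux

/-- If some even set has `φ = 1`, then some even set of weight at most `7 m` has `φ = 1`. -/
theorem tor_one (G : Gr V E) (w : E → ℝ) (m : ℝ) (hm : 0 ≤ m)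
    (ha : ∀ X, G.bd X = 0 → 0 ≤ wt w X) (hb : ∀ r s X, G.bd X = pt r + pt s → -m ≤ wt w X)
    (hc : ∀ p q, ∃ X, G.bd X = pt p + pt q ∧ wt w X ≤ m) (hd : ∀ e, |w e| ≤ m)
    (φ : E → ZMod 2) (Γ : Finset E) (hΓ : G.bd Γ = 0) (h1 : ph φ Γ = 1) :
    ∃ C, G.bd C = 0 ∧ ph φ C = 1 ∧ wt w C ≤ 7 * m := by
  have hne : Γ.Nonempty := by
    rw [Finset.nonempty_iff_ne_empty]
    rintro rfl
    simp [ph] at h1
  obtain ⟨e0, -⟩ := hne
  set p := G.s e0
  have hP : ∀ q, ∃ P, G.bd P = pt p + pt q ∧ wt w P ≤ m ∧ (∀ e ∈ P, G.Conn P p (G.s e)) ∧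
      ∀ Z, Z ⊆ P → G.bd Z = 0 → Z = ∅ := by
    intro q
    obtain ⟨X, hX, hw⟩ := hc p q
    obtain ⟨P, hPX, hbP, h2, h3⟩ := minjoin G hX
    refine ⟨P, hbP, ?_, h2, h3⟩
    have h4 := ha (X \ P) (by rw [bd_sdiff G hPX, hX, hbP, fn_add_self])
    have h5 := wt_sdiff w hPX
    linarith
  choose P hP1 hP2 hP3 hP4 using hP
  have hex : ∃ e, φ e ≠ ph φ (P (G.s e)) + ph φ (P (G.t e)) := by
    by_contra hno
    push Not at hno
    have := cob G φ (fun y => ph φ (P y)) Γ fun e _ => hno e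
    rw [h1, hΓ] at this
    simp at this
  obtain ⟨e, he⟩ := hex
  have hbX : G.bd (P (G.s e) ∆ {e}) = pt p + pt (G.t e) := by
    rw [G.bd_symmDiff, hP1, G.bd_singleton]
    calc pt p + pt (G.s e) + (pt (G.s e) + pt (G.t e))
        = pt p + pt (G.t e) + (pt (G.s e) + pt (G.s e)) := by abel
      _ = _ := by rw [fn_add_self, add_zero]
  have hwX : wt w (P (G.s e) ∆ {e}) ≤ 2 * m := by
    rw [wt_symmDiff]
    have h2 := hP2 (G.s e)
    have h3 := abs_le.1 (hd e)
    have h4 : wt (sgn (P (G.s e)) w) {e} ≤ m := by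
      simp only [wt, Finset.sum_singleton, sgn]
      split_ifs <;> linarith [h3.1, h3.2]
    linarith
  obtain ⟨Y, A, r, s, hY, hdis, hA, hbY, hbA, hψ⟩ := ear G φ (K := P (G.t e)) (X := P (G.s e) ∆ {e})
    (A0 := P (G.t e)) (hP3 _) (fun Z hZ h0 => by rw [hP4 _ Z hZ h0]; simp [ph])
    (Finset.Subset.refl _) (by rw [hbX, hP1]) (by
      rw [ph_symmDiff]
      have h4 : ph φ {e} = φ e := by simp [ph]
      rw [h4]
      intro h
      apply he
      linear_combination h - z2 (ph φ (P (G.s e))) - z2 (ph φ (P (G.t e))))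
  have hYA : Disjoint Y A := Finset.disjoint_of_subset_right hA hdis
  refine ⟨Y ∪ A, by rw [G.bd_union hYA, hbY, hbA, fn_add_self], ?_, ?_⟩
  · rw [ph_union φ hYA]
    exact (z2_cases _).resolve_left hψ
  · have h2 := low4 G w m hm ha hb (X := (P (G.s e) ∆ {e}) \ Y) (by rw [bd_sdiff G hY, hbX, hbY])
    have h3 := low4 G w m hm ha hb (X := P (G.t e) \ A) (by rw [bd_sdiff G hA, hP1, hbA])
    have h4 := wt_sdiff w hY
    have h5 := wt_sdiff w hA
    have h6 := hP2 (G.t e)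
    rw [wt_union w hYA]
    linarith

/-- Two independent cochains: every class contains an even set of weight at most `16 m`. -/
theorem tor_two (G : Gr V E) (w : E → ℝ) (m : ℝ) (hm : 0 ≤ m)
    (ha : ∀ X, G.bd X = 0 → 0 ≤ wt w X) (hb : ∀ r s X, G.bd X = pt r + pt s → -m ≤ wt w X)
    (hc : ∀ p q, ∃ X, G.bd X = pt p + pt q ∧ wt w X ≤ m) (hd : ∀ e, |w e| ≤ m)
    (φ1 φ2 : E → ZMod 2) (Γ1 Γ2 : Finset E) (hΓ1 : G.bd Γ1 = 0) (hΓ2 : G.bd Γ2 = 0)
    (h11 : ph φ1 Γ1 = 1) (h21 : ph φ2 Γ1 = 0) (h12 : ph φ1 Γ2 = 0) (h22 : ph φ2 Γ2 = 1)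
    (c1 c2 : ZMod 2) :
    ∃ C, G.bd C = 0 ∧ ph φ1 C = c1 ∧ ph φ2 C = c2 ∧ wt w C ≤ 16 * m := by
  classical
  obtain ⟨C1, hb1, hp1, hw1⟩ := tor_one G w m hm ha hb hc hd φ1 Γ1 hΓ1 h11
  obtain ⟨K, hK, hmin⟩ := Finset.exists_min_image
    (C1.powerset.filter fun Z => G.bd Z = 0 ∧ ¬ (ph φ1 Z = 0 ∧ ph φ2 Z = 0)) Finset.card
    ⟨C1, by simp [hb1, hp1]⟩
  obtain ⟨hKC, hbK, hcl⟩ := Finset.mem_filter.1 hK
  rw [Finset.mem_powerset] at hKC
  have key : ∀ Z, Z ⊆ K → G.bd Z = 0 → Z = K ∨ Z = ∅ := by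
    intro Z hZ h0
    by_cases h : ph φ1 Z = 0 ∧ ph φ2 Z = 0
    · right
      have h1 : K \ Z = K := Finset.eq_of_subset_of_card_le Finset.sdiff_subset
        (hmin _ (Finset.mem_filter.2 ⟨Finset.mem_powerset.2 (Finset.sdiff_subset.trans hKC),
          by rw [bd_sdiff G hZ, hbK, h0, add_zero],
          by rw [ph_sdiff φ1 hZ, ph_sdiff φ2 hZ, h.1, h.2, add_zero, add_zero]; exact hcl⟩))
      have h2 : Disjoint K Z := Finset.sdiff_eq_self_iff_disjoint.1 h1
      exact Finset.disjoint_self_iff_empty Z |>.1 (Finset.disjoint_of_subset_left hZ h2)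
    · left
      exact Finset.eq_of_subset_of_card_le hZ
        (hmin _ (Finset.mem_filter.2 ⟨Finset.mem_powerset.2 (hZ.trans hKC), h0, h⟩))
  have hwK : wt w K ≤ 7 * m := by
    have h1 := ha (C1 \ K) (by rw [bd_sdiff G hKC, hb1, hbK, add_zero])
    have h2 := wt_sdiff w hKC
    linarith
  have hne : K.Nonempty := by
    rw [Finset.nonempty_iff_ne_empty]
    rintro rfl
    simp [ph] at hcl
  obtain ⟨e0, he0⟩ := hne
  have hconn : ∀ e ∈ K, G.Conn K (G.s e0) (G.s e) := by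
    rcases key (K.filter fun e => G.Conn K (G.s e0) (G.s e)) (Finset.filter_subset _ _) (by
      funext v
      rw [comp G K _ v, hbK]
      simp) with h | h
    · intro e he
      rw [← h] at he
      exact (Finset.mem_filter.1 he).2
    · have : e0 ∈ K.filter fun e => G.Conn K (G.s e0) (G.s e) :=
        Finset.mem_filter.2 ⟨he0, G.conn_refl _ _⟩
      rw [h] at this
      simp at this
  set d1 := ph φ1 K with hd1
  set d2 := ph φ2 K with hd2
  set ψ : E → ZMod 2 := fun e => d2 * φ1 e + d1 * φ2 e with hψ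
  have hph : ∀ Z, ph ψ Z = d2 * ph φ1 Z + d1 * ph φ2 Z := fun Z => by
    simp only [ph, hψ, Finset.sum_add_distrib, Finset.mul_sum]
  have hΓ : ∃ Γ, G.bd Γ = 0 ∧ ph ψ Γ = 1 := by
    rcases z2_cases d2 with h | h
    · rcases z2_cases d1 with h' | h'
      · exact absurd ⟨h', h⟩ hcl
      · exact ⟨Γ2, hΓ2, by rw [hph, h12, h22, h']; simp⟩
    · exact ⟨Γ1, hΓ1, by rw [hph, h11, h21, h]; simp⟩
  obtain ⟨Γ, hΓ0, hΓ1'⟩ := hΓ
  obtain ⟨C2, hb2, hp2, hw2⟩ := tor_one G w m hm ha hb hc hd ψ Γ hΓ0 hΓ1'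
  obtain ⟨Y, A, r, s, hY, hdis, hA, hbY, hbA, hne⟩ := ear G ψ (K := K) (X := C2) (A0 := ∅) hconn
    (fun Z hZ h0 => by
      rcases key Z hZ h0 with h | h
      · rw [h, hph, ← hd1, ← hd2]
        linear_combination z2 (d1 * d2)
      · rw [h]
        simp [ph]) (Finset.empty_subset _) (by rw [hb2, G.bd_empty]) (by rw [hp2]; simp [ph])
  have hYA : Disjoint Y A := Finset.disjoint_of_subset_right hA hdis
  have hYB : Disjoint Y (K \ A) := Finset.disjoint_of_subset_right Finset.sdiff_subset hdis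
  have hbB : G.bd (K \ A) = pt r + pt s := by rw [bd_sdiff G hA, hbK, hbA, zero_add]
  have e1 := hb r s (C2 \ Y) (by rw [bd_sdiff G hY, hb2, hbY, zero_add])
  have e2 := hb r s _ hbA
  have e3 := hb r s _ hbB
  have e4 := wt_sdiff w hY
  have e5 := wt_sdiff w hA
  rw [← ph_union ψ hYA, hph] at hne
  have hcase : ∀ a1 a2 x1 x2 b1 b2 : ZMod 2, ¬ (a1 = 0 ∧ a2 = 0) → a2 * x1 + a1 * x2 ≠ 0 →
      (0 = b1 ∧ 0 = b2) ∨ (a1 = b1 ∧ a2 = b2) ∨ (x1 = b1 ∧ x2 = b2) ∨
        (x1 + a1 = b1 ∧ x2 + a2 = b2) := by decide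
  rcases hcase d1 d2 _ _ c1 c2 hcl hne with h | h | h | h
  · exact ⟨∅, G.bd_empty, by simpa [ph] using h.1, by simpa [ph] using h.2, by
      simp only [wt, Finset.sum_empty]; linarith⟩
  · exact ⟨K, hbK, h.1, h.2, by linarith⟩
  · exact ⟨Y ∪ A, by rw [G.bd_union hYA, hbY, hbA, fn_add_self], h.1, h.2, by
      rw [wt_union w hYA]; linarith⟩
  · refine ⟨Y ∪ (K \ A), by rw [G.bd_union hYB, hbY, hbB, fn_add_self], ?_, ?_, by
      rw [wt_union w hYB]; linarith⟩
    · rw [← h.1, ph_union φ1 hYB, ph_union φ1 hYA, ph_sdiff φ1 hA]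
      ring
    · rw [← h.2, ph_union φ2 hYB, ph_union φ2 hYA, ph_sdiff φ2 hA]
      ring

theorem nu_le (G : Gr V E) (s : E → ℝ) (S : Finset E) : G.nu s (G.bd S) ≤ wt s S :=
  ciInf_le (f := fun P : {P : Finset E // G.bd P = G.bd S} => wt s P.1)
    (Set.finite_range _).bddBelow ⟨S, rfl⟩

theorem nu_attained (G : Gr V E) (s : E → ℝ) {B : V → ZMod 2} (h : ∃ S, G.bd S = B) :
    ∃ S, G.bd S = B ∧ wt s S = G.nu s B := by
  obtain ⟨S0, h0⟩ := h
  have : Nonempty {P : Finset E // G.bd P = B} := ⟨⟨S0, h0⟩⟩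
  obtain ⟨S, hS⟩ := exists_eq_ciInf_of_finite (f := fun P : {P : Finset E // G.bd P = B} => wt s P.1)
  exact ⟨S.1, S.2, hS⟩

/-- Signed weights `s`: if all pair creation costs and all weights are at most `m` in absolute value,
every class contains an even set within `16 m` of the optimum. -/
theorem tor_nu (G : Gr V E) (hG : G.Cnd) (s : E → ℝ) (m : ℝ) (hm : 0 ≤ m)
    (hπ : ∀ r q, |G.nu s (pt r + pt q) - G.nu s 0| ≤ m) (hd : ∀ e, |s e| ≤ m)
    (φ1 φ2 : E → ZMod 2) (Γ1 Γ2 : Finset E) (hΓ1 : G.bd Γ1 = 0) (hΓ2 : G.bd Γ2 = 0)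
    (h11 : ph φ1 Γ1 = 1) (h21 : ph φ2 Γ1 = 0) (h12 : ph φ1 Γ2 = 0) (h22 : ph φ2 Γ2 = 1)
    (c1 c2 : ZMod 2) :
    ∃ S, G.bd S = 0 ∧ ph φ1 S = c1 ∧ ph φ2 S = c2 ∧ wt s S ≤ G.nu s 0 + 16 * m := by
  obtain ⟨S0, hS0, hw0⟩ := nu_attained G s (B := 0) ⟨∅, G.bd_empty⟩
  have hlow : ∀ X, G.nu s (G.bd X) - G.nu s 0 ≤ wt (sgn S0 s) X := by
    intro X
    have h1 := nu_le G s (S0 ∆ X)
    rw [G.bd_symmDiff, hS0, zero_add, wt_symmDiff, hw0] at h1
    linarith
  obtain ⟨C, hC, h1, h2, h3⟩ := tor_two G (sgn S0 s) m hm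
    (fun X hX => by simpa [hX] using hlow X)
    (fun r q X hX => by
      have h1 := hlow X
      rw [hX] at h1
      linarith [(abs_le.1 (hπ r q)).1])
    (fun p q => by
      obtain ⟨P, -, hP⟩ := hG p q
      obtain ⟨S, hS, hw⟩ := nu_attained G s ⟨P, hP⟩
      refine ⟨S0 ∆ S, by rw [G.bd_symmDiff, hS0, zero_add, hS], ?_⟩
      have h1 := wt_symmDiff s S0 (S0 ∆ S)
      rw [symmDiff_symmDiff_cancel_left, hw, hw0] at h1
      linarith [(abs_le.1 (hπ p q)).2])
    (fun e => by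
      simp only [sgn]
      split_ifs
      · rw [abs_neg]
        exact hd e
      · exact hd e)
    φ1 φ2 Γ1 Γ2 hΓ1 hΓ2 h11 h21 h12 h22 (c1 + ph φ1 S0) (c2 + ph φ2 S0)
  refine ⟨S0 ∆ C, by rw [G.bd_symmDiff, hS0, hC, add_zero], ?_, ?_, ?_⟩
  · rw [ph_symmDiff, h1]
    linear_combination z2 (ph φ1 S0)
  · rw [ph_symmDiff, h2]
    linear_combination z2 (ph φ2 S0)
  · rw [wt_symmDiff, hw0]
    linarith

end Pool.Agent.P.MP_81d17b_pr.St
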